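import Pool.Agent.RST.Run

/-!
# RST/Abs: absorbers `0^b R e`, `R` decreasing
-/

set_option autoImplicit false

namespace Pool.Agent.RST

open Finset

/-- the decreasing word with the amounts `r` of the letters `z, z + 1, ..` -/
def dec : ℕ → List ℕ → List ℕ
  | _, [] => []
  | z, a :: r => dec (z + 1) r ++ List.replicate a z

/-- the amount of the letter `m` -/
def xr (z : ℕ) (r : List ℕ) (m : ℕ) : ℕ := if z ≤ m then r.getD (m - z) 0 else 0

theorem xr_nil (z m : ℕ) : xr z [] m = 0 := by
  unfold xr
  split_ifs <;> simp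

theorem xr_cons (z a : ℕ) (r : List ℕ) (m : ℕ) :
    xr z (a :: r) m = if m = z then a else xr (z + 1) r m := by
  unfold xr
  rcases lt_trichotomy m z with h | h | h
  · rw [if_neg (by omega), if_neg (by omega), if_neg (by omega)]
  · subst h
    simp
  · rw [if_pos (by omega), if_neg (by omega), if_pos (by omega)]
    obtain ⟨k, hk⟩ := Nat.exists_eq_add_of_lt h
    rw [show m - z = k + 1 by omega, show m - (z + 1) = k by omega]
    simp

theorem xr_lt (z : ℕ) (r : List ℕ) (m : ℕ) (h : m < z) : xr z r m = 0 := by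
  unfold xr
  rw [if_neg (by omega)]

theorem xr_ge (z : ℕ) (r : List ℕ) (m : ℕ) (h : z + r.length ≤ m) : xr z r m = 0 := by
  unfold xr
  rw [if_pos (by omega), List.getD_eq_default _ _ (by omega)]

theorem count_dec (z : ℕ) (r : List ℕ) (m : ℕ) : (dec z r).count m = xr z r m := by
  induction r generalizing z with
  | nil => rw [dec, xr_nil]; rfl
  | cons a r ih =>
    rw [dec, List.count_append, ih, List.count_replicate, xr_cons]
    by_cases h : m = z
    · subst h
      rw [xr_lt _ _ _ (by omega)]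
      simp
    · have e1 : (z == m) = false := by
        simp only [beq_eq_false_iff_ne, ne_eq]
        exact fun h1 => h h1.symm
      rw [if_neg h, e1]
      simp

theorem dec_ge (z : ℕ) (r : List ℕ) : ∀ x ∈ dec z r, z ≤ x := by
  intro x hx
  by_contra hcon
  have h1 := count_dec z r x
  rw [xr_lt z r x (by omega), List.count_eq_zero] at h1
  exact h1 hx

theorem dec_le (z : ℕ) (r : List ℕ) : ∀ x ∈ dec z r, x < z + r.length := by
  intro x hx
  by_contra hcon
  have h1 := count_dec z r x
  rw [xr_ge z r x (by omega), List.count_eq_zero] at h1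
  exact h1 hx

private theorem adjS_rep (f : ℕ → ℕ → ℤ) (n j : ℕ) :
    adjS f (List.replicate (n + 1) j) = n * f j j := by
  induction n with
  | zero => simp [adjS]
  | succ n ih =>
    rw [List.replicate_succ, List.replicate_succ, adjS, ← List.replicate_succ, ih]
    push_cast
    ring

theorem adjS_dec (f : ℕ → ℕ → ℤ) (z a : ℕ) (r : List ℕ) (e : ℕ) (ha : 1 ≤ a) :
    adjS f (dec z (a :: r) ++ [e]) = adjS f (dec (z + 1) r ++ [z]) + (a - 1) * f z z + f z e := by
  obtain ⟨n, hn⟩ : ∃ n, a = n + 1 := ⟨a - 1, by omega⟩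
  subst hn
  have h1 : dec z ((n + 1) :: r) ++ [e] = dec (z + 1) r ++ z :: (List.replicate n z ++ [e]) := by
    rw [dec, List.replicate_succ]
    simp
  have h2 : z :: (List.replicate n z ++ [e]) = List.replicate n z ++ z :: [e] := by
    have : z :: List.replicate n z = List.replicate n z ++ [z] := by
      rw [← List.replicate_succ, List.replicate_succ']
    rw [← List.cons_append, this, List.append_assoc]
    rfl
  rw [h1, adjS_append, h2, adjS_append f (List.replicate n z) [e] z]
  have h4 : List.replicate n z ++ [z] = List.replicate (n + 1) z := by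
    rw [List.replicate_succ']
  rw [h4, adjS_rep]
  simp only [adjS]
  push_cast
  ring

theorem adjS_inner (m ρ z : ℕ) (r : List ℕ) (hr : ∀ a ∈ r, 1 ≤ a) :
    adjS (gg m ρ) (dec (z + 1) r ++ [z]) =
      if ρ < m then 0
      else if ρ = m then (if z + 1 ≤ m ∧ m < z + 1 + r.length then 1 else 0) -
        (if z + 1 ≤ m + 1 ∧ m + 1 < z + 1 + r.length then 1 else 0)
      else (xr (z + 1) r m : ℤ) - xr (z + 1) r (m + 1) := by
  induction r generalizing z with
  | nil =>
    rw [dec, xr_nil, xr_nil]
    have h1 : adjS (gg m ρ) ([] ++ [z]) = 0 := rfl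
    rw [h1, List.length_nil]
    split_ifs <;> first | rfl | omega
  | cons a r ih =>
    have ha : 1 ≤ a := hr a (by simp)
    rw [adjS_dec _ _ _ _ _ ha, ih (z + 1) (fun b hb => hr b (by simp [hb])), gg_flat, gg_down,
      List.length_cons, xr_cons, xr_cons]
    have e0 : ∀ k, k < z + 1 + 1 → xr (z + 1 + 1) r k = 0 := fun k hk => xr_lt _ _ _ hk
    rcases lt_trichotomy ρ m with h | h | h
    · rw [if_pos h, if_pos h, if_pos h, if_pos (by omega)]
      ring
    · subst h
      simp only [lt_irrefl, if_false, if_true, le_refl]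
      split_ifs <;> omega
    · simp only [if_neg (show ¬ ρ < m by omega), if_neg (show ¬ ρ = m by omega),
        if_neg (show ¬ ρ ≤ m by omega)]
      rcases lt_trichotomy (m + 1) (z + 1) with g | g | g
      · rw [e0 m (by omega), e0 (m + 1) (by omega)]
        split_ifs <;> omega
      · rw [e0 m (by omega), e0 (m + 1) (by omega)]
        split_ifs <;> omega
      · rcases Nat.eq_or_lt_of_le (show z + 1 ≤ m by omega) with g1 | g1
        · rw [e0 m (by omega)]
          split_ifs <;> omega
        · split_ifs <;> omega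

/-- the bound for the part `R` of an absorber -/
def pm (z n : ℕ) (x : ℕ → ℕ) (e m ρ : ℕ) : ℤ :=
  if ρ < m then -(if z = m + 1 then 1 else 0)
  else if ρ = m then (if z ≤ m ∧ m + 1 = z + n then 1 else 0) - (if m = z ∧ e = z then 1 else 0) -
    (if z = m + 1 then 1 else 0)
  else (x m : ℤ) - x (m + 1)

theorem adjS_outer (m ρ z : ℕ) (r : List ℕ) (e : ℕ) (hr : ∀ a ∈ r, 1 ≤ a) (hne : r ≠ [])
    (he : e ≤ z) : pm z r.length (xr z r) e m ρ ≤ adjS (gg m ρ) (dec z r ++ [e]) := by
  cases r with
  | nil => exact absurd rfl hne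
  | cons a r =>
    have ha : 1 ≤ a := hr a (by simp)
    rw [adjS_dec _ _ _ _ _ ha, adjS_inner _ _ _ _ (fun b hb => hr b (by simp [hb]))]
    unfold pm
    rw [List.length_cons, xr_cons, xr_cons]
    have e0 : ∀ k, k < z + 1 → xr (z + 1) r k = 0 := fun k hk => xr_lt _ _ _ hk
    have hge : gg m ρ z e = if e < ρ then cc m z else if e = ρ then min (cc m z) 0 else 0 := rfl
    rcases lt_trichotomy ρ m with h | h | h
    · rw [if_pos h, if_pos h, gg_flat, if_pos (show ρ ≤ m by omega), hge]
      unfold cc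
      split_ifs <;> omega
    · subst h
      simp only [lt_irrefl, if_false, if_true, gg_flat, le_refl]
      rw [hge]
      unfold cc
      split_ifs <;> omega
    · simp only [if_neg (show ¬ ρ < m by omega), if_neg (show ¬ ρ = m by omega), gg_flat,
        if_neg (show ¬ ρ ≤ m by omega)]
      rw [hge]
      rcases lt_trichotomy (m + 1) z with g | g | g
      · rw [e0 m (by omega), e0 (m + 1) (by omega)]
        unfold cc
        split_ifs <;> omega
      · rw [e0 m (by omega), e0 (m + 1) (by omega)]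
        unfold cc
        split_ifs <;> omega
      · rcases Nat.eq_or_lt_of_le (show z ≤ m by omega) with g1 | g1
        · rw [e0 m (by omega)]
          unfold cc
          split_ifs <;> omega
        · unfold cc
          split_ifs <;> omega

/-- the absorber -/
def ab (b z : ℕ) (r : List ℕ) (e : ℕ) : List ℕ := rwd b (dec z r) e

/-- bound for the absorber, regions `≥ 1`, letters `m ≥ 1` -/
theorem ab_D (y b z : ℕ) (r : List ℕ) (e m ρ : ℕ) (κ : Lex (ℕ → ℤ)) (hκ : ofLex κ 0 = (ρ : ℤ))
    (hb : 1 ≤ b) (hm : 1 ≤ m) (hρ : 1 ≤ ρ) (hr : ∀ a ∈ r, 1 ≤ a) (hne : r ≠ []) (he : e ≤ z) :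
    cc m e + pm z r.length (xr z r) e m ρ ≤ D y (ab b z r e) m κ := by
  have h1 := rwd_D_reg y b (dec z r) e m ρ κ hκ hb hm hρ
  have h2 := adjS_outer m ρ z r e hr hne he
  unfold ab
  linarith

/-- bound for a single, regions `≥ 1`, letters `m ≥ 1` -/
theorem st_D (y b : ℕ) (e m ρ : ℕ) (κ : Lex (ℕ → ℤ)) (hκ : ofLex κ 0 = (ρ : ℤ))
    (hb : 1 ≤ b) (hm : 1 ≤ m) (hρ : 1 ≤ ρ) :
    cc m e ≤ D y (rwd b [] e) m κ := by
  have h1 := rwd_D_reg y b [] e m ρ κ hκ hb hm hρ
  have h2 : adjS (gg m ρ) ([] ++ [e]) = 0 := rfl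
  rw [h2, add_zero] at h1
  exact h1

end Pool.Agent.RST
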