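import Pool.Agent.RST.Words

/-!
# RST/Adj: sums over adjacent letters and the general lower bound for `D`
-/

set_option autoImplicit false

namespace Pool.Agent.RST

open Finset

/-- the sum of `f` over the pairs of adjacent letters of a list -/
def adjS (f : ℕ → ℕ → ℤ) : List ℕ → ℤ
  | [] => 0
  | [_] => 0
  | x :: z :: L => f x z + adjS f (z :: L)

theorem adjS_append (f : ℕ → ℕ → ℤ) (A B : List ℕ) (x : ℕ) :
    adjS f (A ++ x :: B) = adjS f (A ++ [x]) + adjS f (x :: B) := by
  induction A with
  | nil => simp [adjS]
  | cons a A ih =>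
    cases A with
    | nil => simp [adjS]
    | cons b A =>
      simp only [List.cons_append] at ih ⊢
      simp only [adjS]
      rw [ih]
      ring

theorem adjS_eq_sum (f : ℕ → ℕ → ℤ) (L : List ℕ) :
    adjS f L = ∑ t ∈ range (L.length - 1), f (L.getD t 0) (L.getD (t + 1) 0) := by
  induction L with
  | nil => simp [adjS]
  | cons x L ih =>
    cases L with
    | nil => simp [adjS]
    | cons z L =>
      rw [adjS, ih]
      have h1 : (x :: z :: L).length - 1 = ((z :: L).length - 1) + 1 := by simp
      rw [h1, sum_range_succ']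
      simp only [List.getD_cons_succ, List.getD_cons_zero]
      ring

/-- the value of a word at the start -/
def hd (w : List ℕ) : ℕ := w.getD 0 0

theorem sum_lt_eq_adjS (f : ℕ → ℕ → ℤ) (w : List ℕ) :
    ∑ t ∈ range w.length, f (lt w t) (lt w (t + 1)) = adjS f (w ++ [hd w]) := by
  rw [adjS_eq_sum]
  have h1 : (w ++ [hd w]).length - 1 = w.length := by simp
  rw [h1]
  apply sum_congr rfl
  intro t ht
  rw [mem_range] at ht
  have h2 : (w ++ [hd w]).getD t 0 = lt w t := by
    unfold lt
    rw [Nat.mod_eq_of_lt ht, List.getD_append _ _ _ _ ht]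
  have h3 : (w ++ [hd w]).getD (t + 1) 0 = lt w (t + 1) := by
    rcases Nat.lt_or_ge (t + 1) w.length with h4 | h4
    · unfold lt
      rw [Nat.mod_eq_of_lt h4, List.getD_append _ _ _ _ h4]
    · have h5 : t + 1 = w.length := by omega
      unfold lt
      rw [h5, Nat.mod_self, List.getD_append_right _ _ _ _ (le_refl _), Nat.sub_self]
      rfl
  rw [h2, h3]

/-- the weight of a letter for `D m` -/
def cc (m p : ℕ) : ℤ := (if p = m then 1 else 0) - (if p = m + 1 then 1 else 0)

private theorem sum_shift (F : ℕ → ℤ) (n : ℕ) (hF : ∀ t, F (t + n) = F t) :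
    ∑ t ∈ range n, F t = ∑ t ∈ range n, F (t + 1) := by
  cases n with
  | zero => simp
  | succ n =>
    rw [sum_range_succ', sum_range_succ (fun t => F (t + 1))]
    congr 1
    have := hF 0
    rw [zero_add] at this
    exact this.symm

open Classical in
/-- `D` in terms of the letter at `t` and the key at `t + 1` -/
theorem D_eq (y : ℕ) (w : List ℕ) (m : ℕ) (κ : Lex (ℕ → ℤ)) :
    D y w m κ = ∑ t ∈ range w.length, if key y w (t + 1) ≤ κ then cc m (lt w t) else 0 := by
  rcases Nat.eq_zero_or_pos w.length with h0 | h0
  · unfold D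
    rw [h0]
    simp
  have h1 : D y w m κ = ∑ t ∈ range w.length, if key y w t ≤ κ then cc m (pv w t) else 0 := by
    unfold D cc
    rfl
  rw [h1, sum_shift (fun t => if key y w t ≤ κ then cc m (pv w t) else 0) w.length]
  · apply sum_congr rfl
    intro t _
    have h2 : pv w (t + 1) = lt w t := by
      unfold pv
      rw [show t + 1 + (w.length - 1) = t + w.length by omega, lt_add_length]
    rw [h2]
  · intro t
    have h2 : key y w (t + w.length) = key y w t := by
      rw [← key_mod y w (t + w.length), Nat.add_mod_right, key_mod]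
    have h3 : pv w (t + w.length) = pv w t := by
      unfold pv
      rw [show t + w.length + (w.length - 1) = t + (w.length - 1) + w.length by ring,
        lt_add_length]
    simp only [h2, h3]

/-- the general lower bound for a pair of adjacent letters, in the region `ρ` -/
def gg (m ρ p q : ℕ) : ℤ := if q < ρ then cc m p else if q = ρ then min (cc m p) 0 else 0

open Classical in
theorem gg_le (y : ℕ) (w : List ℕ) (m ρ : ℕ) (κ : Lex (ℕ → ℤ)) (hκ : ofLex κ 0 = (ρ : ℤ))
    (t : ℕ) : gg m ρ (lt w t) (lt w (t + 1)) ≤
      if key y w (t + 1) ≤ κ then cc m (lt w t) else 0 := by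
  have h0 := key_zero y w (t + 1)
  unfold gg
  rcases lt_trichotomy (lt w (t + 1)) ρ with h | h | h
  · have h1 : key y w (t + 1) ≤ κ := by
      apply le_of_lt
      apply key_lt_of_zero
      rw [h0, hκ]
      exact_mod_cast h
    rw [if_pos h, if_pos h1]
  · rw [if_neg (by omega), if_pos h]
    split_ifs
    · exact min_le_left _ _
    · exact min_le_right _ _
  · have h1 : ¬ key y w (t + 1) ≤ κ := by
      intro h2
      have h3 := key_le_zero _ _ h2
      rw [h0, hκ] at h3
      have h4 : lt w (t + 1) ≤ ρ := by exact_mod_cast h3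
      omega
    rw [if_neg (by omega), if_neg (by omega), if_neg h1]

/-- **General lower bound.** -/
theorem D_ge (y : ℕ) (w : List ℕ) (m ρ : ℕ) (κ : Lex (ℕ → ℤ)) (hκ : ofLex κ 0 = (ρ : ℤ)) :
    adjS (gg m ρ) (w ++ [hd w]) ≤ D y w m κ := by
  classical
  rw [D_eq, ← sum_lt_eq_adjS]
  exact sum_le_sum fun t _ => gg_le y w m ρ κ hκ t

open Classical in
/-- General lower bound with an additional 1 from two positions. -/
theorem D_ge_one (y : ℕ) (w : List ℕ) (m ρ : ℕ) (κ : Lex (ℕ → ℤ)) (hκ : ofLex κ 0 = (ρ : ℤ))
    (s e : ℕ) (hs : s < w.length) (he : e < w.length) (hse : s ≠ e)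
    (h : gg m ρ (lt w s) (lt w (s + 1)) + gg m ρ (lt w e) (lt w (e + 1)) + 1 ≤
      (if key y w (s + 1) ≤ κ then cc m (lt w s) else 0) +
      (if key y w (e + 1) ≤ κ then cc m (lt w e) else 0)) :
    adjS (gg m ρ) (w ++ [hd w]) + 1 ≤ D y w m κ := by
  rw [D_eq, ← sum_lt_eq_adjS]
  have hs' : s ∈ range w.length := mem_range.2 hs
  have he' : e ∈ (range w.length).erase s := mem_erase.2 ⟨hse.symm, mem_range.2 he⟩
  rw [← add_sum_erase _ _ hs', ← add_sum_erase _ _ he', ← add_sum_erase _ _ hs',
    ← add_sum_erase _ _ he']
  have h1 : ∑ t ∈ ((range w.length).erase s).erase e, gg m ρ (lt w t) (lt w (t + 1)) ≤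
      ∑ t ∈ ((range w.length).erase s).erase e,
        (if key y w (t + 1) ≤ κ then cc m (lt w t) else 0) :=
    sum_le_sum fun t _ => gg_le y w m ρ κ hκ t
  linarith

/-- `D` does not change under rotations -/
theorem D_rotate (y : ℕ) (R S : List ℕ) (m : ℕ) (κ : Lex (ℕ → ℤ)) :
    D y (R ++ S) m κ = D y (S ++ R) m κ := by
  classical
  have hlen : (S ++ R).length = (R ++ S).length := by
    rw [List.length_append, List.length_append, add_comm]
  rcases Nat.eq_zero_or_pos (R ++ S).length with h0 | h0
  · rw [D_eq, D_eq, hlen, h0]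
    simp
  have hl : ∀ t, lt (S ++ R) t = lt (R ++ S) (t + R.length) := by
    intro t
    unfold lt
    rw [hlen]
    set n := (R ++ S).length with hn
    have hn' : n = R.length + S.length := by rw [hn, List.length_append]
    have ht : t % n < n := Nat.mod_lt _ h0
    have h1 : (t + R.length) % n = (t % n + R.length) % n := by rw [Nat.mod_add_mod]
    rw [h1]
    rcases Nat.lt_or_ge (t % n) S.length with h2 | h2
    · have h3 : (t % n + R.length) % n = t % n + R.length := Nat.mod_eq_of_lt (by omega)
      rw [List.getD_append _ _ _ _ h2, h3, List.getD_append_right _ _ _ _ (by omega)]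
      congr 1
      omega
    · rw [List.getD_append_right _ _ _ _ h2]
      have h3 : (t % n + R.length) % n = t % n - S.length := by
        rw [show t % n + R.length = (t % n - S.length) + n by omega, Nat.add_mod_right,
          Nat.mod_eq_of_lt (by omega)]
      rw [h3, List.getD_append _ _ _ _ (by omega)]
  have hk : ∀ t, key y (S ++ R) t = key y (R ++ S) (t + R.length) := by
    intro t
    unfold key sg
    congr 1
    funext s
    rw [hl]
    rw [show t + s + R.length = t + R.length + s by ring]
    congr 1
    apply prod_congr rfl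
    intro i _
    rw [hl, show t + i + R.length = t + R.length + i by ring]
  rw [D_eq, D_eq, hlen]
  set n := (R ++ S).length with hn
  have hshift : ∀ k, ∑ t ∈ range n, (if key y (R ++ S) (t + k + 1) ≤ κ then
      cc m (lt (R ++ S) (t + k)) else 0) =
      ∑ t ∈ range n, (if key y (R ++ S) (t + 1) ≤ κ then cc m (lt (R ++ S) t) else 0) := by
    intro k
    induction k with
    | zero => rfl
    | succ k ih =>
      rw [← ih]
      rw [sum_shift (fun t => if key y (R ++ S) (t + k + 1) ≤ κ then
        cc m (lt (R ++ S) (t + k)) else 0) n]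
      · apply sum_congr rfl
        intro t _
        rw [show t + (k + 1) + 1 = t + 1 + k + 1 by ring, show t + (k + 1) = t + 1 + k by ring]
      · intro t
        have e1 : key y (R ++ S) (t + n + k + 1) = key y (R ++ S) (t + k + 1) := by
          rw [← key_mod y (R ++ S) (t + n + k + 1), ← hn,
            show t + n + k + 1 = t + k + 1 + n by ring, Nat.add_mod_right, hn, key_mod]
        have e2 : lt (R ++ S) (t + n + k) = lt (R ++ S) (t + k) := by
          rw [show t + n + k = t + k + n by ring, hn, lt_add_length]
        simp only [e1, e2]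
  rw [← hshift R.length]
  apply sum_congr rfl
  intro t _
  rw [hk, hl]
  rw [show t + 1 + R.length = t + R.length + 1 by ring]

end Pool.Agent.RST
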