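import Mathlib

/-!
# RST/Arith: sums over sets of distinct parts
-/

set_option autoImplicit false

namespace Pool.Agent.RST

open Finset

theorem card_mul_le {R : Finset ℕ} {b : ℕ} (h : ∀ t ∈ R, b ≤ t) : b * R.card ≤ ∑ t ∈ R, t := by
  have := Finset.card_nsmul_le_sum R (fun t => t) b h
  rw [smul_eq_mul, mul_comm] at this
  exact this

theorem sum_four {R : Finset ℕ} (h : ∀ t ∈ R, 3 ≤ t) : 4 * R.card ≤ ∑ t ∈ R, t + 1 := by
  by_cases h3 : 3 ∈ R
  · have h1 : ∑ t ∈ R, t = 3 + ∑ t ∈ R.erase 3, t := (add_sum_erase R (fun t => t) h3).symm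
    have h2 : R.card = (R.erase 3).card + 1 := by
      rw [card_erase_of_mem h3]
      have : 0 < R.card := card_pos.2 ⟨3, h3⟩
      omega
    have h4 : 4 * (R.erase 3).card ≤ ∑ t ∈ R.erase 3, t := card_mul_le fun t ht => by
      rw [mem_erase] at ht
      have := h t ht.2
      omega
    omega
  · have h4 : 4 * R.card ≤ ∑ t ∈ R, t := card_mul_le fun t ht => by
      have h5 := h t ht
      rcases Nat.lt_or_ge 3 t with h6 | h6
      · exact h6
      · exfalso
        have : t = 3 := by omega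
        exact h3 (this ▸ ht)
    omega

theorem sum_one {S : Finset ℕ} {b t0 : ℕ} (h : ∀ t ∈ S, 3 ≤ t) (ht : t0 ∈ S) (hb : b ≤ t0) :
    4 * S.card + b ≤ ∑ t ∈ S, t + 5 := by
  have h1 : ∑ t ∈ S, t = t0 + ∑ t ∈ S.erase t0, t := (add_sum_erase S (fun t => t) ht).symm
  have h2 : S.card = (S.erase t0).card + 1 := by
    rw [card_erase_of_mem ht]
    have : 0 < S.card := card_pos.2 ⟨t0, ht⟩
    omega
  have h3 := sum_four (R := S.erase t0) fun t h' => h t (mem_of_mem_erase h')
  omega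

theorem two_split {S : Finset ℕ} {a s0 : ℕ} (ha : a ∈ S) (hs : s0 ∈ S) (hlt : a < s0) :
    ∑ t ∈ S, t = a + s0 + ∑ t ∈ (S.erase a).erase s0, t ∧
      S.card = ((S.erase a).erase s0).card + 2 := by
  have hs' : s0 ∈ S.erase a := mem_erase.2 ⟨by omega, hs⟩
  have h1 : ∑ t ∈ S, t = a + ∑ t ∈ S.erase a, t := (add_sum_erase S (fun t => t) ha).symm
  have h2 : ∑ t ∈ S.erase a, t = s0 + ∑ t ∈ (S.erase a).erase s0, t :=
    (add_sum_erase (S.erase a) (fun t => t) hs').symm
  have h3 : (S.erase a).card = S.card - 1 := card_erase_of_mem ha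
  have h4 : ((S.erase a).erase s0).card = (S.erase a).card - 1 := card_erase_of_mem hs'
  have h5 : 0 < S.card := card_pos.2 ⟨a, ha⟩
  have h6 : 0 < (S.erase a).card := card_pos.2 ⟨s0, hs'⟩
  exact ⟨by omega, by omega⟩

theorem sum_two {S : Finset ℕ} {a s0 : ℕ} (h : ∀ t ∈ S, 3 ≤ t) (ha : a ∈ S) (hs : s0 ∈ S)
    (hlt : a < s0) : 3 * S.card + 2 * a ≤ ∑ t ∈ S, t + 5 := by
  obtain ⟨h1, h2⟩ := two_split ha hs hlt
  have h3 : 3 * ((S.erase a).erase s0).card ≤ ∑ t ∈ (S.erase a).erase s0, t :=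
    card_mul_le fun t ht => h t (mem_of_mem_erase (mem_of_mem_erase ht))
  omega

theorem sum_two' {S : Finset ℕ} {a s0 : ℕ} (h : ∀ t ∈ S, 3 ≤ t) (ha : a ∈ S) (hs : s0 ∈ S)
    (hlt : a < s0) : 4 * S.card + 2 * a ≤ ∑ t ∈ S, t + 8 := by
  obtain ⟨h1, h2⟩ := two_split ha hs hlt
  have h3 := sum_four (R := (S.erase a).erase s0) fun t ht =>
    h t (mem_of_mem_erase (mem_of_mem_erase ht))
  omega

/-- distribution of a total between given bounds -/
theorem exists_dist (T : Finset ℕ) (lo hi : ℕ → ℕ) (h : ∀ t ∈ T, lo t ≤ hi t) (n : ℕ)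
    (h1 : ∑ t ∈ T, lo t ≤ n) (h2 : n ≤ ∑ t ∈ T, hi t) :
    ∃ b : ℕ → ℕ, (∀ t ∈ T, lo t ≤ b t ∧ b t ≤ hi t) ∧ ∑ t ∈ T, b t = n := by
  classical
  induction T using Finset.induction_on generalizing n with
  | empty =>
    simp only [sum_empty] at h1 h2
    exact ⟨fun _ => 0, by simp, by simp; omega⟩
  | insert a T ha ih =>
    rw [sum_insert ha] at h1 h2
    have h3 : ∑ t ∈ T, lo t ≤ ∑ t ∈ T, hi t :=
      sum_le_sum fun t ht => h t (mem_insert_of_mem ht)
    have h4 := h a (mem_insert_self a T)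
    -- the value at `a`
    set v := min (hi a) (n - ∑ t ∈ T, lo t) with hv
    have hv1 : lo a ≤ v := by omega
    have hv2 : v ≤ hi a := by omega
    have hv3 : ∑ t ∈ T, lo t ≤ n - v := by omega
    have hv4 : n - v ≤ ∑ t ∈ T, hi t := by omega
    obtain ⟨b, hb1, hb2⟩ := ih (fun t ht => h t (mem_insert_of_mem ht)) (n - v) hv3 hv4
    refine ⟨fun t => if t = a then v else b t, ?_, ?_⟩
    · intro t ht
      rw [mem_insert] at ht
      by_cases hta : t = a
      · simp only [hta, if_true]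
        exact ⟨hv1, hv2⟩
      · simp only [hta, if_false]
        exact hb1 t (ht.resolve_left hta)
    · rw [sum_insert ha]
      simp only [if_true]
      have h5 : ∑ t ∈ T, (if t = a then v else b t) = ∑ t ∈ T, b t := by
        apply sum_congr rfl
        intro t ht
        rw [if_neg]
        intro hta
        exact ha (hta ▸ ht)
      rw [h5, hb2]
      omega

/-- a subset with given size containing `3` if possible -/
theorem exists_sub (S : Finset ℕ) (k : ℕ) (hk : k ≤ S.card) (h1 : 1 ≤ k) :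
    ∃ U ⊆ S, U.card = k ∧ (3 ∈ S → 3 ∈ U) := by
  classical
  by_cases h3 : 3 ∈ S
  · obtain ⟨U, hU, hc⟩ := exists_subset_card_eq (s := S.erase 3) (n := k - 1) (by
      rw [card_erase_of_mem h3]
      omega)
    refine ⟨insert 3 U, ?_, ?_, fun _ => mem_insert_self 3 U⟩
    · intro t ht
      rw [mem_insert] at ht
      rcases ht with rfl | ht
      · exact h3
      · exact mem_of_mem_erase (hU ht)
    · rw [card_insert_of_notMem, hc]
      · omega
      · intro h
        exact (mem_erase.1 (hU h)).1 rfl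
  · obtain ⟨U, hU, hc⟩ := exists_subset_card_eq hk
    exact ⟨U, hU, hc, fun h => absurd h h3⟩

/-- the sum of `1` on `U`, `2` outside -/
theorem sum_one_two (S U : Finset ℕ) (hU : U ⊆ S) :
    ∑ t ∈ S, (if t ∈ U then 1 else 2) + U.card = 2 * S.card := by
  have h1 : ∑ t ∈ S, (if t ∈ U then 1 else 2) = ∑ t ∈ S, 2 - ∑ t ∈ S, (if t ∈ U then 1 else 0) := by
    rw [eq_tsub_iff_add_eq_of_le, ← sum_add_distrib]
    · apply sum_congr rfl
      intro t _
      split_ifs <;> rfl
    · apply sum_le_sum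
      intro t _
      split_ifs <;> norm_num
  have h2 : ∑ t ∈ S, (if t ∈ U then 1 else 0) = U.card := by
    rw [← card_filter]
    congr 1
    ext t
    rw [mem_filter]
    exact ⟨fun h => h.2, fun h => ⟨hU h, h⟩⟩
  have h3 : U.card ≤ S.card := card_le_card hU
  rw [h1, h2, sum_const, smul_eq_mul]
  omega

end Pool.Agent.RST
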