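import Pool.Agent.RST.Fst

/-!
# RST/Chn: the states of the chain, the steps
-/

set_option autoImplicit false

namespace Pool.Agent.RST

open Finset

/-- state without tail cells: the last nonempty column is `m < y` -/
structure StC (y τ : ℕ) (C : ℕ → ℕ) (al : Finset ℕ) (P : List Mt) (S : Finset ℕ) (x : ℕ → ℕ)
    (m p g : ℕ) : Prop extends St y τ C al P S x m p g where
  mlt : m < y
  full : ∀ j, 1 ≤ j → j + 2 ≤ m → x j = C j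
  c1 : 2 ≤ m → C (m - 1) = x (m - 1) + 2 * p
  le : 2 ≤ m → x m ≤ x (m - 1)
  p2 : 2 ≤ m → 1 ≤ p → 2 ≤ x m
  pp : 2 ≤ m → ∀ t ∈ S, t = 3 ∨ p + 4 ≤ t
  f1 : m = 1 → x 1 = C 1 ∨
    (1 ≤ g ∧ ∃ w, 3 ≤ w ∧ C 1 + 3 ≤ x 1 + 2 * g + w ∧ ∀ t ∈ S, t = 3 ∨ w + 1 ≤ t)
  c3 : C 0 ≤ 3 → 3 ∉ S ∨ S.card = 1

/-- why the 3-cycle is still there -/
def Th (y : ℕ) (C : ℕ → ℕ) (P : List Mt) (S : Finset ℕ) (x : ℕ → ℕ) (m p : ℕ) : Prop :=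
  3 ∈ S → S.card = 1 ∨ (P = [] ∧ Ex y x ≤ S.card + 1) ∨
    (C y = 0 ∧ 3 ≤ C (y - 1) ∧ (2 ≤ m → 1 ≤ p → 2 * p + P.length + x m ≤ C m + 1) ∧
      p ≤ P.length ∧ (P.length ≤ p → m + 1 = y) ∧ (∀ t ∈ S, t = 3 ∨ P.length + 4 ≤ t) ∧
      (∀ w ∈ wdP P, 4 ≤ w.length ∧ ∀ t ∈ S, t = 3 ∨ w.length < t))

/-- state with tail cells -/
structure StT (y τ : ℕ) (C : ℕ → ℕ) (al : Finset ℕ) (P : List Mt) (S : Finset ℕ) (x : ℕ → ℕ)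
    (p : ℕ) : Prop extends St y τ C al P S x y p 0 where
  full : ∀ j, 1 ≤ j → j + 2 ≤ y → x j = C j
  c1 : C (y - 1) = x (y - 1) + p
  pl : P.length = p
  tl : (lnP P).sum + x y = C y + p
  x2 : 2 ≤ x (y - 1)
  pt : 4 ≤ C 0 → ∀ t ∈ S, p + 3 ≤ t

/-- the exceptional pairs -/
def Exc (y : ℕ) (C : ℕ → ℕ) (al : Finset ℕ) : Prop :=
  y = 2 ∧ C 2 = 0 ∧ ((al = {3, 2} ∧ C 0 = 3 ∧ C 1 = 2) ∨ (al = {4, 2} ∧ C 0 = 3 ∧ C 1 = 3) ∨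
    (al = {5, 3} ∧ C 0 = 4 ∧ C 1 = 4))

/-- the direct sum reductions (a consequence of the induction hypothesis for `y - 1`): the hook
`(C (y - 1), 1^s)` for the cycles `G` is split off -/
def DSR (y : ℕ) (C : ℕ → ℕ) (al : Finset ℕ) : Prop :=
  ∀ (G : Finset ℕ) (s : ℕ), G ⊆ al → ∑ a ∈ G, a = C (y - 1) + s → s ≤ C y →
    G.card + 1 ≤ C (y - 1) → G.card ≤ s + (if 2 ∈ G then 1 else 0) →
    (al \ G).card ≤ (if 2 ∈ al \ G then 1 else 0) + (∑ j ∈ Icc 1 (y - 2), C j) + (C y - s) →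
    (al \ G).card + y ≤ ∑ j ∈ range (y - 1), C j + 1 →
    ¬ Exc (y - 1) (fun j => if j < y - 1 then C j else C y - s) (al \ G) →
    Goal y C al

/-- the main theorem for shapes with `y` columns of height at least 2 and `C y` columns of
height 1 -/
def MainAt (y : ℕ) : Prop :=
  ∀ (C : ℕ → ℕ) (al : Finset ℕ), (∀ i j, i ≤ j → j < y → C j ≤ C i) → (∀ j, j < y → 2 ≤ C j) →
    al.Nonempty → (∀ a ∈ al, 2 ≤ a) → ∑ a ∈ al, a = ∑ j ∈ range (y + 1), C j →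
    al.card ≤ (if 2 ∈ al then 1 else 0) + ∑ j ∈ Icc 1 y, C j →
    al.card + y ≤ ∑ j ∈ range y, C j → ¬ Exc y C al → Goal y C al

end Pool.Agent.RST
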