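import Pool.Agent.RST.Dec

/-!
# RST/Spor: the sporadic pairs (cycle type, column lengths)
-/

set_option autoImplicit false

namespace Pool.Agent.RST

/-! ## pairs realised by systems of words -/

theorem spor_532_442 : Real {5, 3, 2} [4, 4, 2] :=
  real_dec 3 [[0, 0, 1, 1, 1], [1, 2, 2], [0, 0]] 8 (by decide +kernel)

theorem spor_532_55 : Real {5, 3, 2} [5, 5] :=
  real_dec 2 [[0, 1, 1, 1, 1], [0, 0, 1], [0, 0]] 8 (by decide +kernel)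

theorem spor_732_66 : Real {7, 3, 2} [6, 6] :=
  real_dec 2 [[0, 0, 1, 1, 1, 1, 1], [0, 0, 1], [0, 0]] 8 (by decide +kernel)

theorem spor_543_66 : Real {5, 4, 3} [6, 6] :=
  real_dec 2 [[0, 0, 1, 1, 1], [0, 0, 1, 1], [0, 0, 1]] 8 (by decide +kernel)

theorem spor_5432_77 : Real {5, 4, 3, 2} [7, 7] :=
  real_dec 2 [[0, 1, 1, 1, 1], [0, 0, 1, 1], [0, 0, 1], [0, 0]] 8 (by decide +kernel)

theorem spor_7432_88 : Real {7, 4, 3, 2} [8, 8] :=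
  real_dec 2 [[0, 0, 1, 1, 1, 1, 1], [0, 0, 1, 1], [0, 0, 1], [0, 0]] 8 (by decide +kernel)

theorem spor_6532_88 : Real {6, 5, 3, 2} [8, 8] :=
  real_dec 2 [[0, 1, 1, 1, 1, 1], [0, 0, 0, 1, 1], [0, 0, 1], [0, 0]] 8 (by decide +kernel)

theorem spor_65432_1010 : Real {6, 5, 4, 3, 2} [10, 10] :=
  real_dec 2 [[0, 1, 1, 1, 1, 1], [0, 0, 0, 1, 1], [0, 0, 1, 1], [0, 0, 1], [0, 0]] 8
    (by decide +kernel)

theorem spor_543_444 : Real {5, 4, 3} [4, 4, 4] :=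
  real_dec 3 [[0, 0, 2, 2, 2], [0, 0, 1, 1], [1, 1, 2]] 8 (by decide +kernel)

theorem spor_643_544 : Real {6, 4, 3} [5, 4, 4] :=
  real_dec 3 [[0, 0, 2, 2, 2, 2], [0, 0, 1, 1], [0, 1, 1]] 8 (by decide +kernel)

theorem spor_10_3_2 : Real {10, 3, 2} [3, 3, 3, 3, 3] :=
  real_dec 5 [[0, 0, 1, 0, 1, 2, 4, 4, 2, 2], [3, 3, 4], [1, 3]] 12 (by decide +kernel)

end Pool.Agent.RST
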