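import Pool.Agent.RST.Chn

/-!
# RST/StpA: a step inside the last two columns
-/

set_option autoImplicit false

namespace Pool.Agent.RST

open Finset

/-- content of a mountain in the two columns `l`, `l + 1` -/
def f2c (l u v : ℕ) (j : ℕ) : ℕ := if j = l then u else if j = l + 1 then v else 0

theorem f2c_sum {l u v y : ℕ} (h : l + 1 ≤ y) : ∑ k ∈ range (y + 1), f2c l u v k = u + v := by
  have h1 : ∀ k, f2c l u v k = (if k = l then u else 0) + (if k = l + 1 then v else 0) := by
    intro k
    unfold f2c
    by_cases hk : k = l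
    · rw [if_pos hk, if_pos hk, if_neg (by omega)]
      omega
    · rw [if_neg hk, if_neg hk, zero_add]
  rw [sum_congr rfl fun k _ => h1 k, sum_add_distrib, sum_ite_eq', sum_ite_eq',
    if_pos (mem_range.2 (by omega)), if_pos (mem_range.2 (by omega))]

theorem mtOK_f2c {l u v : ℕ} (hu : 1 ≤ u) (hv : 1 ≤ v) : MtOK l (l + 1) (f2c l u v) where
  lt := Nat.lt_succ_self l
  bot := by simp [f2c]; omega
  top := by simp [f2c]; omega
  mid := by intro k h1 h2; omega
  out := by
    intro k hk
    unfold f2c
    rw [if_neg (by omega), if_neg (by omega)]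

theorem ex_sub {y : ℕ} {x f : ℕ → ℕ} (h0 : f 0 = 0) (hle : ∀ j, 1 ≤ j → j ≤ y → f j ≤ x j) :
    Ex y (fun j => x j - f j) + ∑ k ∈ range (y + 1), f k = Ex y x := by
  rw [sum_range_Icc, h0, zero_add]
  unfold Ex
  rw [← sum_add_distrib]
  apply sum_congr rfl
  intro j hj
  rw [mem_Icc] at hj
  have := hle j hj.1 hj.2
  show x j - f j + f j = x j
  omega

theorem lnP_step {q : Mt} {P : List Mt} {S al : Finset ℕ} {τ a : ℕ}
    (hlen : (mt q.l q.h q.f).length = a) (ha : a ∈ S)
    (h : lnP P + S.val + Multiset.replicate τ 2 = al.val) :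
    lnP (q :: P) + (S.erase a).val + Multiset.replicate τ 2 = al.val := by
  rw [lnP_cons, hlen, Finset.erase_val, Multiset.cons_add, ← Multiset.add_cons,
    Multiset.cons_erase (by exact ha)]
  exact h

/-- mountain with 2 cells in the column `m - 1` and `a - 2` cells in the column `m` -/
theorem stC_inside {y τ : ℕ} {C : ℕ → ℕ} {al : Finset ℕ} {P : List Mt} {S : Finset ℕ} {x : ℕ → ℕ}
    {m p g : ℕ} (st : StC y τ C al P S x m p g) (hm : 2 ≤ m) (hr : 2 ≤ S.card) (a : ℕ)
    (ha : a ∈ S) (ha4 : 4 ≤ a) (hmin : ∀ t ∈ S, t = 3 ∨ a ≤ t) (hE : a + S.card ≤ Ex y x + 1)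
    (hin : a ≤ x m) :
    ∃ (q : Mt) (x' : ℕ → ℕ), (mt q.l q.h q.f).length = a ∧ x' m + a = x m + 2 ∧
      StC y τ C al (q :: P) (S.erase a) x' m (p + 1) g := by
  obtain ⟨l, rfl⟩ : ∃ l, m = l + 1 := ⟨m - 1, by omega⟩
  have hml := st.mlt
  have hle := st.le hm
  have e1 : l + 1 - 1 = l := by omega
  have e2 : l + 1 - 2 = l - 1 := by omega
  rw [e1] at hle
  set f : ℕ → ℕ := f2c l 2 (a - 2) with hf
  have fl : f l = 2 := by simp [hf, f2c]
  have fh : f (l + 1) = a - 2 := by simp [hf, f2c]
  have fo : ∀ j, j ≠ l → j ≠ l + 1 → f j = 0 := by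
    intro j h1 h2
    simp only [hf, f2c]
    rw [if_neg h1, if_neg h2]
  have hok : MtOK l (l + 1) f := mtOK_f2c (by norm_num) (by omega)
  have hfle : ∀ j, 1 ≤ j → j ≤ y → f j ≤ x j := by
    intro j h1 h2
    by_cases hj : j = l
    · subst hj
      rw [fl]
      exact st.mid j h1 (by omega)
    · by_cases hj2 : j = l + 1
      · subst hj2
        rw [fh]
        omega
      · rw [fo j hj hj2]
        omega
  have hlen : (mt l (l + 1) f).length = a := by
    rw [hok.length y (by omega), f2c_sum (by omega)]
    omega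
  have hsumf : ∑ k ∈ range (y + 1), f k = a := by
    rw [f2c_sum (by omega)]
    omega
  have hEx := ex_sub (y := y) (x := x) (f := f) (fo 0 (by omega) (by omega)) hfle
  rw [hsumf] at hEx
  -- the excess
  have eb1 : ∀ b, eb l (l + 1) f b b = if b = l + 1 then 1 else 0 := by
    intro b
    unfold eb
    rw [if_pos rfl, fl, if_neg (show ¬ (b = l ∧ 2 = 1) by omega), sub_zero]
  have eb2 : ∀ b, eb l (l + 1) f b (b + 1) = if b + 1 = l then 1 else 0 := by
    intro b
    unfold eb
    rw [if_neg (by omega), if_pos rfl, fh, if_neg (show ¬ (b + 1 = l + 1 ∧ a - 2 = 1) by omega),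
      if_neg (show ¬ (l < b + 1 ∧ b + 1 < l + 1 ∧ 3 ≤ f (b + 1)) by omega)]
    ring
  have hppa : p + 4 ≤ a := by
    rcases st.pp hm a ha with h1 | h1
    · omega
    · exact h1
  have hgt : ∀ t ∈ S.erase a, t = 3 ∨ a + 1 ≤ t := by
    intro t ht
    rw [mem_erase] at ht
    rcases hmin t ht.2 with h1 | h1
    · exact Or.inl h1
    · right
      have := ht.1
      omega
  have hcard : (S.erase a).card = S.card - 1 := card_erase_of_mem ha
  have x'l : x l - f l = x l - 2 := by rw [fl]
  have x'h : x (l + 1) - f (l + 1) = x (l + 1) - (a - 2) := by rw [fh]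
  refine ⟨⟨l, l + 1, f⟩, fun j => x j - f j, hlen, ?_, ?_⟩
  · show x (l + 1) - f (l + 1) + a = x (l + 1) + 2
    rw [fh]
    omega
  · refine
      { shp := st.shp
        tau := st.tau
        len := lnP_step hlen ha st.len
        S3 := fun t ht => st.S3 t (mem_of_mem_erase ht)
        pok := ?_
        bot := ?_
        cnt := ?_
        c0 := ?_
        tot := ?_
        m1 := st.m1
        my := st.my
        xm := ?_
        xz := ?_
        mid := ?_
        b0 := ?_
        bhi := ?_
        bm := ?_
        bm1 := ?_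
        blo := ?_
        g1 := ?_
        cr := ?_
        Er := ?_
        mlt := st.mlt
        full := ?_
        c1 := ?_
        le := ?_
        p2 := ?_
        pp := ?_
        f1 := ?_
        c3 := ?_ }
    · intro q hq
      rw [List.mem_cons] at hq
      rcases hq with rfl | hq
      · exact ⟨hok, by show l + 1 ≤ y; omega⟩
      · exact st.pok q hq
    · intro q hq
      rw [List.mem_cons] at hq
      rcases hq with rfl | hq
      · show 1 ≤ l; omega
      · exact st.bot q hq
    · intro j h1 h2
      rw [cntP_cons]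
      show f j + cntP P j + (x j - f j) = C j
      have h3 := hfle j h1 h2
      have h4 := st.cnt j h1 h2
      omega
    · show x 0 - f 0 + 2 * τ = C 0
      rw [fo 0 (by omega) (by omega)]
      exact st.c0
    · have h1 := Finset.sum_erase_add S (fun b => b) ha
      have h2 := st.tot
      show ∑ b ∈ S.erase a, b = x 0 - f 0 + Ex y (fun j => x j - f j)
      rw [fo 0 (by omega) (by omega)]
      omega
    · show 1 ≤ x (l + 1) - f (l + 1)
      rw [fh]
      omega
    · intro j h1 h2
      show x j - f j = 0
      rw [st.xz j h1 h2, Nat.zero_sub]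
    · intro j h1 h2
      show 2 ≤ x j - f j
      by_cases hj : j = l
      · subst hj
        rw [fl]
        omega
      · rw [fo j hj (by omega)]
        exact st.mid j h1 h2
    · intro b hb
      rw [ebP_cons]
      show _ ≤ eb l (l + 1) f b b + _
      rw [eb1]
      have := st.b0 b hb
      split_ifs at this ⊢ <;> omega
    · intro b hb hmb
      rw [ebP_cons]
      show _ ≤ _ + (eb l (l + 1) f b (b + 1) + _)
      rw [eb2, if_neg (by omega), zero_add]
      exact st.bhi b hb hmb
    · intro h
      rw [ebP_cons, e1]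
      show _ ≤ eb l (l + 1) f l (l + 1) + _
      rw [eb2, if_neg (by omega), zero_add]
      have := st.bm h
      rwa [e1] at this
    · intro h
      rw [ebP_cons, e2, e1]
      show _ ≤ eb l (l + 1) f (l - 1) l + _
      have h1 := eb2 (l - 1)
      rw [show l - 1 + 1 = l by omega, if_pos rfl] at h1
      rw [h1]
      have h2 := st.bm1 h
      rw [e2, e1] at h2
      push_cast
      linarith
    · intro b hb
      rw [ebP_cons]
      show _ ≤ eb l (l + 1) f b (b + 1) + _
      rw [eb2, if_neg (by omega), zero_add]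
      exact st.blo b hb
    · intro _ h
      have h : x (l + 1) - f (l + 1) = 1 := h
      rw [fh] at h
      omega
    · intro h1 h2
      obtain ⟨q, hq, h3⟩ := st.cr h1 h2
      exact ⟨q, List.mem_cons_of_mem _ hq, h3⟩
    · rw [hcard]
      omega
    · intro j h1 h2
      show x j - f j = C j
      rw [fo j (by omega) (by omega)]
      exact st.full j h1 h2
    · intro h
      have h1 := st.c1 h
      rw [e1] at h1 ⊢
      show C l = x l - f l + 2 * (p + 1)
      rw [fl]
      have h2 := st.mid l (by omega) (by omega)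
      omega
    · intro _
      rw [e1]
      show x (l + 1) - f (l + 1) ≤ x l - f l
      rw [fl, fh]
      omega
    · intro _ _
      show 2 ≤ x (l + 1) - f (l + 1)
      rw [fh]
      omega
    · intro _ t ht
      rcases hgt t ht with h1 | h1
      · exact Or.inl h1
      · right; omega
    · intro h; omega
    · intro h
      rcases st.c3 h with h1 | h1
      · left
        intro h2
        exact h1 (mem_of_mem_erase h2)
      · omega

end Pool.Agent.RST
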