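import Pool.Agent.RST.Chn

/-!
# RST/StpB: a step across the last columns
-/

set_option autoImplicit false

namespace Pool.Agent.RST

open Finset

theorem eb_succ (l h : ℕ) (f : ℕ → ℕ) (b : ℕ) : eb l h f b (b + 1) =
    (if b + 1 = l then 1 else 0) - (if b + 1 = h ∧ f h = 1 then 1 else 0) +
      (if l < b + 1 ∧ b + 1 < h ∧ 3 ≤ f (b + 1) then 1 else 0) := by
  unfold eb
  rw [if_neg (by omega), if_pos rfl]

private theorem exists_cut (F : ℕ → ℕ) (a m : ℕ) (hm : 1 ≤ m) (h1 : F m < a) (h2 : a ≤ F 1) :
    ∃ l, 1 ≤ l ∧ l < m ∧ F (l + 1) < a ∧ a ≤ F l := by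
  induction m with
  | zero => omega
  | succ n ih =>
    rcases Nat.eq_zero_or_pos n with h0 | h0
    · subst h0
      simp only [zero_add] at h1
      omega
    · rcases Nat.lt_or_ge (F n) a with h3 | h3
      · obtain ⟨l, g1, g2, g3, g4⟩ := ih h0 h3
        exact ⟨l, g1, by omega, g3, g4⟩
      · exact ⟨n, h0, by omega, h1, h3⟩

private theorem Icc_left (x : ℕ → ℕ) {l m : ℕ} (h : l ≤ m) :
    ∑ j ∈ Icc l m, x j = x l + ∑ j ∈ Icc (l + 1) m, x j := by
  rw [← Finset.sum_insert (s := Icc (l + 1) m) (a := l) (by simp)]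
  apply sum_congr _ fun _ _ => rfl
  ext j
  rw [mem_Icc, mem_insert, mem_Icc]
  omega

/-- the data of the crossing mountain -/
private theorem cross_data (y m l ε : ℕ) (x : ℕ → ℕ) (hl : 1 ≤ l) (hlm : l < m) (hmy : m ≤ y)
    (hε : 1 ≤ ε) (hεx : ε ≤ x l) (hxm : 1 ≤ x m) (hmid : ∀ j, 1 ≤ j → j < m → 2 ≤ x j)
    (hxz : ∀ j, m < j → j ≤ y → x j = 0) :
    ∃ f x' : ℕ → ℕ, MtOK l m f ∧ f l = ε ∧ (∀ j, l < j → j ≤ m → f j = x j) ∧
      (∀ j, j < l → x' j = x j) ∧ x' l + ε = x l ∧ (∀ j, l < j → j ≤ y → x' j = 0) ∧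
      (∀ j, j ≤ y → f j + x' j = x j) ∧
      (mt l m f).length = ε + ∑ j ∈ Icc (l + 1) m, x j ∧
      Ex y x' + (ε + ∑ j ∈ Icc (l + 1) m, x j) = Ex y x := by
  refine ⟨fun j => if j = l then ε else if l < j ∧ j ≤ m then x j else 0,
    fun j => if j < l then x j else if j = l then x l - ε else 0, ?_, ?_, ?_, ?_, ?_, ?_, ?_, ?_⟩
  · refine ⟨hlm, ?_, ?_, ?_, ?_⟩
    · simp only [if_true]
      exact hε
    · rw [if_neg (by omega), if_pos ⟨hlm, le_refl _⟩]
      exact hxm
    · intro k h1 h2
      rw [if_neg (by omega), if_pos ⟨h1, h2.le⟩]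
      exact hmid k (by omega) h2
    · intro k h1
      rw [if_neg (by omega), if_neg (by omega)]
  · simp
  · intro j h1 h2
    dsimp only
    rw [if_neg (by omega), if_pos ⟨h1, h2⟩]
  · intro j h1
    dsimp only
    rw [if_pos h1]
  · simp only [lt_irrefl, if_false, if_true]
    omega
  · intro j h1 h2
    dsimp only
    rw [if_neg (by omega), if_neg (by omega)]
  · intro j hj
    dsimp only
    rcases lt_trichotomy j l with h1 | h1 | h1
    · rw [if_neg (by omega), if_neg (by omega), if_pos h1]
      omega
    · subst h1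
      rw [if_pos rfl, if_neg (by omega), if_pos rfl]
      omega
    · rw [if_neg (by omega), if_neg (show ¬ j < l by omega), if_neg (show ¬ j = l by omega)]
      by_cases h2 : j ≤ m
      · rw [if_pos ⟨h1, h2⟩]
        omega
      · rw [if_neg (by omega), hxz j (by omega) hj]
  · -- lengths and sums
    set f : ℕ → ℕ := fun j => if j = l then ε else if l < j ∧ j ≤ m then x j else 0 with hf
    set x' : ℕ → ℕ := fun j => if j < l then x j else if j = l then x l - ε else 0 with hx'
    have hfl : f l = ε := by rw [hf]; simp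
    have hfj : ∀ j, l < j → j ≤ m → f j = x j := by
      intro j h1 h2
      rw [hf]
      dsimp only
      rw [if_neg (by omega), if_pos ⟨h1, h2⟩]
    have hfo : ∀ j, j < l ∨ m < j → f j = 0 := by
      intro j h1
      rw [hf]
      dsimp only
      rw [if_neg (by omega), if_neg (by omega)]
    have hok : MtOK l m f := by
      refine ⟨hlm, by rw [hfl]; exact hε, by rw [hfj m hlm (le_refl _)]; exact hxm, ?_, hfo⟩
      intro k h1 h2
      rw [hfj k h1 h2.le]
      exact hmid k (by omega) h2
    have hsf : ∑ j ∈ Icc 1 y, f j = ε + ∑ j ∈ Icc (l + 1) m, x j := by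
      have h1 : ∑ j ∈ Icc 1 y, f j = ∑ j ∈ Icc l m, f j := by
        symm
        apply sum_subset
        · intro j
          rw [mem_Icc, mem_Icc]
          omega
        · intro j h1 h2
          rw [mem_Icc] at h1 h2
          exact hfo j (by omega)
      rw [h1, Icc_left f hlm.le, hfl]
      congr 1
      apply sum_congr rfl
      intro j hj
      rw [mem_Icc] at hj
      exact hfj j (by omega) hj.2
    have hadd : ∀ j, j ≤ y → f j + x' j = x j := by
      intro j hj
      rcases lt_trichotomy j l with h1 | h1 | h1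
      · rw [hfo j (Or.inl h1), hx']
        dsimp only
        rw [if_pos h1, zero_add]
      · subst h1
        rw [hfl, hx']
        dsimp only
        rw [if_neg (by omega), if_pos rfl]
        omega
      · have h3 : x' j = 0 := by
          rw [hx']
          dsimp only
          rw [if_neg (by omega), if_neg (by omega)]
        rw [h3, add_zero]
        by_cases h2 : j ≤ m
        · exact hfj j h1 h2
        · rw [hfo j (Or.inr (by omega)), hxz j (by omega) hj]
    constructor
    · rw [hok.length y hmy, sum_range_Icc, hfo 0 (Or.inl (by omega)), zero_add, hsf]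
    · rw [← hsf]
      unfold Ex
      rw [← sum_add_distrib]
      apply sum_congr rfl
      intro j hj
      rw [mem_Icc] at hj
      rw [← hadd j hj.2, add_comm]

/-- mountain which exhausts the column `m` (and takes consecutive cells from the right) -/
theorem st_cross {y τ : ℕ} {C : ℕ → ℕ} {al : Finset ℕ} {P : List Mt} {S : Finset ℕ} {x : ℕ → ℕ}
    {m p g : ℕ} (st : St y τ C al P S x m p g) (hm : 2 ≤ m) (hr : 2 ≤ S.card)
    (full : ∀ j, 1 ≤ j → j + 2 ≤ m → x j = C j) (c1 : C (m - 1) ≤ x (m - 1) + 2 * p) (a : ℕ)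
    (ha : a ∈ S) (hmin : ∀ t ∈ S.erase a, t = 3 ∨ a + 1 ≤ t) (hE : a + S.card ≤ Ex y x + 1)
    (hout : x m < a) (c3 : C 0 ≤ 3 → 3 ∉ S.erase a ∨ (S.erase a).card = 1)
    (hds : ¬ (m = y ∧ a = x y + x (y - 1))) :
    ∃ (q : Mt) (x' : ℕ → ℕ) (m' g' : ℕ), (mt q.l q.h q.f).length = a ∧
      StC y τ C al (q :: P) (S.erase a) x' m' 0 g' := by
  have hy := st.shp.hy
  have hmy := st.my
  have hEx := st.exm
  have hcard : (S.erase a).card + 1 = S.card := by
    rw [card_erase_of_mem ha]
    omega
  -- the cut
  obtain ⟨l, hl1, hlm, hcut1, hcut2⟩ := exists_cut (fun l => ∑ j ∈ Icc l m, x j) a m (by omega)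
    (by simpa using hout) (by rw [← hEx]; omega)
  rw [Icc_left x hlm.le] at hcut2
  have hFm : x m ≤ ∑ j ∈ Icc (l + 1) m, x j := by
    apply single_le_sum (f := x) (fun _ _ => Nat.zero_le _)
    rw [mem_Icc]
    omega
  have hxm := st.xm
  have hxl : 2 ≤ x l := st.mid l hl1 hlm
  obtain ⟨ε, hε⟩ : ∃ ε, a = ε + ∑ j ∈ Icc (l + 1) m, x j := ⟨_, (Nat.sub_add_cancel hcut1.le).symm⟩
  have hε1 : 1 ≤ ε := by omega
  have hε2 : ε ≤ x l := by omega
  obtain ⟨f, x', hok, hfl, hfj, hx1, hx2, hx3, hadd, hlen, hEx'⟩ :=
    cross_data y m l ε x hl1 hlm hmy hε1 hε2 hxm st.mid st.xz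
  rw [← hε] at hlen hEx'
  have hfm : f m = x m := hfj m hlm (le_refl _)
  -- the new top
  obtain ⟨m', g', hm1, hcase⟩ : ∃ m' g', 1 ≤ m' ∧
      ((m' = l ∧ ε < x l ∧ ((g' = p + 1 ∧ l + 1 = m) ∨ (g' = 1 ∧ l + 2 ≤ m))) ∨
        (m' + 1 = l ∧ ε = x l ∧ g' = 0)) := by
    rcases Nat.lt_or_ge ε (x l) with h1 | h1
    · rcases Nat.lt_or_ge (l + 1) m with h2 | h2
      · exact ⟨l, 1, hl1, Or.inl ⟨rfl, h1, Or.inr ⟨rfl, h2⟩⟩⟩
      · exact ⟨l, p + 1, hl1, Or.inl ⟨rfl, h1, Or.inl ⟨rfl, by omega⟩⟩⟩
    · have h2 : ε = x l := by omega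
      have h3 : 2 ≤ l := by
        by_contra h3
        have h4 : l = 1 := by omega
        rw [h4, h4.symm] at hε
        have h5 : ∑ j ∈ Icc 1 m, x j = x 1 + ∑ j ∈ Icc (1 + 1) m, x j := Icc_left x (by omega)
        rw [← hEx] at h5
        rw [h4] at hε h2
        omega
      exact ⟨l - 1, 0, by omega, Or.inr ⟨by omega, h2, rfl⟩⟩
  have hm'l : m' ≤ l := by omega
  refine ⟨⟨l, m, f⟩, x', m', g', hlen, ?_⟩
  have heb : ∀ b ρ, ebP (⟨l, m, f⟩ :: P) b ρ = eb l m f b ρ + ebP P b ρ := fun b ρ =>
    ebP_cons _ _ _ _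
  -- old bounds in the columns `< m`
  have hold : ∀ b, b + 1 < m → 0 ≤ ebP P b (b + 1) := by
    intro b hb
    rcases Nat.lt_or_ge (b + 2) m with h1 | h1
    · exact st.blo b h1
    · have h2 := st.bm1 hm
      rw [show m - 2 = b by omega, show m - 1 = b + 1 by omega] at h2
      have h3 : (0 : ℤ) ≤ p := by positivity
      linarith
  have hebs : ∀ b, b + 1 < l → eb l m f b (b + 1) = 0 := by
    intro b hb
    unfold eb
    rw [if_neg (by omega), if_pos rfl, if_neg (by omega), if_neg (by omega), if_neg (by omega)]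
    ring
  have hst : St y τ C al (⟨l, m, f⟩ :: P) (S.erase a) x' m' 0 g' := by
    constructor
    · exact st.shp
    · exact st.tau
    · rw [lnP_cons, ← st.len]
      have h1 : S.val = a ::ₘ (S.erase a).val := by
        rw [erase_val, Multiset.cons_erase ha]
      rw [h1]
      simp only at hlen ⊢
      rw [hlen]
      simp only [Multiset.cons_add, Multiset.add_cons]
    · intro t ht
      exact st.S3 t (mem_of_mem_erase ht)
    · intro q hq
      rw [List.mem_cons] at hq
      rcases hq with rfl | hq
      · exact ⟨hok, hmy⟩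
      · exact st.pok q hq
    · intro q hq
      rw [List.mem_cons] at hq
      rcases hq with rfl | hq
      · exact hl1
      · exact st.bot q hq
    · intro j h1 h2
      rw [cntP_cons, ← st.cnt j h1 h2, ← hadd j h2]
      simp only
      ring
    · rw [hx1 0 (by omega)]
      exact st.c0
    · have h1 := st.tot
      have h2 : a + ∑ t ∈ S.erase a, t = ∑ t ∈ S, t := add_sum_erase S (fun t => t) ha
      rw [hx1 0 (by omega)]
      omega
    · exact hm1
    · omega
    · rcases hcase with ⟨h1, h2, -⟩ | ⟨h1, -, -⟩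
      · subst h1
        omega
      · rw [hx1 m' (by omega)]
        have := st.mid m' hm1 (by omega)
        omega
    · intro j h1 h2
      rcases hcase with ⟨h3, -, -⟩ | ⟨h3, h4, -⟩
      · exact hx3 j (by omega) h2
      · rcases Nat.lt_or_ge l j with h5 | h5
        · exact hx3 j h5 h2
        · have h6 : j = l := by omega
          subst h6
          omega
    · intro j h1 h2
      rw [hx1 j (by omega)]
      exact st.mid j h1 (by omega)
    · intro b hb
      rw [heb]
      have h1 := st.b0 b hb
      unfold eb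
      rw [if_pos rfl, hfl]
      rcases hcase with ⟨h3, h4, -⟩ | ⟨h3, h4, -⟩
      · split_ifs at h1 ⊢ <;> first | linarith | (exfalso; omega)
      · split_ifs at h1 ⊢ <;> first | linarith | (exfalso; omega)
    · intro b hb hmb
      rw [heb]
      have hanti : C (b + 1) ≤ C b := st.shp.anti b (b + 1) (by omega) hb
      have hanti' : (C (b + 1) : ℤ) ≤ C b := by exact_mod_cast hanti
      rcases lt_trichotomy (b + 1) m with h1 | h1 | h1
      · have h2 := hold b h1
        have h3 : 0 ≤ eb l m f b (b + 1) := by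
          unfold eb
          rw [if_neg (by omega), if_pos rfl, if_neg (show ¬ (b + 1 = m ∧ f m = 1) by omega)]
          split_ifs <;> norm_num
        linarith
      · have h2 := st.bm (by omega)
        rw [show m - 1 = b by omega, ← h1] at h2
        have h3 : -(if x m = 1 then 1 else 0) ≤ eb l m f b (b + 1) := by
          rw [eb_succ, hfm, if_neg (show ¬ b + 1 = l by omega),
            if_neg (show ¬ (l < b + 1 ∧ b + 1 < m ∧ 3 ≤ f (b + 1)) by omega)]
          by_cases h6 : x m = 1
          · rw [if_pos h6, if_pos ⟨h1, h6⟩]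
            norm_num
          · rw [if_neg h6, if_neg (fun h => h6 h.2)]
            norm_num
        have h4 := st.g1 (by omega)
        have h5 : (0 : ℤ) ≤ g := by positivity
        split_ifs at h3 with h6
        · have h7 : (1 : ℤ) ≤ g := by exact_mod_cast h4 h6
          linarith
        · linarith
      · have h2 := st.bhi b hb (by omega)
        have h3 : eb l m f b (b + 1) = 0 := by
          unfold eb
          rw [if_neg (by omega), if_pos rfl, if_neg (by omega), if_neg (by omega),
            if_neg (by omega)]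
          ring
        linarith
    · intro hmy'
      rw [heb]
      rcases hcase with ⟨h3, h4, h5⟩ | ⟨h3, h4, h5⟩
      · subst h3
        have h6 : eb m' m f (m' - 1) m' = 1 := by
          unfold eb
          rw [if_neg (by omega), if_pos (by omega), if_pos (by omega), if_neg (by omega),
            if_neg (by omega)]
          ring
        rw [h6]
        rcases h5 with ⟨h5, h7⟩ | ⟨h5, h7⟩
        · have h8 := st.bm1 hm
          rw [show m - 2 = m' - 1 by omega, show m - 1 = m' by omega] at h8
          rw [h5]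
          push_cast
          linarith
        · have h8 := hold (m' - 1) (by omega)
          rw [show m' - 1 + 1 = m' by omega] at h8
          rw [h5]
          push_cast
          linarith
      · have h6 := hebs (m' - 1) (by omega)
        have h8 := hold (m' - 1) (by omega)
        rw [show m' - 1 + 1 = m' by omega] at h6 h8
        rw [h6, h5]
        push_cast
        linarith
    · intro hm2
      rw [heb]
      have h6 := hebs (m' - 2) (by omega)
      have h8 := hold (m' - 2) (by omega)
      rw [show m' - 2 + 1 = m' - 1 by omega] at h6 h8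
      rw [h6]
      push_cast
      linarith
    · intro b hb
      rw [heb, hebs b (by omega), zero_add]
      exact hold b (by omega)
    · intro h1 h2
      rcases hcase with ⟨h3, h4, h5⟩ | ⟨h3, h4, h5⟩
      · omega
      · rw [hx1 m' (by omega)] at h2
        have := st.mid m' hm1 (by omega)
        omega
    · intro h1 h2
      rcases Nat.lt_or_ge (m + 1) y with h3 | h3
      · obtain ⟨r, hr1, hr2, hr3⟩ := st.cr h3 h2
        exact ⟨r, List.mem_cons_of_mem _ hr1, hr2, hr3⟩
      · refine ⟨⟨l, m, f⟩, by simp, ?_, by simpa using h3⟩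
        simp only
        by_contra h4
        have h5 : l + 1 = y := by omega
        have h6 : m = y := by omega
        rcases hcase with ⟨h7, -, -⟩ | ⟨h7, h8, -⟩
        · omega
        · apply hds
          refine ⟨h6, ?_⟩
          rw [hε, h8, h6, show l + 1 = y by omega, Icc_self, sum_singleton,
            show y - 1 = l by omega]
          ring
    · omega
  refine ⟨hst, ?_, ?_, ?_, ?_, ?_, ?_, ?_, ?_⟩
  · omega
  · intro j h1 h2
    rw [hx1 j (by omega)]
    exact full j h1 (by omega)
  · intro h1
    rw [hx1 (m' - 1) (by omega), full (m' - 1) (by omega) (by omega)]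
    ring
  · intro h1
    rw [hx1 (m' - 1) (by omega), full (m' - 1) (by omega) (by omega)]
    have h2 := hst.cnt m' hm1 (by omega)
    have h3 := st.shp.anti (m' - 1) m' (by omega) (by omega)
    omega
  · intro h1 h2
    omega
  · intro h1 t ht
    have h2 := st.S3 t (mem_of_mem_erase ht)
    omega
  · intro h1
    rcases hcase with ⟨h3, h4, h5⟩ | ⟨h3, h4, h5⟩
    · right
      have h6 : l = 1 := by omega
      refine ⟨by omega, a, by have := st.S3 a ha; omega, ?_, hmin⟩
      subst h6
      subst h3
      rcases h5 with ⟨h5, h7⟩ | ⟨h5, h7⟩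
      · rw [show m - 1 = 1 by omega] at c1
        omega
      · have h8 := full 1 (le_refl _) (by omega)
        omega
    · left
      rw [hx1 1 (by omega)]
      exact full 1 (le_refl _) (by omega)
  · exact c3

end Pool.Agent.RST
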