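import Pool.Agent.RST.Chn

/-!
# RST/StpD: steps in the tail which end with a direct sum
-/

set_option autoImplicit false

namespace Pool.Agent.RST

open Finset

theorem StpD_three (G : Finset ℕ) (h : ∀ b ∈ G, 2 ≤ b) :
    3 * G.card ≤ ∑ b ∈ G, b + (if 2 ∈ G then 1 else 0) := by
  have h1 : ∑ b ∈ G, 3 ≤ ∑ b ∈ G, (b + if b = 2 then 1 else 0) := by
    apply sum_le_sum
    intro b hb
    have := h b hb
    split_ifs <;> omega
  rw [sum_const, smul_eq_mul, mul_comm, sum_add_distrib, sum_ite_eq'] at h1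
  exact h1

/-- the numeric facts about a state with tail cells -/
theorem StpD_facts {y τ : ℕ} {C : ℕ → ℕ} {al : Finset ℕ} {P : List Mt} {S : Finset ℕ}
    {x : ℕ → ℕ} {p : ℕ} (st : StT y τ C al P S x p) :
    al.card = p + S.card + τ ∧
    ∑ b ∈ al, b = (lnP P).sum + ∑ b ∈ S, b + 2 * τ ∧ S ⊆ al ∧ (τ = 1 → 2 ∈ al) ∧
    (∀ b ∈ al, 2 ≤ b) ∧ (∀ b ∈ S, 3 ≤ b) ∧ (lnP P).Nodup ∧ (∀ b ∈ lnP P, 2 ≤ b ∧ b ∈ al ∧ b ∉ S) ∧
    (lnP P).card = p ∧ Ex y x = ∑ j ∈ Icc 1 (y - 2), C j + x (y - 1) + x y := by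
  have hlen := st.len
  have hlnc : (lnP P).card = p := by
    unfold lnP wdP
    rw [Multiset.coe_card, List.length_map, List.length_map]
    exact st.pl
  have hge : ∀ b ∈ lnP P, 2 ≤ b := by
    intro b hb
    unfold lnP wdP at hb
    rw [Multiset.mem_coe, List.map_map, List.mem_map] at hb
    obtain ⟨q, hq, rfl⟩ := hb
    exact ((st.pok q hq).1.okW y).1
  have hmem : ∀ b, b ∈ al ↔ b ∈ lnP P ∨ b ∈ S ∨ b ∈ Multiset.replicate τ 2 := by
    intro b
    rw [← Finset.mem_val, ← hlen, Multiset.mem_add, Multiset.mem_add, Finset.mem_val, or_assoc]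
  have hnd : (lnP P + S.val + Multiset.replicate τ 2).Nodup := by
    rw [hlen]
    exact al.nodup
  refine ⟨?_, ?_, ?_, ?_, ?_, st.S3, ?_, ?_, hlnc, ?_⟩
  · have h1 := congrArg Multiset.card hlen
    rw [Multiset.card_add, Multiset.card_add, hlnc, Multiset.card_replicate] at h1
    exact h1.symm
  · have h1 := congrArg Multiset.sum hlen
    rw [Multiset.sum_add, Multiset.sum_add, Multiset.sum_replicate] at h1
    have h2 : ∀ T : Finset ℕ, ∑ b ∈ T, b = T.val.sum := by
      intro T
      rw [Finset.sum, Multiset.map_id']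
    rw [h2, h2, ← h1, smul_eq_mul]
    ring
  · intro b hb
    exact (hmem b).2 (Or.inr (Or.inl hb))
  · intro h
    apply (hmem 2).2
    right
    right
    rw [h]
    simp
  · intro b hb
    rcases (hmem b).1 hb with h | h | h
    · exact hge b h
    · have := st.S3 b h
      omega
    · rw [Multiset.eq_of_mem_replicate h]
  · exact Multiset.nodup_of_le (by
      rw [add_assoc]
      exact Multiset.le_add_right _ _) hnd
  · intro b hb
    refine ⟨hge b hb, (hmem b).2 (Or.inl hb), ?_⟩
    intro hbS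
    rw [add_assoc, Multiset.nodup_add] at hnd
    exact (Multiset.disjoint_left.1 hnd.2.2) hb (Multiset.mem_add.2 (Or.inl hbS))
  · have hy := st.shp.hy
    unfold Ex
    obtain ⟨k, hk⟩ : ∃ k, y = k + 2 := ⟨y - 2, by omega⟩
    subst hk
    rw [sum_Icc_succ_top (by omega), sum_Icc_succ_top (by omega)]
    rw [show k + 2 - 2 = k by omega, show k + 2 - 1 = k + 1 by omega]
    congr 2
    apply sum_congr rfl
    intro j hj
    rw [mem_Icc] at hj
    exact st.full j hj.1 (by omega)

/-- the reduction with the remaining cycles `H` -/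
theorem StpD_core {y : ℕ} {C : ℕ → ℕ} {al H : Finset ℕ} (hds : DSR y C al) (hH : H ⊆ al) (s : ℕ)
    (h1 : ∑ b ∈ al, b = ∑ b ∈ H, b + (C (y - 1) + s)) (h2 : s ≤ C y)
    (h3 : al.card + 1 ≤ H.card + C (y - 1))
    (h4 : al.card ≤ H.card + (s + (if 2 ∈ al \ H then 1 else 0)))
    (h5 : H.card ≤ (if 2 ∈ H then 1 else 0) + ∑ j ∈ Icc 1 (y - 2), C j + (C y - s))
    (h6 : H.card + y ≤ ∑ j ∈ range (y - 1), C j + 1)
    (h7 : ¬ Exc (y - 1) (fun j => if j < y - 1 then C j else C y - s) H) : Goal y C al := by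
  have hc : (al \ H).card = al.card - H.card := card_sdiff_of_subset hH
  have hc2 : H.card ≤ al.card := card_le_card hH
  have hs : ∑ b ∈ al \ H, b + ∑ b ∈ H, b = ∑ b ∈ al, b := sum_sdiff hH
  have e1 : al \ (al \ H) = H := Finset.sdiff_sdiff_eq_self hH
  apply hds (al \ H) s sdiff_subset
  · omega
  · exact h2
  · omega
  · omega
  · rw [e1]
    exact h5
  · rw [e1]
    exact h6
  · rw [e1]
    exact h7

/-- `τ = 0`: the next tail mountain leaves one cell in the column `y - 1` and tail cells: direct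
sum of the hook of all placed cycles and `a` -/
theorem stT_ds0 {y : ℕ} {C : ℕ → ℕ} {al : Finset ℕ} {P : List Mt} {S : Finset ℕ} {x : ℕ → ℕ}
    {p : ℕ} (hds : DSR y C al) (st : StT y 0 C al P S x p) (hE2 : al.card + y ≤ ∑ j ∈ range y, C j)
    (hr : 2 ≤ S.card) (a : ℕ) (ha : a ∈ S)
    (hE : a + S.card ≤ Ex y x + 1) (hin : a ≤ x y) (hx : x (y - 1) = 2) : Goal y C al := by
  obtain ⟨f1, f2, f3, f4, f5, f6, f7, f8, f9, f10⟩ := StpD_facts st
  have hy := st.shp.hy
  have hc1 := st.c1
  have htl := st.tl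
  have ha3 := f6 a ha
  have hH : S.erase a ⊆ al := (erase_subset a S).trans f3
  have hHc : (S.erase a).card = S.card - 1 := card_erase_of_mem ha
  have hHs : ∑ b ∈ S.erase a, b + a = ∑ b ∈ S, b := sum_erase_add S _ ha
  have h3 := StpD_three (al \ S.erase a) (fun b hb => f5 b (mem_sdiff.1 hb).1)
  have hc : (al \ S.erase a).card = al.card - (S.erase a).card := card_sdiff_of_subset hH
  have hs : ∑ b ∈ al \ S.erase a, b + ∑ b ∈ S.erase a, b = ∑ b ∈ al, b := sum_sdiff hH
  have hcnt := st.cnt y (by omega) (le_refl y)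
  have hrange : ∑ j ∈ range y, C j = ∑ j ∈ range (y - 1), C j + C (y - 1) := by
    obtain ⟨k, hk⟩ : ∃ k, y = k + 1 := ⟨y - 1, by omega⟩
    subst hk
    rw [sum_range_succ]
    rfl
  apply StpD_core hds hH (C y + a - x y - 2)
  · omega
  · omega
  · omega
  · split_ifs at h3 ⊢ <;> omega
  · omega
  · omega
  · rintro ⟨e1, e2, -⟩
    have e3 : ¬ 2 < y - 1 := by omega
    simp only [if_neg e3] at e2
    omega

/-- `τ = 1`: two cells are left in the column `y - 1`: direct sum of the hook of all placed cycles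
and the 2-cycle -/
theorem stT_ds1 {y : ℕ} {C : ℕ → ℕ} {al : Finset ℕ} {P : List Mt} {S : Finset ℕ} {x : ℕ → ℕ}
    {p : ℕ} (hds : DSR y C al) (st : StT y 1 C al P S x p) (hE2 : al.card + y ≤ ∑ j ∈ range y, C j)
    (hE : S.card + 2 ≤ Ex y x) (hx : x (y - 1) = 2) : Goal y C al := by
  obtain ⟨f1, f2, f3, f4, f5, f6, f7, f8, f9, f10⟩ := StpD_facts st
  have hy := st.shp.hy
  have hc1 := st.c1
  have htl := st.tl
  have hcnt := st.cnt y (by omega) (le_refl y)
  have hxm := st.xm
  have h2al : 2 ∈ al \ S := by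
    rw [mem_sdiff]
    refine ⟨f4 rfl, fun h => ?_⟩
    have := f6 2 h
    omega
  have h3 := StpD_three (al \ S) (fun b hb => f5 b (mem_sdiff.1 hb).1)
  rw [if_pos h2al] at h3
  have hc : (al \ S).card = al.card - S.card := card_sdiff_of_subset f3
  have hs : ∑ b ∈ al \ S, b + ∑ b ∈ S, b = ∑ b ∈ al, b := sum_sdiff f3
  have hrange : ∑ j ∈ range y, C j = ∑ j ∈ range (y - 1), C j + C (y - 1) := by
    obtain ⟨k, hk⟩ : ∃ k, y = k + 1 := ⟨y - 1, by omega⟩
    subst hk
    rw [sum_range_succ]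
    rfl
  apply StpD_core hds f3 (C y - x y)
  · omega
  · omega
  · omega
  · rw [if_pos h2al]
    omega
  · omega
  · omega
  · rintro ⟨e1, e2, -⟩
    have e3 : ¬ 2 < y - 1 := by omega
    simp only [if_neg e3] at e2
    omega

/-- the next mountain exhausts the tail and the column `y - 1` exactly: direct sum of the hook of
all placed cycles and `a` -/
theorem stT_ds2 {y τ : ℕ} {C : ℕ → ℕ} {al : Finset ℕ} {P : List Mt} {S : Finset ℕ} {x : ℕ → ℕ}
    {p : ℕ} (hds : DSR y C al) (st : StT y τ C al P S x p) (hr : 2 ≤ S.card) (a : ℕ) (ha : a ∈ S)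
    (h3 : 3 ∉ S.erase a)
    (hE : a + S.card ≤ Ex y x + 1) (hin : a = x y + x (y - 1)) : Goal y C al := by
  obtain ⟨f1, f2, f3, f4, f5, f6, f7, f8, f9, f10⟩ := StpD_facts st
  have hy := st.shp.hy
  have hc1 := st.c1
  have htl := st.tl
  have hx2 := st.x2
  have htau := st.tau
  have hcnt := st.cnt y (by omega) (le_refl y)
  have hxm := st.xm
  have htot := st.tot
  have hc0 := st.c0
  -- the remaining cycles
  set T : Finset ℕ := if τ = 1 then {2} else ∅ with hT
  set H : Finset ℕ := S.erase a ∪ T with hHdef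
  have hTc : T.card = τ := by
    rw [hT]
    rcases htau with h | ⟨h, -⟩
    · rw [h]; rfl
    · rw [h]; rfl
  have hTs : ∑ b ∈ T, b = 2 * τ := by
    rw [hT]
    rcases htau with h | ⟨h, -⟩
    · rw [h]; rfl
    · rw [h]; rfl
  have hTmem : ∀ b ∈ T, b = 2 ∧ τ = 1 := by
    intro b hb
    rw [hT] at hb
    by_cases h : τ = 1
    · rw [if_pos h, mem_singleton] at hb
      exact ⟨hb, h⟩
    · rw [if_neg h] at hb
      exact absurd hb (notMem_empty _)
  have hdis : Disjoint (S.erase a) T := by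
    rw [disjoint_left]
    intro b hb hbT
    have h4 := f6 b (mem_of_mem_erase hb)
    have h5 := (hTmem b hbT).1
    omega
  have hH : H ⊆ al := by
    rw [hHdef]
    apply union_subset ((erase_subset a S).trans f3)
    intro b hb
    obtain ⟨h4, h5⟩ := hTmem b hb
    rw [h4]
    exact f4 h5
  have hHc : H.card = S.card - 1 + τ := by
    rw [hHdef, card_union_of_disjoint hdis, card_erase_of_mem ha, hTc]
  have hHs : ∑ b ∈ H, b + a = ∑ b ∈ S, b + 2 * τ := by
    rw [hHdef, sum_union hdis, hTs]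
    have : ∑ b ∈ S.erase a, b + a = ∑ b ∈ S, b := sum_erase_add S _ ha
    omega
  have h2H : (if 2 ∈ H then 1 else 0) = τ := by
    rcases htau with h | ⟨h, -⟩
    · rw [if_neg, h]
      intro h4
      rw [hHdef, mem_union] at h4
      rcases h4 with h4 | h4
      · have := f6 2 (mem_of_mem_erase h4)
        omega
      · have := (hTmem 2 h4).2
        omega
    · rw [if_pos, h]
      rw [hHdef, mem_union]
      right
      rw [hT, if_pos h]
      simp
  -- the placed cycles
  have hL : 3 * p ≤ (lnP P).sum + (if 2 ∈ al \ H then 1 else 0) := by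
    have h4 := StpD_three ⟨lnP P, f7⟩ (fun b hb => (f8 b hb).1)
    have h5 : ∑ b ∈ (⟨lnP P, f7⟩ : Finset ℕ), b = (lnP P).sum := by
      rw [Finset.sum, Multiset.map_id']
    have h6 : (⟨lnP P, f7⟩ : Finset ℕ).card = p := f9
    rw [h5, h6] at h4
    refine h4.trans ?_
    apply Nat.add_le_add_left
    by_cases h7 : 2 ∈ (⟨lnP P, f7⟩ : Finset ℕ)
    · have h8 : 2 ∈ lnP P := h7
      have h9 : 2 ∈ al \ H := by
        rw [mem_sdiff]
        refine ⟨(f8 2 h8).2.1, ?_⟩
        intro h10
        rw [hHdef, mem_union] at h10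
        rcases h10 with h10 | h10
        · have := f6 2 (mem_of_mem_erase h10)
          omega
        · -- `2` would occur twice
          have hτ := (hTmem 2 h10).2
          have hnd : (lnP P + S.val + Multiset.replicate τ 2).Nodup := by
            rw [st.len]
            exact al.nodup
          rw [Multiset.nodup_add] at hnd
          have h11 : (2 : ℕ) ∈ Multiset.replicate τ 2 := by
            rw [hτ]
            simp
          exact (Multiset.disjoint_left.1 hnd.2.2) (Multiset.mem_add.2 (Or.inl h8)) h11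
      rw [if_pos h7, if_pos h9]
    · rw [if_neg h7]
      exact Nat.zero_le _
  -- the size of the rest
  have hcard2 : 2 * H.card ≤ ∑ b ∈ H, b := by
    have h4 : ∑ b ∈ H, 2 ≤ ∑ b ∈ H, b := sum_le_sum fun b hb => f5 b (hH hb)
    rw [sum_const, smul_eq_mul, mul_comm] at h4
    exact h4
  have hn : ∑ b ∈ H, b = ∑ j ∈ range (y - 1), C j := by
    have h4 : ∑ j ∈ range (y - 1), C j = C 0 + ∑ j ∈ Icc 1 (y - 2), C j := by
      obtain ⟨k, hk⟩ : ∃ k, y = k + 2 := ⟨y - 2, by omega⟩
      subst hk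
      rw [show k + 2 - 1 = k + 1 by omega, show k + 2 - 2 = k by omega, sum_range_succ']
      rw [add_comm]
      congr 1
      rw [range_eq_Ico, sum_Ico_add' (fun j => C j) 0 k 1]
      apply sum_congr _ (fun _ _ => rfl)
      ext j
      rw [mem_Ico, mem_Icc]
      omega
    rw [h4]
    omega
  have hn2 : 2 * (y - 1) ≤ ∑ j ∈ range (y - 1), C j := by
    have h4 : ∑ j ∈ range (y - 1), 2 ≤ ∑ j ∈ range (y - 1), C j :=
      sum_le_sum fun j hj => st.shp.two j (by rw [mem_range] at hj; omega)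
    rw [sum_const, smul_eq_mul, card_range, mul_comm] at h4
    exact h4
  have hEx := f10
  apply StpD_core hds hH (C y)
  · omega
  · exact le_refl _
  · omega
  · omega
  · rw [h2H]
    omega
  · omega
  · rintro ⟨e1, e2, e3⟩
    rcases e3 with ⟨e3, -, -⟩ | ⟨e3, e4, -⟩ | ⟨e3, -, -⟩
    · have h4 : 3 ∈ H := by rw [e3]; simp
      rw [hHdef, mem_union] at h4
      rcases h4 with h4 | h4
      · exact h3 h4
      · have := (hTmem 3 h4).1
        omega
    · have h4 : 2 ∈ H := by rw [e3]; simp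
      rw [if_pos h4] at h2H
      have e5 : 0 < y - 1 := by omega
      simp only [if_pos e5] at e4
      rcases htau with h5 | ⟨-, h5⟩
      · omega
      · omega
    · have h4 : 3 ∈ H := by rw [e3]; simp
      rw [hHdef, mem_union] at h4
      rcases h4 with h4 | h4
      · exact h3 h4
      · have := (hTmem 3 h4).1
        omega

end Pool.Agent.RST
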