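import Pool.Agent.RST.StpA

/-!
# RST/StpT: a step in the tail
-/

set_option autoImplicit false

namespace Pool.Agent.RST

open Finset

/-- mountain with 1 cell in the column `y - 1` and `a - 1` cells in the tail; the tail is not
exhausted -/
theorem stT_tail {y τ : ℕ} {C : ℕ → ℕ} {al : Finset ℕ} {P : List Mt} {S : Finset ℕ} {x : ℕ → ℕ}
    {p : ℕ} (st : StT y τ C al P S x p) (hr : 2 ≤ S.card) (a : ℕ) (ha : a ∈ S)
    (hmin : ∀ t ∈ S, a ≤ t) (hE : a + S.card ≤ Ex y x + 1) (hin : a ≤ x y)
    (hx : 3 ≤ x (y - 1)) :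
    ∃ (q : Mt) (x' : ℕ → ℕ), StT y τ C al (q :: P) (S.erase a) x' (p + 1) := by
  obtain ⟨l, rfl⟩ : ∃ l, y = l + 1 := ⟨y - 1, by have := st.shp.hy; omega⟩
  have hy := st.shp.hy
  have e1 : l + 1 - 1 = l := by omega
  have e2 : l + 1 - 2 = l - 1 := by omega
  have a3 := st.S3 a ha
  rw [e1] at hx
  set f : ℕ → ℕ := f2c l 1 (a - 1) with hf
  have fl : f l = 1 := by simp [hf, f2c]
  have fh : f (l + 1) = a - 1 := by simp [hf, f2c]
  have fo : ∀ j, j ≠ l → j ≠ l + 1 → f j = 0 := by
    intro j h1 h2
    simp only [hf, f2c]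
    rw [if_neg h1, if_neg h2]
  have hok : MtOK l (l + 1) f := mtOK_f2c (by norm_num) (by omega)
  have hfle : ∀ j, 1 ≤ j → j ≤ l + 1 → f j ≤ x j := by
    intro j h1 h2
    by_cases hj : j = l
    · subst hj
      rw [fl]
      omega
    · by_cases hj2 : j = l + 1
      · subst hj2
        rw [fh]
        omega
      · rw [fo j hj hj2]
        omega
  have hlen : (mt l (l + 1) f).length = a := by
    rw [hok.length (l + 1) le_rfl, f2c_sum le_rfl]
    omega
  have hsumf : ∑ k ∈ range (l + 1 + 1), f k = a := by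
    rw [f2c_sum le_rfl]
    omega
  have hEx := ex_sub (y := l + 1) (x := x) (f := f) (fo 0 (by omega) (by omega)) hfle
  rw [hsumf] at hEx
  -- the excess
  have eb1 : ∀ b, b + 1 < l + 1 → eb l (l + 1) f b b = 0 := by
    intro b hb
    unfold eb
    rw [if_pos rfl, if_neg (by omega), if_neg (by omega), sub_zero]
  have eb2 : ∀ b, b + 1 < l + 1 → eb l (l + 1) f b (b + 1) = if b + 1 = l then 1 else 0 := by
    intro b hb
    unfold eb
    rw [if_neg (by omega), if_pos rfl, if_neg (show ¬ (b + 1 = l + 1 ∧ f (l + 1) = 1) by omega),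
      if_neg (show ¬ (l < b + 1 ∧ b + 1 < l + 1 ∧ 3 ≤ f (b + 1)) by omega)]
    ring
  have hgt : ∀ t ∈ S.erase a, a + 1 ≤ t := by
    intro t ht
    rw [mem_erase] at ht
    have := hmin t ht.2
    have := ht.1
    omega
  have hcard : (S.erase a).card = S.card - 1 := card_erase_of_mem ha
  refine ⟨⟨l, l + 1, f⟩, fun j => x j - f j, ?_⟩
  refine
    { shp := st.shp
      tau := st.tau
      len := lnP_step hlen ha st.len
      S3 := fun t ht => st.S3 t (mem_of_mem_erase ht)
      pok := ?_
      bot := ?_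
      cnt := ?_
      c0 := ?_
      tot := ?_
      m1 := st.m1
      my := st.my
      xm := ?_
      xz := ?_
      mid := ?_
      b0 := ?_
      bhi := ?_
      bm := ?_
      bm1 := ?_
      blo := ?_
      g1 := ?_
      cr := ?_
      Er := ?_
      full := ?_
      c1 := ?_
      pl := ?_
      tl := ?_
      x2 := ?_
      pt := ?_ }
  · intro q hq
    rw [List.mem_cons] at hq
    rcases hq with rfl | hq
    · exact ⟨hok, le_rfl⟩
    · exact st.pok q hq
  · intro q hq
    rw [List.mem_cons] at hq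
    rcases hq with rfl | hq
    · show 1 ≤ l; omega
    · exact st.bot q hq
  · intro j h1 h2
    rw [cntP_cons]
    show f j + cntP P j + (x j - f j) = C j
    have h3 := hfle j h1 h2
    have h4 := st.cnt j h1 h2
    omega
  · show x 0 - f 0 + 2 * τ = C 0
    rw [fo 0 (by omega) (by omega)]
    exact st.c0
  · have h1 := Finset.sum_erase_add S (fun b => b) ha
    have h2 := st.tot
    show ∑ b ∈ S.erase a, b = x 0 - f 0 + Ex (l + 1) (fun j => x j - f j)
    rw [fo 0 (by omega) (by omega)]
    omega
  · show 1 ≤ x (l + 1) - f (l + 1)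
    rw [fh]
    omega
  · intro j h1 h2
    omega
  · intro j h1 h2
    show 2 ≤ x j - f j
    by_cases hj : j = l
    · subst hj
      rw [fl]
      omega
    · rw [fo j hj (by omega)]
      exact st.mid j h1 h2
  · intro b hb
    rw [ebP_cons]
    show _ ≤ eb l (l + 1) f b b + _
    rw [eb1 b hb, zero_add]
    exact st.b0 b hb
  · intro b hb hmb
    omega
  · intro h
    omega
  · intro h
    rw [ebP_cons, e2, e1]
    show _ ≤ eb l (l + 1) f (l - 1) l + _
    have h1 := eb2 (l - 1) (by omega)
    rw [show l - 1 + 1 = l by omega, if_pos rfl] at h1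
    rw [h1]
    have h2 := st.bm1 h
    rw [e2, e1] at h2
    push_cast
    linarith
  · intro b hb
    rw [ebP_cons]
    show _ ≤ eb l (l + 1) f b (b + 1) + _
    rw [eb2 b (by omega), if_neg (by omega), zero_add]
    exact st.blo b hb
  · intro h
    omega
  · intro h1 h2
    omega
  · rw [hcard]
    omega
  · intro j h1 h2
    show x j - f j = C j
    rw [fo j (by omega) (by omega)]
    exact st.full j h1 h2
  · have h1 := st.c1
    rw [e1] at h1 ⊢
    show C l = x l - f l + (p + 1)
    rw [fl]
    omega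
  · rw [List.length_cons, st.pl]
  · rw [lnP_cons, hlen, Multiset.sum_cons]
    show a + (lnP P).sum + (x (l + 1) - f (l + 1)) = C (l + 1) + (p + 1)
    rw [fh]
    have := st.tl
    omega
  · rw [e1]
    show 2 ≤ x l - f l
    rw [fl]
    omega
  · intro h t ht
    have h1 := st.pt h a ha
    have h2 := hgt t ht
    omega

/-- the same, the tail is exhausted -/
theorem stT_last {y τ : ℕ} {C : ℕ → ℕ} {al : Finset ℕ} {P : List Mt} {S : Finset ℕ} {x : ℕ → ℕ}
    {p : ℕ} (st : StT y τ C al P S x p) (hr : 2 ≤ S.card) (a : ℕ) (ha : a ∈ S)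
    (hmin : ∀ t ∈ S, a ≤ t) (hE : a + S.card ≤ Ex y x + 1) (hin : a = x y + 1) :
    ∃ (q : Mt) (x' : ℕ → ℕ), StC y τ C al (q :: P) (S.erase a) x' (y - 1) 0 (p + 1) := by
  obtain ⟨l, rfl⟩ : ∃ l, y = l + 1 := ⟨y - 1, by have := st.shp.hy; omega⟩
  have hy := st.shp.hy
  have e1 : l + 1 - 1 = l := by omega
  have e2 : l + 1 - 2 = l - 1 := by omega
  have a3 := st.S3 a ha
  have hx2 := st.x2
  have hc1 := st.c1
  rw [e1] at hx2 hc1 ⊢
  set f : ℕ → ℕ := f2c l 1 (a - 1) with hf
  have fl : f l = 1 := by simp [hf, f2c]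
  have fh : f (l + 1) = a - 1 := by simp [hf, f2c]
  have fo : ∀ j, j ≠ l → j ≠ l + 1 → f j = 0 := by
    intro j h1 h2
    simp only [hf, f2c]
    rw [if_neg h1, if_neg h2]
  have hok : MtOK l (l + 1) f := mtOK_f2c (by norm_num) (by omega)
  have hfle : ∀ j, 1 ≤ j → j ≤ l + 1 → f j ≤ x j := by
    intro j h1 h2
    by_cases hj : j = l
    · subst hj
      rw [fl]
      omega
    · by_cases hj2 : j = l + 1
      · subst hj2
        rw [fh]
        omega
      · rw [fo j hj hj2]
        omega
  have hlen : (mt l (l + 1) f).length = a := by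
    rw [hok.length (l + 1) le_rfl, f2c_sum le_rfl]
    omega
  have hsumf : ∑ k ∈ range (l + 1 + 1), f k = a := by
    rw [f2c_sum le_rfl]
    omega
  have hEx := ex_sub (y := l + 1) (x := x) (f := f) (fo 0 (by omega) (by omega)) hfle
  rw [hsumf] at hEx
  -- the excess
  have eb1 : ∀ b, b + 1 < l + 1 → eb l (l + 1) f b b = 0 := by
    intro b hb
    unfold eb
    rw [if_pos rfl, if_neg (by omega), if_neg (by omega), sub_zero]
  have eb2 : ∀ b, b + 1 < l + 1 → eb l (l + 1) f b (b + 1) = if b + 1 = l then 1 else 0 := by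
    intro b hb
    unfold eb
    rw [if_neg (by omega), if_pos rfl, if_neg (show ¬ (b + 1 = l + 1 ∧ f (l + 1) = 1) by omega),
      if_neg (show ¬ (l < b + 1 ∧ b + 1 < l + 1 ∧ 3 ≤ f (b + 1)) by omega)]
    ring
  have hgt : ∀ t ∈ S.erase a, a + 1 ≤ t := by
    intro t ht
    rw [mem_erase] at ht
    have := hmin t ht.2
    have := ht.1
    omega
  have hcard : (S.erase a).card = S.card - 1 := card_erase_of_mem ha
  refine ⟨⟨l, l + 1, f⟩, fun j => x j - f j, ?_⟩
  refine
    { shp := st.shp
      tau := st.tau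
      len := lnP_step hlen ha st.len
      S3 := fun t ht => st.S3 t (mem_of_mem_erase ht)
      pok := ?_
      bot := ?_
      cnt := ?_
      c0 := ?_
      tot := ?_
      m1 := by omega
      my := by omega
      xm := ?_
      xz := ?_
      mid := ?_
      b0 := ?_
      bhi := ?_
      bm := ?_
      bm1 := ?_
      blo := ?_
      g1 := ?_
      cr := ?_
      Er := ?_
      mlt := by omega
      full := ?_
      c1 := ?_
      le := ?_
      p2 := ?_
      pp := ?_
      f1 := ?_
      c3 := ?_ }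
  · intro q hq
    rw [List.mem_cons] at hq
    rcases hq with rfl | hq
    · exact ⟨hok, le_rfl⟩
    · exact st.pok q hq
  · intro q hq
    rw [List.mem_cons] at hq
    rcases hq with rfl | hq
    · show 1 ≤ l; omega
    · exact st.bot q hq
  · intro j h1 h2
    rw [cntP_cons]
    show f j + cntP P j + (x j - f j) = C j
    have h3 := hfle j h1 h2
    have h4 := st.cnt j h1 h2
    omega
  · show x 0 - f 0 + 2 * τ = C 0
    rw [fo 0 (by omega) (by omega)]
    exact st.c0
  · have h1 := Finset.sum_erase_add S (fun b => b) ha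
    have h2 := st.tot
    show ∑ b ∈ S.erase a, b = x 0 - f 0 + Ex (l + 1) (fun j => x j - f j)
    rw [fo 0 (by omega) (by omega)]
    omega
  · show 1 ≤ x l - f l
    rw [fl]
    omega
  · intro j h1 h2
    show x j - f j = 0
    have h3 : j = l + 1 := by omega
    subst h3
    rw [fh]
    omega
  · intro j h1 h2
    show 2 ≤ x j - f j
    rw [fo j (by omega) (by omega)]
    exact st.mid j h1 (by omega)
  · intro b hb
    rw [ebP_cons, if_neg (by omega)]
    show _ ≤ eb l (l + 1) f b b + _
    rw [eb1 b hb, zero_add]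
    have := st.b0 b hb
    rwa [if_neg (by omega)] at this
  · intro b hb hmb
    omega
  · intro h
    rw [ebP_cons]
    show _ ≤ eb l (l + 1) f (l - 1) l + _
    have h1 := eb2 (l - 1) (by omega)
    rw [show l - 1 + 1 = l by omega, if_pos rfl] at h1
    rw [h1]
    have h2 := st.bm1 hy
    rw [e2, e1] at h2
    push_cast
    linarith
  · intro h
    rw [ebP_cons]
    show _ ≤ eb l (l + 1) f (l - 2) (l - 1) + _
    have h1 := eb2 (l - 2) (by omega)
    rw [show l - 2 + 1 = l - 1 by omega, if_neg (by omega)] at h1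
    rw [h1, zero_add]
    have h2 := st.blo (l - 2) (by omega)
    rw [show l - 2 + 1 = l - 1 by omega] at h2
    exact_mod_cast h2
  · intro b hb
    rw [ebP_cons]
    show _ ≤ eb l (l + 1) f b (b + 1) + _
    rw [eb2 b (by omega), if_neg (by omega), zero_add]
    exact st.blo b (by omega)
  · intro _ _
    omega
  · intro h1 h2
    omega
  · rw [hcard]
    omega
  · intro j h1 h2
    show x j - f j = C j
    rw [fo j (by omega) (by omega)]
    exact st.full j h1 (by omega)
  · intro h
    show C (l - 1) = x (l - 1) - f (l - 1) + 2 * 0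
    rw [fo (l - 1) (by omega) (by omega)]
    have := st.full (l - 1) (by omega) (by omega)
    omega
  · intro h
    show x l - f l ≤ x (l - 1) - f (l - 1)
    rw [fo (l - 1) (by omega) (by omega), fl]
    have h1 := st.full (l - 1) (by omega) (by omega)
    have h2 := st.shp.anti (l - 1) l (by omega) (by omega)
    omega
  · intro _ h
    omega
  · intro _ t ht
    right
    have := hgt t ht
    omega
  · intro h
    right
    refine ⟨by omega, a, a3, ?_, fun t ht => Or.inr (hgt t ht)⟩
    subst h
    show C 1 + 3 ≤ x 1 - f 1 + 2 * (p + 1) + a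
    rw [fl]
    omega
  · intro _
    left
    intro h
    have := hgt 3 h
    omega

end Pool.Agent.RST
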