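import Pool.Agent.RST.Chn
import Pool.Agent.RST.StpA
import Pool.Agent.RST.StpB
import Pool.Agent.RST.StpT
import Pool.Agent.RST.StpD
import Pool.Agent.RST.Spor

/-!
# RST/Chn2: terminal states and the loops
-/

set_option autoImplicit false

namespace Pool.Agent.RST

open Finset

section

variable {y τ : ℕ} {C : ℕ → ℕ} {al : Finset ℕ} {P : List Mt} {S : Finset ℕ} {x : ℕ → ℕ}
  {m p g : ℕ}

theorem St.xle (st : St y τ C al P S x m p g) (j : ℕ) (h1 : 1 ≤ j) (h2 : j ≤ y) : x j ≤ C j := by
  have := st.cnt j h1 h2
  omega

/-- small first column: if at least two cycles (all at least 4, or the 3-cycle and few cells) are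
left then the construction goes on -/
theorem small_aux {S : Finset ℕ} {x0 E : ℕ} (h3 : ∀ a ∈ S, 3 ≤ a) (hx : x0 ≤ 3)
    (htot : ∑ a ∈ S, a = x0 + E) (hr : 2 ≤ S.card) (hE : E ≤ S.card + 1) : False := by
  have := sum_four h3
  omega

theorem small_aux' {S : Finset ℕ} {x0 E a : ℕ} (h3 : ∀ a ∈ S, 3 ≤ a) (hx : x0 ≤ 3)
    (h3' : 3 ∉ S) (ha : a ∈ S) (htot : ∑ a ∈ S, a = x0 + E) (hr : 2 ≤ S.card)
    (hE : E + 2 ≤ a + S.card) : False := by
  have h1 : a + ∑ t ∈ S.erase a, t = ∑ t ∈ S, t := add_sum_erase S (fun t => t) ha
  have h2 : 4 * (S.erase a).card ≤ ∑ t ∈ S.erase a, t := card_mul_le fun t ht => by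
    have h5 := mem_of_mem_erase ht
    have h6 := h3 t h5
    have h7 : t ≠ 3 := fun h => h3' (h ▸ h5)
    omega
  have h4 : (S.erase a).card + 1 = S.card := by
    rw [card_erase_of_mem ha]
    omega
  omega

theorem cntP_pos {P : List Mt} {q : Mt} (hq : q ∈ P) (j : ℕ) : q.f j ≤ cntP P j := by
  induction P with
  | nil => simp at hq
  | cons r P ih =>
    rw [cntP_cons]
    rw [List.mem_cons] at hq
    rcases hq with rfl | hq
    · omega
    · have := ih hq
      omega

/-- the two special cases with a 3-cycle, a 4-cycle placed inside the columns 1, 2 -/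
theorem special_t1 (st : StC y τ C al P S x m p g) (hth : Th y C P S x m p) (h3 : 3 ∈ S)
    (hcard : S.card = 2) (hm : 2 ≤ m) (hx1 : x 1 = 2) (a : ℕ) (ha : a ∈ S) (ha3 : a ≠ 3) :
    (C 1 + 2 ≤ C 0 ∧ Ex y x + 1 ≤ a) ∨ Goal y C al := by
  have ha4 : 4 ≤ a := by
    have := st.S3 a ha
    omega
  have hSa : S = insert a {3} := by
    symm
    apply eq_of_subset_of_card_le
    · intro t ht
      rw [mem_insert, mem_singleton] at ht
      rcases ht with rfl | rfl
      · exact ha
      · exact h3
    · rw [hcard, card_insert_of_notMem (by simpa using ha3), card_singleton]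
  have hsum : ∑ t ∈ S, t = a + 3 := by
    rw [hSa, sum_insert (by simpa using ha3), sum_singleton]
  have htot := st.tot
  rw [hsum] at htot
  have hc0 := st.c0
  have hy := st.shp.hy
  rcases hth h3 with h | ⟨hP, hE⟩ | ⟨hCy, hC3, hp, hpP, hPy, hPt, hPw⟩
  · omega
  · left
    have h1 := st.cnt 1 (le_refl _) (by omega)
    rw [hP] at h1
    have h2 : cntP ([] : List Mt) 1 = 0 := rfl
    rw [h2] at h1
    omega
  · have hmlt := st.mlt
    have hC1 : 3 ≤ C 1 := by
      have := st.shp.anti 1 (y - 1) (by omega) (by omega)
      omega
    have hm2 : m = 2 := by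
      by_contra h
      have := st.full 1 (le_refl _) (by omega)
      omega
    subst hm2
    have hc1 := st.c1 (le_refl _)
    have hle := st.le (le_refl _)
    simp only [show 2 - 1 = 1 from rfl] at hc1 hle
    have hp1 : 1 ≤ p := by omega
    have hp2 := st.p2 (le_refl _) hp1
    have hp' := hp (le_refl _) hp1
    have hC2 : C 2 ≤ C 1 := st.shp.anti 1 2 (by omega) (by omega)
    have hPl : P.length = 1 := by omega
    have hy3 : y = 3 := by
      have := hPy (by omega)
      omega
    subst hy3
    obtain ⟨q, rfl⟩ := List.length_eq_one_iff.1 hPl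
    have hp1' : p = 1 := by
      rw [hPl] at hpP
      omega
    subst hp1'
    have hEx : Ex 3 x = 4 := by
      unfold Ex
      have h4 : Icc 1 3 = ({1, 2, 3} : Finset ℕ) := by decide
      rw [h4, sum_insert (by decide), sum_insert (by decide), sum_singleton]
      have := st.xz 3 (by omega) (le_refl _)
      omega
    -- the placed cycle
    have hw : (mt q.l q.h q.f).length = 4 := by
      have hq := st.pok q (by simp)
      rw [hq.1.length 3 hq.2, sum_range_Icc]
      have h4 : Icc 1 3 = ({1, 2, 3} : Finset ℕ) := by decide
      rw [h4, sum_insert (by decide), sum_insert (by decide), sum_singleton]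
      have g0 : cntP [q] 0 = 0 := cntP_zero st.pok st.bot
      have g1 := st.cnt 1 (by omega) (by omega)
      have g2 := st.cnt 2 (by omega) (by omega)
      have g3 := st.cnt 3 (by omega) (by omega)
      have e : ∀ j, cntP [q] j = q.f j := by
        intro j
        simp [cntP]
      rw [e] at g0 g1 g2 g3
      have := st.xz 3 (by omega) (le_refl _)
      omega
    have ha5 : 4 < a := by
      have := (hPw (mt q.l q.h q.f) (by simp [wdP])).2 a ha
      rw [hw] at this
      rcases this with h | h
      · exact absurd h ha3
      · exact h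
    rcases st.tau with ht | ⟨ht, -⟩
    · subst ht
      rcases Nat.lt_or_ge 6 a with h6 | h6
      · left
        omega
      · right
        have hlen := st.len
        have hl : lnP [q] = {4} := by
          unfold lnP wdP
          simp [hw]
        rw [hl, hSa, Multiset.replicate_zero, add_zero,
          insert_val_of_notMem (by simpa using ha3), singleton_val] at hlen
        unfold Goal
        rw [← hlen, show (List.range 3).map C ++ List.replicate (C 3) 1 =
          [C 0, C 1, C 2] ++ List.replicate (C 3) 1 from rfl, hCy, List.replicate_zero,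
          List.append_nil]
        have h7 : C 1 = 4 := by omega
        have h8 : C 2 = 4 := by omega
        have h9 : a = 5 ∨ a = 6 := by omega
        rcases h9 with rfl | rfl
        · have h10 : C 0 = 4 := by omega
          rw [h7, h8, h10]
          have := spor_543_444
          convert this using 1
          decide
        · have h10 : C 0 = 5 := by omega
          rw [h7, h8, h10]
          have := spor_643_544
          convert this using 1
          decide
    · left
      omega

/-- the exceptional pair `{5, 3}`, `(4, 4)` does not occur as the rest of a longer chain -/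
theorem fl_aux (st : StC y τ C al P S x m p g) (hth : Th y C P S x m p) (hne : ¬ Exc y C al)
    (h3 : 3 ∈ S) (hm : m = 1) (hC : C 0 = C 1) (hx : x 1 = C 1) (ht : τ = 0) : S ≠ {5, 3} := by
  subst hm
  subst ht
  intro hS
  have hy := st.shp.hy
  have hcard : S.card = 2 := by rw [hS]; decide
  have hsum : ∑ t ∈ S, t = 8 := by rw [hS]; decide
  have htot := st.tot
  rw [hsum] at htot
  have hc0 := st.c0
  have hex : Ex y x = x 1 := by
    rw [st.exm]
    simp
  have hx1 : x 1 = 4 := by omega
  rcases hth h3 with h | ⟨hP, hE⟩ | ⟨hCy, hC3, hp, hpP, hPy, hPt, hPw⟩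
  · omega
  · rw [hex, hcard] at hE
    omega
  · have h5 : 5 ∈ S := by rw [hS]; decide
    have hPl : P.length ≤ 1 := by
      have := hPt 5 h5
      omega
    rcases P with _ | ⟨q, P⟩
    · -- nothing is placed
      apply hne
      have hCj : ∀ j, 2 ≤ j → j ≤ y → C j = 0 := by
        intro j h1 h2
        have h3 := st.cnt j (by omega) h2
        have h4 := st.xz j (by omega) h2
        have h5 : cntP ([] : List Mt) j = 0 := rfl
        omega
      have hy2 : y = 2 := by
        by_contra h
        have h1 := hCj 2 (le_refl _) hy
        have h2 := st.shp.two 2 (by omega)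
        omega
      have hal : al = {5, 3} := by
        apply Finset.val_injective
        rw [← st.len, hS]
        simp [lnP, wdP]
      exact ⟨hy2, hCj 2 (le_refl _) hy, Or.inr (Or.inr ⟨hal, by omega, by omega⟩)⟩
    · have hP0 : P = [] := by
        rw [List.length_cons] at hPl
        exact List.length_eq_zero_iff.1 (by omega)
      subst hP0
      have hq := st.pok q (by simp)
      have hl := hPw (mt q.l q.h q.f) (by simp [wdP])
      have hlen := hq.1.length y hq.2
      have hf0 : ∀ j, 1 ≤ j → j ≤ y → q.f j + x j = C j := by
        intro j h1 h2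
        have := st.cnt j h1 h2
        simpa [cntP] using this
      have hbl := st.bot q (by simp)
      have hlh := hq.1.lt
      have hfl := hq.1.bot
      have hfh := hq.1.top
      have hl2 : q.l ≠ 1 := by
        intro h
        rw [h] at hfl
        have := hf0 1 (le_refl _) (by omega)
        omega
      have hhy : q.h ≠ y := by
        intro h
        rw [h] at hfh
        have := hf0 y (by omega) (le_refl _)
        omega
      have hqh := hq.2
      have h1 : C (y - 1) ≤ C q.l := st.shp.anti q.l (y - 1) (by omega) (by omega)
      have h2 : C (y - 1) ≤ C q.h := st.shp.anti q.h (y - 1) (by omega) (by omega)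
      have h3' := hf0 q.l hbl (by omega)
      have h4' := hf0 q.h (by omega) hqh
      have hz1 := st.xz q.l (by omega) (by omega)
      have hz2 := st.xz q.h (by omega) hqh
      have hsum2 : q.f q.l + q.f q.h ≤ ∑ k ∈ range (y + 1), q.f k := by
        have h6 : ({q.l, q.h} : Finset ℕ) ⊆ range (y + 1) := by
          intro j hj
          rw [mem_insert, mem_singleton] at hj
          rw [mem_range]
          omega
        have h7 := sum_le_sum_of_subset (f := q.f) h6
        rwa [sum_insert (by
          rw [mem_singleton]
          omega), sum_singleton] at h7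
      have h8 := hl.2 5 h5
      omega

/-- a terminal state without tail cells -/
theorem stC_fs (st : StC y τ C al P S x m p g) (hth : Th y C P S x m p) (hne : ¬ Exc y C al)
    (hstop : S.card = 1 ∨ m = 1 ∨
      ∀ a ∈ S, a ≠ 3 → (∀ t ∈ S, t = 3 ∨ a ≤ t) → Ex y x + 2 ≤ a + S.card) :
    FS y τ C al P S x m p g := by
  have hy := st.shp.hy
  refine ⟨st.toSt, hstop, ?_, ?_, st.f1, ?_, ?_, ?_⟩
  · intro j h1 h2 h3
    rcases Nat.lt_or_ge (j + 1) m with h4 | h4
    · rw [st.full j h1 (by omega)]
      have h5 := st.toSt.xle (j + 1) (by omega) (by omega)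
      have h6 := st.shp.anti j (j + 1) (by omega) h3
      omega
    · have h5 : m = j + 1 := by omega
      have h6 := st.le (by omega)
      rw [h5] at h6
      simpa using h6
  · by_contra hcon
    push Not at hcon
    obtain ⟨hc, hcard⟩ := hcon
    have hSne : 1 ≤ S.card := by
      by_contra h
      have h0 : S.card = 0 := by omega
      rw [card_eq_zero] at h0
      have h1 := st.tot
      rw [h0, sum_empty] at h1
      have h2 := st.c0
      have h3 := st.shp.two 0 (by omega)
      rcases st.tau with h4 | ⟨h4, h5⟩ <;> omega
    have hr : 2 ≤ S.card := by omega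
    have h3 : 3 ∉ S := by
      rcases st.c3 (by omega) with h | h
      · exact h
      · exact absurd h hcard
    have htau : τ = 0 := by
      rcases st.tau with h4 | ⟨h4, h5⟩
      · exact h4
      · omega
    have hc0 := st.c0
    have htot := st.tot
    obtain ⟨a, ha, ha3, hamin⟩ := exists_ne hr
    rcases hstop with h | h | h
    · exact hcard h
    · subst h
      have hex : Ex y x = x 1 := by
        rw [st.exm]
        simp
      have h4 : 4 * S.card ≤ ∑ t ∈ S, t := card_mul_le fun t ht => by
        have h6 := st.S3 t ht
        have h7 : t ≠ 3 := fun h => h3 (h ▸ ht)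
        omega
      have h5 := st.toSt.x1le
      have h6 := st.toSt.c01
      omega
    · exact small_aux' st.S3 (by omega : x 0 ≤ 3) h3 ha htot hr (h a ha ha3 hamin)
  · intro hm _
    left
    rcases Nat.lt_or_ge 2 m with h1 | h1
    · exact ⟨0, by have := st.full 1 (le_refl _) (by omega); omega, by
        simpa using st.toSt.e01, Or.inl rfl, fun t ht => by
        have := st.S3 t ht
        omega⟩
    · have h2 : m = 2 := by omega
      subst h2
      have h3 := st.c1 (le_refl _)
      have h4 := st.le (le_refl _)
      have h5 := st.bm1 (le_refl _)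
      simp only [show 2 - 1 = 1 from rfl, show 2 - 2 = 0 from rfl] at h3 h4 h5
      refine ⟨p, h3, h5, Or.inr ?_, st.pp (le_refl _)⟩
      rw [st.exm]
      have h6 : Icc 1 2 = ({1, 2} : Finset ℕ) := by decide
      rw [h6, sum_insert (by decide), sum_singleton]
      omega
  · intro h3 hcard hm hx1 a ha ha3
    exact special_t1 st hth h3 hcard hm hx1 a ha ha3
  · intro h3 hm hC hx ht
    exact fl_aux st hth hne h3 hm hC hx ht

/-- a terminal state with tail cells -/
theorem stT_fs (st : StT y τ C al P S x p) (h3 : 3 ∈ S → S.card = 1 ∨ Ex y x ≤ S.card + 1)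
    (hstop : S.card = 1 ∨ ∀ a ∈ S, (∀ t ∈ S, a ≤ t) → Ex y x + 2 ≤ a + S.card) :
    FS y τ C al P S x y p 0 := by
  have hy := st.shp.hy
  have hSne : 1 ≤ S.card := by
    by_contra h
    have h0 : S.card = 0 := by omega
    rw [card_eq_zero] at h0
    have h1 := st.tot
    rw [h0, sum_empty] at h1
    have h2 := st.c0
    have h3 := st.shp.two 0 (by omega)
    rcases st.tau with h4 | ⟨h4, h5⟩ <;> omega
  have hc3 : 4 ≤ C 0 ∨ S.card = 1 := by
    by_contra hcon
    push Not at hcon
    obtain ⟨hc, hcard⟩ := hcon
    have hr : 2 ≤ S.card := by omega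
    have htau : τ = 0 := by
      rcases st.tau with h4 | ⟨h4, h5⟩
      · exact h4
      · omega
    have hc0 := st.c0
    have htot := st.tot
    by_cases h3' : 3 ∈ S
    · rcases h3 h3' with h | h
      · exact hcard h
      · exact small_aux st.S3 (by omega : x 0 ≤ 3) htot hr h
    · have hne : S.Nonempty := card_pos.1 (by omega)
      rcases hstop with h | h
      · exact hcard h
      · exact small_aux' st.S3 (by omega : x 0 ≤ 3) h3' (min'_mem S hne) htot hr
          (h _ (min'_mem S hne) fun t ht => min'_le S t ht)
  refine ⟨st.toSt, ?_, ?_, hc3, ?_, ?_, ?_, ?_⟩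
  · rcases hstop with h | h
    · exact Or.inl h
    · right
      right
      intro a ha ha3 hamin
      by_cases h3' : 3 ∈ S
      · have ha4 := st.S3 a ha
        rcases h3 h3' with h4 | h4
        · have : S.card = 2 ∨ 2 < S.card ∨ S.card = 1 := by omega
          have h5 := card_le_card (show ({a, 3} : Finset ℕ) ⊆ S by
            intro t ht
            rw [mem_insert, mem_singleton] at ht
            rcases ht with rfl | rfl
            · exact ha
            · exact h3')
          rw [card_insert_of_notMem (by simpa using ha3), card_singleton] at h5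
          omega
        · omega
      · apply h a ha
        intro t ht
        rcases hamin t ht with h4 | h4
        · exact absurd (h4 ▸ ht) h3'
        · exact h4
  · intro j h1 h2 h3
    rw [st.full j h1 (by omega)]
    have h5 := st.toSt.xle (j + 1) (by omega) (by omega)
    have h6 := st.shp.anti j (j + 1) (by omega) h3
    omega
  · intro h
    omega
  · intro _ hr
    have hc4 : 4 ≤ C 0 := by
      rcases hc3 with h | h
      · exact h
      · omega
    rcases Nat.lt_or_ge 2 y with h1 | h1
    · left
      exact ⟨0, by have := st.full 1 (le_refl _) (by omega); omega, by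
        simpa using st.toSt.e01, Or.inl rfl, fun t ht => by
        have := st.S3 t ht
        omega⟩
    · right
      have h2 : y = 2 := by omega
      subst h2
      have h3 := st.c1
      have h5 := st.bm1 (le_refl _)
      simp only [show 2 - 1 = 1 from rfl, show 2 - 2 = 0 from rfl] at h3 h5
      exact ⟨p, h3, h5, fun t ht => Or.inr (st.pt hc4 t ht)⟩
  · intro h3' hcard hm hx1 a ha ha3
    left
    have ha4 := st.S3 a ha
    have hc4 : 4 ≤ C 0 := by
      rcases hc3 with h | h
      · exact h
      · omega
    have hp : p = 0 := by
      have := st.pt hc4 3 h3'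
      omega
    have hP : P = [] := by
      have := st.pl
      exact List.length_eq_zero_iff.1 (by omega)
    have hSa : S = insert a {3} := by
      symm
      apply eq_of_subset_of_card_le
      · intro t ht
        rw [mem_insert, mem_singleton] at ht
        rcases ht with rfl | rfl
        · exact ha
        · exact h3'
      · rw [hcard, card_insert_of_notMem (by simpa using ha3), card_singleton]
    have hsum : ∑ t ∈ S, t = a + 3 := by
      rw [hSa, sum_insert (by simpa using ha3), sum_singleton]
    have htot := st.tot
    rw [hsum] at htot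
    have hc0 := st.c0
    have h1 := st.cnt 1 (le_refl _) (by omega)
    rw [hP] at h1
    have h2 : cntP ([] : List Mt) 1 = 0 := rfl
    rw [h2] at h1
    rcases h3 h3' with h4 | h4
    · omega
    · omega
  · intro _ h
    omega

end

end Pool.Agent.RST
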