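import Pool.Agent.RST.Chn2

/-!
# RST/Chn3: the loops
-/

set_option autoImplicit false

namespace Pool.Agent.RST

open Finset

theorem th_inside {y : ℕ} {C : ℕ → ℕ} {P : List Mt} {S : Finset ℕ} {x x' : ℕ → ℕ} {m p a : ℕ}
    {q : Mt} (hth : Th y C P S x m p) (hr : 2 ≤ S.card) (ha : a ∈ S) (ha4 : 4 ≤ a)
    (hmin : ∀ t ∈ S, t = 3 ∨ a ≤ t) (hE : a + S.card ≤ Ex y x + 1)
    (hpp : ∀ t ∈ S, t = 3 ∨ p + 4 ≤ t) (hxm : x m ≤ C m)
    (hlen : (mt q.l q.h q.f).length = a) (hx' : x' m + a = x m + 2) :
    Th y C (q :: P) (S.erase a) x' m (p + 1) := by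
  intro h3
  have h3' := mem_of_mem_erase h3
  rcases hth h3' with h | ⟨hP, hE'⟩ | ⟨hCy, hC3, hp, hpP, hPy, hPt, hPw⟩
  · omega
  · omega
  · right
    right
    have hpa : p + 4 ≤ a := by
      rcases hpp a ha with h | h
      · omega
      · exact h
    have hPa : P.length + 4 ≤ a := by
      rcases hPt a ha with h | h
      · omega
      · exact h
    refine ⟨hCy, hC3, ?_, ?_, ?_, ?_, ?_⟩
    · intro h1 _
      rw [List.length_cons]
      rcases Nat.eq_zero_or_pos p with h2 | h2
      · omega
      · have := hp h1 h2
        omega
    · rw [List.length_cons]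
      omega
    · intro h1
      rw [List.length_cons] at h1
      exact hPy (by omega)
    · intro t ht
      rw [mem_erase] at ht
      rw [List.length_cons]
      rcases hmin t ht.2 with h1 | h1
      · exact Or.inl h1
      · right
        omega
    · intro w hw
      rw [wdP_cons, List.mem_cons] at hw
      rcases hw with rfl | hw
      · rw [hlen]
        refine ⟨ha4, ?_⟩
        intro t ht
        rw [mem_erase] at ht
        rcases hmin t ht.2 with h1 | h1
        · exact Or.inl h1
        · right
          omega
      · exact ⟨(hPw w hw).1, fun t ht => (hPw w hw).2 t (mem_of_mem_erase ht)⟩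

theorem th_cross {y : ℕ} {C : ℕ → ℕ} {P : List Mt} {S : Finset ℕ} {x x' : ℕ → ℕ} {m m' p a : ℕ}
    {q : Mt} (hth : Th y C P S x m p) (hr : 2 ≤ S.card) (ha : a ∈ S) (ha4 : 4 ≤ a)
    (hmin : ∀ t ∈ S, t = 3 ∨ a ≤ t) (hE : a + S.card ≤ Ex y x + 1)
    (hlen : (mt q.l q.h q.f).length = a) :
    Th y C (q :: P) (S.erase a) x' m' 0 := by
  intro h3
  have h3' := mem_of_mem_erase h3
  rcases hth h3' with h | ⟨hP, hE'⟩ | ⟨hCy, hC3, hp, hpP, hPy, hPt, hPw⟩
  · omega
  · omega
  · right
    right
    have hPa : P.length + 4 ≤ a := by
      rcases hPt a ha with h | h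
      · omega
      · exact h
    refine ⟨hCy, hC3, ?_, ?_, ?_, ?_, ?_⟩
    · intro _ h2
      omega
    · omega
    · intro h1
      rw [List.length_cons] at h1
      omega
    · intro t ht
      rw [mem_erase] at ht
      rw [List.length_cons]
      rcases hmin t ht.2 with h1 | h1
      · exact Or.inl h1
      · right
        omega
    · intro w hw
      rw [wdP_cons, List.mem_cons] at hw
      rcases hw with rfl | hw
      · rw [hlen]
        refine ⟨ha4, ?_⟩
        intro t ht
        rw [mem_erase] at ht
        rcases hmin t ht.2 with h1 | h1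
        · exact Or.inl h1
        · right
          omega
      · exact ⟨(hPw w hw).1, fun t ht => (hPw w hw).2 t (mem_of_mem_erase ht)⟩

/-- **the loop without tail cells** -/
theorem loopC {y τ : ℕ} {C : ℕ → ℕ} {al : Finset ℕ} (hne : ¬ Exc y C al) (n : ℕ) :
    ∀ (P : List Mt) (S : Finset ℕ) (x : ℕ → ℕ) (m p g : ℕ), S.card = n →
      StC y τ C al P S x m p g → Th y C P S x m p → Goal y C al := by
  induction n with
  | zero =>
    intro P S x m p g hS st hth
    exfalso
    rw [card_eq_zero] at hS
    have h1 := st.tot
    rw [hS, sum_empty] at h1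
    have h2 := st.c0
    have h3 := st.shp.two 0 (by have := st.shp.hy; omega)
    rcases st.tau with h4 | ⟨h4, h5⟩ <;> omega
  | succ n ih =>
    intro P S x m p g hS st hth
    by_cases h1 : S.card = 1
    · exact fs_goal (stC_fs st hth hne (Or.inl h1))
    by_cases hm : m = 1
    · exact fs_goal (stC_fs st hth hne (Or.inr (Or.inl hm)))
    have hm2 : 2 ≤ m := by
      have := st.m1
      omega
    have hr : 2 ≤ S.card := by
      have : 1 ≤ S.card := by omega
      omega
    obtain ⟨a, ha, ha3, hamin⟩ := exists_ne hr
    have ha4 : 4 ≤ a := by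
      have := st.S3 a ha
      omega
    by_cases hE : a + S.card ≤ Ex y x + 1
    · have hcard : (S.erase a).card = n := by
        rw [card_erase_of_mem ha]
        omega
      rcases Nat.lt_or_ge (x m) a with hin | hin
      · obtain ⟨q, x', m', g', hlen, st'⟩ := st_cross st.toSt hm2 hr st.full
          (st.c1 hm2).le a ha (by
            intro t ht
            rw [mem_erase] at ht
            rcases hamin t ht.2 with h | h
            · exact Or.inl h
            · right
              omega) hE hin (by
            intro h
            left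
            intro h4
            rcases st.c3 h with h5 | h5
            · exact h5 (mem_of_mem_erase h4)
            · exact h1 h5) (by
            rintro ⟨h4, -⟩
            have := st.mlt
            omega)
        exact ih _ _ _ _ _ _ hcard st' (th_cross hth hr ha ha4 hamin hE hlen)
      · obtain ⟨q, x', hlen, hx', st'⟩ := stC_inside st hm2 hr a ha ha4 hamin hE hin
        exact ih _ _ _ _ _ _ hcard st' (th_inside hth hr ha ha4 hamin hE (st.pp hm2)
          (st.toSt.xle m (by omega) st.my) hlen hx')
    · refine fs_goal (stC_fs st hth hne (Or.inr (Or.inr ?_)))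
      intro b hb hb3 hbmin
      have h4 : b = a := by
        rcases hbmin a ha with h | h
        · exact absurd h ha3
        · rcases hamin b hb with h' | h'
          · exact absurd h' hb3
          · omega
      subst h4
      omega

/-- **the loop with tail cells** -/
theorem loopT {y τ : ℕ} {C : ℕ → ℕ} {al : Finset ℕ} (hne : ¬ Exc y C al) (hds : DSR y C al)
    (hE2 : al.card + y ≤ ∑ j ∈ range y, C j) (n : ℕ) :
    ∀ (P : List Mt) (S : Finset ℕ) (x : ℕ → ℕ) (p : ℕ), S.card = n →
      StT y τ C al P S x p → Goal y C al := by
  induction n with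
  | zero =>
    intro P S x p hS st
    exfalso
    rw [card_eq_zero] at hS
    have h1 := st.tot
    rw [hS, sum_empty] at h1
    have h2 := st.c0
    have h3 := st.shp.two 0 (by have := st.shp.hy; omega)
    rcases st.tau with h4 | ⟨h4, h5⟩ <;> omega
  | succ n ih =>
    intro P S x p hS st
    have hy := st.shp.hy
    by_cases h1 : S.card = 1
    · exact fs_goal (stT_fs st (fun _ => Or.inl h1) (Or.inl h1))
    have hr : 2 ≤ S.card := by omega
    have hSne : S.Nonempty := card_pos.1 (by omega)
    obtain ⟨a, ha, hamin⟩ : ∃ a ∈ S, ∀ t ∈ S, a ≤ t :=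
      ⟨S.min' hSne, min'_mem S hSne, fun t ht => min'_le S t ht⟩
    have ha3 := st.S3 a ha
    have h3e : 3 ∉ S.erase a := by
      intro h
      rw [mem_erase] at h
      have := hamin 3 h.2
      omega
    by_cases hE : a + S.card ≤ Ex y x + 1
    · have hcard : (S.erase a).card = n := by
        rw [card_erase_of_mem ha]
        omega
      have hx2 := st.x2
      have hxy := st.xm
      by_cases ht : τ = 1 ∧ x (y - 1) = 2
      · obtain ⟨ht, hx⟩ := ht
        subst ht
        exact stT_ds1 hds st hE2 (by omega) hx
      rcases Nat.lt_or_ge (x y) a with hin | hin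
      · by_cases hin' : a = x y + 1
        · obtain ⟨q, x', st'⟩ := stT_last st hr a ha hamin hE hin'
          exact loopC hne n _ _ _ _ _ _ hcard st' (fun h => absurd h h3e)
        · by_cases hds2 : a = x y + x (y - 1)
          · exact stT_ds2 hds st hr a ha h3e hE hds2
          · obtain ⟨q, x', m', g', hlen, st'⟩ := st_cross st.toSt hy hr st.full
              (by have := st.c1; omega) a ha (by
                intro t ht
                rw [mem_erase] at ht
                have := hamin t ht.2
                right
                omega) hE hin (fun _ => Or.inl h3e) (fun h => hds2 h.2)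
            exact loopC hne n _ _ _ _ _ _ hcard st' (fun h => absurd h h3e)
      · rcases Nat.lt_or_ge (x (y - 1)) 3 with hx | hx
        · have hx' : x (y - 1) = 2 := by omega
          rcases st.tau with h4 | ⟨h4, -⟩
          · subst h4
            exact stT_ds0 hds st hE2 hr a ha hE hin hx'
          · exact absurd ⟨h4, hx'⟩ ht
        · obtain ⟨q, x', st'⟩ := stT_tail st hr a ha hamin hE hin hx
          exact ih _ _ _ _ hcard st'
    · refine fs_goal (stT_fs st ?_ (Or.inr ?_))
      · intro h3
        right
        have := hamin 3 h3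
        omega
      · intro b hb hbmin
        have h4 := hbmin a ha
        have h5 := hamin b hb
        omega

end Pool.Agent.RST
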