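import Pool.Agent.RST.Fam

/-!
# RST/Cmb: the state of the construction and its combination with a final family
-/

set_option autoImplicit false

namespace Pool.Agent.RST

open Finset

/-- the statement to be proved -/
def Goal (y : ℕ) (C : ℕ → ℕ) (al : Finset ℕ) : Prop :=
  Real al.val ((List.range y).map C ++ List.replicate (C y) 1)

theorem eb_zero {l h : ℕ} {x : ℕ → ℕ} {a ρ : ℕ} (h1 : ρ ≠ a) (h2 : ρ ≠ a + 1) :
    eb l h x a ρ = 0 := by
  unfold eb
  rw [if_neg h1, if_neg h2]

theorem ebP_nil (a ρ : ℕ) : ebP [] a ρ = 0 := rfl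

theorem ebP_cons (q : Mt) (P : List Mt) (a ρ : ℕ) :
    ebP (q :: P) a ρ = eb q.l q.h q.f a ρ + ebP P a ρ := by
  simp [ebP]

theorem ebP_zero {P : List Mt} {a ρ : ℕ} (h1 : ρ ≠ a) (h2 : ρ ≠ a + 1) : ebP P a ρ = 0 := by
  induction P with
  | nil => rfl
  | cons q P ih => rw [ebP_cons, ih, eb_zero h1 h2, add_zero]

theorem cntP_cons (q : Mt) (P : List Mt) (j : ℕ) : cntP (q :: P) j = q.f j + cntP P j := by
  simp [cntP]

theorem wdP_cons (q : Mt) (P : List Mt) : wdP (q :: P) = mt q.l q.h q.f :: wdP P := rfl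

/-- the lengths of the placed words -/
def lnP (P : List Mt) : Multiset ℕ := (((wdP P).map List.length : List ℕ) : Multiset ℕ)

theorem lnP_cons (q : Mt) (P : List Mt) : lnP (q :: P) = (mt q.l q.h q.f).length ::ₘ lnP P := rfl

/-- the shape: columns `C j ≥ 2` for `j < y`, tail `C y` -/
structure Shp (y : ℕ) (C : ℕ → ℕ) : Prop where
  hy : 2 ≤ y
  anti : ∀ i j, i ≤ j → j < y → C j ≤ C i
  two : ∀ j, j < y → 2 ≤ C j

/-- the number of remaining cells outside of the column 0 -/
def Ex (y : ℕ) (x : ℕ → ℕ) : ℕ := ∑ j ∈ Icc 1 y, x j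

/-- the state of the construction: placed mountains `P`, remaining cycles `S`, remaining content `x`
with the last nonempty column `m`; `g` (`p`) = guaranteed excess at the column `m` (`m - 1`) -/
structure St (y τ : ℕ) (C : ℕ → ℕ) (al : Finset ℕ) (P : List Mt) (S : Finset ℕ) (x : ℕ → ℕ)
    (m p g : ℕ) : Prop where
  shp : Shp y C
  tau : τ = 0 ∨ (τ = 1 ∧ 4 ≤ C 0)
  len : lnP P + S.val + Multiset.replicate τ 2 = al.val
  S3 : ∀ a ∈ S, 3 ≤ a
  pok : POK y P
  bot : ∀ q ∈ P, 1 ≤ q.l
  cnt : ∀ j, 1 ≤ j → j ≤ y → cntP P j + x j = C j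
  c0 : x 0 + 2 * τ = C 0
  tot : ∑ a ∈ S, a = x 0 + Ex y x
  m1 : 1 ≤ m
  my : m ≤ y
  xm : 1 ≤ x m
  xz : ∀ j, m < j → j ≤ y → x j = 0
  mid : ∀ j, 1 ≤ j → j < m → 2 ≤ x j
  b0 : ∀ a, a + 1 < y → (if a = m then -1 else 0) ≤ ebP P a a
  bhi : ∀ a, a + 1 < y → m ≤ a → 0 ≤ (C a : ℤ) - C (a + 1) + ebP P a (a + 1)
  bm : m < y → (g : ℤ) ≤ ebP P (m - 1) m
  bm1 : 2 ≤ m → (p : ℤ) ≤ ebP P (m - 2) (m - 1)
  blo : ∀ a, a + 2 < m → 0 ≤ ebP P a (a + 1)
  g1 : m < y → x m = 1 → 1 ≤ g
  cr : m + 1 < y → 0 < C y → ∃ q ∈ P, q.l + 1 < y ∧ y ≤ q.h + 1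
  Er : S.card ≤ Ex y x

theorem cntP_zero {y : ℕ} {P : List Mt} (hP : POK y P) (hb : ∀ q ∈ P, 1 ≤ q.l) :
    cntP P 0 = 0 := by
  induction P with
  | nil => rfl
  | cons q P ih =>
    rw [cntP_cons, ih (fun r hr => hP r (by simp [hr])) (fun r hr => hb r (by simp [hr]))]
    have h1 := hb q (by simp)
    rw [(hP q (by simp)).1.out 0 (Or.inl (by omega))]

theorem TA_append {y : ℕ} {W W' : List (List ℕ)} (h1 : ∀ w ∈ W, TO y w) (h2 : TA y W')
    (h3 : ∃ w ∈ W ++ W', CR y w) : TA y (W ++ W') := by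
  intro w hw t ht hp
  rw [List.mem_append] at hw
  rcases hw with hw | hw
  · obtain ⟨w', hw', t', ht', h4, h5⟩ := h3
    refine ⟨w', hw', t', ht', ?_, h4⟩
    apply le_of_lt
    apply key_lt_of_zero
    rw [key_zero, key_zero]
    have := h1 w hw t ht hp
    have h5 : lt w' t' < lt w t := by omega
    exact_mod_cast h5
  · obtain ⟨w', hw', t', ht', h4, h5⟩ := h2 w hw t ht hp
    exact ⟨w', List.mem_append_right _ hw', t', ht', h4, h5⟩

/-- adding the word `0 0` to a final family -/
theorem fin_add00 {y m : ℕ} {x : ℕ → ℕ} {S : Multiset ℕ} {k1 k2 : ℤ} (hy : 2 ≤ y) (hm : 1 ≤ m)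
    (hf : Fin' y m x S k1 k2) :
    Fin' y m (fun j => (if j = 0 then 2 else 0) + x j) (2 ::ₘ S) k1 k2 := by
  obtain ⟨W, h1, h2, h3, h4⟩ := hf
  refine ⟨[0, 0] :: W, ?_, ?_, ?_, ?_⟩
  · rw [List.map_cons, ← Multiset.cons_coe, h1]
    rfl
  · have h5 := (pre_00 hy).append h2
    refine h5.mono (fun _ _ => rfl) ?_
    intro a ρ _ _
    rw [zero_add]
    have h6 : (fun j => (if j = 0 then 2 else 0) + x j) m = x m := by
      show (if m = 0 then 2 else 0) + x m = x m
      rw [if_neg (by omega), zero_add]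
    unfold fB
    rw [h6]
  · intro w hw t ht hp
    rw [List.mem_cons] at hw
    rcases hw with rfl | hw
    · have := TO_00 hy t ht hp
      have h5 : lt [0, 0] t = 0 := by
        unfold lt
        have h2 : t % [0, 0].length < 2 := Nat.mod_lt _ (by norm_num)
        interval_cases h3 : t % [0, 0].length <;> rfl
      omega
    · obtain ⟨w', hw', t', ht', h4, h5⟩ := h3 w hw t ht hp
      exact ⟨w', List.mem_cons_of_mem _ hw', t', ht', h4, h5⟩
  · intro h
    obtain ⟨w, hw, h5⟩ := h4 h
    exact ⟨w, List.mem_cons_of_mem _ hw, h5⟩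

theorem pairwise_of_nodup {W : List (List ℕ)} (h : (W.map List.length).Nodup) :
    W.Pairwise fun a b => a.length ≠ b.length := by
  rw [List.Nodup, List.pairwise_map] at h
  exact h

/-- combination of a state with a final family (general form) -/
theorem comb0 {y τ : ℕ} {C : ℕ → ℕ} {al : Finset ℕ} {P : List Mt} {S : Finset ℕ} {x : ℕ → ℕ}
    {m p g : ℕ} (st : St y τ C al P S x m p g) (x' : ℕ → ℕ) (S' : Multiset ℕ) (k1 k2 : ℤ)
    (hx : ∀ j ≤ y, cntP P j + x' j = C j) (hxm : x' m = x m) (hS : lnP P + S' = al.val)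
    (hf : Fin' y m x' S' k1 k2) (h1 : k1 ≤ (C 0 : ℤ) - C 1 + ebP P 0 1)
    (h2 : k2 ≤ (C 0 : ℤ) - C 1) : Goal y C al := by
  have hy := st.shp.hy
  have hm1 := st.m1
  have hmy := st.my
  obtain ⟨W, hW1, hW2, hW3, hW4⟩ := hf
  have hpre := (pre_P st.pok).append hW2
  have hlen : ((((wdP P) ++ W).map List.length : List ℕ) : Multiset ℕ) = al.val := by
    rw [List.map_append, ← Multiset.coe_add, hW1]
    exact hS
  have hnd : ((wdP P ++ W).map List.length).Nodup := by
    have := al.nodup
    rw [← hlen] at this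
    exact Multiset.coe_nodup.1 this
  have hpre' := hpre.mono (x' := C) (b' := fun a ρ => ebP P a ρ + fB x' m k1 k2 a ρ)
    (fun j hj => hx j hj) (fun _ _ _ _ => le_refl _)
  have hreal := real_of_pre y (wdP P ++ W) C _ hpre' (pairwise_of_nodup hnd) (by
    intro a ρ ha hρ
    have hanti : C (a + 1) ≤ C a := st.shp.anti a (a + 1) (by omega) ha
    have hanti' : (C (a + 1) : ℤ) ≤ C a := by exact_mod_cast hanti
    unfold fB
    rcases lt_trichotomy ρ a with hc | hc | hc
    · rw [if_neg (by omega), if_pos hc, ebP_zero (by omega) (by omega)]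
      norm_num
    · subst hc
      rw [if_neg (by omega), if_neg (by omega), if_pos rfl]
      have := st.b0 ρ ha
      split_ifs at this ⊢ <;> linarith
    · rw [if_pos hc, if_neg (by omega), if_neg (by omega)]
      by_cases hc1 : ρ = a + 1
      · rw [if_pos hc1, hc1]
        by_cases ha0 : a = 0
        · rw [if_pos ha0]
          subst ha0
          rw [zero_add]
          linarith
        · rw [if_neg ha0]
          rcases lt_trichotomy (a + 1) m with h3 | h3 | h3
          · rw [if_neg (by omega)]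
            rcases Nat.lt_or_ge (a + 2) m with h4 | h4
            · have := st.blo a h4
              linarith
            · have h5 := st.bm1 (by omega)
              rw [show m - 2 = a by omega, show m - 1 = a + 1 by omega] at h5
              have h6 : (0 : ℤ) ≤ p := by positivity
              linarith
          · have h5 := st.bm (by omega)
            rw [show m - 1 = a by omega, ← h3] at h5
            have h6 : (0 : ℤ) ≤ g := by positivity
            split_ifs with h7
            · rw [hxm] at h7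
              have h8 := st.g1 (by omega) h7.2
              have h9 : (1 : ℤ) ≤ g := by exact_mod_cast h8
              linarith
            · linarith
          · rw [if_neg (by omega)]
            have := st.bhi a ha (by omega)
            linarith
      · rw [if_neg hc1, ebP_zero (by omega) hc1]
        split_ifs with ha0
        · subst ha0
          rw [zero_add]
          linarith
        · linarith) (by
    rcases Nat.eq_zero_or_pos (C y) with h0 | h0
    · exact Or.inr (Or.inl h0)
    · right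
      right
      apply TA_append _ hW3
      · rcases Nat.lt_or_ge (m + 1) y with h3 | h3
        · obtain ⟨q, hq, hq1, hq2⟩ := st.cr h3 h0
          refine ⟨mt q.l q.h q.f, ?_, CR_mt (st.pok q hq).1 (st.pok q hq).2 hq1 hq2⟩
          rw [List.mem_append]
          left
          exact List.mem_map.2 ⟨q, hq, rfl⟩
        · obtain ⟨w, hw, hw1⟩ := hW4 h3
          exact ⟨w, List.mem_append_right _ hw, hw1⟩
      · intro w hw
        obtain ⟨q, hq, rfl⟩ := List.mem_map.1 hw
        exact TO_mt (st.pok q hq).1 (st.pok q hq).2)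
  rw [hlen] at hreal
  exact hreal

/-- combination of a state with a final family of the remaining cycles -/
theorem comb {y τ : ℕ} {C : ℕ → ℕ} {al : Finset ℕ} {P : List Mt} {S : Finset ℕ} {x : ℕ → ℕ}
    {m p g : ℕ} (st : St y τ C al P S x m p g) (k1 k2 : ℤ)
    (hf : Fin' y m x S.val k1 k2) (h1 : k1 ≤ (C 0 : ℤ) - C 1 + ebP P 0 1)
    (h2 : k2 ≤ (C 0 : ℤ) - C 1) : Goal y C al := by
  have hm1 := st.m1
  have hc0 := cntP_zero st.pok st.bot
  have hx0 := st.c0
  rcases st.tau with ht | ⟨ht, -⟩
  · subst ht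
    refine comb0 st x S.val k1 k2 ?_ rfl ?_ hf h1 h2
    · intro j hj
      rcases Nat.eq_zero_or_pos j with h0 | h0
      · subst h0
        omega
      · exact st.cnt j h0 hj
    · have := st.len
      simpa using this
  · subst ht
    refine comb0 st _ _ k1 k2 ?_ ?_ ?_ (fin_add00 st.shp.hy hm1 hf) h1 h2
    · intro j hj
      rcases Nat.eq_zero_or_pos j with h0 | h0
      · subst h0
        rw [if_pos rfl]
        omega
      · rw [if_neg (by omega), zero_add]
        exact st.cnt j h0 hj
    · show (if m = 0 then 2 else 0) + x m = x m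
      rw [if_neg (by omega), zero_add]
    · have := st.len
      rw [← this, Multiset.replicate_one, Multiset.add_cons, ← Multiset.singleton_add,
        add_comm {2}, add_assoc]

end Pool.Agent.RST
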