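import Pool.Agent.RST.Ins

/-!
# RST/Core: from an ordered system to a permutation
-/

set_option autoImplicit false

namespace Pool.Agent.RST

open Finset

theorem cycleType_permCongr {α β : Type} [Fintype α] [DecidableEq α] [Fintype β] [DecidableEq β]
    (f : α ≃ β) (σ : Equiv.Perm α) : (f.permCongr σ).cycleType = σ.cycleType := by
  have h1 : f.permCongr σ =
      σ.extendDomain (f.trans (Equiv.subtypeUnivEquiv (p := fun _ : β => True)
        (fun _ => trivial)).symm) := by
    ext b
    rw [Equiv.Perm.extendDomain_apply_subtype _ _ (trivial : (fun _ : β => True) b)]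
    simp [Equiv.permCongr_apply]
  rw [h1, Equiv.Perm.cycleType_extendDomain]

theorem cycleType_sumCongr {α β : Type} [Fintype α] [DecidableEq α] [Fintype β] [DecidableEq β]
    (σ : Equiv.Perm α) (τ : Equiv.Perm β) :
    (Equiv.Perm.sumCongr σ τ).cycleType = σ.cycleType + τ.cycleType := by
  have h1 : Equiv.Perm.sumCongr σ τ = Equiv.Perm.sumCongr σ 1 * Equiv.Perm.sumCongr 1 τ := by
    rw [Equiv.Perm.sumCongr_mul, mul_one, one_mul]
  have h2 : Equiv.Perm.Disjoint (Equiv.Perm.sumCongr σ (1 : Equiv.Perm β))
      (Equiv.Perm.sumCongr 1 τ) := by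
    intro x
    cases x with
    | inl a => right; simp
    | inr b => left; simp
  have h3 : Equiv.Perm.sumCongr σ (1 : Equiv.Perm β) =
      σ.extendDomain (Equiv.ofInjective (Sum.inl : α → α ⊕ β) Sum.inl_injective) := by
    ext x
    cases x with
    | inl a =>
      have := Equiv.Perm.extendDomain_apply_image σ
        (Equiv.ofInjective (Sum.inl : α → α ⊕ β) Sum.inl_injective) a
      simpa using this.symm
    | inr b =>
      rw [Equiv.Perm.extendDomain_apply_not_subtype]
      · simp
      · simp
  have h4 : Equiv.Perm.sumCongr (1 : Equiv.Perm α) τ =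
      τ.extendDomain (Equiv.ofInjective (Sum.inr : β → α ⊕ β) Sum.inr_injective) := by
    ext x
    cases x with
    | inr a =>
      have := Equiv.Perm.extendDomain_apply_image τ
        (Equiv.ofInjective (Sum.inr : β → α ⊕ β) Sum.inr_injective) a
      simpa using this.symm
    | inl b =>
      rw [Equiv.Perm.extendDomain_apply_not_subtype]
      · simp
      · simp
  rw [h1, h2.cycleType_mul, h3, h4, Equiv.Perm.cycleType_extendDomain,
    Equiv.Perm.cycleType_extendDomain]

theorem real_of (n : ℕ) (σ : Equiv.Perm (Fin n)) (α : Multiset ℕ) (c : List ℕ)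
    (hσ : σ.cycleType = α) (hn : α.sum = n)
    (h : ∀ i, rowLen (rsTab (oneLine σ)) i = (c.filter fun x => i < x).length) : Real α c := by
  subst hn
  exact ⟨σ, hσ, h⟩

theorem length_filter_take_ofFn {n : ℕ} (g : Fin n → ℕ) (P : ℕ → Prop) [DecidablePred P] (k : ℕ) :
    (((List.ofFn g).take k).filter fun y => P y).length =
      (univ.filter fun p : Fin n => (p : ℕ) < k ∧ P (g p)).card := by
  induction k with
  | zero => simp
  | succ k ih =>
    by_cases hk : k < n
    · have h1 : (List.ofFn g).take (k + 1) = (List.ofFn g).take k ++ [g ⟨k, hk⟩] := by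
        rw [List.take_succ, List.getElem?_ofFn]
        simp [hk]
      rw [h1, List.filter_append, List.length_append, ih]
      have h2 : (univ.filter fun p : Fin n => (p : ℕ) < k + 1 ∧ P (g p)) =
          (univ.filter fun p : Fin n => (p : ℕ) < k ∧ P (g p)) ∪
            (({⟨k, hk⟩} : Finset (Fin n)).filter fun p => P (g p)) := by
        ext p
        simp only [mem_filter, mem_univ, true_and, mem_union, mem_singleton, Fin.ext_iff]
        constructor
        · rintro ⟨h3, h4⟩
          rcases Nat.lt_or_ge p k with h5 | h5
          · exact Or.inl ⟨h5, h4⟩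
          · exact Or.inr ⟨by omega, h4⟩
        · rintro (⟨h3, h4⟩ | ⟨h3, h4⟩)
          · exact ⟨by omega, h4⟩
          · exact ⟨by omega, h4⟩
      rw [h2, card_union_of_disjoint]
      · congr 1
        by_cases h3 : P (g ⟨k, hk⟩)
        · rw [List.filter_cons_of_pos (by simpa using h3), filter_singleton, if_pos h3]
          simp
        · rw [List.filter_cons_of_neg (by simpa using h3), filter_singleton, if_neg h3]
          simp
      · rw [disjoint_left]
        intro p hp hp'
        simp only [mem_filter, mem_univ, true_and, mem_singleton, Fin.ext_iff] at hp hp'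
        omega
    · have h1 : (List.ofFn g).take (k + 1) = (List.ofFn g).take k := by
        rw [List.take_of_length_le, List.take_of_length_le]
        · rw [List.length_ofFn]
          omega
        · rw [List.length_ofFn]
          omega
      rw [h1, ih]
      congr 1
      ext p
      simp only [mem_filter, mem_univ, true_and]
      have := p.2
      constructor
      · rintro ⟨h3, h4⟩
        exact ⟨by omega, h4⟩
      · rintro ⟨h3, h4⟩
        exact ⟨by omega, h4⟩

theorem core {E : Type} [Fintype E] [DecidableEq E] (nx : Equiv.Perm E) (l : E → ℕ) (M : ℕ)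
    (hM : ∀ e, l e < M) (n : ℕ) (pos : E ≃ Fin n)
    (h1 : ∀ e f, l e < l f → pos e < pos f)
    (h2 : ∀ e f, l e = l f → pos e < pos f → pos (nx f) < pos (nx e))
    (hfix : ∀ e, nx e ≠ e)
    (hlat : ∀ k m : ℕ, (univ.filter fun e => (pos e : ℕ) < k ∧ l (nx.symm e) = m + 1).card ≤
      (univ.filter fun e => (pos e : ℕ) < k ∧ l (nx.symm e) = m).card) :
    Real nx.cycleType ((List.range M).map fun m => (univ.filter fun e => l e = m).card) := by
  have hn : Fintype.card E = n := by
    rw [Fintype.card_congr pos, Fintype.card_fin]
  have hsum : nx.cycleType.sum = n := by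
    rw [Equiv.Perm.sum_cycleType]
    have : nx.support = univ := by
      ext e
      simp [hfix e]
    rw [this, card_univ, hn]
  set σ : Equiv.Perm (Fin n) := pos.permCongr nx⁻¹ with hσ
  have hσa : ∀ p, σ p = pos (nx.symm (pos.symm p)) := by
    intro p
    rw [hσ, Equiv.permCongr_apply]
    rfl
  have hct : σ.cycleType = nx.cycleType := by
    rw [hσ, cycleType_permCongr, Equiv.Perm.cycleType_inv]
  apply real_of n σ _ _ hct hsum
  intro i
  -- labels of the values
  set lab : ℕ → ℕ := fun v => if hv : v < n then l (pos.symm ⟨v, hv⟩) else 0 with hlab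
  have hlabp : ∀ e, lab (pos e : ℕ) = l e := by
    intro e
    rw [hlab]
    simp only [(pos e).2, dif_pos, Fin.eta, Equiv.symm_apply_apply]
  have hmem : ∀ x ∈ oneLine σ, ∃ e, x = (pos e : ℕ) := by
    intro x hx
    unfold oneLine at hx
    rw [List.mem_ofFn] at hx
    obtain ⟨p, rfl⟩ := hx
    exact ⟨_, congrArg Fin.val (hσa p)⟩
  have hcount : ∀ k m : ℕ, (((oneLine σ).take k).filter fun y => lab y = m).length =
      (univ.filter fun e => (pos e : ℕ) < k ∧ l (nx.symm e) = m).card := by
    intro k m
    unfold oneLine
    rw [length_filter_take_ofFn (fun i => (σ i : ℕ)) (fun y => lab y = m) k]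
    apply card_bij (fun p _ => pos.symm p)
    · intro p hp
      simp only [mem_filter, mem_univ, true_and] at hp ⊢
      rw [hσa, hlabp] at hp
      rw [Equiv.apply_symm_apply]
      exact hp
    · intro p _ q _ hpq
      exact pos.symm.injective hpq
    · intro e he
      simp only [mem_filter, mem_univ, true_and] at he
      refine ⟨pos e, ?_, by simp⟩
      simp only [mem_filter, mem_univ, true_and]
      rw [hσa, hlabp, Equiv.symm_apply_apply]
      exact he
  have hrow := rowLen_rsTab M lab (oneLine σ) (by
      intro x hx
      obtain ⟨e, rfl⟩ := hmem x hx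
      rw [hlabp]
      exact hM e) (by
      intro x hx y hy hxy
      obtain ⟨e, rfl⟩ := hmem x hx
      obtain ⟨f, rfl⟩ := hmem y hy
      rw [hlabp, hlabp] at hxy
      exact h1 e f hxy) (by
      unfold oneLine
      rw [List.pairwise_ofFn]
      intro p q hpq hl
      rw [hσa, hσa, hlabp, hlabp] at hl
      rw [hσa, hσa]
      by_contra hcon
      have hne : pos (nx.symm (pos.symm p)) ≠ pos (nx.symm (pos.symm q)) := by
        intro h
        have h3 := pos.symm.injective (nx.symm.injective (pos.injective h))
        exact (ne_of_lt hpq) h3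
      have hlt : pos (nx.symm (pos.symm p)) < pos (nx.symm (pos.symm q)) := by
        rcases lt_or_ge (pos (nx.symm (pos.symm p))) (pos (nx.symm (pos.symm q))) with h | h
        · exact h
        · exact absurd (lt_of_le_of_ne h hne.symm) (by simpa using hcon)
      have h3 := h2 _ _ hl hlt
      rw [Equiv.apply_symm_apply, Equiv.apply_symm_apply, Equiv.apply_symm_apply,
        Equiv.apply_symm_apply] at h3
      exact absurd h3 (not_lt.2 hpq.le)) (by
      intro k m
      rw [hcount, hcount]
      exact hlat k m) i
  rw [hrow]
  have hl : (List.range M).map (fun m => ((oneLine σ).filter fun y => lab y = m).length) =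
      (List.range M).map fun m => (univ.filter fun e => l e = m).card := by
    apply List.map_congr_left
    intro m _
    have h3 := hcount n m
    rw [List.take_of_length_le (by simp [oneLine])] at h3
    rw [h3]
    apply card_bij (fun e _ => nx.symm e)
    · intro e he
      simp only [mem_filter, mem_univ, true_and] at he ⊢
      exact he.2
    · intro e _ f _ hef
      exact nx.symm.injective hef
    · intro e he
      simp only [mem_filter, mem_univ, true_and] at he
      refine ⟨nx e, ?_, by simp⟩
      simp only [mem_filter, mem_univ, true_and, Equiv.symm_apply_apply]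
      exact ⟨(pos (nx e)).2, he⟩
  rw [hl]

end Pool.Agent.RST
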