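import Pool.Agent.RST.Core

/-!
# RST/Core2: from an ordered system with one increasing letter to a permutation
-/

set_option autoImplicit false

namespace Pool.Agent.RST

open Finset

theorem core2 {E : Type} [Fintype E] [DecidableEq E] (nx : Equiv.Perm E) (l : E → ℕ) (y : ℕ)
    (hy : ∀ e, l e ≤ y) (n : ℕ) (pos : E ≃ Fin n)
    (h1 : ∀ e f, l e < l f → pos e < pos f)
    (h2 : ∀ e f, l e = l f → l e < y → pos e < pos f → pos (nx f) < pos (nx e))
    (h3 : ∀ e f, l e = y → l f = y → pos e < pos f → pos (nx e) < pos (nx f))
    (hfix : ∀ e, nx e ≠ e)
    (hlat : ∀ k m : ℕ, m + 1 < y →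
      (univ.filter fun e => (pos e : ℕ) < k ∧ l (nx.symm e) = m + 1).card ≤
      (univ.filter fun e => (pos e : ℕ) < k ∧ l (nx.symm e) = m).card)
    (hA : ∀ e, l (nx.symm e) = y → y = 0 ∨ ∃ f, pos f < pos e ∧ l (nx.symm f) + 1 = y) :
    Real nx.cycleType (((List.range y).map fun m => (univ.filter fun e => l e = m).card) ++
      List.replicate (univ.filter fun e => l e = y).card 1) := by
  classical
  set S : Finset E := univ.filter fun e => l e = y with hS
  set h : ℕ := S.card with hh
  have memS : ∀ e, e ∈ S ↔ l e = y := by
    intro e
    rw [hS]
    simp
  set rk : E → ℕ := fun e => (S.filter fun f => pos f < pos e).card with hrk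
  have rk_lt : ∀ e f, l e = y → pos e < pos f → rk e < rk f := by
    intro e f he hlt
    rw [hrk]
    apply card_lt_card
    rw [Finset.ssubset_iff_of_subset]
    · exact ⟨e, by
        rw [mem_filter, memS]
        exact ⟨he, hlt⟩, by
        rw [mem_filter]
        simp⟩
    · intro g hg
      rw [mem_filter] at hg ⊢
      exact ⟨hg.1, hg.2.trans hlt⟩
  have rk_inj : ∀ e f, l e = y → l f = y → rk e = rk f → e = f := by
    intro e f he hf hr
    rcases lt_trichotomy (pos e) (pos f) with h4 | h4 | h4
    · exact absurd hr (rk_lt e f he h4).ne
    · exact pos.injective h4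
    · exact absurd hr (rk_lt f e hf h4).ne'
  have rk_bd : ∀ e, l e = y → rk e < h := by
    intro e he
    rw [hrk, hh]
    apply card_lt_card
    rw [Finset.ssubset_iff_of_subset (filter_subset _ _)]
    refine ⟨e, (memS e).2 he, ?_⟩
    rw [mem_filter]
    simp
  have rk_surj : ∀ j < h, ∃ e, l e = y ∧ rk e = j := by
    intro j hj
    have h4 : S.image rk = range h := by
      apply eq_of_subset_of_card_le
      · intro i hi
        rw [mem_image] at hi
        obtain ⟨e, he, rfl⟩ := hi
        rw [mem_range]
        exact rk_bd e ((memS e).1 he)
      · rw [card_range, card_image_of_injOn]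
        intro e he f hf hef
        exact rk_inj e f ((memS e).1 he) ((memS f).1 hf) hef
    have h5 : j ∈ S.image rk := by
      rw [h4, mem_range]
      exact hj
    rw [mem_image] at h5
    obtain ⟨e, he, her⟩ := h5
    exact ⟨e, (memS e).1 he, her⟩
  set l' : E → ℕ := fun e => if l e < y then l e else y + rk e with hl'
  have lA : ∀ e, l e < y → l' e = l e := fun e he => if_pos he
  have lB : ∀ e, l e = y → l' e = y + rk e := fun e he => if_neg (by omega)
  have lc : ∀ e, l e < y ∨ l e = y := fun e => by
    have := hy e
    omega
  have eqA : ∀ e m, m < y → (l' e = m ↔ l e = m) := by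
    intro e m hm
    rcases lc e with he | he
    · rw [lA e he]
    · rw [lB e he]
      constructor
      · intro h4
        omega
      · intro h4
        omega
  have eqB : ∀ e j, l' e = y + j ↔ (l e = y ∧ rk e = j) := by
    intro e j
    rcases lc e with he | he
    · rw [lA e he]
      constructor
      · intro h4
        omega
      · intro h4
        omega
    · rw [lB e he]
      constructor
      · intro h4
        exact ⟨he, by omega⟩
      · intro h4
        omega
  have hreal := core nx l' (y + h) (by
    intro e
    rcases lc e with he | he
    · rw [lA e he]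
      omega
    · rw [lB e he]
      have := rk_bd e he
      omega) n pos (by
    intro e f hef
    rcases lc e with he | he
    · rcases lc f with hf | hf
      · rw [lA e he, lA f hf] at hef
        exact h1 e f hef
      · exact h1 e f (by omega)
    · rcases lc f with hf | hf
      · rw [lB e he, lA f hf] at hef
        omega
      · rw [lB e he, lB f hf] at hef
        by_contra hcon
        rcases lt_or_eq_of_le (not_lt.1 hcon) with h4 | h4
        · have := rk_lt f e hf h4
          omega
        · have h5 : f = e := pos.injective h4
          rw [h5] at hef
          exact absurd hef (lt_irrefl _)) (by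
    intro e f hef hlt
    rcases lc e with he | he
    · rcases lc f with hf | hf
      · rw [lA e he, lA f hf] at hef
        exact h2 e f hef he hlt
      · rw [lA e he, lB f hf] at hef
        omega
    · rcases lc f with hf | hf
      · rw [lB e he, lA f hf] at hef
        omega
      · rw [lB e he, lB f hf] at hef
        have := rk_lt e f he hlt
        omega) hfix (by
    intro k m
    rcases Nat.lt_or_ge (m + 1) y with h4 | h4
    · have e1 : (univ.filter fun e => (pos e : ℕ) < k ∧ l' (nx.symm e) = m + 1) =
          univ.filter fun e => (pos e : ℕ) < k ∧ l (nx.symm e) = m + 1 := by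
        apply filter_congr
        intro e _
        rw [eqA _ _ h4]
      have e2 : (univ.filter fun e => (pos e : ℕ) < k ∧ l' (nx.symm e) = m) =
          univ.filter fun e => (pos e : ℕ) < k ∧ l (nx.symm e) = m := by
        apply filter_congr
        intro e _
        rw [eqA _ _ (by omega : m < y)]
      rw [e1, e2]
      exact hlat k m h4
    · obtain ⟨j, hj⟩ := Nat.exists_eq_add_of_le h4
      rcases (univ.filter fun e => (pos e : ℕ) < k ∧ l' (nx.symm e) = m + 1).eq_empty_or_nonempty
        with h5 | ⟨e, he⟩
      · rw [h5, card_empty]
        exact Nat.zero_le _
      · have hle1 : (univ.filter fun e => (pos e : ℕ) < k ∧ l' (nx.symm e) = m + 1).card ≤ 1 := by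
          rw [card_le_one]
          intro a ha b hb
          simp only [mem_filter, mem_univ, true_and] at ha hb
          rw [hj, eqB] at ha hb
          exact nx.symm.injective (rk_inj _ _ ha.2.1 hb.2.1 (by rw [ha.2.2, hb.2.2]))
        refine hle1.trans ?_
        rw [Nat.one_le_iff_ne_zero, card_ne_zero]
        simp only [mem_filter, mem_univ, true_and] at he
        rw [hj, eqB] at he
        obtain ⟨hek, hel, her⟩ := he
        cases j with
        | zero =>
          rcases hA e hel with h6 | ⟨f, hf1, hf2⟩
          · omega
          · refine ⟨f, ?_⟩
            simp only [mem_filter, mem_univ, true_and]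
            have h7 : (pos f : ℕ) < pos e := hf1
            refine ⟨by omega, ?_⟩
            rw [eqA _ _ (by omega : m < y)]
            omega
        | succ j =>
          obtain ⟨x, hx1, hx2⟩ := rk_surj j (by
            have := rk_bd _ hel
            omega)
          refine ⟨nx x, ?_⟩
          simp only [mem_filter, mem_univ, true_and, Equiv.symm_apply_apply]
          have h6 : pos x < pos (nx.symm e) := by
            by_contra hcon
            rcases lt_or_eq_of_le (not_lt.1 hcon) with h7 | h7
            · have := rk_lt _ _ hel h7
              omega
            · have h8 := pos.injective h7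
              rw [h8] at her
              omega
          have h7 := h3 x (nx.symm e) hx1 hel h6
          rw [Equiv.apply_symm_apply] at h7
          have h8 : (pos (nx x) : ℕ) < pos e := h7
          refine ⟨by omega, ?_⟩
          rw [show m = y + j by omega, eqB]
          exact ⟨hx1, hx2⟩)
  have hlist : (List.range (y + h)).map (fun m => (univ.filter fun e => l' e = m).card) =
      (List.range y).map (fun m => (univ.filter fun e => l e = m).card) ++
        List.replicate h 1 := by
    rw [List.range_add, List.map_append]
    congr 1
    · apply List.map_congr_left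
      intro m hm
      rw [List.mem_range] at hm
      congr 1
      apply filter_congr
      intro e _
      rw [eqA _ _ hm]
    · rw [List.eq_replicate_iff]
      constructor
      · simp
      · intro b hb
        rw [List.map_map, List.mem_map] at hb
        obtain ⟨j, hj, rfl⟩ := hb
        rw [List.mem_range] at hj
        simp only [Function.comp]
        obtain ⟨x, hx1, hx2⟩ := rk_surj j hj
        rw [card_eq_one]
        refine ⟨x, ?_⟩
        ext e
        rw [mem_filter, mem_singleton, eqB]
        constructor
        · rintro ⟨-, h4, h5⟩
          exact rk_inj e x h4 hx1 (by rw [h5, hx2])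
        · intro h4
          rw [h4]
          exact ⟨mem_univ _, hx1, hx2⟩
  rw [hlist] at hreal
  exact hreal

end Pool.Agent.RST
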