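import Pool.Agent.RST.Core

/-!
# RST/DSum: direct sums
-/

set_option autoImplicit false

namespace Pool.Agent.RST

open Finset

/-- rowwise concatenation -/
def mrg : List (List ℕ) → List (List ℕ) → List (List ℕ)
  | [], U => U
  | t :: T, [] => t :: T
  | t :: T, u :: U => (t ++ u) :: mrg T U

theorem mrg_nil (T : List (List ℕ)) : mrg T [] = T := by
  cases T <;> rfl

theorem rowLen_mrg (T U : List (List ℕ)) (i : ℕ) :
    rowLen (mrg T U) i = rowLen T i + rowLen U i := by
  induction T generalizing U i with
  | nil => simp [mrg, rowLen]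
  | cons t T ih =>
    cases U with
    | nil => simp [mrg, rowLen]
    | cons u U =>
      cases i with
      | zero => simp [mrg, rowLen]
      | succ i =>
        have h1 := ih U i
        have e1 : rowLen (mrg (t :: T) (u :: U)) (i + 1) = rowLen (mrg T U) i := by
          simp [mrg, rowLen]
        have e2 : rowLen (t :: T) (i + 1) = rowLen T i := by simp [rowLen]
        have e3 : rowLen (u :: U) (i + 1) = rowLen U i := by simp [rowLen]
        rw [e1, e2, e3, h1]

theorem rowIns_mem (x : ℕ) (r : List ℕ) :
    (∀ z ∈ (rowIns x r).1, z = x ∨ z ∈ r) ∧ (∀ y, (rowIns x r).2 = some y → y ∈ r) := by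
  induction r with
  | nil =>
    constructor
    · intro z hz
      simp only [rowIns, List.mem_singleton] at hz
      exact Or.inl hz
    · intro y hy
      simp [rowIns] at hy
  | cons y r ih =>
    by_cases h : x < y
    · constructor
      · intro z hz
        rw [rowIns, if_pos h, List.mem_cons] at hz
        rcases hz with rfl | hz
        · exact Or.inl rfl
        · exact Or.inr (by simp [hz])
      · intro z hz
        rw [rowIns, if_pos h] at hz
        simp only [Option.some.injEq] at hz
        rw [← hz]
        simp
    · constructor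
      · intro z hz
        rw [rowIns, if_neg h, List.mem_cons] at hz
        rcases hz with rfl | hz
        · exact Or.inr (by simp)
        · rcases ih.1 z hz with h1 | h1
          · exact Or.inl h1
          · exact Or.inr (by simp [h1])
      · intro z hz
        rw [rowIns, if_neg h] at hz
        exact List.mem_cons_of_mem _ (ih.2 z hz)

theorem tabIns_mem (x : ℕ) (T : List (List ℕ)) (z : ℕ) (r : List ℕ) (hr : r ∈ tabIns x T)
    (hz : z ∈ r) : z = x ∨ ∃ r' ∈ T, z ∈ r' := by
  induction T generalizing x with
  | nil =>
    simp only [tabIns, List.mem_singleton] at hr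
    rw [hr, List.mem_singleton] at hz
    exact Or.inl hz
  | cons t T ih =>
    unfold tabIns at hr
    cases hb : (rowIns x t).2 with
    | none =>
      rw [hb] at hr
      simp only [List.mem_cons] at hr
      rcases hr with rfl | hr
      · rcases (rowIns_mem x t).1 z hz with h1 | h1
        · exact Or.inl h1
        · exact Or.inr ⟨t, by simp, h1⟩
      · exact Or.inr ⟨r, by simp [hr], hz⟩
    | some y =>
      rw [hb] at hr
      simp only [List.mem_cons] at hr
      rcases hr with rfl | hr
      · rcases (rowIns_mem x t).1 z hz with h1 | h1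
        · exact Or.inl h1
        · exact Or.inr ⟨t, by simp, h1⟩
      · rcases ih y hr with h1 | ⟨r', h1, h2⟩
        · exact Or.inr ⟨t, by simp, h1 ▸ (rowIns_mem x t).2 y hb⟩
        · exact Or.inr ⟨r', by simp [h1], h2⟩

theorem rsTab_mem (u : List ℕ) (r : List ℕ) (hr : r ∈ rsTab u) (z : ℕ) (hz : z ∈ r) : z ∈ u := by
  induction u using List.reverseRecOn generalizing r with
  | nil => simp [rsTab] at hr
  | append_singleton u x ih =>
    have h1 : rsTab (u ++ [x]) = tabIns x (rsTab u) := by
      unfold rsTab
      rw [List.foldl_append]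
      rfl
    rw [h1] at hr
    rcases tabIns_mem x _ z r hr hz with h2 | ⟨r', h2, h3⟩
    · simp [h2]
    · have := ih r' h2 h3
      simp [this]

theorem tabIns_mrg (a : ℕ) (T U : List (List ℕ)) (x : ℕ) (hx : a ≤ x)
    (hT : ∀ r ∈ T, ∀ z ∈ r, z < a) (hU : ∀ r ∈ U, ∀ z ∈ r, a ≤ z) :
    tabIns x (mrg T U) = mrg T (tabIns x U) := by
  induction T generalizing U x with
  | nil => rfl
  | cons t T ih =>
    have ht : ∀ p ∈ t, p < x := fun p hp => lt_of_lt_of_le (hT t (by simp) p hp) hx
    cases U with
    | nil =>
      have h1 := rowIns_append x t [] ht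
      rw [List.append_nil] at h1
      simp only [mrg, tabIns, h1, rowIns, mrg_nil]
    | cons u U =>
      have h1 := rowIns_append x t u ht
      simp only [mrg, tabIns, h1]
      cases hb : (rowIns x u).2 with
      | none => simp only [mrg]
      | some y =>
        simp only [mrg]
        have hy : a ≤ y := hU u (by simp) y ((rowIns_mem x u).2 y hb)
        rw [ih U y hy (fun r hr => hT r (by simp [hr])) (fun r hr => hU r (by simp [hr]))]

theorem rsTab_append (a : ℕ) (u v : List ℕ) (hu : ∀ x ∈ u, x < a) (hv : ∀ x ∈ v, a ≤ x) :
    rsTab (u ++ v) = mrg (rsTab u) (rsTab v) := by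
  induction v using List.reverseRecOn with
  | nil =>
    rw [List.append_nil]
    have : rsTab [] = [] := rfl
    rw [this, mrg_nil]
  | append_singleton v x ih =>
    have h1 : rsTab (u ++ (v ++ [x])) = tabIns x (rsTab (u ++ v)) := by
      unfold rsTab
      rw [← List.append_assoc, List.foldl_append]
      rfl
    have h2 : rsTab (v ++ [x]) = tabIns x (rsTab v) := by
      unfold rsTab
      rw [List.foldl_append]
      rfl
    rw [h1, h2, ih (fun y hy => hv y (by simp [hy]))]
    apply tabIns_mrg a
    · exact hv x (by simp)
    · intro r hr z hz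
      exact hu z (rsTab_mem u r hr z hz)
    · intro r hr z hz
      exact hv z (by
        have := rsTab_mem v r hr z hz
        simp [this])

theorem rowIns_shift (a x : ℕ) (r : List ℕ) :
    rowIns (x + a) (r.map (· + a)) =
      ((rowIns x r).1.map (· + a), (rowIns x r).2.map (· + a)) := by
  induction r with
  | nil => simp [rowIns]
  | cons y r ih =>
    rw [List.map_cons, rowIns, rowIns]
    by_cases h : x < y
    · rw [if_pos h, if_pos (by omega)]
      simp
    · rw [if_neg h, if_neg (by omega), ih]
      simp

theorem tabIns_shift (a x : ℕ) (T : List (List ℕ)) :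
    tabIns (x + a) (T.map (List.map (· + a))) = (tabIns x T).map (List.map (· + a)) := by
  induction T generalizing x with
  | nil => simp [tabIns]
  | cons t T ih =>
    rw [List.map_cons, tabIns, tabIns]
    have h1 := rowIns_shift a x t
    cases hb : (rowIns x t).2 with
    | none =>
      rw [hb] at h1
      simp [h1]
    | some y =>
      rw [hb] at h1
      simp [h1, ih]

theorem rsTab_shift (a : ℕ) (u : List ℕ) :
    rsTab (u.map (· + a)) = (rsTab u).map (List.map (· + a)) := by
  induction u using List.reverseRecOn with
  | nil => rfl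
  | append_singleton u x ih =>
    have h1 : rsTab ((u ++ [x]).map (· + a)) = tabIns (x + a) (rsTab (u.map (· + a))) := by
      unfold rsTab
      rw [List.map_append, List.foldl_append]
      rfl
    have h2 : rsTab (u ++ [x]) = tabIns x (rsTab u) := by
      unfold rsTab
      rw [List.foldl_append]
      rfl
    rw [h1, h2, ih, tabIns_shift]

theorem rowLen_map (a : ℕ) (T : List (List ℕ)) (i : ℕ) :
    rowLen (T.map (List.map (· + a))) i = rowLen T i := by
  induction T generalizing i with
  | nil => rfl
  | cons t T ih =>
    cases i with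
    | zero => simp [rowLen]
    | succ i =>
      have h1 := ih i
      unfold rowLen at h1 ⊢
      simpa using h1

/-- **Direct sums.** -/
theorem real_add (α β : Multiset ℕ) (c d : List ℕ) (hα : Real α c) (hβ : Real β d) :
    Real (α + β) (c ++ d) := by
  obtain ⟨σ, hσ, h1⟩ := hα
  obtain ⟨τ, hτ, h2⟩ := hβ
  apply real_of (α.sum + β.sum) (finSumFinEquiv.permCongr (Equiv.Perm.sumCongr σ τ))
  · rw [cycleType_permCongr, cycleType_sumCongr, hσ, hτ]
  · rw [Multiset.sum_add]
  · intro i
    have h3 : oneLine (finSumFinEquiv.permCongr (Equiv.Perm.sumCongr σ τ)) =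
        oneLine σ ++ (oneLine τ).map (· + α.sum) := by
      unfold oneLine
      rw [List.ofFn_add, List.map_ofFn]
      congr 1
      · apply congrArg
        funext p
        have h4 : finSumFinEquiv.symm (Fin.castAdd β.sum p) = Sum.inl p :=
          finSumFinEquiv_symm_apply_castAdd p
        rw [Equiv.permCongr_apply]
        show ((finSumFinEquiv (Equiv.Perm.sumCongr σ τ
          (finSumFinEquiv.symm (Fin.castAdd β.sum p))) : Fin (α.sum + β.sum)) : ℕ) = _
        rw [h4, Equiv.Perm.sumCongr_apply, Sum.map_inl, finSumFinEquiv_apply_left]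
        rfl
      · apply congrArg
        funext p
        have h4 : finSumFinEquiv.symm (Fin.natAdd α.sum p) = Sum.inr p :=
          finSumFinEquiv_symm_apply_natAdd p
        rw [Equiv.permCongr_apply]
        show ((finSumFinEquiv (Equiv.Perm.sumCongr σ τ
          (finSumFinEquiv.symm (Fin.natAdd α.sum p))) : Fin (α.sum + β.sum)) : ℕ) = _
        rw [h4, Equiv.Perm.sumCongr_apply, Sum.map_inr, finSumFinEquiv_apply_right]
        simp [add_comm]
    rw [h3, rsTab_append α.sum, rowLen_mrg, rsTab_shift, rowLen_map, h1, h2, List.filter_append,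
      List.length_append]
    · intro x hx
      unfold oneLine at hx
      rw [List.mem_ofFn] at hx
      obtain ⟨p, rfl⟩ := hx
      exact (σ p).2
    · intro x hx
      rw [List.mem_map] at hx
      obtain ⟨z, -, rfl⟩ := hx
      omega

theorem real_perm (α : Multiset ℕ) (c d : List ℕ) (h : c.Perm d) (hc : Real α c) : Real α d := by
  obtain ⟨σ, hσ, h1⟩ := hc
  refine ⟨σ, hσ, fun i => ?_⟩
  rw [h1 i]
  exact (h.filter _).length_eq

end Pool.Agent.RST
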