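import Pool.Agent.RST.Adj

/-!
# RST/Dec: a decidable criterion for explicit systems of words

`real_dec`: if the Boolean check `chk y W fuel` holds, then the system `W` realises its content.
-/

set_option autoImplicit false

namespace Pool.Agent.RST

open Finset

/-- `true` if the first `fuel` letters show that `key y w t < key y w' t'` (for `sgn = true`), or
`key y w' t' < key y w t` (for `sgn = false`) -/
def klt (y : ℕ) (w w' : List ℕ) : ℕ → Bool → ℕ → ℕ → Bool
  | 0, _, _, _ => false
  | fuel + 1, sgn, t, t' =>
    if lt w t = lt w' t' then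
      klt y w w' fuel (if lt w t < y then !sgn else sgn) (t + 1) (t' + 1)
    else if sgn then decide (lt w t < lt w' t') else decide (lt w' t' < lt w t)

theorem klt_spec (y : ℕ) (w w' : List ℕ) (fuel : ℕ) : ∀ (sgn : Bool) (t t' : ℕ),
    klt y w w' fuel sgn t t' = true →
    (sgn = true → key y w t < key y w' t') ∧ (sgn = false → key y w' t' < key y w t) := by
  induction fuel with
  | zero => intro sgn t t' h; simp [klt] at h
  | succ fuel ih =>
    intro sgn t t' h
    have h1 := key_zero y w t
    have h2 := key_zero y w' t'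
    unfold klt at h
    by_cases he : lt w t = lt w' t'
    · rw [if_pos he] at h
      have h0 : ofLex (key y w t) 0 = ofLex (key y w' t') 0 := by rw [h1, h2, he]
      by_cases hy : lt w t < y
      · rw [if_pos hy] at h
        have hy1 : ofLex (key y w t) 0 < (y : ℤ) := by rw [h1]; exact_mod_cast hy
        have hy2 : ofLex (key y w' t') 0 < (y : ℤ) := h0 ▸ hy1
        have ih' := ih (!sgn) (t + 1) (t' + 1) h
        constructor
        · intro hs
          rw [lt_iff_shf y _ _ h0 hy1, shf_key, shf_key]
          exact ih'.2 (by rw [hs]; rfl)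
        · intro hs
          rw [lt_iff_shf y _ _ h0.symm hy2, shf_key, shf_key]
          exact ih'.1 (by rw [hs]; rfl)
      · rw [if_neg hy] at h
        have hy1 : ¬ ofLex (key y w t) 0 < (y : ℤ) := by rw [h1]; exact_mod_cast hy
        have hy2 : ¬ ofLex (key y w' t') 0 < (y : ℤ) := h0 ▸ hy1
        have ih' := ih sgn (t + 1) (t' + 1) h
        constructor
        · intro hs
          rw [lt_iff_shf_inc y _ _ h0 hy1, shf_key, shf_key]
          exact ih'.1 hs
        · intro hs
          rw [lt_iff_shf_inc y _ _ h0.symm hy2, shf_key, shf_key]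
          exact ih'.2 hs
    · rw [if_neg he] at h
      constructor
      · intro hs
        rw [hs, if_pos rfl, decide_eq_true_eq] at h
        apply key_lt_of_zero
        rw [h1, h2]
        exact_mod_cast h
      · intro hs
        rw [hs, if_neg (by simp), decide_eq_true_eq] at h
        apply key_lt_of_zero
        rw [h1, h2]
        exact_mod_cast h

/-- the elements of a system: a word and a position (the position before the element) -/
def els (W : List (List ℕ)) : List (List ℕ × ℕ) :=
  W.flatMap fun w => (List.range w.length).map fun t => (w, t)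

theorem mem_els {W : List (List ℕ)} {e : List ℕ × ℕ} (h : e ∈ els W) :
    e.1 ∈ W ∧ e.2 < e.1.length := by
  unfold els at h
  rw [List.mem_flatMap] at h
  obtain ⟨w, h1, h2⟩ := h
  rw [List.mem_map] at h2
  obtain ⟨t, h3, rfl⟩ := h2
  exact ⟨h1, List.mem_range.1 h3⟩

theorem els_mem {W : List (List ℕ)} {w : List ℕ} {t : ℕ} (h : w ∈ W) (ht : t < w.length) :
    (w, t) ∈ els W := by
  unfold els
  rw [List.mem_flatMap]
  exact ⟨w, h, List.mem_map.2 ⟨t, List.mem_range.2 ht, rfl⟩⟩

open Classical in
theorem sum_D_els (y : ℕ) (W : List (List ℕ)) (m : ℕ) (κ : Lex (ℕ → ℤ)) :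
    (W.map fun w => D y w m κ).sum =
      ((els W).countP fun e => decide (lt e.1 e.2 = m) && decide (key y e.1 (e.2 + 1) ≤ κ) : ℤ) -
      ((els W).countP fun e => decide (lt e.1 e.2 = m + 1) &&
        decide (key y e.1 (e.2 + 1) ≤ κ) : ℤ) := by
  induction W with
  | nil => simp [els]
  | cons w W ih =>
    rw [List.map_cons, List.sum_cons, ih]
    have h1 : els (w :: W) = ((List.range w.length).map fun t => (w, t)) ++ els W := by
      unfold els
      rw [List.flatMap_cons]
    rw [h1, List.countP_append, List.countP_append, List.countP_map, List.countP_map, D_eq]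
    have h2 : ∀ n, ∑ t ∈ range n, (if key y w (t + 1) ≤ κ then cc m (lt w t) else 0) =
        ((List.range n).countP ((fun e : List ℕ × ℕ => decide (lt e.1 e.2 = m) &&
          decide (key y e.1 (e.2 + 1) ≤ κ)) ∘ fun t => (w, t)) : ℤ) -
        ((List.range n).countP ((fun e : List ℕ × ℕ => decide (lt e.1 e.2 = m + 1) &&
          decide (key y e.1 (e.2 + 1) ≤ κ)) ∘ fun t => (w, t)) : ℤ) := by
      intro n
      induction n with
      | zero => simp
      | succ n ihn =>
        rw [sum_range_succ, ihn, List.range_succ, List.countP_append, List.countP_append]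
        simp only [List.countP_singleton, Function.comp]
        unfold cc
        by_cases hk : key y w (n + 1) ≤ κ
        · by_cases ha : lt w n = m
          · have hb : ¬ lt w n = m + 1 := by omega
            simp only [hk, ha, if_true, decide_true, Bool.and_true]
            simp
            ring
          · by_cases hb : lt w n = m + 1
            · simp only [hk, hb, if_true, decide_true, Bool.and_true]
              simp
              ring
            · simp only [hk, ha, hb, if_true, if_false, decide_true, decide_false, Bool.and_true]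
              simp
        · simp only [hk, if_false, decide_false, Bool.and_false]
          simp
    rw [h2]
    push_cast
    ring

/-- the check for the letter `m` -/
def chkM (y : ℕ) (W : List (List ℕ)) (fuel m : ℕ) : Bool :=
  (els W).all fun q => !decide (lt q.1 q.2 = m + 1) ||
    decide (((els W).countP fun q' => decide (lt q'.1 q'.2 = m + 1) &&
        !klt y q.1 q'.1 fuel true (q.2 + 1) (q'.2 + 1)) ≤
      (els W).countP fun p => decide (lt p.1 p.2 = m) &&
        klt y p.1 q.1 fuel true (p.2 + 1) (q.2 + 1))

theorem chkM_spec (y : ℕ) (W : List (List ℕ)) (fuel m : ℕ) (h : chkM y W fuel m = true)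
    (κ : Lex (ℕ → ℤ)) : 0 ≤ (W.map fun w => D y w m κ).sum := by
  classical
  rw [sum_D_els]
  set Q := (els W).filter fun e => decide (lt e.1 e.2 = m + 1) &&
    decide (key y e.1 (e.2 + 1) ≤ κ) with hQ
  rcases eq_or_ne Q [] with h0 | h0
  · have h1 : (els W).countP (fun e => decide (lt e.1 e.2 = m + 1) &&
        decide (key y e.1 (e.2 + 1) ≤ κ)) = 0 := by
      rw [List.countP_eq_length_filter, ← hQ, h0]
      rfl
    rw [h1]
    simp
  · obtain ⟨q, hq, hmax⟩ := Finset.exists_max_image Q.toFinset (fun e => key y e.1 (e.2 + 1))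
      (by
        obtain ⟨a, ha⟩ := List.exists_mem_of_ne_nil Q h0
        exact ⟨a, List.mem_toFinset.2 ha⟩)
    rw [List.mem_toFinset, hQ, List.mem_filter, Bool.and_eq_true, decide_eq_true_eq,
      decide_eq_true_eq] at hq
    obtain ⟨hq1, hq2, hq3⟩ := hq
    unfold chkM at h
    rw [List.all_eq_true] at h
    have h1 := h q hq1
    rw [Bool.or_eq_true, Bool.not_eq_true', decide_eq_false_iff_not, decide_eq_true_eq] at h1
    have h2 := h1.resolve_left (fun h => h hq2)
    have h3 : (els W).countP (fun e => decide (lt e.1 e.2 = m + 1) &&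
        decide (key y e.1 (e.2 + 1) ≤ κ)) ≤
        (els W).countP fun q' => decide (lt q'.1 q'.2 = m + 1) &&
          !klt y q.1 q'.1 fuel true (q.2 + 1) (q'.2 + 1) := by
      apply List.countP_mono_left
      intro e he hh
      rw [Bool.and_eq_true, decide_eq_true_eq, decide_eq_true_eq] at hh
      rw [Bool.and_eq_true, decide_eq_true_eq]
      refine ⟨hh.1, ?_⟩
      rw [Bool.not_eq_true']
      by_contra hc
      rw [Bool.not_eq_false] at hc
      have h4 := (klt_spec y q.1 e.1 fuel true (q.2 + 1) (e.2 + 1) hc).1 rfl
      have h5 := hmax e (by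
        rw [List.mem_toFinset, hQ, List.mem_filter, Bool.and_eq_true, decide_eq_true_eq,
          decide_eq_true_eq]
        exact ⟨he, hh.1, hh.2⟩)
      exact absurd h4 (not_lt.2 h5)
    have h4 : (els W).countP (fun p => decide (lt p.1 p.2 = m) &&
          klt y p.1 q.1 fuel true (p.2 + 1) (q.2 + 1)) ≤
        (els W).countP (fun e => decide (lt e.1 e.2 = m) &&
          decide (key y e.1 (e.2 + 1) ≤ κ)) := by
      apply List.countP_mono_left
      intro e _ hh
      rw [Bool.and_eq_true, decide_eq_true_eq] at hh
      rw [Bool.and_eq_true, decide_eq_true_eq, decide_eq_true_eq]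
      refine ⟨hh.1, ?_⟩
      have h5 := (klt_spec y e.1 q.1 fuel true (e.2 + 1) (q.2 + 1) hh.2).1 rfl
      exact (h5.trans_le hq3).le
    have h5 := h3.trans (h2.trans h4)
    have h6 : ((els W).countP (fun e => decide (lt e.1 e.2 = m + 1) &&
        decide (key y e.1 (e.2 + 1) ≤ κ)) : ℤ) ≤ (els W).countP (fun e => decide (lt e.1 e.2 = m) &&
          decide (key y e.1 (e.2 + 1) ≤ κ)) := by exact_mod_cast h5
    linarith

/-- the check for the increasing letter -/
def chkA (y : ℕ) (W : List (List ℕ)) (fuel : ℕ) : Bool :=
  (els W).all fun q => !decide (lt q.1 q.2 = y) ||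
    (els W).any fun p => decide (lt p.1 p.2 + 1 = y) && klt y p.1 q.1 fuel true (p.2 + 1) (q.2 + 1)

/-- the check for one word -/
def chkW (y : ℕ) (w : List ℕ) : Bool :=
  decide (2 ≤ w.length) && (w.all fun x => decide (x ≤ y)) &&
    (((List.range w.length).all fun d => decide (d = 0) ||
      (List.range w.length).any fun t => !decide (lt w (t + d) = lt w t)) ||
    (decide (w.length = 2) && decide (lt w 0 = lt w 1) && decide (lt w 0 < y)))

theorem chkW_spec (y : ℕ) (w : List ℕ) (h : chkW y w = true) :
    OkW y w ∧ ∀ x ∈ w, x ≤ y := by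
  unfold chkW at h
  rw [Bool.and_eq_true, Bool.and_eq_true, decide_eq_true_eq, List.all_eq_true,
    Bool.or_eq_true] at h
  obtain ⟨⟨h1, h2⟩, h3⟩ := h
  refine ⟨⟨h1, ?_⟩, fun x hx => by simpa using h2 x hx⟩
  rcases h3 with h3 | h3
  · left
    intro d hd hd'
    rw [List.all_eq_true] at h3
    have h4 := h3 d (List.mem_range.2 hd')
    rw [Bool.or_eq_true, decide_eq_true_eq, List.any_eq_true] at h4
    rcases h4 with h4 | ⟨t, -, h5⟩
    · omega
    · exact ⟨t, by simpa using h5⟩
  · right
    rw [Bool.and_eq_true, Bool.and_eq_true, decide_eq_true_eq, decide_eq_true_eq,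
      decide_eq_true_eq] at h3
    obtain ⟨⟨h4, h5⟩, h6⟩ := h3
    refine ⟨lt w 0, h6, ?_⟩
    match w, h4 with
    | [a, b], _ =>
      have e1 : lt [a, b] 0 = a := rfl
      have e2 : lt [a, b] 1 = b := rfl
      rw [e1, e2] at h5
      rw [e1, h5]

/-- the complete check -/
def chk (y : ℕ) (W : List (List ℕ)) (fuel : ℕ) : Bool :=
  (W.all fun w => chkW y w) && ((List.range (y - 1)).all fun m => chkM y W fuel m) &&
    chkA y W fuel && decide (W.Pairwise fun a b => a.length ≠ b.length)

theorem real_dec (y : ℕ) (W : List (List ℕ)) (fuel : ℕ) (h : chk y W fuel = true) :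
    Real ((W.map List.length : List ℕ) : Multiset ℕ)
      (((List.range y).map fun m => (W.map fun w => w.count m).sum) ++
        List.replicate (W.map fun w => w.count y).sum 1) := by
  unfold chk at h
  rw [Bool.and_eq_true, Bool.and_eq_true, Bool.and_eq_true, List.all_eq_true, List.all_eq_true,
    decide_eq_true_eq] at h
  obtain ⟨⟨⟨h1, h2⟩, h3⟩, h4⟩ := h
  apply real_words y W (fun w hw => (chkW_spec y w (h1 w hw)).2)
    (fun w hw => (chkW_spec y w (h1 w hw)).1) h4
  · intro m ρ κ hm _ _
    exact chkM_spec y W fuel m (h2 m (List.mem_range.2 (by omega))) κ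
  · right
    intro w hw t ht hpv
    have hlen : 0 < w.length := by omega
    -- the element before `t`
    have hmem : (w, (t + (w.length - 1)) % w.length) ∈ els W :=
      els_mem hw (Nat.mod_lt _ hlen)
    unfold chkA at h3
    rw [List.all_eq_true] at h3
    have h5 := h3 _ hmem
    rw [Bool.or_eq_true, Bool.not_eq_true', decide_eq_false_iff_not, List.any_eq_true] at h5
    have h6 : lt w ((t + (w.length - 1)) % w.length) = y := by
      rw [lt_mod]
      exact hpv
    rcases h5 with h5 | ⟨p, hp, h7⟩
    · exact absurd h6 h5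
    · rw [Bool.and_eq_true, decide_eq_true_eq] at h7
      obtain ⟨hp1, hp2⟩ := mem_els hp
      have h8 := (klt_spec y _ _ fuel true _ _ h7.2).1 rfl
      have hkey : key y w ((t + (w.length - 1)) % w.length + 1) = key y w t := by
        rw [← key_mod, Nat.mod_add_mod, show t + (w.length - 1) + 1 = t + w.length by omega,
          Nat.add_mod_right, key_mod]
      refine ⟨p.1, hp1, (p.2 + 1) % p.1.length, Nat.mod_lt _ (by omega), ?_, ?_⟩
      · rw [key_mod]
        have h9 : key y p.1 (p.2 + 1) < key y w ((t + (w.length - 1)) % w.length + 1) := h8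
        rw [hkey] at h9
        exact h9.le
      · have h10 : pv p.1 ((p.2 + 1) % p.1.length) = lt p.1 p.2 := by
          unfold pv
          rw [← lt_mod p.1 (_ + _), Nat.mod_add_mod,
            show p.2 + 1 + (p.1.length - 1) = p.2 + p.1.length by omega, Nat.add_mod_right, lt_mod]
        rw [h10]
        exact h7.1

end Pool.Agent.RST
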