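import Mathlib

/-!
# RST/Defs: Robinson-Schensted row insertion and the property to be proved
-/

set_option autoImplicit false

namespace Pool.Agent.RST

/-- row insertion of `x` into a row: the new row and the bumped entry (if any) -/
def rowIns (x : ℕ) : List ℕ → List ℕ × Option ℕ
  | [] => ([x], none)
  | y :: ys => if x < y then (x :: ys, some y) else (y :: (rowIns x ys).1, (rowIns x ys).2)

/-- row insertion of `x` into a tableau (the list of its rows) -/
def tabIns (x : ℕ) : List (List ℕ) → List (List ℕ)
  | [] => [[x]]
  | row :: rows =>
    match (rowIns x row).2 with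
    | none => (rowIns x row).1 :: rows
    | some y => (rowIns x row).1 :: tabIns y rows

/-- the insertion tableau of a word -/
def rsTab (u : List ℕ) : List (List ℕ) := u.foldl (fun T x => tabIns x T) []

/-- the one-line word of a permutation -/
def oneLine {n : ℕ} (σ : Equiv.Perm (Fin n)) : List ℕ := List.ofFn fun i => (σ i : ℕ)

/-- the length of the row `i` of a tableau -/
def rowLen (T : List (List ℕ)) (i : ℕ) : ℕ := (T.getD i []).length

/-- there is a permutation of cycle type `α` (without fixed points) whose RS shape has the column
lengths `c` (in any order) -/
def Real (α : Multiset ℕ) (c : List ℕ) : Prop :=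
  ∃ σ : Equiv.Perm (Fin α.sum), σ.cycleType = α ∧
    ∀ i, rowLen (rsTab (oneLine σ)) i = (c.filter fun x => i < x).length

end Pool.Agent.RST
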