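import Pool.Agent.RST.Prim

/-!
# RST/Hook: hook shapes
-/

set_option autoImplicit false

namespace Pool.Agent.RST

/-- the word `0^p 1^q` -/
def hwd (p q : ℕ) : List ℕ := List.replicate p 0 ++ List.replicate q 1

theorem hwd_length (p q : ℕ) : (hwd p q).length = p + q := by simp [hwd]

theorem hwd_count0 (p q : ℕ) : (hwd p q).count 0 = p := by
  simp [hwd, List.count_replicate]

theorem hwd_count1 (p q : ℕ) : (hwd p q).count 1 = q := by
  simp [hwd, List.count_replicate]

theorem hwd_ok (p q : ℕ) (hp : 1 ≤ p) (hq : 1 ≤ q) : OkW 1 (hwd p q) := by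
  apply okW_run 1 (by omega)
  · intro h
    have := congrArg List.length h
    simp at this; omega
  · simp

theorem lt_hwd_0 {p q t : ℕ} (h : t < p) : lt (hwd p q) t = 0 := lt_run_lt h

theorem lt_hwd_1 {p q t : ℕ} (h : p ≤ t) (h2 : t < p + q) : lt (hwd p q) t = 1 := by
  have := lt_run_ge (a := p) (x := 0) (R := List.replicate q 1) h (by simpa using h2)
  rw [List.mem_replicate] at this
  exact this.2

/-- letters of `hwd p q` after one turn -/
theorem lt_hwd_add {p q : ℕ} (t : ℕ) : lt (hwd p q) (t + (p + q)) = lt (hwd p q) t := by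
  have := lt_add_length (hwd p q) t
  rwa [hwd_length] at this

theorem sg_succ' (y : ℕ) (w : List ℕ) (t s : ℕ) :
    sg y w t (s + 1) = sg y w t s * (if lt w (t + s) < y then -1 else 1) := by
  unfold sg
  rw [Finset.prod_range_succ]

/-- signs at the last `0` of `0^a 1^g` -/
theorem sg_e0 {a g : ℕ} (ha : 1 ≤ a) (s : ℕ) (hs : s ≤ g) :
    sg 1 (hwd a g) (a - 1) (s + 1) = -1 := by
  induction s with
  | zero =>
    rw [sg_succ']
    have : lt (hwd a g) (a - 1 + 0) = 0 := lt_hwd_0 (by omega)
    rw [this]
    simp [sg]
  | succ s ih =>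
    rw [sg_succ', ih (by omega)]
    have : lt (hwd a g) (a - 1 + (s + 1)) = 1 := lt_hwd_1 (by omega) (by omega)
    rw [this]
    simp

theorem key_e0_0 {a g : ℕ} (ha : 1 ≤ a) : ofLex (key 1 (hwd a g) (a - 1)) 0 = 0 := by
  rw [key_zero, lt_hwd_0 (by omega)]; rfl

theorem key_e0_mid {a g : ℕ} (ha : 1 ≤ a) (s : ℕ) (hs : s < g) :
    ofLex (key 1 (hwd a g) (a - 1)) (s + 1) = -1 := by
  rw [key_apply, sg_e0 ha s (by omega)]
  have : lt (hwd a g) (a - 1 + (s + 1)) = 1 := lt_hwd_1 (by omega) (by omega)
  rw [this]; norm_num

theorem key_e0_g {a g : ℕ} (ha : 1 ≤ a) :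
    ofLex (key 1 (hwd a g) (a - 1)) (g + 1) = 0 := by
  rw [key_apply]
  have h1 : lt (hwd a g) (a - 1 + (g + 1)) = 0 := by
    rw [show a - 1 + (g + 1) = 0 + (a + g) by omega, lt_hwd_add]
    exact lt_hwd_0 (by omega)
  rw [h1]; simp

/-- two turns -/
theorem key_e0_g2 {a g : ℕ} (ha : 1 ≤ a) :
    ofLex (key 1 (hwd a g) (a - 1)) (g + 2) = if a = 1 ∧ 1 ≤ g then 1 else 0 := by
  rw [key_apply]
  have h2 : sg 1 (hwd a g) (a - 1) (g + 2) = 1 := by
    rw [show g + 2 = (g + 1) + 1 by ring, sg_succ', sg_e0 ha g le_rfl]
    have h1 : lt (hwd a g) (a - 1 + (g + 1)) = 0 := by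
      rw [show a - 1 + (g + 1) = 0 + (a + g) by omega, lt_hwd_add]
      exact lt_hwd_0 (by omega)
    rw [h1]; norm_num
  rw [h2, one_mul, show a - 1 + (g + 2) = 1 + (a + g) by omega, lt_hwd_add]
  split_ifs with h
  · obtain ⟨rfl, hg⟩ := h
    rw [lt_hwd_1 (by omega) (by omega)]; rfl
  · rcases Nat.lt_or_ge 1 a with h3 | h3
    · rw [lt_hwd_0 h3]; rfl
    · have : a = 1 := by omega
      subst this
      have : g = 0 := by
        by_contra hg
        exact h ⟨rfl, by omega⟩
      subst this
      rw [show (1 : ℕ) = 0 + (1 + 0) by ring, lt_hwd_add, lt_hwd_0 (by omega)]; rfl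

/-- condition (A) for hook systems -/
theorem hook_A {a g : ℕ} (ha : 2 ≤ a) (hg : 1 ≤ g) (p q t : ℕ) (hp : 1 ≤ p)
    (hpq : p = 1 → q ≤ g) (ht : t < p + q) (hpv : pv (hwd p q) t = 1) :
    key 1 (hwd a g) (a - 1) ≤ key 1 (hwd p q) t := by
  have e0 := key_e0_0 (a := a) (g := g) (by omega)
  rcases Nat.lt_or_ge t p with h1 | h1
  · -- region of `0`; then `t = 0`
    have ht0 : t = 0 := by
      by_contra hne
      have : pv (hwd p q) t = 0 := by
        unfold pv
        rw [hwd_length, show t + (p + q - 1) = (t - 1) + (p + q) by omega, lt_hwd_add]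
        exact lt_hwd_0 (by omega)
      omega
    subst ht0
    have hq : 1 ≤ q := by
      by_contra hq0
      have : q = 0 := by omega
      subst this
      have : pv (hwd p 0) 0 = 0 := by
        unfold pv
        rw [hwd_length]
        exact lt_hwd_0 (by omega)
      omega
    have k0 : ofLex (key 1 (hwd p q) 0) 0 = 0 := by
      rw [key_zero, lt_hwd_0 h1]; rfl
    apply le_of_lt
    rcases Nat.lt_or_ge 1 p with h2 | h2
    · -- `p ≥ 2`
      have k1 : ofLex (key 1 (hwd p q) 0) 1 = 0 := by
        rw [key_apply, lt_hwd_0 (by omega)]; simp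
      refine ⟨1, ?_, ?_⟩
      · intro j hj
        have : j = 0 := by omega
        subst this
        exact e0.trans k0.symm
      · show ofLex (key 1 (hwd a g) (a - 1)) 1 < ofLex (key 1 (hwd p q) 0) 1
        rw [k1, key_e0_mid (by omega) 0 hg]; norm_num
    · -- `p = 1`
      have hp1 : p = 1 := by omega
      subst hp1
      have hqg := hpq rfl
      have m1 : ∀ s < q, ofLex (key 1 (hwd 1 q) 0) (s + 1) = -1 := fun s hs =>
        key_e0_mid (a := 1) le_rfl s hs
      have m2 : ofLex (key 1 (hwd 1 q) 0) (q + 1) = 0 := key_e0_g (a := 1) le_rfl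
      have m3 : ofLex (key 1 (hwd 1 q) 0) (q + 2) = 1 := by
        have := key_e0_g2 (a := 1) (g := q) le_rfl
        rw [if_pos ⟨rfl, hq⟩] at this
        exact this
      rcases Nat.lt_or_ge q g with h3 | h3
      · refine ⟨q + 1, ?_, ?_⟩
        · intro j hj
          cases j with
          | zero => exact e0.trans k0.symm
          | succ j =>
            show ofLex (key 1 (hwd a g) (a - 1)) (j + 1) = ofLex (key 1 (hwd 1 q) 0) (j + 1)
            rw [m1 j (by omega), key_e0_mid (by omega) j (by omega)]
        · show ofLex (key 1 (hwd a g) (a - 1)) (q + 1) < ofLex (key 1 (hwd 1 q) 0) (q + 1)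
          rw [m2, key_e0_mid (by omega) q h3]; norm_num
      · have : q = g := by omega
        subst this
        refine ⟨q + 2, ?_, ?_⟩
        · intro j hj
          cases j with
          | zero => exact e0.trans k0.symm
          | succ j =>
            show ofLex (key 1 (hwd a q) (a - 1)) (j + 1) = ofLex (key 1 (hwd 1 q) 0) (j + 1)
            rcases Nat.lt_or_ge j q with h4 | h4
            · rw [m1 j h4, key_e0_mid (by omega) j h4]
            · have : j = q := by omega
              subst this
              rw [m2, key_e0_g (by omega)]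
        · show ofLex (key 1 (hwd a q) (a - 1)) (q + 2) < ofLex (key 1 (hwd 1 q) 0) (q + 2)
          rw [m3, key_e0_g2 (by omega), if_neg (by omega)]; norm_num
  · -- region of `1`
    apply le_of_lt
    apply key_lt_of_zero
    rw [e0, key_zero, lt_hwd_1 h1 ht]; norm_num

theorem hwd_inj_pv {p q t : ℕ} (hq : q = 0) (hp : 1 ≤ p) : pv (hwd p q) t = 0 := by
  subst hq
  unfold pv
  rw [hwd_length, ← lt_mod, hwd_length]
  exact lt_hwd_0 (Nat.mod_lt _ (by omega))

/-- filling with lower bound 1 and upper bound `T i - 1` -/
theorem fill (T : List ℕ) : ∀ E : ℕ, (∀ x ∈ T, 2 ≤ x) → T.length ≤ E →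
    E ≤ (T.map fun x => x - 1).sum →
    ∃ A : List (ℕ × ℕ), (A.map fun x => x.1 + x.2) = T ∧ (A.map Prod.fst).sum = E ∧
      ∀ x ∈ A, 1 ≤ x.1 ∧ 1 ≤ x.2 := by
  induction T with
  | nil =>
    intro E _ _ h
    simp at h
    exact ⟨[], by simp, by simp [h], by simp⟩
  | cons x T ih =>
    intro E hT h1 h2
    have hx := hT x (by simp)
    have hT' : ∀ y ∈ T, 2 ≤ y := fun y hy => hT y (by simp [hy])
    have hlen : T.length ≤ (T.map fun x => x - 1).sum := by
      have : ∀ L : List ℕ, (∀ y ∈ L, 2 ≤ y) → L.length ≤ (L.map fun x => x - 1).sum := by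
        intro L hL
        induction L with
        | nil => simp
        | cons z L ihL =>
          have := hL z (by simp)
          have := ihL (fun y hy => hL y (by simp [hy]))
          simp only [List.length_cons, List.map_cons, List.sum_cons]; omega
      exact this T hT'
    simp only [List.length_cons, List.map_cons, List.sum_cons] at h1 h2
    rcases Nat.lt_or_ge (E - T.length) (x - 1) with h3 | h3
    · obtain ⟨A, hA1, hA2, hA3⟩ := ih T.length hT' le_rfl hlen
      refine ⟨(E - T.length, x - (E - T.length)) :: A, ?_, ?_, ?_⟩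
      · simp only [List.map_cons, hA1]; congr 1; omega
      · simp only [List.map_cons, List.sum_cons, hA2]; omega
      · intro z hz
        rcases List.mem_cons.mp hz with rfl | hz
        · simp only; omega
        · exact hA3 z hz
    · obtain ⟨A, hA1, hA2, hA3⟩ := ih (E - (x - 1)) hT' (by omega) (by omega)
      refine ⟨(x - 1, 1) :: A, ?_, ?_, ?_⟩
      · simp only [List.map_cons, hA1]; congr 1; omega
      · simp only [List.map_cons, List.sum_cons, hA2]; omega
      · intro z hz
        rcases List.mem_cons.mp hz with rfl | hz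
        · simp only; omega
        · exact hA3 z hz

/-- hook systems from the list of the pairs (number of 0, number of 1) -/
theorem real_hook_pairs (a g : ℕ) (ha : 2 ≤ a) (hg : 1 ≤ g) (A : List (ℕ × ℕ))
    (hA : ∀ x ∈ A, 1 ≤ x.1 ∧ 1 ≤ x.2 ∧ (x.1 = 1 → x.2 ≤ g)) (two : List (List ℕ))
    (h2 : two = [] ∨ two = [[0, 0]])
    (hd : ((a + g) :: (A.map fun x => x.1 + x.2) ++ two.map List.length).Nodup) :
    Real (((a + g) :: (A.map fun x => x.1 + x.2) ++ two.map List.length : List ℕ) : Multiset ℕ)
      ((a + (A.map Prod.fst).sum + 2 * two.length) ::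
        List.replicate (g + (A.map Prod.snd).sum) 1) := by
  set W : List (List ℕ) := hwd a g :: (A.map fun x => hwd x.1 x.2) ++ two with hW
  have hlen : W.map List.length = (a + g) :: (A.map fun x => x.1 + x.2) ++ two.map List.length := by
    simp [hW, hwd_length, Function.comp_def]
  have hmemW : ∀ w ∈ W, w = hwd a g ∨ (∃ x ∈ A, w = hwd x.1 x.2) ∨ (w = [0, 0] ∧ two = [[0, 0]]) := by
    intro w hw
    simp only [hW, List.cons_append, List.mem_cons, List.mem_append, List.mem_map] at hw
    rcases hw with rfl | ⟨x, hx, rfl⟩ | hw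
    · exact Or.inl rfl
    · exact Or.inr (Or.inl ⟨x, hx, rfl⟩)
    · rcases h2 with h2 | h2
      · rw [h2] at hw; simp at hw
      · rw [h2] at hw; simp at hw
        exact Or.inr (Or.inr ⟨hw, h2⟩)
  have hmain := real_words 1 W (by
    intro w hw x hx
    rcases hmemW w hw with rfl | ⟨z, hz, rfl⟩ | ⟨rfl, _⟩
    · simp [hwd] at hx; omega
    · simp [hwd] at hx; omega
    · simp at hx; omega) (by
    intro w hw
    rcases hmemW w hw with rfl | ⟨z, hz, rfl⟩ | ⟨rfl, _⟩
    · exact hwd_ok a g (by omega) hg
    · exact hwd_ok _ _ (hA z hz).1 (hA z hz).2.1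
    · exact okW_mm (by norm_num)) (by
    have : (W.map List.length).Pairwise (· ≠ ·) := by rw [hlen]; exact hd
    rw [List.pairwise_map] at this
    exact this) (by
    intro m ρ κ hm
    omega) (by
    right
    intro w hw t ht hpv
    have hw0 : hwd a g ∈ W := by simp [hW]
    refine ⟨hwd a g, hw0, a - 1, by rw [hwd_length]; omega, ?_, ?_⟩
    · rcases hmemW w hw with rfl | ⟨z, hz, rfl⟩ | ⟨rfl, _⟩
      · exact hook_A ha hg a g t (by omega) (by omega) (by rwa [hwd_length] at ht) hpv
      · exact hook_A ha hg z.1 z.2 t (hA z hz).1 (hA z hz).2.2 (by rwa [hwd_length] at ht) hpv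
      · exfalso
        have e : ([0, 0] : List ℕ) = hwd 2 0 := rfl
        rw [e, hwd_inj_pv rfl (by norm_num)] at hpv
        omega
    · unfold pv
      rw [hwd_length, show a - 1 + (a + g - 1) = (a - 2) + (a + g) by omega, lt_hwd_add,
        lt_hwd_0 (by omega)])
  rw [hlen] at hmain
  have e1 : ((List.range 1).map fun m => (W.map fun w => w.count m).sum) =
      [a + (A.map Prod.fst).sum + 2 * two.length] := by
    simp only [List.range_one, List.map_cons, List.map_nil, hW, List.cons_append, List.sum_cons,
      List.map_append, List.sum_append, hwd_count0, List.map_map, Function.comp_def]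
    have e0 : (A.map fun x => x.1).sum = (A.map Prod.fst).sum := rfl
    rcases h2 with h2 | h2
    · simp [h2, e0]
    · simp only [h2, e0]; simp; omega
  have e2 : (W.map fun w => w.count 1).sum = g + (A.map Prod.snd).sum := by
    simp only [hW, List.cons_append, List.map_cons, List.sum_cons,
      List.map_append, List.sum_append, hwd_count1, List.map_map, Function.comp_def]
    rcases h2 with h2 | h2 <;> simp [h2]
  rw [e1, e2] at hmain
  exact hmain

/-- the number of parts -/
theorem card_le_sum_sub (T : List ℕ) (hT : ∀ x ∈ T, 2 ≤ x) :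
    T.length ≤ (T.map fun x => x - 1).sum ∧ (T.map fun x => x - 1).sum + T.length = T.sum := by
  induction T with
  | nil => simp
  | cons x T ih =>
    have hx := hT x (by simp)
    have := ih (fun y hy => hT y (by simp [hy]))
    simp only [List.length_cons, List.map_cons, List.sum_cons]
    omega

theorem real_two : Real {2} [2] := by
  have := real_words 1 [[0, 0]] (by simp) (by
    intro w hw
    simp at hw; subst hw
    exact okW_mm (by norm_num)) (by simp) (by intro m ρ κ hm; omega) (by
    right
    intro w hw t ht hpv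
    simp at hw; subst hw
    exfalso
    have e : ([0, 0] : List ℕ) = hwd 2 0 := rfl
    rw [e, hwd_inj_pv rfl (by norm_num)] at hpv
    omega)
  simpa using this

/-- **Hooks.** -/
theorem real_hook (al : Multiset ℕ) (c h : ℕ) (hnd : al.Nodup) (h2 : ∀ a ∈ al, 2 ≤ a)
    (hne : al ≠ 0) (hsum : al.sum = c + h) (hc : Multiset.card al + 1 ≤ c)
    (hh : Multiset.card al ≤ h + (if 2 ∈ al then 1 else 0)) :
    Real al (c :: List.replicate h 1) := by
  -- the largest part
  obtain ⟨m, hm, hmax⟩ : ∃ m ∈ al, ∀ x ∈ al, x ≤ m := by
    have hne' : al.toFinset.Nonempty := by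
      obtain ⟨x, hx⟩ := Multiset.exists_mem_of_ne_zero hne
      exact ⟨x, by simpa using hx⟩
    refine ⟨al.toFinset.max' hne', by simpa using Finset.max'_mem al.toFinset hne', ?_⟩
    intro x hx
    exact Finset.le_max' _ _ (by simpa using hx)
  obtain ⟨be, hbe⟩ := Multiset.exists_cons_of_mem hm
  subst hbe
  obtain ⟨T, rfl⟩ := Quot.exists_rep be
  have hT : ∀ x ∈ T, 2 ≤ x := fun x hx => h2 x (by simp [hx])
  have hnd' : (m :: T).Nodup := by
    rw [← Multiset.coe_nodup]; exact hnd
  have hTm : ∀ x ∈ T, x < m := by
    intro x hx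
    refine lt_of_le_of_ne (hmax x (by simp [hx])) ?_
    rintro rfl
    exact (List.nodup_cons.mp hnd').1 hx
  have hm2 : 2 ≤ m := h2 m (by simp)
  have hs : m + T.sum = c + h := by
    have : (m ::ₘ (Quot.mk _ T : Multiset ℕ)).sum = m + T.sum := by
      simp
    rw [← this]; exact hsum
  have hcd : Multiset.card (m ::ₘ (Quot.mk _ T : Multiset ℕ)) = T.length + 1 := by simp
  rw [hcd] at hc hh
  obtain ⟨k1, k2⟩ := card_le_sum_sub T hT
  by_cases h3 : T.length + 1 ≤ h
  · -- general case
    have hm3 : 3 ≤ m := by
      by_contra hlt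
      have hmm : m = 2 := by omega
      rcases T with _ | ⟨x, T⟩
      · simp at hs hc h3; omega
      · have := hTm x (by simp)
        have := hT x (by simp)
        omega
    rcases Nat.lt_or_ge (T.map fun x => x - 1).sum (c - 2) with h4 | h4
    · -- all other words are full
      obtain ⟨A, hA1, hA2, hA3⟩ := fill T (T.map fun x => x - 1).sum hT k1 le_rfl
      have hfull : ∀ x ∈ A, x.2 = 1 := by
        -- sum of `x.2` is the length
        have hsum2 : (A.map Prod.snd).sum = A.length := by
          have e1 : (A.map fun x => x.1 + x.2).sum = (A.map Prod.fst).sum + (A.map Prod.snd).sum := by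
            exact List.sum_map_add
          have e2 : A.length = T.length := by rw [← hA1]; simp
          rw [hA1, hA2] at e1
          omega
        have : ∀ B : List (ℕ × ℕ), (∀ x ∈ B, 1 ≤ x.2) → B.length ≤ (B.map Prod.snd).sum ∧
            ((B.map Prod.snd).sum = B.length → ∀ x ∈ B, x.2 = 1) := by
          intro B hB
          induction B with
          | nil => simp
          | cons z B ih =>
            have hz := hB z (by simp)
            obtain ⟨i1, i2⟩ := ih (fun x hx => hB x (by simp [hx]))
            simp only [List.length_cons, List.map_cons, List.sum_cons]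
            refine ⟨by omega, ?_⟩
            intro he x hx
            rcases List.mem_cons.mp hx with rfl | hx
            · omega
            · exact i2 (by omega) x hx
        exact (this A (fun x hx => (hA3 x hx).2)).2 hsum2
      have hg : 1 ≤ m - (c - (T.map fun x => x - 1).sum) := by omega
      have hR := real_hook_pairs (c - (T.map fun x => x - 1).sum)
        (m - (c - (T.map fun x => x - 1).sum)) (by omega) hg A
        (fun x hx => ⟨(hA3 x hx).1, (hA3 x hx).2, fun _ => by rw [hfull x hx]; exact hg⟩) []
        (Or.inl rfl) (by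
          rw [hA1, show c - (T.map fun x => x - 1).sum + (m - (c - (T.map fun x => x - 1).sum)) = m
            by omega]
          simpa using hnd')
      rw [hA1, show c - (T.map fun x => x - 1).sum + (m - (c - (T.map fun x => x - 1).sum)) = m
            by omega] at hR
      have e1 : c - (T.map fun x => x - 1).sum + (A.map Prod.fst).sum + 2 * ([] : List (List ℕ)).length
          = c := by rw [hA2]; simp; try omega
      have e2 : m - (c - (T.map fun x => x - 1).sum) + (A.map Prod.snd).sum = h := by
        have e3 : (A.map fun x => x.1 + x.2).sum = (A.map Prod.fst).sum + (A.map Prod.snd).sum := by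
          exact List.sum_map_add
        rw [hA1, hA2] at e3
        omega
      rw [e1, e2] at hR
      simpa using hR
    · obtain ⟨A, hA1, hA2, hA3⟩ := fill T (c - 2) hT (by omega) h4
      have hA4 : ∀ x ∈ A, x.1 + x.2 < m := by
        intro x hx
        apply hTm
        rw [← hA1]
        exact List.mem_map.mpr ⟨x, hx, rfl⟩
      have hR := real_hook_pairs 2 (m - 2) le_rfl (by omega) A
        (fun x hx => ⟨(hA3 x hx).1, (hA3 x hx).2, fun h1 => by have := hA4 x hx; omega⟩) []
        (Or.inl rfl) (by
          rw [hA1, show 2 + (m - 2) = m by omega]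
          simpa using hnd')
      rw [hA1, show 2 + (m - 2) = m by omega] at hR
      have e1 : 2 + (A.map Prod.fst).sum + 2 * ([] : List (List ℕ)).length = c := by
        rw [hA2]; simp; try omega
      have e2 : m - 2 + (A.map Prod.snd).sum = h := by
        have e3 : (A.map fun x => x.1 + x.2).sum = (A.map Prod.fst).sum + (A.map Prod.snd).sum := by
          exact List.sum_map_add
        rw [hA1, hA2] at e3
        omega
      rw [e1, e2] at hR
      simpa using hR
  · -- `h + 1 = card`, `2 ∈ al`
    have h2m : 2 ∈ (m ::ₘ (Quot.mk _ T : Multiset ℕ)) := by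
      by_contra hcon
      rw [if_neg hcon] at hh
      omega
    rw [if_pos h2m] at hh
    have hhT : h = T.length := by omega
    rcases eq_or_ne m 2 with rfl | hm2'
    · -- `al = {2}`
      rcases T with _ | ⟨x, T⟩
      · simp at hs hhT
        subst hhT
        have hc2 : c = 2 := by omega
        subst hc2
        exact real_two
      · exfalso
        have := hTm x (by simp)
        have := hT x (by simp)
        omega
    · have h2T : 2 ∈ T := by
        have : 2 = m ∨ 2 ∈ T := by simpa using h2m
        rcases this with h5 | h5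
        · exact absurd h5.symm hm2'
        · exact h5
      obtain ⟨T', hT'⟩ : ∃ T', T.Perm (2 :: T') := ⟨T.erase 2, List.perm_cons_erase h2T⟩
      have hT'3 : ∀ x ∈ T', 3 ≤ x := by
        intro x hx
        have h6 : x ∈ T := hT'.mem_iff.mpr (by simp [hx])
        have h7 := hT x h6
        have h8 : (2 :: T').Nodup := hT'.nodup_iff.mp (List.nodup_cons.mp hnd').2
        have h9 : x ≠ 2 := by
          rintro rfl
          exact (List.nodup_cons.mp h8).1 hx
        omega
      have hmap : (T'.map fun x => (x - 1, 1)).map (fun x : ℕ × ℕ => x.1 + x.2) = T' := by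
        rw [List.map_map]
        conv_rhs => rw [← List.map_id T']
        apply List.map_congr_left
        intro x hx
        have := hT'3 x hx
        simp only [Function.comp, id]; omega
      have hperm : (m :: T' ++ [2]).Perm (m :: T) := by
        rw [List.cons_append]
        apply List.Perm.cons
        exact (List.perm_append_comm (l₁ := T') (l₂ := [2])).trans hT'.symm
      have hR := real_hook_pairs (m - 1) 1 (by omega) le_rfl (T'.map fun x => (x - 1, 1)) (by
        intro x hx
        simp only [List.mem_map] at hx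
        obtain ⟨z, hz, rfl⟩ := hx
        have := hT'3 z hz
        refine ⟨by simp only; omega, le_rfl, fun _ => le_rfl⟩) [[0, 0]] (Or.inr rfl) (by
        rw [hmap, show m - 1 + 1 = m by omega]
        have : ([[0, 0]] : List (List ℕ)).map List.length = [2] := rfl
        rw [this]
        exact hperm.nodup_iff.mpr hnd')
      rw [hmap, show m - 1 + 1 = m by omega] at hR
      have e0 : ([[0, 0]] : List (List ℕ)).map List.length = [2] := rfl
      rw [e0] at hR
      have e1 : ((m :: T' ++ [2] : List ℕ) : Multiset ℕ) = ((m :: T : List ℕ) : Multiset ℕ) :=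
        Multiset.coe_eq_coe.mpr hperm
      rw [e1] at hR
      have e2 : ((T'.map fun x => (x - 1, 1)).map Prod.snd).sum = T'.length := by
        rw [List.map_map]
        simp [Function.comp_def]
      have e3 : ((T'.map fun x => (x - 1, 1)).map Prod.fst).sum + T'.length = T'.sum := by
        rw [List.map_map]
        have := (card_le_sum_sub T' (fun x hx => by have := hT'3 x hx; omega)).2
        exact this
      have hl := hT'.length_eq
      have hs' := hT'.sum_eq
      simp only [List.length_cons, List.sum_cons] at hl hs'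
      rw [e2] at hR
      have e4 : m - 1 + ((T'.map fun x => (x - 1, 1)).map Prod.fst).sum +
          2 * ([[0, 0]] : List (List ℕ)).length = c := by
        simp only [List.length_cons, List.length_nil]; omega
      have e5 : 1 + T'.length = h := by omega
      rw [e4, e5] at hR
      simpa using hR

end Pool.Agent.RST
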