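import Pool.Agent.RST.Chn
import Pool.Agent.RST.Hook

/-!
# RST/DsrL: the direct sum reductions from the induction hypothesis
-/

set_option autoImplicit false

namespace Pool.Agent.RST

open Finset

theorem dsr_of_main {y : ℕ} (hy : 2 ≤ y) (ih : MainAt (y - 1)) (C : ℕ → ℕ) (al : Finset ℕ)
    (hanti : ∀ i j, i ≤ j → j < y → C j ≤ C i) (htwo : ∀ j, j < y → 2 ≤ C j)
    (h2 : ∀ a ∈ al, 2 ≤ a) (hsum : ∑ a ∈ al, a = ∑ j ∈ range (y + 1), C j) : DSR y C al := by
  obtain ⟨z, rfl⟩ : ∃ z, y = z + 1 := ⟨y - 1, by omega⟩
  intro G s hG hGs hs hGc hG2 h5 h6 hE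
  have e1 : z + 1 - 1 = z := by omega
  rw [e1] at ih hGs hGc h6 hE
  have hz : 1 ≤ z := by omega
  have hCz := htwo z (by omega)
  have hC0 := htwo 0 (by omega)
  -- the hook
  have hhook : Real G.val (C z :: List.replicate s 1) := by
    apply real_hook G.val (C z) s G.nodup
    · intro a ha; exact h2 a (hG ha)
    · intro h0
      have : G = ∅ := Finset.val_eq_zero.mp h0
      rw [this] at hGs
      simp at hGs
      omega
    · have : G.val.sum = ∑ a ∈ G, a := by
        change _ = (Multiset.map (fun a => a) G.val).sum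
        rw [Multiset.map_id']
      rw [this, hGs]
    · exact hGc
    · exact hG2
  -- the rest
  set D : ℕ → ℕ := fun j => if j < z then C j else C (z + 1) - s with hD
  have hDz : D z = C (z + 1) - s := by simp [hD]
  have hDlt : ∀ j, j < z → D j = C j := fun j hj => by simp [hD, hj]
  have hDsum : ∑ j ∈ range z, D j = ∑ j ∈ range z, C j :=
    Finset.sum_congr rfl fun j hj => hDlt j (Finset.mem_range.mp hj)
  have hsd : ∑ a ∈ al \ G, a + ∑ a ∈ G, a = ∑ a ∈ al, a := Finset.sum_sdiff hG
  have hrest : ∑ a ∈ al \ G, a = ∑ j ∈ range (z + 1), D j := by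
    rw [Finset.sum_range_succ, hDsum, hDz]
    rw [hsum, hGs, Finset.sum_range_succ, Finset.sum_range_succ] at hsd
    omega
  have hpos0 : C 0 ≤ ∑ j ∈ range z, C j :=
    Finset.single_le_sum (f := C) (fun i _ => Nat.zero_le _) (Finset.mem_range.mpr (by omega))
  have hIcc : ∑ j ∈ Icc 1 z, D j = (∑ j ∈ Icc 1 (z + 1 - 2), C j) + (C (z + 1) - s) := by
    obtain ⟨w, rfl⟩ : ∃ w, z = w + 1 := ⟨z - 1, by omega⟩
    rw [show w + 1 + 1 - 2 = w by omega, Finset.sum_Icc_succ_top (by omega), hDz]
    congr 1
    apply Finset.sum_congr rfl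
    intro j hj
    rw [Finset.mem_Icc] at hj
    exact hDlt j (by omega)
  have hgoal : Goal z D (al \ G) := by
    apply ih D (al \ G)
    · intro i j hij hj
      rw [hDlt j hj, hDlt i (by omega)]
      exact hanti i j hij (by omega)
    · intro j hj
      rw [hDlt j hj]
      exact htwo j (by omega)
    · rw [Finset.nonempty_iff_ne_empty]
      intro h0
      rw [h0, Finset.sum_empty, Finset.sum_range_succ, hDsum] at hrest
      omega
    · intro a ha
      exact h2 a (Finset.mem_sdiff.mp ha).1
    · exact hrest
    · rw [hIcc]; omega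
    · rw [hDsum]; omega
    · exact hE
  have hgoal' : Real (al \ G).val ((List.range z).map D ++ List.replicate (D z) 1) := hgoal
  have hadd := real_add _ _ _ _ hhook hgoal'
  have hval : G.val + (al \ G).val = al.val := by
    have := Finset.sdiff_union_of_subset hG
    have hdis : Disjoint G (al \ G) := Finset.disjoint_sdiff
    have h7 : (G.disjUnion (al \ G) hdis).val = al.val := by
      rw [Finset.disjUnion_eq_union, Finset.union_sdiff_of_subset hG]
    exact h7
  rw [hval] at hadd
  apply real_perm _ _ _ _ hadd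
  rw [hDz]
  have hmap : (List.range z).map D = (List.range z).map C := by
    apply List.map_congr_left
    intro j hj
    exact hDlt j (List.mem_range.mp hj)
  rw [hmap, List.range_succ, List.map_append, List.map_cons, List.map_nil]
  have hrep : List.replicate (C (z + 1)) 1 =
      List.replicate s 1 ++ List.replicate (C (z + 1) - s) 1 := by
    rw [← List.replicate_add]
    congr 1
    omega
  rw [hrep]
  -- (a :: r) ++ (M ++ t) ~ (M ++ [a]) ++ (r ++ t)
  rw [List.cons_append, List.append_assoc, List.singleton_append]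
  refine List.Perm.trans ?_ (List.perm_middle).symm
  refine List.Perm.cons _ ?_
  rw [← List.append_assoc, ← List.append_assoc]
  exact List.Perm.append_right _ List.perm_append_comm

end Pool.Agent.RST
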