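import Pool.Agent.RST.MtC

/-!
# RST/Fam: final families
-/

set_option autoImplicit false

namespace Pool.Agent.RST

open Finset

/-- the bound of a final family with top `m`: `k1` is the price in the region 1 of `D 0`,
`k2` the price in the regions `≥ 2` of `D 0` -/
def fB (x : ℕ → ℕ) (m : ℕ) (k1 k2 : ℤ) (a ρ : ℕ) : ℤ :=
  if ρ < a then 0
  else if ρ = a then (if a = m then 1 else 0)
  else if ρ = a + 1 then (if a = 0 then -k1 else if a + 1 = m ∧ x m = 1 then -1 else 0)
  else (if a = 0 then -k2 else 0)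

/-- a final family: words with the lengths `S`, the content `x` (top letter `m`) -/
def Fin' (y m : ℕ) (x : ℕ → ℕ) (S : Multiset ℕ) (k1 k2 : ℤ) : Prop :=
  ∃ W : List (List ℕ), ((W.map List.length : List ℕ) : Multiset ℕ) = S ∧
    Pre y W x (fB x m k1 k2) ∧ TA y W ∧ (y ≤ m + 1 → ∃ w ∈ W, CR y w)

end Pool.Agent.RST
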