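import Mathlib
import Pool.Agent.RST.Defs

/-!
# RST/Incl: the easy inclusion

The RS shape of a permutation `σ` of `Fin n` is a partition of `n`; if `σ` has no fixed point then
its number of columns is at most `n - r` and its number of rows at most `n - #{cycles of length
>= 3}`.
-/

set_option autoImplicit false

namespace Pool.Agent.RST.IA

/-- First row and bumped word. -/
def rowOut (w : List ℕ) : List ℕ × List ℕ :=
  w.foldl (fun p y => ((rowIns y p.1).1, p.2 ++ (rowIns y p.1).2.toList)) ([], [])

theorem rowOut_append (w : List ℕ) (y : ℕ) :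
    rowOut (w ++ [y]) = ((rowIns y (rowOut w).1).1, (rowOut w).2 ++ (rowIns y (rowOut w).1).2.toList) := by
  simp [rowOut, List.foldl_append]

theorem rsTab_append (w : List ℕ) (y : ℕ) : rsTab (w ++ [y]) = tabIns y (rsTab w) := by
  simp [rsTab, List.foldl_append]

theorem rsTab_eq (w : List ℕ) (hw : w ≠ []) : rsTab w = (rowOut w).1 :: rsTab (rowOut w).2 := by
  induction w using List.reverseRecOn with
  | nil => exact absurd rfl hw
  | append_singleton w y ih =>
    rcases eq_or_ne w [] with rfl | hne
    · simp [rsTab, rowOut, rowIns, tabIns]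
    · rw [rsTab_append, ih hne, rowOut_append]
      simp only [tabIns]
      cases h : (rowIns y (rowOut w).1).2 with
      | none => simp
      | some x => simp [rsTab_append]

/-- What happens when `y` is inserted in a sorted row. -/
theorem rowIns_spec (y : ℕ) (R : List ℕ) (hR : R.Pairwise (· < ·)) (hy : y ∉ R) :
    ((rowIns y R).2 = none ∧ (rowIns y R).1 = R ++ [y] ∧ ∀ u ∈ R, u < y) ∨
    ∃ A x B, R = A ++ x :: B ∧ (rowIns y R).2 = some x ∧ (rowIns y R).1 = A ++ y :: B ∧ y < x ∧
      (∀ u ∈ A, u < y) ∧ ∀ u ∈ B, x < u := by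
  induction R with
  | nil => left; simp [rowIns]
  | cons x l ih =>
    rw [List.pairwise_cons] at hR
    simp only [List.mem_cons, not_or] at hy
    by_cases h : y < x
    · right
      refine ⟨[], x, l, by simp, by simp [rowIns, h], by simp [rowIns, h], h, by simp, hR.1⟩
    · have hxy : x < y := lt_of_le_of_ne (not_lt.mp h) (Ne.symm hy.1)
      rcases ih hR.2 hy.2 with ⟨h1, h2, h3⟩ | ⟨A, x', B, h1, h2, h3, h4, h5, h6⟩
      · left
        refine ⟨by simp [rowIns, h, h1], by simp [rowIns, h, h2], ?_⟩
        intro u hu
        rcases List.mem_cons.mp hu with rfl | hu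
        · exact hxy
        · exact h3 u hu
      · right
        refine ⟨x :: A, x', B, by simp [h1], by simp [rowIns, h, h2], by simp [rowIns, h, h3], h4, ?_, h6⟩
        intro u hu
        rcases List.mem_cons.mp hu with rfl | hu
        · exact hxy
        · exact h5 u hu

/-- Invariants of the first row of a word with distinct entries. -/
structure Inv (w : List ℕ) : Prop where
  sorted : (rowOut w).1.Pairwise (· < ·)
  sub : ∀ u, u ∈ w ↔ u ∈ (rowOut w).1 ∨ u ∈ (rowOut w).2
  nod : (rowOut w).2.Nodup
  dis : ∀ u ∈ (rowOut w).1, u ∉ (rowOut w).2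
  inc : ∀ (i : ℕ) (hi : i < (rowOut w).1.length), ∃ s : List ℕ, s.Sublist w ∧ s.Pairwise (· < ·) ∧
    s.length = i + 1 ∧ s.getLast? = some ((rowOut w).1[i])
  dec : ∀ D : List ℕ, D.Sublist (rowOut w).2 → D.Pairwise (· > ·) → ∀ u ∈ (rowOut w).1,
    (∀ x ∈ D, u < x) → ∃ s : List ℕ, s.Sublist w ∧ s.Pairwise (· > ·) ∧ s.length = D.length + 1 ∧
      ∀ z ∈ s, u ≤ z
  dec' : ∀ D : List ℕ, D.Sublist (rowOut w).2 → D.Pairwise (· > ·) → ∀ u,
    (∀ x ∈ D, u < x) → ∃ s : List ℕ, s.Sublist w ∧ s.Pairwise (· > ·) ∧ s.length = D.length ∧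
      ∀ z ∈ s, u < z
  decF : ∀ D : List ℕ, D.Sublist (rowOut w).2 → D.Pairwise (· > ·) → D ≠ [] →
    ∃ s : List ℕ, s.Sublist w ∧ s.Pairwise (· > ·) ∧ s.length = D.length + 1

theorem sublist_append_singleton {D l : List ℕ} {x : ℕ} (h : D.Sublist (l ++ [x])) :
    D.Sublist l ∨ ∃ D0, D = D0 ++ [x] ∧ D0.Sublist l := by
  rw [List.sublist_append_iff] at h
  obtain ⟨D1, D2, rfl, h1, h2⟩ := h
  rw [List.sublist_singleton] at h2
  rcases h2 with rfl | rfl
  · left; simpa using h1
  · right; exact ⟨D1, rfl, h1⟩

theorem inv_nil : Inv [] := by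
  constructor
  · simp [rowOut]
  · simp [rowOut]
  · simp [rowOut]
  · simp [rowOut]
  · intro i hi; simp [rowOut] at hi
  · intro D _ _ u hu; simp [rowOut] at hu
  · intro D hD _ u _
    simp [rowOut] at hD
    subst hD
    exact ⟨[], by simp, by simp, by simp, by simp⟩
  · intro D hD _ hne
    simp [rowOut] at hD
    exact absurd hD hne

theorem inv_append {w : List ℕ} {y : ℕ} (h : Inv w) (hy : y ∉ w) : Inv (w ++ [y]) := by
  have hyR : y ∉ (rowOut w).1 := fun hh => hy ((h.sub y).2 (Or.inl hh))
  have hyO : y ∉ (rowOut w).2 := fun hh => hy ((h.sub y).2 (Or.inr hh))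
  have hsubw : w.Sublist (w ++ [y]) := List.sublist_append_left w [y]
  rcases rowIns_spec y (rowOut w).1 h.sorted hyR with ⟨h1, h2, h3⟩ | ⟨A, x, B, h1, h2, h3, h4, h5, h6⟩
  · -- nothing bumped
    have e1 : (rowOut (w ++ [y])).1 = (rowOut w).1 ++ [y] := by rw [rowOut_append]; exact h2
    have e2 : (rowOut (w ++ [y])).2 = (rowOut w).2 := by rw [rowOut_append]; simp [h1]
    constructor
    · rw [e1, List.pairwise_append]
      refine ⟨h.sorted, by simp, ?_⟩
      intro a ha b hb
      simp only [List.mem_singleton] at hb; subst hb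
      exact h3 a ha
    · intro u; rw [e1, e2]
      simp only [List.mem_append, List.mem_singleton]
      rw [h.sub u]; tauto
    · rw [e2]; exact h.nod
    · intro u hu; rw [e1] at hu; rw [e2]
      simp only [List.mem_append, List.mem_singleton] at hu
      rcases hu with hu | rfl
      · exact h.dis u hu
      · exact hyO
    · intro i hi
      have hi' : i < ((rowOut w).1 ++ [y]).length := by rw [← e1]; exact hi
      have key : (rowOut (w ++ [y])).1[i] = ((rowOut w).1 ++ [y])[i] := by
        congr 1
      rw [key]
      rw [List.length_append, List.length_singleton] at hi'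
      rcases Nat.lt_or_ge i (rowOut w).1.length with hlt | hge
      · obtain ⟨s, hs1, hs2, hs3, hs4⟩ := h.inc i hlt
        refine ⟨s, hs1.trans hsubw, hs2, hs3, ?_⟩
        rw [List.getElem_append_left hlt]; exact hs4
      · have hi0 : i = (rowOut w).1.length := by omega
        subst hi0
        rcases Nat.eq_zero_or_pos (rowOut w).1.length with h0 | hpos
        · refine ⟨[y], List.sublist_append_right w [y], by simp, by simp [h0], by simp⟩
        · obtain ⟨s, hs1, hs2, hs3, hs4⟩ := h.inc ((rowOut w).1.length - 1) (by omega)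
          refine ⟨s ++ [y], hs1.append (List.Sublist.refl _), ?_, by simp [hs3]; omega, by simp⟩
          rw [List.pairwise_append]
          refine ⟨hs2, by simp, ?_⟩
          intro a ha b hb
          simp only [List.mem_singleton] at hb; subst hb
          have hlast : a ≤ (rowOut w).1[(rowOut w).1.length - 1] := by
            have hne : s ≠ [] := List.ne_nil_of_mem ha
            rw [List.getLast?_eq_getLast_of_ne_nil hne] at hs4
            have hs5 := Option.some.inj hs4
            rw [← hs5]
            rcases List.mem_iff_getElem.mp ha with ⟨j, hj, rfl⟩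
            rw [List.getLast_eq_getElem]
            rcases Nat.lt_or_ge j (s.length - 1) with hj' | hj'
            · exact le_of_lt (List.pairwise_iff_getElem.mp hs2 _ _ _ _ hj')
            · have : j = s.length - 1 := by omega
              subst this; exact le_rfl
          exact lt_of_le_of_lt hlast (h3 _ (List.getElem_mem _))
    · intro D hD hDp u hu hux
      rw [e2] at hD; rw [e1] at hu
      simp only [List.mem_append, List.mem_singleton] at hu
      rcases hu with hu | rfl
      · obtain ⟨s, hs1, hs2, hs3, hs4⟩ := h.dec D hD hDp u hu hux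
        exact ⟨s, hs1.trans hsubw, hs2, hs3, hs4⟩
      · obtain ⟨s, hs1, hs2, hs3, hs4⟩ := h.dec' D hD hDp u hux
        refine ⟨s ++ [u], hs1.append (List.Sublist.refl _), ?_, by simp [hs3], ?_⟩
        · rw [List.pairwise_append]
          refine ⟨hs2, by simp, ?_⟩
          intro a ha b hb
          simp only [List.mem_singleton] at hb; subst hb
          exact hs4 a ha
        · intro z hz
          simp only [List.mem_append, List.mem_singleton] at hz
          rcases hz with hz | rfl
          · exact le_of_lt (hs4 z hz)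
          · exact le_rfl
    · intro D hD hDp u hux
      rw [e2] at hD
      obtain ⟨s, hs1, hs2, hs3, hs4⟩ := h.dec' D hD hDp u hux
      exact ⟨s, hs1.trans hsubw, hs2, hs3, hs4⟩
    · intro D hD hDp hne
      rw [e2] at hD
      obtain ⟨s, hs1, hs2, hs3⟩ := h.decF D hD hDp hne
      exact ⟨s, hs1.trans hsubw, hs2, hs3⟩
  · -- x bumped
    have e1 : (rowOut (w ++ [y])).1 = A ++ y :: B := by rw [rowOut_append]; exact h3
    have e2 : (rowOut (w ++ [y])).2 = (rowOut w).2 ++ [x] := by rw [rowOut_append]; simp [h2]
    have hxR : x ∈ (rowOut w).1 := by rw [h1]; simp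
    have hs := h.sorted
    rw [h1, List.pairwise_append, List.pairwise_cons] at hs
    have hsm : ∀ u ∈ A ++ y :: B, u < x → u ≤ y := by
      intro u hu hux
      simp only [List.mem_append, List.mem_cons] at hu
      rcases hu with hu | rfl | hu
      · exact le_of_lt (h5 u hu)
      · exact le_rfl
      · exact absurd (h6 u hu) (by omega)
    -- the basic extension
    have hext : ∀ D : List ℕ, D.Sublist (rowOut w).2 → D.Pairwise (· > ·) → (∀ z ∈ D, x < z) →
        ∃ s : List ℕ, s.Sublist w ∧ s.Pairwise (· > ·) ∧ s.length = D.length + 1 ∧ ∀ z ∈ s, x ≤ z :=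
      fun D hD hDp hz => h.dec D hD hDp x hxR hz
    have hadd : ∀ (s : List ℕ) (v : ℕ), s.Sublist w → s.Pairwise (· > ·) → (∀ z ∈ s, y < z) →
        (s ++ [y]).Sublist (w ++ [y]) ∧ (s ++ [y]).Pairwise (· > ·) := by
      intro s _ hs1 hs2 hs3
      refine ⟨hs1.append (List.Sublist.refl _), ?_⟩
      rw [List.pairwise_append]
      refine ⟨hs2, by simp, ?_⟩
      intro a ha b hb
      simp only [List.mem_singleton] at hb; subst hb
      exact hs3 a ha
    constructor
    · rw [e1, List.pairwise_append, List.pairwise_cons]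
      refine ⟨hs.1, ⟨fun b hb => lt_trans h4 (h6 b hb), hs.2.1.2⟩, ?_⟩
      intro a ha b hb
      rcases List.mem_cons.mp hb with rfl | hb
      · exact h5 a ha
      · exact hs.2.2 a ha b (List.mem_cons_of_mem _ hb)
    · intro u; rw [e1, e2]
      simp only [List.mem_append, List.mem_cons, List.mem_singleton, List.not_mem_nil, or_false]
      rw [h.sub u, h1]
      simp only [List.mem_append, List.mem_cons]
      tauto
    · rw [e2]
      rw [List.nodup_append]
      refine ⟨h.nod, by simp, ?_⟩
      intro a ha b hb
      simp only [List.mem_singleton] at hb; subst hb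
      rintro rfl
      exact h.dis _ hxR ha
    · intro u hu; rw [e1] at hu; rw [e2]
      simp only [List.mem_append, List.mem_cons, List.mem_singleton, List.not_mem_nil, or_false] at hu ⊢
      rintro (hh | rfl)
      · rcases hu with hu | rfl | hu
        · exact h.dis u (by rw [h1]; simp [hu]) hh
        · exact hyO hh
        · exact h.dis u (by rw [h1]; simp [hu]) hh
      · rcases hu with hu | rfl | hu
        · have := hs.2.2 u hu u (by simp); omega
        · omega
        · exact absurd (h6 u hu) (by omega)
    · intro i hi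
      have hi' : i < (A ++ y :: B).length := by rw [← e1]; exact hi
      have key : (rowOut (w ++ [y])).1[i] = (A ++ y :: B)[i] := by
        congr 1
      rw [key]
      have hlen : (A ++ y :: B).length = (rowOut w).1.length := by rw [h1]; simp
      have hlt : i < (rowOut w).1.length := by omega
      have key2 : (rowOut w).1[i] = (A ++ x :: B)[i]'(by rw [← h1]; exact hlt) := by
        congr 1
      obtain ⟨s, hs1, hs2, hs3, hs4⟩ := h.inc i hlt
      rcases lt_trichotomy i A.length with hi1 | hi1 | hi1
      · refine ⟨s, hs1.trans hsubw, hs2, hs3, ?_⟩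
        rw [hs4, key2, List.getElem_append_left hi1, List.getElem_append_left hi1]
      · subst hi1
        have hval : (A ++ y :: B)[A.length] = y := by
          rw [List.getElem_append_right (le_refl _)]; simp
        rw [hval]
        rcases Nat.eq_zero_or_pos A.length with h0 | hpos
        · refine ⟨[y], List.sublist_append_right w [y], by simp, by simp [h0], by simp⟩
        · obtain ⟨s, hs1, hs2, hs3, hs4⟩ := h.inc (A.length - 1) (by omega)
          refine ⟨s ++ [y], hs1.append (List.Sublist.refl _), ?_, by simp [hs3]; omega, by simp⟩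
          rw [List.pairwise_append]
          refine ⟨hs2, by simp, ?_⟩
          intro a ha b hb
          simp only [List.mem_singleton] at hb; subst hb
          have hAv : (rowOut w).1[A.length - 1]'(by omega) ∈ A := by
            have : (rowOut w).1[A.length - 1]'(by omega) = (A ++ x :: B)[A.length - 1]'(by simp; omega) := by
              congr 1
            rw [this, List.getElem_append_left (by omega)]
            exact List.getElem_mem _
          have hlast : a ≤ (rowOut w).1[A.length - 1]'(by omega) := by
            have hne : s ≠ [] := List.ne_nil_of_mem ha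
            rw [List.getLast?_eq_getLast_of_ne_nil hne] at hs4
            have hs5 := Option.some.inj hs4
            rw [← hs5]
            rcases List.mem_iff_getElem.mp ha with ⟨j, hj, rfl⟩
            rw [List.getLast_eq_getElem]
            rcases Nat.lt_or_ge j (s.length - 1) with hj' | hj'
            · exact le_of_lt (List.pairwise_iff_getElem.mp hs2 _ _ _ _ hj')
            · have : j = s.length - 1 := by omega
              subst this; exact le_rfl
          exact lt_of_le_of_lt hlast (h5 _ hAv)
      · refine ⟨s, hs1.trans hsubw, hs2, hs3, ?_⟩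
        rw [hs4, key2, List.getElem_append_right (by omega), List.getElem_append_right (by omega)]
        congr 1
        obtain ⟨j, hj⟩ : ∃ j, i - A.length = j + 1 := ⟨i - A.length - 1, by omega⟩
        simp [hj]
    · -- dec
      intro D hD hDp u hu hux
      rw [e2] at hD; rw [e1] at hu
      rcases sublist_append_singleton hD with hD0 | ⟨D0, rfl, hD0⟩
      · by_cases huy : u = y
        · subst huy
          obtain ⟨s, hs1, hs2, hs3, hs4⟩ := h.dec' D hD0 hDp u hux
          obtain ⟨k1, k2⟩ := hadd s 0 hs1 hs2 hs4
          refine ⟨s ++ [u], k1, k2, by simp [hs3], ?_⟩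
          intro z hz
          simp only [List.mem_append, List.mem_singleton] at hz
          rcases hz with hz | rfl
          · exact le_of_lt (hs4 z hz)
          · exact le_rfl
        · have hu' : u ∈ (rowOut w).1 := by
            rw [h1]
            simp only [List.mem_append, List.mem_cons] at hu ⊢
            tauto
          obtain ⟨s, hs1, hs2, hs3, hs4⟩ := h.dec D hD0 hDp u hu' hux
          exact ⟨s, hs1.trans hsubw, hs2, hs3, hs4⟩
      · rw [List.pairwise_append] at hDp
        have hzx : ∀ z ∈ D0, x < z := fun z hz => hDp.2.2 z hz x (by simp)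
        have huy : u ≤ y := hsm u hu (hux x (by simp))
        obtain ⟨s, hs1, hs2, hs3, hs4⟩ := hext D0 hD0 hDp.1 hzx
        obtain ⟨k1, k2⟩ := hadd s 0 hs1 hs2 (fun z hz => lt_of_lt_of_le h4 (hs4 z hz))
        refine ⟨s ++ [y], k1, k2, by simp [hs3], ?_⟩
        intro z hz
        simp only [List.mem_append, List.mem_singleton] at hz
        rcases hz with hz | rfl
        · exact le_trans huy (le_trans (le_of_lt h4) (hs4 z hz))
        · exact huy
    · -- dec'
      intro D hD hDp u hux
      rw [e2] at hD
      rcases sublist_append_singleton hD with hD0 | ⟨D0, rfl, hD0⟩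
      · obtain ⟨s, hs1, hs2, hs3, hs4⟩ := h.dec' D hD0 hDp u hux
        exact ⟨s, hs1.trans hsubw, hs2, hs3, hs4⟩
      · rw [List.pairwise_append] at hDp
        have hzx : ∀ z ∈ D0, x < z := fun z hz => hDp.2.2 z hz x (by simp)
        obtain ⟨s, hs1, hs2, hs3, hs4⟩ := hext D0 hD0 hDp.1 hzx
        refine ⟨s, hs1.trans hsubw, hs2, by simp [hs3], ?_⟩
        intro z hz
        exact lt_of_lt_of_le (hux x (by simp)) (hs4 z hz)
    · -- decF
      intro D hD hDp hne
      rw [e2] at hD
      rcases sublist_append_singleton hD with hD0 | ⟨D0, rfl, hD0⟩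
      · obtain ⟨s, hs1, hs2, hs3⟩ := h.decF D hD0 hDp hne
        exact ⟨s, hs1.trans hsubw, hs2, hs3⟩
      · rw [List.pairwise_append] at hDp
        have hzx : ∀ z ∈ D0, x < z := fun z hz => hDp.2.2 z hz x (by simp)
        obtain ⟨s, hs1, hs2, hs3, hs4⟩ := hext D0 hD0 hDp.1 hzx
        obtain ⟨k1, k2⟩ := hadd s 0 hs1 hs2 (fun z hz => lt_of_lt_of_le h4 (hs4 z hz))
        exact ⟨s ++ [y], k1, k2, by simp [hs3]⟩

theorem inv_all (w : List ℕ) (hw : w.Nodup) : Inv w := by
  induction w using List.reverseRecOn with
  | nil => exact inv_nil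
  | append_singleton w y ih =>
    rw [List.nodup_append] at hw
    refine inv_append (ih hw.1) ?_
    intro hy
    exact hw.2.2 y hy y (by simp) rfl

/-- The number of columns is at most the length of some increasing subsequence. -/
theorem exists_inc (w : List ℕ) (hw : w.Nodup) : ∃ s : List ℕ, s.Sublist w ∧ s.Pairwise (· < ·) ∧
    s.length = ((rsTab w).headD []).length := by
  rcases eq_or_ne w [] with rfl | hne
  · exact ⟨[], by simp, by simp, by simp [rsTab]⟩
  · rw [rsTab_eq w hne]
    simp only [List.headD_cons]
    have h := inv_all w hw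
    rcases Nat.eq_zero_or_pos (rowOut w).1.length with h0 | hpos
    · exact ⟨[], by simp, by simp, by simp [h0]⟩
    · obtain ⟨s, h1, h2, h3, _⟩ := h.inc ((rowOut w).1.length - 1) (by omega)
      exact ⟨s, h1, h2, by omega⟩

/-- The number of rows is at most the length of some decreasing subsequence. -/
theorem exists_dec (w : List ℕ) (hw : w.Nodup) : ∃ s : List ℕ, s.Sublist w ∧ s.Pairwise (· > ·) ∧
    s.length = (rsTab w).length := by
  induction hn : (rsTab w).length using Nat.strong_induction_on generalizing w with
  | _ n ih =>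
    rcases eq_or_ne w [] with rfl | hne
    · exact ⟨[], by simp, by simp, by simp [rsTab] at hn; simp [← hn]⟩
    · have h := inv_all w hw
      have hlen : n = (rsTab (rowOut w).2).length + 1 := by
        rw [← hn, rsTab_eq w hne]; simp
      obtain ⟨D, hD1, hD2, hD3⟩ := ih (rsTab (rowOut w).2).length (by omega) (rowOut w).2 h.nod rfl
      rcases eq_or_ne D [] with rfl | hDne
      · rcases w with _ | ⟨a, w⟩
        · exact absurd rfl hne
        · exact ⟨[a], by simp, by simp, by simp at hD3 ⊢; omega⟩
      · obtain ⟨s, hs1, hs2, hs3⟩ := h.decF D hD1 hD2 hDne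
        exact ⟨s, hs1, hs2, by omega⟩


section Positions
open Equiv Equiv.Perm Finset

theorem cyc_sub {n : ℕ} {σ c : Perm (Fin n)} (hc : c ∈ σ.cycleFactorsFinset) {x : Fin n}
    (hx : x ∈ c.support) : σ x = c x ∧ c x ∈ c.support ∧ c⁻¹ x ∈ c.support ∧ σ (c⁻¹ x) = x := by
  have h1 := (mem_cycleFactorsFinset_iff.mp hc).2
  have h2 : c x ∈ c.support := Perm.apply_mem_support.mpr hx
  have h3 : c⁻¹ x ∈ c.support := by
    rw [← Perm.apply_mem_support]; simpa using hx
  refine ⟨(h1 x hx).symm, h2, h3, ?_⟩
  rw [← h1 _ h3]; simp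

theorem card_le_of_choice {n : ℕ} (σ : Perm (Fin n)) (I : Finset (Fin n))
    (F : Finset (Perm (Fin n))) (hF : F ⊆ σ.cycleFactorsFinset)
    (h : ∀ c ∈ F, ∃ x ∈ c.support, x ∉ I) : I.card + F.card ≤ n := by
  classical
  rcases F.eq_empty_or_nonempty with rfl | ⟨c0, hc0⟩
  · have := Finset.card_le_univ I
    simpa using this
  have : Nonempty (Fin n) := by
    obtain ⟨x, _, _⟩ := h c0 hc0
    exact ⟨x⟩
  choose! f hf1 hf2 using h
  have hinj : Set.InjOn f (F : Set (Perm (Fin n))) := by
    intro c hc d hd hcd
    by_contra hne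
    have hdis := σ.cycleFactorsFinset_pairwise_disjoint (hF hc) (hF hd) hne
    have := Perm.disjoint_iff_disjoint_support.mp hdis
    exact (Finset.disjoint_left.mp this) (hf1 c hc) (by rw [hcd]; exact hf1 d hd)
  have h1 : (F.image f).card = F.card := Finset.card_image_of_injOn hinj
  have h2 : Disjoint I (F.image f) := by
    rw [Finset.disjoint_right]
    intro x hx
    obtain ⟨c, hc, rfl⟩ := Finset.mem_image.mp hx
    exact hf2 c hc
  have h3 : (I ∪ F.image f).card ≤ n := by
    have := Finset.card_le_univ (I ∪ F.image f)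
    simpa using this
  rw [Finset.card_union_of_disjoint h2, h1] at h3
  exact h3

theorem inc_bound {n : ℕ} (σ : Perm (Fin n)) (I : Finset (Fin n))
    (hI : ∀ i ∈ I, ∀ j ∈ I, i < j → σ i < σ j) : I.card + Multiset.card σ.cycleType ≤ n := by
  have hct : Multiset.card σ.cycleType = σ.cycleFactorsFinset.card := by
    rw [cycleType_def]; simp
  rw [hct]
  refine card_le_of_choice σ I _ (Finset.Subset.refl _) ?_
  intro c hc
  by_contra hcon
  push Not at hcon
  have hcyc := (mem_cycleFactorsFinset_iff.mp hc).1
  have hne : c.support.Nonempty := by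
    obtain ⟨x, hx, _⟩ := hcyc
    exact ⟨x, Perm.mem_support.mpr hx⟩
  set m := c.support.max' hne with hm
  have hmm : m ∈ c.support := Finset.max'_mem _ _
  obtain ⟨h1, h2, h3, h4⟩ := cyc_sub hc hmm
  have hle : c⁻¹ m ≤ m := Finset.le_max' _ _ h3
  have hne' : c⁻¹ m ≠ m := by
    intro hh
    have : c m = m := by
      conv_lhs => rw [← hh]
      simp
    exact Perm.mem_support.mp hmm this
  have hlt := hI _ (hcon _ h3) _ (hcon _ hmm) (lt_of_le_of_ne hle hne')
  rw [h4, h1] at hlt
  exact absurd (Finset.le_max' _ _ h2) (not_le.mpr hlt)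

theorem dec_bound {n : ℕ} (σ : Perm (Fin n)) (I : Finset (Fin n))
    (hI : ∀ i ∈ I, ∀ j ∈ I, i < j → σ j < σ i) :
    I.card + Multiset.card (σ.cycleType.filter (fun k => 3 ≤ k)) ≤ n := by
  classical
  set F := σ.cycleFactorsFinset.filter (fun c => 3 ≤ c.support.card) with hF
  have hct : Multiset.card (σ.cycleType.filter (fun k => 3 ≤ k)) = F.card := by
    rw [cycleType_def, Multiset.filter_map, Multiset.card_map]
    rfl
  rw [hct]
  refine card_le_of_choice σ I F (Finset.filter_subset _ _) ?_
  intro c hcF
  obtain ⟨hc, h3c⟩ := Finset.mem_filter.mp hcF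
  by_contra hcon
  push Not at hcon
  have hcyc := (mem_cycleFactorsFinset_iff.mp hc).1
  have hne : c.support.Nonempty := by
    rw [← Finset.card_pos]; omega
  set m := c.support.max' hne with hm
  set l := c.support.min' hne with hl
  have hmm : m ∈ c.support := Finset.max'_mem _ _
  have hlm : l ∈ c.support := Finset.min'_mem _ _
  obtain ⟨h1, h2, h3, h4⟩ := cyc_sub hc hmm
  obtain ⟨g1, g2, g3, g4⟩ := cyc_sub hc hlm
  have e1 : c l = m := by
    have hle : l ≤ c⁻¹ m := Finset.min'_le _ _ h3
    rcases eq_or_lt_of_le hle with he | hlt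
    · rw [he]; simp
    · have := hI _ (hcon _ hlm) _ (hcon _ h3) hlt
      rw [h4, g1] at this
      exact absurd (Finset.le_max' _ _ g2) (not_le.mpr this)
  have e2 : c m = l := by
    have hle : c⁻¹ l ≤ m := Finset.le_max' _ _ g3
    rcases eq_or_lt_of_le hle with he | hlt
    · rw [← he]; simp
    · have := hI _ (hcon _ g3) _ (hcon _ hmm) hlt
      rw [g4, h1] at this
      exact absurd (Finset.min'_le _ _ h2) (not_le.mpr this)
  have hsw := hcyc.eq_swap_of_apply_apply_eq_self (Perm.mem_support.mp hlm) (by rw [e1, e2])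
  have hcard : c.support.card = 2 := by
    rw [hsw]; exact Perm.card_support_swap (Perm.mem_support.mp hlm).symm
  omega

/-- Sublists of the one-line word and sets of positions. -/
theorem sublist_positions {n : ℕ} (σ : Perm (Fin n)) (R : ℕ → ℕ → Prop) (s : List ℕ)
    (hs : s.Sublist (List.ofFn (fun i => (σ i : ℕ)))) (hp : s.Pairwise R) :
    ∃ I : Finset (Fin n), I.card = s.length ∧ ∀ i ∈ I, ∀ j ∈ I, i < j → R (σ i) (σ j) := by
  classical
  rw [List.sublist_iff_exists_fin_orderEmbedding_get_eq] at hs
  obtain ⟨f, hf⟩ := hs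
  have hlen : (List.ofFn (fun i => (σ i : ℕ))).length = n := List.length_ofFn
  refine ⟨Finset.univ.image (fun i => Fin.cast hlen (f i)), ?_, ?_⟩
  · rw [Finset.card_image_of_injective]
    · simp
    · intro a b hab
      have : f a = f b := by
        apply Fin.ext
        have := congrArg Fin.val hab
        simpa using this
      exact f.injective this
  · intro i hi j hj hij
    simp only [Finset.mem_image, Finset.mem_univ, true_and] at hi hj
    obtain ⟨a, rfl⟩ := hi
    obtain ⟨b, rfl⟩ := hj
    have hab : a < b := by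
      rw [← f.lt_iff_lt]
      rw [Fin.lt_def] at hij ⊢
      simpa using hij
    have h1 := hf a
    have h2 := hf b
    have := List.pairwise_iff_get.mp hp a b hab
    rw [h1, h2] at this
    simp at this
    exact this


end Positions

/-! ### the shape is a partition -/

/-- the row `S` fits below the row `R` -/
def dom : List ℕ → List ℕ → Prop
  | _, [] => True
  | [], _ :: _ => False
  | a :: R, b :: S => a < b ∧ dom R S

theorem dom_len : ∀ R S : List ℕ, dom R S → S.length ≤ R.length
  | _, [], _ => by simp
  | [], _ :: _, h => by simp [dom] at h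
  | a :: R, b :: S, h => by
    simp only [dom] at h
    simpa using dom_len R S h.2

theorem dom_append : ∀ (R S : List ℕ) (y : ℕ), dom R S → dom (R ++ [y]) S
  | _, [], _, _ => by simp [dom]
  | [], _ :: _, _, h => by simp [dom] at h
  | a :: R, b :: S, y, h => by
    simp only [dom, List.cons_append] at h ⊢
    exact ⟨h.1, dom_append R S y h.2⟩

theorem dom_mono : ∀ (A B S : List ℕ) (x y : ℕ), y < x → dom (A ++ x :: B) S → dom (A ++ y :: B) S
  | _, _, [], _, _, _, _ => by simp [dom]
  | [], B, b :: S, x, y, h, hd => by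
    simp only [dom, List.nil_append] at hd ⊢
    exact ⟨lt_trans h hd.1, hd.2⟩
  | a :: A, B, b :: S, x, y, h, hd => by
    simp only [dom, List.cons_append] at hd ⊢
    exact ⟨hd.1, dom_mono A B S x y h hd.2⟩

theorem dom_ins : ∀ (A B S : List ℕ) (x y : ℕ), y < x → (∀ u ∈ A, u ≤ y) →
    dom (A ++ x :: B) S → dom (A ++ y :: B) (rowIns x S).1
  | [], B, [], x, y, h, _, _ => by simp [dom, rowIns, h]
  | [], B, b :: S, x, y, h, _, hd => by
    simp only [dom, List.nil_append] at hd
    simp only [rowIns, if_pos hd.1, List.nil_append, dom]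
    exact ⟨h, hd.2⟩
  | a :: A, B, [], x, y, h, hA, _ => by
    have := hA a (by simp)
    simp only [rowIns, List.cons_append, dom, and_true]
    omega
  | a :: A, B, b :: S, x, y, h, hA, hd => by
    have ha := hA a (by simp)
    simp only [dom, List.cons_append] at hd
    by_cases hxb : x < b
    · simp only [rowIns, if_pos hxb, List.cons_append, dom]
      exact ⟨by omega, dom_mono A B S x y h hd.2⟩
    · simp only [rowIns, if_neg hxb, List.cons_append, dom]
      exact ⟨hd.1, dom_ins A B S x y h (fun u hu => hA u (by simp [hu])) hd.2⟩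

theorem rowIns_spec' (y : ℕ) (R : List ℕ) (hR : R.Pairwise (· ≤ ·)) :
    ((rowIns y R).2 = none ∧ (rowIns y R).1 = R ++ [y] ∧ ∀ u ∈ R, u ≤ y) ∨
    ∃ A x B, R = A ++ x :: B ∧ (rowIns y R).2 = some x ∧ (rowIns y R).1 = A ++ y :: B ∧ y < x ∧
      (∀ u ∈ A, u ≤ y) ∧ ∀ u ∈ B, x ≤ u := by
  induction R with
  | nil => left; simp [rowIns]
  | cons x l ih =>
    rw [List.pairwise_cons] at hR
    by_cases h : y < x
    · right
      refine ⟨[], x, l, by simp, by simp [rowIns, h], by simp [rowIns, h], h, by simp, hR.1⟩
    · have hxy : x ≤ y := not_lt.mp h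
      rcases ih hR.2 with ⟨h1, h2, h3⟩ | ⟨A, x', B, h1, h2, h3, h4, h5, h6⟩
      · left
        refine ⟨by simp [rowIns, h, h1], by simp [rowIns, h, h2], ?_⟩
        intro u hu
        rcases List.mem_cons.mp hu with rfl | hu
        · exact hxy
        · exact h3 u hu
      · right
        refine ⟨x :: A, x', B, by simp [h1], by simp [rowIns, h, h2], by simp [rowIns, h, h3], h4, ?_, h6⟩
        intro u hu
        rcases List.mem_cons.mp hu with rfl | hu
        · exact hxy
        · exact h5 u hu

/-- tableau -/
def isT : List (List ℕ) → Prop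
  | [] => True
  | R :: T => R ≠ [] ∧ R.Pairwise (· ≤ ·) ∧ dom R (T.headD []) ∧ isT T

theorem headD_tabIns (x : ℕ) (T : List (List ℕ)) :
    (tabIns x T).headD [] = (rowIns x (T.headD [])).1 := by
  cases T with
  | nil => simp [tabIns, rowIns]
  | cons R T =>
    simp only [tabIns]
    cases h : (rowIns x R).2 <;> simp

theorem isT_tabIns : ∀ (T : List (List ℕ)) (x : ℕ), isT T → isT (tabIns x T)
  | [], x, _ => by simp [tabIns, isT, dom]
  | R :: T, y, h => by
    obtain ⟨h1, h2, h3, h4⟩ := h
    rcases rowIns_spec' y R h2 with ⟨g1, g2, g3⟩ | ⟨A, x, B, g1, g2, g3, g4, g5, g6⟩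
    · simp only [tabIns, g1, g2, isT]
      refine ⟨by simp, ?_, dom_append _ _ _ h3, h4⟩
      rw [List.pairwise_append]
      refine ⟨h2, by simp, ?_⟩
      intro a ha b hb
      simp only [List.mem_singleton] at hb; subst hb
      exact g3 a ha
    · simp only [tabIns, g2, g3, isT]
      rw [g1, List.pairwise_append, List.pairwise_cons] at h2
      refine ⟨by simp, ?_, ?_, isT_tabIns T x h4⟩
      · rw [List.pairwise_append, List.pairwise_cons]
        refine ⟨h2.1, ⟨fun b hb => le_trans (le_of_lt g4) (g6 b hb), h2.2.1.2⟩, ?_⟩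
        intro a ha b hb
        rcases List.mem_cons.mp hb with rfl | hb
        · exact g5 a ha
        · exact h2.2.2 a ha b (List.mem_cons_of_mem _ hb)
      · rw [headD_tabIns]
        exact dom_ins A B _ x y g4 g5 (by rw [← g1]; exact h3)

theorem isT_rsTab (w : List ℕ) : isT (rsTab w) := by
  induction w using List.reverseRecOn with
  | nil => simp [rsTab, isT]
  | append_singleton w y ih => rw [rsTab_append]; exact isT_tabIns _ _ ih

theorem rowIns_len (x : ℕ) (R : List ℕ) :
    ((rowIns x R).2 = none → (rowIns x R).1.length = R.length + 1) ∧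
    ((rowIns x R).2 ≠ none → (rowIns x R).1.length = R.length) := by
  induction R with
  | nil => simp [rowIns]
  | cons y R ih =>
    by_cases h : x < y
    · simp [rowIns, h]
    · simp only [rowIns, if_neg h]
      constructor
      · intro hh; simp [ih.1 hh]
      · intro hh; simp [ih.2 hh]

theorem sum_tabIns : ∀ (T : List (List ℕ)) (x : ℕ),
    ((tabIns x T).map List.length).sum = (T.map List.length).sum + 1
  | [], x => by simp [tabIns]
  | R :: T, x => by
    simp only [tabIns]
    cases h : (rowIns x R).2 with
    | none =>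
      have := (rowIns_len x R).1 h
      simp only [List.map_cons, List.sum_cons, this]; omega
    | some y =>
      have := (rowIns_len x R).2 (by rw [h]; simp)
      simp only [List.map_cons, List.sum_cons, this, sum_tabIns T y]; omega

theorem sum_rsTab (w : List ℕ) : ((rsTab w).map List.length).sum = w.length := by
  induction w using List.reverseRecOn with
  | nil => simp [rsTab]
  | append_singleton w y ih => rw [rsTab_append, sum_tabIns, ih]; simp

theorem isT_pos : ∀ T : List (List ℕ), isT T → ∀ k ∈ T.map List.length, 0 < k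
  | [], _ => by simp
  | R :: T, h => by
    intro k hk
    simp only [List.map_cons, List.mem_cons] at hk
    rcases hk with rfl | hk
    · exact List.length_pos_of_ne_nil h.1
    · exact isT_pos T h.2.2.2 k hk

theorem isT_sorted : ∀ T : List (List ℕ), isT T → (T.map List.length).Pairwise (· ≥ ·)
  | [], _ => by simp
  | R :: T, h => by
    have ih := isT_sorted T h.2.2.2
    rw [List.map_cons, List.pairwise_cons]
    refine ⟨?_, ih⟩
    intro k hk
    cases T with
    | nil => simp at hk
    | cons S T =>
      have hd := dom_len _ _ h.2.2.1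
      simp only [List.headD_cons] at hd
      simp only [List.map_cons, List.mem_cons] at hk
      rw [List.map_cons, List.pairwise_cons] at ih
      rcases hk with rfl | hk
      · exact hd
      · exact le_trans (ih.1 k hk) hd

end Pool.Agent.RST.IA

namespace Pool.Agent.RST

open IA (isT_sorted isT_rsTab isT_pos sum_rsTab exists_inc sublist_positions inc_bound exists_dec dec_bound)

/-- The RS shape of a permutation: the list of the row lengths of its insertion tableau. -/
def shape {n : ℕ} (σ : Equiv.Perm (Fin n)) : List ℕ := (rsTab (oneLine σ)).map List.length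

theorem shape_sorted {n : ℕ} (σ : Equiv.Perm (Fin n)) : (shape σ).Pairwise (· ≥ ·) :=
  isT_sorted _ (isT_rsTab _)

theorem shape_pos {n : ℕ} (σ : Equiv.Perm (Fin n)) : ∀ k ∈ shape σ, 0 < k :=
  isT_pos _ (isT_rsTab _)

theorem shape_sum {n : ℕ} (σ : Equiv.Perm (Fin n)) : (shape σ).sum = n := by
  rw [shape, sum_rsTab]; simp [oneLine]

theorem oneLine_nodup {n : ℕ} (σ : Equiv.Perm (Fin n)) : (oneLine σ).Nodup := by
  rw [oneLine, List.nodup_ofFn]
  intro a b h
  exact σ.injective (Fin.ext h)

/-- number of columns -/
theorem shape_cols {n : ℕ} (σ : Equiv.Perm (Fin n)) :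
    (shape σ).headD 0 + Multiset.card σ.cycleType ≤ n := by
  obtain ⟨s, h1, h2, h3⟩ := exists_inc (oneLine σ) (oneLine_nodup σ)
  obtain ⟨I, hI1, hI2⟩ := sublist_positions σ _ s h1 h2
  have h := inc_bound σ I (fun i hi j hj hij => hI2 i hi j hj hij)
  have e : (shape σ).headD 0 = ((rsTab (oneLine σ)).headD []).length := by
    rw [shape]
    cases rsTab (oneLine σ) <;> simp
  rw [e, ← h3, ← hI1]
  exact h

/-- number of rows -/
theorem shape_rows {n : ℕ} (σ : Equiv.Perm (Fin n)) :
    (shape σ).length + Multiset.card (σ.cycleType.filter (fun k => 3 ≤ k)) ≤ n := by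
  obtain ⟨s, h1, h2, h3⟩ := exists_dec (oneLine σ) (oneLine_nodup σ)
  obtain ⟨I, hI1, hI2⟩ := sublist_positions σ _ s h1 h2
  have h := dec_bound σ I (fun i hi j hj hij => hI2 i hi j hj hij)
  have e : (shape σ).length = (rsTab (oneLine σ)).length := by simp [shape]
  rw [e, ← h3, ← hI1]
  exact h

/-- `B_α` contains `S_α` when the parts are distinct. -/
theorem incl {n : ℕ} (σ : Equiv.Perm (Fin n)) (hnd : σ.cycleType.Nodup) :
    (shape σ).headD 0 ≤ n - Multiset.card σ.cycleType ∧
    (shape σ).length ≤ n - Multiset.card σ.cycleType + (if 2 ∈ σ.cycleType then 1 else 0) := by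
  have h1 := shape_cols σ
  have h2 := shape_rows σ
  have h3 : Multiset.card σ.cycleType ≤ Multiset.card (σ.cycleType.filter (fun k => 3 ≤ k)) +
      (if 2 ∈ σ.cycleType then 1 else 0) := by
    have h4 : Multiset.card (σ.cycleType.filter (fun k => 3 ≤ k)) +
        Multiset.card (σ.cycleType.filter (fun k => ¬ 3 ≤ k)) = Multiset.card σ.cycleType := by
      rw [← Multiset.card_add, Multiset.filter_add_not]
    have h5 : σ.cycleType.filter (fun k => ¬ 3 ≤ k) = σ.cycleType.filter (fun k => k = 2) := by
      apply Multiset.filter_congr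
      intro x hx
      have := Equiv.Perm.two_le_of_mem_cycleType hx
      omega
    have h6 : Multiset.card (σ.cycleType.filter (fun k => k = 2)) = σ.cycleType.count 2 := by
      rw [Multiset.count, Multiset.countP_eq_card_filter]
      congr 1
      apply Multiset.filter_congr
      intro x _
      exact eq_comm
    have h7 : σ.cycleType.count 2 ≤ 1 := Multiset.nodup_iff_count_le_one.mp hnd 2
    rw [h5, h6] at h4
    split_ifs with h8
    · omega
    · have := Multiset.count_eq_zero.mpr h8
      omega
  omega

end Pool.Agent.RST
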