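import Mathlib
import Pool.Agent.RST.Defs
import Pool.Agent.RST.Incl

/-!
# RST/Final: from `Real` (columns) to the equality `S_α = B_α`
-/

set_option autoImplicit false

namespace Pool.Agent.RST

/-- `S_α`: the RS shapes (lists of row lengths) of the permutations of cycle type `α`
(all parts of `α` at least `2`, `n = α.sum`). -/
def SSet (α : Multiset ℕ) : Set (List ℕ) :=
  {L | ∃ σ : Equiv.Perm (Fin α.sum), σ.cycleType = α ∧ shape σ = L}

/-- `B_α` for `α` with distinct parts at least `2`: the partitions `L` of `n = α.sum` with at most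
`n - r + [2 ∈ α]` rows and at most `n - r` columns. -/
def BSet (α : Multiset ℕ) : Set (List ℕ) :=
  {L | L.Pairwise (· ≥ ·) ∧ (∀ x ∈ L, 0 < x) ∧ L.sum = α.sum ∧
    L.length ≤ α.sum - Multiset.card α + (if 2 ∈ α then 1 else 0) ∧
    L.headD 0 ≤ α.sum - Multiset.card α}

/-- the column lengths of the partition `L` -/
def cols (L : List ℕ) : List ℕ :=
  (List.range (L.headD 0)).map fun j => (L.filter fun x => j < x).length

theorem lt_filter_iff : ∀ (L : List ℕ) (_ : L.Pairwise (· ≥ ·)) (i j : ℕ),
    i < (L.filter fun x => j < x).length ↔ j < L.getD i 0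
  | [], _, i, j => by simp
  | x :: L, h, i, j => by
    rw [List.pairwise_cons] at h
    by_cases hj : j < x
    · rw [List.filter_cons_of_pos (by simpa using hj)]
      cases i with
      | zero => simp [hj]
      | succ i =>
        rw [List.length_cons, Nat.succ_lt_succ_iff, lt_filter_iff L h.2 i j]
        simp
    · have h0 : (x :: L).filter (fun x => decide (j < x)) = [] := by
        rw [List.filter_eq_nil_iff]
        intro a ha
        rcases List.mem_cons.mp ha with rfl | ha
        · simpa using hj
        · have := h.1 a ha
          simp only [decide_eq_true_eq, not_lt]; omega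
      rw [h0]
      simp only [List.length_nil, not_lt_zero, false_iff, not_lt]
      cases i with
      | zero => simpa using hj
      | succ i =>
        simp only [List.getD_cons_succ]
        rcases Nat.lt_or_ge i L.length with hi | hi
        · rw [List.getD_eq_getElem _ _ hi]
          have := h.1 L[i] (List.getElem_mem _)
          omega
        · rw [List.getD_eq_default _ _ hi]; exact Nat.zero_le _

theorem getD_le_headD (L : List ℕ) (h : L.Pairwise (· ≥ ·)) (i : ℕ) : L.getD i 0 ≤ L.headD 0 := by
  cases L with
  | nil => simp
  | cons x L =>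
    rw [List.pairwise_cons] at h
    cases i with
    | zero => simp
    | succ i =>
      simp only [List.getD_cons_succ, List.headD_cons]
      rcases Nat.lt_or_ge i L.length with hi | hi
      · rw [List.getD_eq_getElem _ _ hi]
        exact h.1 L[i] (List.getElem_mem _)
      · rw [List.getD_eq_default _ _ hi]; exact Nat.zero_le _

theorem filter_cols (L : List ℕ) (h : L.Pairwise (· ≥ ·)) (i : ℕ) :
    ((cols L).filter fun x => i < x).length = L.getD i 0 := by
  have h1 : ((cols L).filter fun x => i < x).length =
      ((List.range (L.headD 0)).filter fun j => j < L.getD i 0).length := by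
    rw [cols, List.filter_map, List.length_map]
    congr 1
    apply List.filter_congr
    intro j _
    simp only [Function.comp, decide_eq_decide]
    exact lt_filter_iff L h i j
  rw [h1]
  have h2 := getD_le_headD L h i
  generalize L.getD i 0 = a at h2
  generalize L.headD 0 = b at h2
  have h3 : ((List.range b).filter fun j => decide (j < a)).length = a := by
    obtain ⟨k, rfl⟩ := Nat.exists_eq_add_of_le h2
    rw [List.range_add, List.filter_append, List.filter_eq_self.mpr (by
      intro j hj; simpa using hj), List.filter_eq_nil_iff.mpr (by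
      intro j hj
      simp only [List.mem_map, List.mem_range] at hj
      obtain ⟨m, _, rfl⟩ := hj
      simp)]
    simp
  exact h3

theorem sum_cols_aux (N : ℕ) : ∀ L : List ℕ, (∀ x ∈ L, x ≤ N) →
    ((List.range N).map fun j => (L.filter fun x => j < x).length).sum = L.sum
  | [], _ => by simp
  | x :: L, h => by
    have ih := sum_cols_aux N L (fun y hy => h y (by simp [hy]))
    have hx : x ≤ N := h x (by simp)
    have h1 : (fun j => ((x :: L).filter fun x => decide (j < x)).length) =
        fun j => (if j < x then 1 else 0) + (L.filter fun x => decide (j < x)).length := by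
      funext j
      by_cases hj : j < x
      · rw [List.filter_cons_of_pos (by simpa using hj)]; simp [hj]; omega
      · rw [List.filter_cons_of_neg (by simpa using hj)]; simp [hj]
    rw [h1, List.sum_map_add, ih, List.sum_cons]
    congr 1
    obtain ⟨k, rfl⟩ := Nat.exists_eq_add_of_le hx
    rw [List.range_add, List.map_append, List.sum_append]
    have e1 : ((List.range x).map fun j => if j < x then 1 else 0) = List.replicate x 1 := by
      rw [List.eq_replicate_iff]
      refine ⟨by simp, ?_⟩
      intro b hb
      simp only [List.mem_map, List.mem_range] at hb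
      obtain ⟨a, ha, rfl⟩ := hb
      simp [ha]
    have e2 : (((List.range k).map fun j => x + j).map fun j => if j < x then 1 else 0) =
        List.replicate k 0 := by
      rw [List.eq_replicate_iff]
      refine ⟨by simp, ?_⟩
      intro b hb
      simp only [List.map_map, List.mem_map, List.mem_range, Function.comp] at hb
      obtain ⟨a, ha, rfl⟩ := hb
      simp
    rw [e1, e2]; simp

theorem sum_cols (L : List ℕ) (h : L.Pairwise (· ≥ ·)) : (cols L).sum = L.sum := by
  apply sum_cols_aux
  intro x hx
  obtain ⟨i, hi, rfl⟩ := List.mem_iff_getElem.mp hx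
  have := getD_le_headD L h i
  rwa [List.getD_eq_getElem _ _ hi] at this

theorem cols_pos (L : List ℕ) : ∀ x ∈ cols L, 0 < x := by
  intro x hx
  simp only [cols, List.mem_map, List.mem_range] at hx
  obtain ⟨j, hj, rfl⟩ := hx
  cases L with
  | nil => simp at hj
  | cons a L =>
    simp only [List.headD_cons] at hj
    rw [List.filter_cons_of_pos (by simpa using hj)]; simp

theorem cols_le (L : List ℕ) : ∀ x ∈ cols L, x ≤ L.length := by
  intro x hx
  simp only [cols, List.mem_map, List.mem_range] at hx
  obtain ⟨j, hj, rfl⟩ := hx
  exact List.length_filter_le _ _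

theorem cols_len (L : List ℕ) : (cols L).length = L.headD 0 := by simp [cols]

theorem eq_of_getD : ∀ (L M : List ℕ), (∀ x ∈ L, 0 < x) → (∀ x ∈ M, 0 < x) →
    (∀ i, L.getD i 0 = M.getD i 0) → L = M
  | [], [], _, _, _ => rfl
  | [], y :: M, _, h2, h => by
    have := h 0; have := h2 y (by simp); simp at *; omega
  | x :: L, [], h1, _, h => by
    have := h 0; have := h1 x (by simp); simp at *; omega
  | x :: L, y :: M, h1, h2, h => by
    have h0 := h 0
    simp only [List.getD_cons_zero] at h0
    subst h0
    rw [eq_of_getD L M (fun a ha => h1 a (by simp [ha])) (fun a ha => h2 a (by simp [ha]))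
      (fun i => by simpa using h (i + 1))]

theorem shape_getD {n : ℕ} (σ : Equiv.Perm (Fin n)) (i : ℕ) :
    (shape σ).getD i 0 = rowLen (rsTab (oneLine σ)) i := by
  rw [shape, rowLen]
  rcases Nat.lt_or_ge i (rsTab (oneLine σ)).length with hi | hi
  · rw [List.getD_eq_getElem _ _ (by simpa using hi), List.getD_eq_getElem _ _ hi]; simp
  · rw [List.getD_eq_default _ _ (by simpa using hi), List.getD_eq_default _ _ hi]; simp

/-- A realised list of columns gives a realised partition. -/
theorem mem_SSet_of_real {α : Multiset ℕ} {L : List ℕ} (hL : L.Pairwise (· ≥ ·))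
    (hpos : ∀ x ∈ L, 0 < x) (h : Real α (cols L)) : L ∈ SSet α := by
  obtain ⟨σ, h1, h2⟩ := h
  refine ⟨σ, h1, ?_⟩
  apply eq_of_getD _ _ (shape_pos σ) hpos
  intro i
  rw [shape_getD, h2, filter_cols L hL]

/-- The set of column lists for which the main theorem is needed. -/
def Main : Prop := ∀ (α : Multiset ℕ) (c : List ℕ), α.Nodup → (∀ a ∈ α, 2 ≤ a) →
  3 ≤ Multiset.card α → (∀ x ∈ c, 0 < x) → c.sum = α.sum →
  c.length ≤ α.sum - Multiset.card α →
  (∀ x ∈ c, x ≤ α.sum - Multiset.card α + (if 2 ∈ α then 1 else 0)) → Real α c

theorem eq_of_main (hM : Main) (α : Multiset ℕ) (hnd : α.Nodup) (h2 : ∀ a ∈ α, 2 ≤ a)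
    (h3 : 3 ≤ Multiset.card α) : SSet α = BSet α := by
  apply Set.Subset.antisymm
  · rintro L ⟨σ, h1, rfl⟩
    have := incl σ (by rw [h1]; exact hnd)
    rw [h1] at this
    exact ⟨shape_sorted σ, shape_pos σ, shape_sum σ, this.2, this.1⟩
  · rintro L ⟨h4, h5, h6, h7, h8⟩
    apply mem_SSet_of_real h4 h5
    apply hM α _ hnd h2 h3 (cols_pos L) (by rw [sum_cols L h4, h6]) (by rw [cols_len]; exact h8)
    intro x hx
    exact le_trans (cols_le L x hx) h7

end Pool.Agent.RST
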