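import Pool.Agent.RST.Fam

/-!
# RST/Fins: final families made of mountains
-/

set_option autoImplicit false

namespace Pool.Agent.RST

open Finset

theorem TA_small {y : ℕ} {W : List (List ℕ)} (h : ∀ w ∈ W, ∀ a ∈ w, a < y) : TA y W := by
  intro w hw t ht hp
  exfalso
  have h1 : pv w t ∈ w := lt_mem w _ (by omega)
  have := h w hw _ h1
  omega

theorem TA_mono {y : ℕ} {P : List Mt} (hP : POK y P) (m : ℕ) (hm : ∀ p ∈ P, p.h ≤ m)
    (hcr : y ≤ m + 1 → ∃ p ∈ P, p.l + 1 < y ∧ y ≤ p.h + 1) :
    TA y (wdP P) ∧ (y ≤ m + 1 → ∃ w ∈ wdP P, CR y w) := by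
  have h1 : y ≤ m + 1 → ∃ w ∈ wdP P, CR y w := by
    intro hy
    obtain ⟨p, hp, h2, h3⟩ := hcr hy
    exact ⟨mt p.l p.h p.f, List.mem_map.2 ⟨p, hp, rfl⟩, CR_mt (hP p hp).1 (hP p hp).2 h2 h3⟩
  refine ⟨?_, h1⟩
  rcases Nat.lt_or_ge (m + 1) y with h4 | h4
  · apply TA_small
    intro w hw a ha
    obtain ⟨p, hp, rfl⟩ := List.mem_map.1 hw
    have h5 := (hP p hp).1.le_top a ha
    have := hm p hp
    omega
  · apply TA_of _ (h1 h4)
    intro w hw
    obtain ⟨p, hp, rfl⟩ := List.mem_map.1 hw
    exact TO_mt (hP p hp).1 (hP p hp).2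

/-- a function cut off above `m` -/
def cut (m : ℕ) (x : ℕ → ℕ) (j : ℕ) : ℕ := if j ≤ m then x j else 0

theorem sum_cut (m y : ℕ) (hmy : m ≤ y) (x : ℕ → ℕ) :
    ∑ k ∈ range (y + 1), cut m x k = ∑ k ∈ range (m + 1), x k := by
  have h1 : ∑ k ∈ range (m + 1), x k = ∑ k ∈ range (m + 1), cut m x k := by
    apply sum_congr rfl
    intro k hk
    rw [mem_range] at hk
    unfold cut
    rw [if_pos (by omega)]
  rw [h1]
  symm
  apply sum_subset
  · intro k hk
    rw [mem_range] at hk ⊢
    omega
  · intro k _ hk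
    rw [mem_range] at hk
    unfold cut
    rw [if_neg (by omega)]

theorem fin_one (y m : ℕ) (x : ℕ → ℕ) (s : ℕ) (hy : 2 ≤ y) (hm : 1 ≤ m) (hmy : m ≤ y)
    (h0 : 2 ≤ x 0) (hmid : ∀ j, 1 ≤ j → j < m → 2 ≤ x j) (hxm : 1 ≤ x m)
    (hz : ∀ j, m < j → j ≤ y → x j = 0) (hs : s = ∑ j ∈ range (m + 1), x j) :
    Fin' y m x {s} (if m = 1 ∧ x 1 = 1 then 1 else 0) 0 := by
  have hok : MtOK 0 m (cut m x) := by
    constructor
    · exact hm
    · unfold cut; rw [if_pos (by omega)]; omega
    · unfold cut; rw [if_pos le_rfl]; exact hxm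
    · intro k h1 h2
      unfold cut; rw [if_pos (by omega)]; exact hmid k h1 h2
    · intro k hk
      unfold cut; rw [if_neg (by omega)]
  set P : List Mt := [⟨0, m, cut m x⟩] with hP
  have hPOK : POK y P := by
    intro p hp
    rw [hP, List.mem_singleton] at hp
    subst hp
    exact ⟨hok, hmy⟩
  have hcr := TA_mono hPOK m (by
    intro p hp
    rw [hP, List.mem_singleton] at hp
    subst hp
    exact le_rfl) (by
    intro h1
    exact ⟨⟨0, m, cut m x⟩, by simp [hP], by simp only; omega, h1⟩)
  refine ⟨wdP P, ?_, ?_, hcr.1, hcr.2⟩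
  · have := hok.length y hmy
    rw [sum_cut m y hmy] at this
    simp only [wdP, hP, List.map_cons, List.map_nil, this, hs]
    rfl
  · refine (pre_P hPOK).mono ?_ ?_
    · intro j hj
      simp only [cntP, hP, List.map_cons, List.map_nil, List.sum_cons, List.sum_nil, add_zero, cut]
      split_ifs with h
      · rfl
      · exact (hz j (by omega) hj).symm
    · intro a ρ _ _
      have e0 : cut m x 0 = x 0 := by unfold cut; rw [if_pos (by omega)]
      have em : cut m x m = x m := by unfold cut; rw [if_pos le_rfl]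
      simp only [ebP, hP, List.map_cons, List.map_nil, List.sum_cons, List.sum_nil, add_zero]
      unfold fB eb
      rw [e0, em]
      have h10 : x 0 ≠ 1 := by omega
      have em1 : m = 1 → x 1 = x m := by rintro rfl; rfl
      split_ifs <;> omega

/-- the two-column mountain `0^p 1^q` -/
def two (p q : ℕ) (j : ℕ) : ℕ := if j = 0 then p else if j = 1 then q else 0

theorem two_ok {p q : ℕ} (hp : 1 ≤ p) (hq : 1 ≤ q) : MtOK 0 1 (two p q) := by
  constructor
  · norm_num
  · simpa [two] using hp
  · simpa [two] using hq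
  · intro k h1 h2; omega
  · intro k hk
    unfold two
    rw [if_neg (by omega), if_neg (by omega)]

theorem two_len {p q : ℕ} (hp : 1 ≤ p) (hq : 1 ≤ q) : (mt 0 1 (two p q)).length = p + q := by
  rw [(two_ok hp hq).length 1 le_rfl]
  simp [sum_range_succ, two]

/-- the list of two-column mountains -/
noncomputable def P2 (S : Finset ℕ) (b : ℕ → ℕ) : List Mt :=
  S.toList.map fun s => ⟨0, 1, two (s - b s) (b s)⟩

theorem P2_ok {y : ℕ} (hy : 1 ≤ y) (S : Finset ℕ) (b : ℕ → ℕ)
    (hb : ∀ s ∈ S, 1 ≤ b s ∧ b s + 2 ≤ s) : POK y (P2 S b) := by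
  intro p hp
  obtain ⟨s, hs, rfl⟩ := List.mem_map.1 hp
  have := hb s (by simpa using hs)
  exact ⟨two_ok (by omega) this.1, hy⟩

theorem P2_len (S : Finset ℕ) (b : ℕ → ℕ) (hb : ∀ s ∈ S, 1 ≤ b s ∧ b s + 2 ≤ s) :
    (((wdP (P2 S b)).map List.length : List ℕ) : Multiset ℕ) = S.val := by
  have h1 : (wdP (P2 S b)).map List.length = S.toList := by
    unfold wdP P2
    rw [List.map_map, List.map_map]
    conv_rhs => rw [← List.map_id S.toList]
    apply List.map_congr_left
    intro s hs
    have := hb s (by simpa using hs)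
    simp only [Function.comp, id]
    rw [two_len (by omega) this.1]
    omega
  rw [h1]; exact coe_toList S

theorem P2_cnt (S : Finset ℕ) (b : ℕ → ℕ) (j : ℕ) :
    cntP (P2 S b) j = if j = 0 then ∑ s ∈ S, (s - b s) else if j = 1 then ∑ s ∈ S, b s else 0 := by
  unfold cntP P2
  rw [List.map_map]
  have := sum_map_toList S (fun s => two (s - b s) (b s) j)
  have e : ((fun p : Mt => p.f j) ∘ fun s => (⟨0, 1, two (s - b s) (b s)⟩ : Mt)) =
      fun s => two (s - b s) (b s) j := rfl
  rw [e, this]
  unfold two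
  split_ifs <;> simp

theorem P2_eb (S : Finset ℕ) (b : ℕ → ℕ) (hb : ∀ s ∈ S, 1 ≤ b s ∧ b s + 2 ≤ s) (a ρ : ℕ) :
    ebP (P2 S b) a ρ = if a = 1 ∧ ρ = 1 then (S.card : ℤ)
      else if a = 0 ∧ ρ = 1 then -((S.filter fun s => b s = 1).card : ℤ) else 0 := by
  unfold ebP P2
  rw [List.map_map]
  have := sum_map_toList S (fun s => eb 0 1 (two (s - b s) (b s)) a ρ)
  have e : ((fun p : Mt => eb p.l p.h p.f a ρ) ∘ fun s => (⟨0, 1, two (s - b s) (b s)⟩ : Mt)) =
      fun s => eb 0 1 (two (s - b s) (b s)) a ρ := rfl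
  rw [e, this]
  have h1 : ∀ s ∈ S, eb 0 1 (two (s - b s) (b s)) a ρ = if a = 1 ∧ ρ = 1 then 1
      else if a = 0 ∧ ρ = 1 then -(if b s = 1 then 1 else 0) else 0 := by
    intro s hs
    have hbs := hb s hs
    have e0 : two (s - b s) (b s) 0 = s - b s := by simp [two]
    have e1 : two (s - b s) (b s) 1 = b s := by simp [two]
    unfold eb
    rw [e0, e1]
    have h2 : ¬ (s - b s = 1) := by omega
    have h3 : ∀ a, ¬ (0 < a + 1 ∧ a + 1 < 1 ∧ 3 ≤ two (s - b s) (b s) (a + 1)) := by
      intro a; omega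
    rcases Nat.lt_or_ge a 1 with ha | ha
    · have : a = 0 := by omega
      subst this
      rcases Nat.lt_or_ge ρ 1 with hρ | hρ
      · have : ρ = 0 := by omega
        subst this
        simp [h2]
      · rcases Nat.lt_or_ge 1 ρ with hρ' | hρ'
        · simp [show ¬ ρ = 0 by omega, show ¬ ρ = 1 by omega]
        · have : ρ = 1 := by omega
          subst this
          simp
    · rcases Nat.lt_or_ge 1 a with ha' | ha'
      · simp [show ¬ a = 0 by omega, show ¬ a = 1 by omega]
      · have : a = 1 := by omega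
        subst this
        rcases eq_or_ne ρ 1 with rfl | hρ
        · simp
        · simp [hρ]
  rw [sum_congr rfl h1]
  split_ifs
  · simp
  · rw [sum_neg_distrib, card_filter]
    push_cast
    rfl
  · simp

theorem fin_two (y : ℕ) (x : ℕ → ℕ) (S : Finset ℕ) (b : ℕ → ℕ) (hy : 2 ≤ y)
    (hb : ∀ s ∈ S, 1 ≤ b s ∧ b s + 2 ≤ s) (h1 : ∑ s ∈ S, b s = x 1)
    (h0 : ∑ s ∈ S, (s - b s) = x 0) (hz : ∀ j, 1 < j → j ≤ y → x j = 0) (hS : S.Nonempty) :
    Fin' y 1 x S.val (S.filter fun s => b s = 1).card 0 := by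
  have hPOK := P2_ok (y := y) (by omega) S b hb
  obtain ⟨s, hs⟩ := hS
  have hcr := TA_mono hPOK 1 (by
    intro p hp
    obtain ⟨s, hs, rfl⟩ := List.mem_map.1 hp
    exact le_rfl) (by
    intro h2
    exact ⟨⟨0, 1, two (s - b s) (b s)⟩, List.mem_map.2 ⟨s, by simpa using hs, rfl⟩,
      by simp only; omega, h2⟩)
  refine ⟨wdP (P2 S b), P2_len S b hb, ?_, hcr.1, hcr.2⟩
  refine (pre_P hPOK).mono ?_ ?_
  · intro j hj
    rw [P2_cnt]
    split_ifs with g1 g2
    · rw [g1, h0]
    · rw [g2, h1]
    · exact (hz j (by omega) hj).symm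
  · intro a ρ _ _
    rw [P2_eb S b hb]
    have hc : 1 ≤ S.card := card_pos.2 ⟨s, hs⟩
    unfold fB
    split_ifs <;> omega

theorem cntP_append (P Q : List Mt) (j : ℕ) : cntP (P ++ Q) j = cntP P j + cntP Q j := by
  unfold cntP
  rw [List.map_append, List.sum_append]

theorem ebP_append (P Q : List Mt) (a ρ : ℕ) : ebP (P ++ Q) a ρ = ebP P a ρ + ebP Q a ρ := by
  unfold ebP
  rw [List.map_append, List.sum_append]

/-- the big mountain: amounts `X0`, `X1`, then `x` up to `m` -/
def big (m X0 X1 : ℕ) (x : ℕ → ℕ) (j : ℕ) : ℕ :=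
  if j = 0 then X0 else if j = 1 then X1 else if j ≤ m then x j else 0

theorem big_ok {m X0 X1 : ℕ} {x : ℕ → ℕ} (hm : 2 ≤ m) (h0 : 1 ≤ X0) (h1 : 2 ≤ X1)
    (hmid : ∀ j, 2 ≤ j → j < m → 2 ≤ x j) (hxm : 1 ≤ x m) : MtOK 0 m (big m X0 X1 x) := by
  constructor
  · omega
  · unfold big; rw [if_pos rfl]; exact h0
  · unfold big; rw [if_neg (by omega), if_neg (by omega), if_pos le_rfl]; exact hxm
  · intro k hk1 hk2
    unfold big
    rw [if_neg (by omega)]
    rcases eq_or_ne k 1 with h | h
    · rw [if_pos h]; exact h1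
    · rw [if_neg h, if_pos (by omega)]; exact hmid k (by omega) hk2
  · intro k hk
    unfold big
    rw [if_neg (by omega), if_neg (by omega), if_neg (by omega)]

theorem big_sum (m y X0 X1 : ℕ) (x : ℕ → ℕ) (hm : 2 ≤ m) (hmy : m ≤ y) :
    ∑ k ∈ range (y + 1), big m X0 X1 x k = X0 + X1 + ∑ j ∈ Icc 2 m, x j := by
  have h1 : ∑ j ∈ Icc 2 m, x j = ∑ j ∈ Icc 2 m, big m X0 X1 x j := by
    apply sum_congr rfl
    intro j hj
    rw [mem_Icc] at hj
    unfold big
    rw [if_neg (by omega), if_neg (by omega), if_pos hj.2]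
  have h2 : range (y + 1) = insert 0 (insert 1 (Icc 2 y)) := by
    ext k
    simp only [mem_range, mem_insert, mem_Icc]
    omega
  have h3 : ∑ j ∈ Icc 2 y, big m X0 X1 x j = ∑ j ∈ Icc 2 m, big m X0 X1 x j := by
    symm
    apply sum_subset
    · intro k hk
      rw [mem_Icc] at hk ⊢
      omega
    · intro k hk1 hk2
      rw [mem_Icc] at hk1 hk2
      unfold big
      rw [if_neg (by omega), if_neg (by omega), if_neg (by omega)]
  rw [h2, sum_insert (by simp), sum_insert (by simp), h3, ← h1]
  have e0 : big m X0 X1 x 0 = X0 := by simp [big]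
  have e1 : big m X0 X1 x 1 = X1 := by simp [big]
  rw [e0, e1]
  ring

theorem fin_mix (y m : ℕ) (x : ℕ → ℕ) (S : Finset ℕ) (s0 X0 X1 : ℕ) (b : ℕ → ℕ)
    (hm : 2 ≤ m) (hmy : m ≤ y) (hs0 : s0 ∉ S)
    (hb : ∀ s ∈ S, 1 ≤ b s ∧ b s + 2 ≤ s) (h1 : ∑ s ∈ S, b s + X1 = x 1)
    (h0 : ∑ s ∈ S, (s - b s) + X0 = x 0) (hX0 : 2 ≤ X0) (hX1 : 2 ≤ X1)
    (hmid : ∀ j, 2 ≤ j → j < m → 2 ≤ x j) (hxm : 1 ≤ x m)
    (hz : ∀ j, m < j → j ≤ y → x j = 0) (hs : s0 = X0 + X1 + ∑ j ∈ Icc 2 m, x j) :
    Fin' y m x (insert s0 S).val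
      ((S.filter fun s => b s = 1).card - if 3 ≤ X1 then 1 else 0) 0 := by
  have hbig : MtOK 0 m (big m X0 X1 x) := big_ok hm (by omega) hX1 hmid hxm
  set P : List Mt := P2 S b ++ [⟨0, m, big m X0 X1 x⟩] with hP
  have hPOK : POK y P := by
    intro p hp
    rw [hP, List.mem_append, List.mem_singleton] at hp
    rcases hp with hp | rfl
    · exact P2_ok (by omega) S b hb p hp
    · exact ⟨hbig, hmy⟩
  have hcr := TA_mono hPOK m (by
    intro p hp
    rw [hP, List.mem_append, List.mem_singleton] at hp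
    rcases hp with hp | rfl
    · obtain ⟨s, hs, rfl⟩ := List.mem_map.1 hp
      simp only; omega
    · exact le_rfl) (by
    intro h2
    exact ⟨⟨0, m, big m X0 X1 x⟩, by simp [hP], by simp only; omega, h2⟩)
  refine ⟨wdP P, ?_, ?_, hcr.1, hcr.2⟩
  · have e1 : (wdP P).map List.length =
        (wdP (P2 S b)).map List.length ++ [s0] := by
      simp only [hP, wdP, List.map_append, List.map_cons, List.map_nil]
      congr 2
      rw [hbig.length y hmy, big_sum m y X0 X1 x hm hmy, hs]
    rw [e1, ← Multiset.coe_add, P2_len S b hb, insert_val_of_notMem hs0, add_comm]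
    rfl
  · refine (pre_P hPOK).mono ?_ ?_
    · intro j hj
      rw [hP, cntP_append, P2_cnt]
      simp only [cntP, List.map_cons, List.map_nil, List.sum_cons, List.sum_nil, add_zero, big]
      split_ifs with g1 g2 g3
      · rw [g1]; exact h0
      · rw [g2]; exact h1
      · simp
      · rw [hz j (by omega) hj]
    · intro a ρ _ _
      rw [hP, ebP_append, P2_eb S b hb]
      simp only [ebP, List.map_cons, List.map_nil, List.sum_cons, List.sum_nil, add_zero]
      have e0 : big m X0 X1 x 0 = X0 := by simp [big]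
      have e1 : big m X0 X1 x 1 = X1 := by simp [big]
      have em : big m X0 X1 x m = x m := by
        unfold big; rw [if_neg (by omega), if_neg (by omega), if_pos le_rfl]
      unfold fB eb
      rw [e0, em]
      rcases Nat.eq_zero_or_pos a with rfl | ha
      · simp only [Nat.zero_add, e1]
        have h10 : X0 ≠ 1 := by omega
        have hm0 : ¬ (0 = m) := by omega
        have hm1 : ¬ (1 = m) := by omega
        have hm2 : 1 < m := by omega
        rcases Nat.eq_zero_or_pos ρ with rfl | hρ
        · simp [h10, hm0]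
        · rcases eq_or_ne ρ 1 with rfl | hρ1
          · simp [hm1, hm2]
          · simp [hρ1, show ¬ ρ = 0 by omega]
      · have ha0 : ¬ a = 0 := by omega
        split_ifs <;> omega

/-! ### the gadget `0 0`, `0 0 1`, mountain with one cell in the column 0 -/

theorem big_ok' {m X0 X1 : ℕ} {x : ℕ → ℕ} (hm : 1 ≤ m) (h0 : 1 ≤ X0) (h1 : 2 ≤ X1)
    (hmid : ∀ j, 2 ≤ j → j < m → 2 ≤ x j) (hxm : 1 ≤ x m) : MtOK 0 m (big m X0 X1 x) := by
  rcases Nat.lt_or_ge 1 m with h | h
  · exact big_ok h h0 h1 hmid hxm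
  · have : m = 1 := by omega
    subst this
    constructor
    · omega
    · unfold big; rw [if_pos rfl]; exact h0
    · unfold big; rw [if_neg (by omega), if_pos rfl]; omega
    · intro k hk1 hk2; omega
    · intro k hk
      unfold big
      rw [if_neg (by omega), if_neg (by omega), if_neg (by omega)]

theorem key_00 (y t : ℕ) : key y [0, 0] t = toLex fun _ => 0 := by
  have h1 : ∀ t, lt [0, 0] t = 0 := by
    intro t
    unfold lt
    have h2 : t % [0, 0].length < 2 := Nat.mod_lt _ (by norm_num)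
    interval_cases h3 : t % [0, 0].length <;> rfl
  unfold key
  congr 1
  funext s
  rw [h1]; simp

theorem D_00 (y : ℕ) (κ : Lex (ℕ → ℤ)) (C : Prop) [Decidable C]
    (hC : C → (toLex fun _ => 0 : Lex (ℕ → ℤ)) ≤ κ) :
    (if C then 2 else 0 : ℤ) ≤ D y [0, 0] 0 κ := by
  classical
  rw [D_eq]
  have h1 : ∀ t, lt [0, 0] t = 0 := by
    intro t
    unfold lt
    have h2 : t % [0, 0].length < 2 := Nat.mod_lt _ (by norm_num)
    interval_cases h3 : t % [0, 0].length <;> rfl
  simp only [key_00, h1, List.length_cons, List.length_nil, sum_range_succ, range_zero, sum_empty]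
  split_ifs with g1 g2 g2
  · simp [cc]
  · exact absurd (hC g1) g2
  · simp [cc]
  · simp

theorem key2_lt {y : ℕ} (κ κ' : Lex (ℕ → ℤ)) (h0 : ofLex κ 0 = ofLex κ' 0)
    (h1 : ofLex κ 1 = ofLex κ' 1) (h2 : ofLex κ 2 < ofLex κ' 2) : κ < κ' := by
  refine ⟨2, ?_, h2⟩
  intro j hj
  interval_cases j
  · exact h0
  · exact h1

open Classical in
theorem D_001 (y : ℕ) (κ : Lex (ℕ → ℤ)) (hκ : ofLex κ 0 = 0) :
    (if key y [0, 0, 1] 1 ≤ κ then 1 else 0 : ℤ) - (if key y [0, 0, 1] 0 ≤ κ then 1 else 0) ≤
      D y [0, 0, 1] 0 κ := by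
  rw [D_eq]
  have l0 : lt [0, 0, 1] 0 = 0 := rfl
  have l1 : lt [0, 0, 1] 1 = 0 := rfl
  have l2 : lt [0, 0, 1] 2 = 1 := rfl
  have k2 : ¬ key y [0, 0, 1] 2 ≤ κ := by
    intro h
    have h1 := key_le_zero _ _ h
    rw [key_zero, l2, hκ] at h1
    norm_num at h1
  have k3 : key y [0, 0, 1] 3 = key y [0, 0, 1] 0 := by
    rw [← key_mod y [0, 0, 1] 3]; rfl
  simp only [List.length_cons, List.length_nil, sum_range_succ, range_zero, sum_empty, l0, l1, l2,
    Nat.zero_add, Nat.reduceAdd, k3, if_neg k2]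
  simp only [cc]
  split_ifs <;> norm_num at *

open Classical in
theorem D_big (y : ℕ) (w : List ℕ) (κ : Lex (ℕ → ℤ)) (hκ : ofLex κ 0 = 0) (hl : 0 < w.length)
    (hpos : ∀ t, 0 < t → t < w.length → 1 ≤ lt w t) :
    -(if key y w 0 ≤ κ then 1 else 0 : ℤ) ≤ D y w 0 κ := by
  rw [D_eq]
  obtain ⟨n, hn⟩ : ∃ n, w.length = n + 1 := ⟨w.length - 1, by omega⟩
  rw [hn, sum_range_succ]
  have h1 : ∑ t ∈ range n, (if key y w (t + 1) ≤ κ then cc 0 (lt w t) else 0) = 0 := by
    apply sum_eq_zero
    intro t ht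
    rw [mem_range] at ht
    rw [if_neg]
    intro h
    have h1 := key_le_zero _ _ h
    rw [key_zero, hκ] at h1
    have h2 := hpos (t + 1) (by omega) (by omega)
    have h3 : (1 : ℤ) ≤ lt w (t + 1) := by exact_mod_cast h2
    linarith
  rw [h1, zero_add]
  have h2 : key y w (n + 1) = key y w 0 := by
    rw [← key_mod y w (n + 1), hn, Nat.mod_self]
  rw [h2]
  have h3 : -1 ≤ cc 0 (lt w n) := by
    unfold cc; split_ifs <;> norm_num
  split_ifs
  · linarith
  · simp

/-- the words `0 0`, `0 0 1` and the mountain with one cell in the column 0 -/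
theorem fin_run1 (y m : ℕ) (x : ℕ → ℕ) (a : ℕ) (hy : 2 ≤ y) (hm : 1 ≤ m) (hmy : m ≤ y)
    (h0 : x 0 = 5) (hx1 : 3 ≤ x 1) (hmid : ∀ j, 2 ≤ j → j < m → 2 ≤ x j) (hxm : 1 ≤ x m)
    (hz : ∀ j, m < j → j ≤ y → x j = 0) (ha : a = ∑ j ∈ Icc 1 m, x j) :
    Fin' y m x (2 ::ₘ 3 ::ₘ {a}) (1 - if 2 ≤ m ∧ 4 ≤ x 1 then 1 else 0) 0 := by
  set X := big m 1 (x 1 - 1) x with hX
  have hbig : MtOK 0 m X := big_ok' hm le_rfl (by omega) hmid hxm
  have htwo : MtOK 0 1 (two 2 1) := two_ok (by norm_num) (by norm_num)
  have h001 : mt 0 1 (two 2 1) = [0, 0, 1] := rfl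
  have X0 : X 0 = 1 := by simp [hX, big]
  have X1 : X 1 = x 1 - 1 := by simp [hX, big]
  have hlen : (mt 0 m X).length = a := by
    rw [hbig.length y hmy, ha]
    have h2 : range (y + 1) = insert 0 (insert 1 (Icc 2 y)) := by
      ext k
      simp only [mem_range, mem_insert, mem_Icc]
      omega
    have h2' : Icc 1 m = insert 1 (Icc 2 m) := by
      ext k
      simp only [mem_insert, mem_Icc]
      omega
    have h3 : ∑ j ∈ Icc 2 y, X j = ∑ j ∈ Icc 2 m, x j := by
      have h4 : ∑ j ∈ Icc 2 m, x j = ∑ j ∈ Icc 2 m, X j := by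
        apply sum_congr rfl
        intro j hj
        rw [mem_Icc] at hj
        rw [hX]; unfold big
        rw [if_neg (by omega), if_neg (by omega), if_pos hj.2]
      rw [h4]
      symm
      apply sum_subset
      · intro k hk
        rw [mem_Icc] at hk ⊢
        omega
      · intro k hk1 hk2
        rw [mem_Icc] at hk1 hk2
        rw [hX]; unfold big
        rw [if_neg (by omega), if_neg (by omega), if_neg (by omega)]
    rw [h2, sum_insert (by simp), sum_insert (by simp), h3, h2', sum_insert (by simp), X0, X1]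
    omega
  have hlen3 : 3 ≤ (mt 0 m X).length := by
    rw [hbig.length y hmy]
    have h2 : ({0, 1} : Finset ℕ) ⊆ range (y + 1) := by
      intro k hk
      simp only [mem_insert, mem_singleton] at hk
      rw [mem_range]; omega
    have h3 := Finset.sum_le_sum_of_subset (f := X) h2
    rw [sum_insert (by simp), sum_singleton, X0, X1] at h3
    omega
  have hp := (pre_00 hy).append ((pre_mt (y := y) htwo (by omega)).append (pre_mt hbig hmy))
  set W : List (List ℕ) := [[0, 0]] ++ ([mt 0 1 (two 2 1)] ++ [mt 0 m X]) with hW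
  have hcr : y ≤ m + 1 → ∃ w ∈ W, CR y w := by
    intro h1
    exact ⟨mt 0 m X, by simp [hW], CR_mt hbig hmy (by omega) h1⟩
  refine ⟨W, ?_, ?_, ?_, hcr⟩
  · simp only [hW, List.map_append, List.map_cons, List.map_nil, hlen, h001]
    rfl
  · refine ⟨hp.le, hp.ok, ?_, ?_⟩
    · intro j hj
      rw [hp.cnt j hj]
      rcases Nat.eq_zero_or_pos j with rfl | hj0
      · simp [two, X0, h0]
      · rcases eq_or_ne j 1 with rfl | hj1
        · simp [two, X1]; omega
        · have hj0' : ¬ j = 0 := by omega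
          simp only [if_neg hj0', two, if_neg hj1, zero_add]
          rw [hX]; unfold big
          rw [if_neg hj0', if_neg hj1]
          split_ifs with h
          · rfl
          · exact (hz j (by omega) hj).symm
    · intro a' ρ κ ha' hρ hκ
      by_cases hspec : a' = 0 ∧ ρ = 0
      · obtain ⟨rfl, rfl⟩ := hspec
        have hfb : fB x m (1 - if 2 ≤ m ∧ 4 ≤ x 1 then 1 else 0) 0 0 0 = 0 := by
          unfold fB
          rw [if_neg (by omega), if_pos rfl, if_neg (by omega)]
        rw [hfb, if_neg (by omega), zero_add]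
        classical
        have hκ' : ofLex κ 0 = 0 := by simpa using hκ
        have r2 := D_001 y κ hκ'
        have hposw : ∀ t, 0 < t → t < (mt 0 m X).length → 1 ≤ lt (mt 0 m X) t := by
          intro t ht1 ht2
          have h1 := lt_run_ge (a := 1) (x := 0)
            (R := mid 1 ((List.range' 1 (m - 0)).map X)) (t := t) ht1 (by
              have : (mt 0 m X).length = 1 + (mid 1 ((List.range' 1 (m - 0)).map X)).length := by
                unfold mt; rw [length_mtn, X0]
              omega)
          have e1 : mt 0 m X = List.replicate 1 0 ++ mid 1 ((List.range' 1 (m - 0)).map X) := by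
            unfold mt mtn; rw [X0]
          rw [e1]
          by_contra hcon
          have h2 : lt (List.replicate 1 0 ++ mid 1 ((List.range' 1 (m - 0)).map X)) t = 0 := by
            omega
          rw [h2] at h1
          have h3 := count_mid 1 0 _ hbig.adm
          rw [if_neg (by omega), List.count_eq_zero] at h3
          exact h3 h1
        have r3 := D_big y (mt 0 m X) κ hκ' (by omega) hposw
        have l30 : lt (mt 0 m X) 0 = 0 := by
          unfold mt mtn; rw [X0]; exact lt_run_lt (by omega)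
        have l31 : lt (mt 0 m X) 1 = 1 := by
          obtain ⟨T, hT⟩ := mid_head 1 _ hbig.adm
          have e1 : mt 0 m X = 0 :: 1 :: T := by
            unfold mt mtn; rw [X0, show (0 : ℕ) + 1 = 1 from rfl]
            rw [show (0 + 1 : ℕ) = 1 from rfl] at hT
            rw [hT]; rfl
          rw [e1]
          unfold lt
          rw [Nat.mod_eq_of_lt (by simp)]; rfl
        have l32 : 1 ≤ lt (mt 0 m X) 2 := hposw 2 (by norm_num) (by omega)
        have c1 : key y [0, 0, 1] 1 < key y (mt 0 m X) 0 := by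
          have s1 : ∀ w : List ℕ, ∀ t, lt w t < y → sg y w t 1 = -1 := by
            intro w t h; simp [sg, h]
          have s2 : ∀ w : List ℕ, ∀ t, lt w t < y → lt w (t + 1) < y → sg y w t 2 = 1 := by
            intro w t h h'; simp [sg, prod_range_succ, h, h']
          refine key2_lt (y := y) _ _ ?_ ?_ ?_
          · rw [key_zero, key_zero, l30]; rfl
          · rw [key_apply, key_apply, s1 _ 1 (by show 0 < y; omega), s1 _ 0 (by rw [l30]; omega),
              l31]; rfl
          · rw [key_apply, key_apply, s2 _ 1 (by show 0 < y; omega) (by show 1 < y; omega),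
              s2 _ 0 (by rw [l30]; omega) (by rw [l31]; omega)]
            have : lt [0, 0, 1] (1 + 2) = 0 := rfl
            rw [this]
            have h3 : (1 : ℤ) ≤ lt (mt 0 m X) (0 + 2) := by exact_mod_cast l32
            simp only [Nat.cast_zero, mul_zero, one_mul]
            linarith
        have c2 : (toLex fun _ => 0 : Lex (ℕ → ℤ)) < key y [0, 0, 1] 0 := by
          refine key2_lt (y := y) _ _ ?_ ?_ ?_
          · rw [key_zero]; rfl
          · rw [key_apply]
            have : lt [0, 0, 1] (0 + 1) = 0 := rfl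
            rw [this]; simp
          · rw [key_apply]
            have : lt [0, 0, 1] (0 + 2) = 1 := rfl
            rw [this]
            have s2 : sg y [0, 0, 1] 0 2 = 1 := by
              have e1 : lt [0, 0, 1] 0 = 0 := rfl
              have e2 : lt [0, 0, 1] 1 = 0 := rfl
              simp [sg, prod_range_succ, e1, e2, show 0 < y by omega]
            rw [s2]
            show (0 : ℤ) < _
            norm_num
        have r1 := D_00 y κ (key y [0, 0, 1] 0 ≤ κ) (fun h => le_of_lt (lt_of_lt_of_le c2 h))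
        have r4 : (if key y (mt 0 m X) 0 ≤ κ then 1 else 0 : ℤ) ≤
            if key y [0, 0, 1] 1 ≤ κ then 1 else 0 := by
          split_ifs with g1 g2
          · exact le_rfl
          · exact absurd (le_of_lt (lt_of_lt_of_le c1 g1)) g2
          · norm_num
          · exact le_rfl
        have r5 : (0 : ℤ) ≤ if key y [0, 0, 1] 0 ≤ κ then 1 else 0 := by split_ifs <;> norm_num
        have r6 : (if key y [0, 0, 1] 0 ≤ κ then 2 else 0 : ℤ) =
            2 * if key y [0, 0, 1] 0 ≤ κ then 1 else 0 := by split_ifs <;> norm_num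
        rw [r6] at r1
        simp only [hW, List.map_append, List.map_cons, List.map_nil, List.sum_append, List.sum_cons,
          List.sum_nil, add_zero, h001]
        linarith
      · have h1 := hp.bd a' ρ κ ha' hρ hκ
        have hxx : ∀ j ≤ y, (if j = 0 then 2 else 0) + (two 2 1 j + X j) = x j := by
          intro j hj
          rcases Nat.eq_zero_or_pos j with rfl | hj0
          · simp [two, X0, h0]
          · rcases eq_or_ne j 1 with rfl | hj1
            · simp [two, X1]; omega
            · have hj0' : ¬ j = 0 := by omega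
              simp only [if_neg hj0', two, if_neg hj1, zero_add]
              rw [hX]; unfold big
              rw [if_neg hj0', if_neg hj1]
              split_ifs with h
              · rfl
              · exact (hz j (by omega) hj).symm
        rw [hxx a' (by omega), hxx (a' + 1) (by omega)] at h1
        refine le_trans ?_ h1
        have em : 2 ≤ m → X m = x m := by
          intro h
          rw [hX]; unfold big; rw [if_neg (by omega), if_neg (by omega), if_pos le_rfl]
        have em1 : m = 1 → X m = x 1 - 1 := by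
          rintro rfl; exact X1
        have key1 : fB x m (1 - if 2 ≤ m ∧ 4 ≤ x 1 then 1 else 0) 0 a' ρ ≤
            0 + (eb 0 1 (two 2 1) a' ρ + eb 0 m X a' ρ) := by
          have t0 : two 2 1 0 = 2 := rfl
          have t1 : two 2 1 1 = 1 := rfl
          unfold fB eb
          rw [t0, t1, X0]
          rcases Nat.eq_zero_or_pos a' with rfl | ha0
          · have hρ0 : ¬ ρ = 0 := fun h => hspec ⟨rfl, h⟩
            simp only [Nat.zero_add, X1, t1]
            rcases eq_or_ne ρ 1 with rfl | hρ1
            · rcases eq_or_ne m 1 with hm1 | hm1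
              · subst hm1
                simp only [X1]
                split_ifs <;> omega
              · split_ifs <;> omega
            · simp [hρ0, hρ1]
          · have ha0' : ¬ a' = 0 := by omega
            rcases eq_or_ne m 1 with hm1 | hm1
            · subst hm1
              split_ifs <;> omega
            · rw [em (by omega)]
              split_ifs <;> omega
        linarith
  · rcases Nat.lt_or_ge (m + 1) y with h4 | h4
    · apply TA_small
      intro w hw b hb
      simp only [hW, List.cons_append, List.nil_append, List.mem_cons, List.not_mem_nil,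
        or_false] at hw
      rcases hw with rfl | rfl | rfl
      · simp at hb; omega
      · rw [h001] at hb; simp at hb; omega
      · have := hbig.le_top b hb; omega
    · apply TA_of _ (hcr h4)
      intro w hw
      simp only [hW, List.cons_append, List.nil_append, List.mem_cons, List.not_mem_nil,
        or_false] at hw
      rcases hw with rfl | rfl | rfl
      · exact TO_00 hy
      · exact TO_mt htwo (by omega)
      · exact TO_mt hbig hmy

end Pool.Agent.RST
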