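import Pool.Agent.RST.FlatG

/-!
# RST/Flat: two equal columns
-/

set_option autoImplicit false

namespace Pool.Agent.RST

open Finset

private theorem f73 : Real {7, 3} [5, 5] :=
  real_dec 2 [[0, 0, 0, 0, 1, 1, 1], [0, 1, 1]] 8 (by decide +kernel)

private theorem f743 : Real {7, 4, 3} [7, 7] :=
  real_dec 2 [[0, 0, 0, 0, 1, 1, 1], [0, 0, 1, 1], [0, 1, 1]] 8 (by decide +kernel)

private theorem f653 : Real {6, 5, 3} [7, 7] :=
  real_dec 2 [[0, 0, 0, 0, 1, 1], [0, 0, 1, 1, 1], [0, 1, 1]] 8 (by decide +kernel)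

private theorem f763 : Real {7, 6, 3} [8, 8] :=
  real_dec 2 [[0, 0, 0, 0, 1, 1, 1], [0, 0, 0, 1, 1, 1], [0, 1, 1]] 8 (by decide +kernel)

private theorem f6543 : Real {6, 5, 4, 3} [9, 9] :=
  real_dec 2 [[0, 0, 0, 0, 1, 1], [0, 0, 1, 1, 1], [0, 0, 1, 1], [0, 1, 1]] 8 (by decide +kernel)

private theorem f7643 : Real {7, 6, 4, 3} [10, 10] :=
  real_dec 2 [[0, 0, 0, 0, 1, 1, 1], [0, 0, 0, 1, 1, 1], [0, 0, 1, 1], [0, 1, 1]] 8
    (by decide +kernel)

private theorem f7632 : Real {7, 6, 3, 2} [9, 9] :=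
  real_dec 2 [[0, 0, 0, 0, 1, 1, 1], [0, 0, 1, 1, 1, 1], [0, 1, 1], [0, 0]] 8 (by decide +kernel)

private theorem f76432 : Real {7, 6, 4, 3, 2} [11, 11] :=
  real_dec 2 [[0, 0, 0, 0, 1, 1, 1], [0, 0, 1, 1, 1, 1], [0, 0, 1, 1], [0, 1, 1], [0, 0]] 8
    (by decide +kernel)

private theorem small_list : ∀ S ∈ (Icc 2 7).powerset, 3 ∈ S → 2 ≤ (S.erase 2).card →
    (∑ a ∈ S, a) % 2 = 0 → S ≠ {5, 3} →
    S = {5, 3, 2} ∨ S = {7, 3, 2} ∨ S = {5, 4, 3} ∨ S = {5, 4, 3, 2} ∨ S = {7, 4, 3, 2} ∨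
    S = {6, 5, 3, 2} ∨ S = {6, 5, 4, 3, 2} ∨ S = {7, 3} ∨ S = {7, 4, 3} ∨ S = {6, 5, 3} ∨
    S = {7, 6, 3} ∨ S = {6, 5, 4, 3} ∨ S = {7, 6, 4, 3} ∨ S = {7, 6, 3, 2} ∨
    S = {7, 6, 4, 3, 2} := by
  decide +kernel

private theorem flat_small (S : Finset ℕ) (c : ℕ) (h2 : ∀ a ∈ S, 2 ≤ a) (h7 : ∀ a ∈ S, a ≤ 7)
    (h3 : 3 ∈ S) (hr : 2 ≤ (S.erase 2).card) (hsum : ∑ a ∈ S, a = 2 * c) (hne : S ≠ {5, 3}) :
    Real S.val [c, c] := by
  have hS : S ∈ (Icc 2 7).powerset := by
    rw [mem_powerset]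
    intro a ha
    exact mem_Icc.2 ⟨h2 a ha, h7 a ha⟩
  have h := small_list S hS h3 hr (by omega) hne
  have key : ∀ (S' : Finset ℕ) (M : Multiset ℕ) (c' : ℕ), S = S' → S'.val = M →
      ∑ a ∈ S', a = 2 * c' → Real M [c', c'] → Real S.val [c, c] := by
    intro S' M c' e1 e2 e3 h
    subst e1
    have : c = c' := by omega
    rw [this, e2]
    exact h
  rcases h with h | h | h | h | h | h | h | h | h | h | h | h | h | h | h
  · exact key _ _ 5 h (by decide) (by decide) spor_532_55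
  · exact key _ _ 6 h (by decide) (by decide) spor_732_66
  · exact key _ _ 6 h (by decide) (by decide) spor_543_66
  · exact key _ _ 7 h (by decide) (by decide) spor_5432_77
  · exact key _ _ 8 h (by decide) (by decide) spor_7432_88
  · exact key _ _ 8 h (by decide) (by decide) spor_6532_88
  · exact key _ _ 10 h (by decide) (by decide) spor_65432_1010
  · exact key _ _ 5 h (by decide) (by decide) f73
  · exact key _ _ 7 h (by decide) (by decide) f743
  · exact key _ _ 7 h (by decide) (by decide) f653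
  · exact key _ _ 8 h (by decide) (by decide) f763
  · exact key _ _ 9 h (by decide) (by decide) f6543
  · exact key _ _ 10 h (by decide) (by decide) f7643
  · exact key _ _ 9 h (by decide) (by decide) f7632
  · exact key _ _ 11 h (by decide) (by decide) f76432

theorem real_flat (S : Finset ℕ) (c : ℕ) (h2 : ∀ a ∈ S, 2 ≤ a) (h3 : 3 ∈ S)
    (hr : 2 ≤ (S.erase 2).card) (hsum : ∑ a ∈ S, a = 2 * c) (hne : S ≠ {5, 3}) :
    Real S.val [c, c] := by
  classical
  by_cases h7 : ∀ a ∈ S, a ≤ 7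
  · exact flat_small S c h2 h7 h3 hr hsum hne
  push Not at h7
  obtain ⟨s0, hs0, h8⟩ := h7
  set T := (S.erase 2).erase 3 with hT
  have hmT : ∀ s, s ∈ T ↔ s ∈ S ∧ s ≠ 2 ∧ s ≠ 3 := by
    intro s
    rw [hT, mem_erase, mem_erase]
    tauto
  have hT4 : ∀ s ∈ T, 4 ≤ s := by
    intro s hs
    obtain ⟨h1, h4, h5⟩ := (hmT s).1 hs
    have := h2 s h1
    omega
  have hsT : s0 ∈ T := (hmT s0).2 ⟨hs0, by omega, by omega⟩
  have h3' : 3 ∈ S.erase 2 := mem_erase.2 ⟨by omega, h3⟩
  have hsumT : (if 2 ∈ S then 2 else 0) + (3 + ∑ s ∈ T, s) = 2 * c := by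
    have e1 : ∑ s ∈ S.erase 2, s = 3 + ∑ s ∈ T, s := (add_sum_erase _ _ h3').symm
    rw [← e1]
    by_cases h22 : 2 ∈ S
    · have e2 := add_sum_erase S (fun s => s) h22
      rw [if_pos h22, e2, hsum]
    · rw [if_neg h22, zero_add, erase_eq_of_notMem h22, hsum]
  have hk : 4 * T.card + 4 ≤ ∑ s ∈ T, s := by
    rw [← add_sum_erase _ _ hsT]
    have h4 : 4 * (T.erase s0).card ≤ ∑ s ∈ T.erase s0, s := by
      have : ∑ s ∈ T.erase s0, 4 ≤ ∑ s ∈ T.erase s0, s :=
        sum_le_sum fun s hs => hT4 s (mem_of_mem_erase hs)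
      rw [sum_const, smul_eq_mul] at this
      omega
    have h5 := card_erase_of_mem hsT
    have h6 : 0 < T.card := card_pos.2 ⟨s0, hsT⟩
    omega
  set lo : ℕ → ℕ := fun s => if s = s0 then 4 else 2 with hlo
  set hi : ℕ → ℕ := fun s => if s = s0 then s - 3 else s - 2 with hhi
  have hlosum : ∑ s ∈ T, lo s = 2 * T.card + 2 := by
    rw [← add_sum_erase _ _ hsT]
    have e1 : ∑ s ∈ T.erase s0, lo s = ∑ s ∈ T.erase s0, 2 := by
      apply sum_congr rfl
      intro s hs
      rw [hlo]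
      exact if_neg (ne_of_mem_erase hs)
    have e2 : lo s0 = 4 := if_pos rfl
    have h5 := card_erase_of_mem hsT
    have h6 : 0 < T.card := card_pos.2 ⟨s0, hsT⟩
    rw [e1, e2, sum_const, smul_eq_mul]
    omega
  have hhisum : ∑ s ∈ T, hi s + 2 * T.card + 1 = ∑ s ∈ T, s := by
    rw [← add_sum_erase _ _ hsT, ← add_sum_erase _ _ hsT]
    have e1 : ∑ s ∈ T.erase s0, hi s + ∑ s ∈ T.erase s0, 2 = ∑ s ∈ T.erase s0, s := by
      rw [← sum_add_distrib]
      apply sum_congr rfl
      intro s hs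
      have h4 := hT4 s (mem_of_mem_erase hs)
      rw [hhi]
      dsimp only
      rw [if_neg (ne_of_mem_erase hs)]
      omega
    have e2 : hi s0 = s0 - 3 := if_pos rfl
    have h5 := card_erase_of_mem hsT
    have h6 : 0 < T.card := card_pos.2 ⟨s0, hsT⟩
    rw [sum_const, smul_eq_mul] at e1
    rw [e2]
    omega
  obtain ⟨f, hf, hfs⟩ := exists_dist T lo hi (by
      intro s hs
      have h4 := hT4 s hs
      rw [hlo, hhi]
      dsimp only
      split_ifs with h
      · omega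
      · omega) (c - 1 - (if 2 ∈ S then 2 else 0))
    (by rw [hlosum]; split_ifs at hsumT ⊢ <;> omega)
    (by split_ifs at hsumT ⊢ <;> omega)
  have hf0 := hf s0 hsT
  have e2 : lo s0 = 4 := if_pos rfl
  have e3 : hi s0 = s0 - 3 := if_pos rfl
  rw [e2, e3] at hf0
  have hf2 : ∀ s ∈ T, 2 ≤ f s ∧ f s + 2 ≤ s := by
    intro s hs
    obtain ⟨h5, h6⟩ := hf s hs
    have h4 := hT4 s hs
    rw [hlo] at h5
    rw [hhi] at h6
    dsimp only at h5 h6
    split_ifs at h5 h6 <;> omega
  have hgs : ∑ s ∈ T, (s - f s) + ∑ s ∈ T, f s = ∑ s ∈ T, s := by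
    rw [← sum_add_distrib]
    apply sum_congr rfl
    intro s hs
    have := hf2 s hs
    omega
  have h := flat_gen (2 ∈ S) T f c hT4 hf2 s0 s0 hsT hsT hf0.1 (by omega)
    (by rw [hfs]; split_ifs at hsumT ⊢ <;> omega)
    (by split_ifs at hsumT hfs <;> omega)
  have e : (((if 2 ∈ S then [2] else []) ++ 3 :: T.toList : List ℕ) : Multiset ℕ) = S.val := by
    apply (Multiset.Nodup.ext ?_ S.nodup).2
    · intro a
      rw [Multiset.mem_coe, List.mem_append, List.mem_cons, Finset.mem_toList, hmT, Finset.mem_val]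
      by_cases h22 : 2 ∈ S
      · rw [if_pos h22, List.mem_singleton]
        constructor
        · rintro (h | h | h)
          · rw [h]; exact h22
          · rw [h]; exact h3
          · exact h.1
        · intro h
          by_cases h1 : a = 2
          · exact Or.inl h1
          · by_cases h4 : a = 3
            · exact Or.inr (Or.inl h4)
            · exact Or.inr (Or.inr ⟨h, h1, h4⟩)
      · rw [if_neg h22]
        constructor
        · rintro (h | h | h)
          · simp at h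
          · rw [h]; exact h3
          · exact h.1
        · intro h
          by_cases h1 : a = 2
          · exact absurd (h1 ▸ h) h22
          · by_cases h4 : a = 3
            · exact Or.inr (Or.inl h4)
            · exact Or.inr (Or.inr ⟨h, h1, h4⟩)
    · rw [Multiset.coe_nodup]
      have h3 : (3 :: T.toList).Nodup := by
        rw [List.nodup_cons]
        refine ⟨?_, Finset.nodup_toList T⟩
        intro h4
        have := hT4 3 (Finset.mem_toList.1 h4)
        omega
      split_ifs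
      · rw [List.singleton_append, List.nodup_cons]
        refine ⟨?_, h3⟩
        intro h4
        rw [List.mem_cons] at h4
        rcases h4 with h4 | h4
        · omega
        · have := hT4 2 (Finset.mem_toList.1 h4)
          omega
      · exact h3
  rw [e] at h
  exact h

end Pool.Agent.RST
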