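import Pool.Agent.RST.RectB

/-!
# RST/FlatA: words `0^a 1^b` in the region 0, classes by four letters
-/

set_option autoImplicit false

namespace Pool.Agent.RST

open Finset

/-- lexicographic comparison of triples -/
def lex3 (x y z x' y' z' : ℤ) : Prop := x < x' ∨ x = x' ∧ (y < y' ∨ y = y' ∧ z < z')

theorem lt_of_lex3 (κ κ' : Lex (ℕ → ℤ)) (h0 : ofLex κ 0 = ofLex κ' 0)
    (h : lex3 (ofLex κ 1) (ofLex κ 2) (ofLex κ 3) (ofLex κ' 1) (ofLex κ' 2) (ofLex κ' 3)) :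
    κ < κ' := by
  change Pi.Lex (· < ·) (· < ·) (ofLex κ) (ofLex κ')
  rcases h with h | ⟨h1, h | ⟨h2, h⟩⟩
  · refine ⟨1, ?_, h⟩
    intro j hj
    have : j = 0 := by omega
    rw [this]; exact h0
  · refine ⟨2, ?_, h⟩
    intro j hj
    rcases (show j = 0 ∨ j = 1 by omega) with rfl | rfl
    · exact h0
    · exact h1
  · refine ⟨3, ?_, h⟩
    intro j hj
    rcases (show j = 0 ∨ j = 1 ∨ j = 2 by omega) with rfl | rfl | rfl
    · exact h0
    · exact h1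
    · exact h2

/-- the class `i` of keys -/
def Cls (i : ℕ) (κ : Lex (ℕ → ℤ)) : Prop :=
  ofLex κ 0 = 0 ∧
    ((i = 1 ∧ ofLex κ 1 = -1 ∧ ofLex κ 2 = 1 ∧ ofLex κ 3 = -1) ∨
      (i = 2 ∧ ofLex κ 1 = -1 ∧ ofLex κ 2 = 1 ∧ ofLex κ 3 = 0) ∨
      (i = 3 ∧ ofLex κ 1 = 0 ∧ ofLex κ 2 = 0 ∧ ofLex κ 3 = -1) ∨
      (i = 4 ∧ ofLex κ 1 = 0 ∧ ofLex κ 2 = 0 ∧ ofLex κ 3 = 0) ∨
      (i = 5 ∧ ofLex κ 1 = 0 ∧ ofLex κ 2 = 1 ∧ ofLex κ 3 = -1))

theorem exists_cls (κ : Lex (ℕ → ℤ)) (h0 : ofLex κ 0 = 0) : ∃ j, 1 ≤ j ∧ j ≤ 6 ∧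
    ∀ i κ', Cls i κ' → (i < j → κ' ≤ κ) ∧ (j < i → ¬ κ' ≤ κ) := by
  have key : ∀ j, 1 ≤ j → j ≤ 6 →
      (∀ i κ', Cls i κ' → (i < j → lex3 (ofLex κ' 1) (ofLex κ' 2) (ofLex κ' 3)
        (ofLex κ 1) (ofLex κ 2) (ofLex κ 3)) ∧ (j < i → lex3
        (ofLex κ 1) (ofLex κ 2) (ofLex κ 3) (ofLex κ' 1) (ofLex κ' 2) (ofLex κ' 3))) →
      ∃ j, 1 ≤ j ∧ j ≤ 6 ∧
    ∀ i κ', Cls i κ' → (i < j → κ' ≤ κ) ∧ (j < i → ¬ κ' ≤ κ) := by
    intro j h1 h2 h
    refine ⟨j, h1, h2, fun i κ' hc => ⟨?_, ?_⟩⟩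
    · intro hij
      exact (lt_of_lex3 κ' κ (by rw [hc.1, h0]) ((h i κ' hc).1 hij)).le
    · intro hij
      exact not_le.2 (lt_of_lex3 κ κ' (by rw [hc.1, h0]) ((h i κ' hc).2 hij))
  generalize ofLex κ 1 = x at key
  generalize ofLex κ 2 = y at key
  generalize ofLex κ 3 = z at key
  have tac : ∀ j, 1 ≤ j → j ≤ 6 → (2 ≤ j → lex3 (-1) 1 (-1) x y z) → (3 ≤ j → lex3 (-1) 1 0 x y z) →
      (4 ≤ j → lex3 0 0 (-1) x y z) → (5 ≤ j → lex3 0 0 0 x y z) → (6 ≤ j → lex3 0 1 (-1) x y z) →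
      (j < 2 → lex3 x y z (-1) 1 0) → (j < 3 → lex3 x y z 0 0 (-1)) → (j < 4 → lex3 x y z 0 0 0) →
      (j < 5 → lex3 x y z 0 1 (-1)) →
      ∃ j, 1 ≤ j ∧ j ≤ 6 ∧ ∀ i κ', Cls i κ' → (i < j → κ' ≤ κ) ∧ (j < i → ¬ κ' ≤ κ) := by
    intro j h1 h2 a1 a2 a3 a4 a5 b2 b3 b4 b5
    apply key j h1 h2
    rintro i κ' ⟨-, hc⟩
    rcases hc with ⟨rfl, e1, e2, e3⟩ | ⟨rfl, e1, e2, e3⟩ | ⟨rfl, e1, e2, e3⟩ | ⟨rfl, e1, e2, e3⟩ |
      ⟨rfl, e1, e2, e3⟩ <;> rw [e1, e2, e3]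
    · exact ⟨fun h => a1 h, fun h => by omega⟩
    · exact ⟨fun h => a2 h, fun h => b2 h⟩
    · exact ⟨fun h => a3 h, fun h => b3 h⟩
    · exact ⟨fun h => a4 h, fun h => b4 h⟩
    · exact ⟨fun h => a5 h, fun h => b5 h⟩
  unfold lex3 at tac
  by_cases c1 : x < -1 ∨ x = -1 ∧ (y < 1 ∨ y = 1 ∧ z ≤ -1)
  · exact tac 1 (by omega) (by omega) (by omega) (by omega) (by omega) (by omega) (by omega)
      (by omega) (by omega) (by omega) (by omega)
  by_cases c2 : x < -1 ∨ x = -1 ∧ (y < 1 ∨ y = 1 ∧ z ≤ 0)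
  · exact tac 2 (by omega) (by omega) (by omega) (by omega) (by omega) (by omega) (by omega)
      (by omega) (by omega) (by omega) (by omega)
  by_cases c3 : x < 0 ∨ x = 0 ∧ (y < 0 ∨ y = 0 ∧ z ≤ -1)
  · exact tac 3 (by omega) (by omega) (by omega) (by omega) (by omega) (by omega) (by omega)
      (by omega) (by omega) (by omega) (by omega)
  by_cases c4 : x < 0 ∨ x = 0 ∧ (y < 0 ∨ y = 0 ∧ z ≤ 0)
  · exact tac 4 (by omega) (by omega) (by omega) (by omega) (by omega) (by omega) (by omega)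
      (by omega) (by omega) (by omega) (by omega)
  by_cases c5 : x < 0 ∨ x = 0 ∧ (y < 1 ∨ y = 1 ∧ z ≤ -1)
  · exact tac 5 (by omega) (by omega) (by omega) (by omega) (by omega) (by omega) (by omega)
      (by omega) (by omega) (by omega) (by omega)
  · exact tac 6 (by omega) (by omega) (by omega) (by omega) (by omega) (by omega) (by omega)
      (by omega) (by omega) (by omega) (by omega)

/-- the word `0^a 1^b` -/
def w01 (a b : ℕ) : List ℕ := List.replicate a 0 ++ List.replicate b 1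

theorem w01_len (a b : ℕ) : (w01 a b).length = a + b := by simp [w01]

theorem w01_lt (a b t : ℕ) (ht : t < a + b) : lt (w01 a b) t = if t < a then 0 else 1 := by
  unfold lt
  rw [w01_len, Nat.mod_eq_of_lt ht]
  unfold w01
  split_ifs with h
  · rw [List.getD_append _ _ _ _ (by simpa using h)]
    simp [List.getD_eq_getElem?_getD, h]
  · rw [List.getD_append_right _ _ _ _ (by simp; omega)]
    have : t - a < b := by omega
    simp [List.getD_eq_getElem?_getD, this]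

theorem w01_lt' (a b t : ℕ) (ht : a + b ≤ t) (ht2 : t < a + b + a) : lt (w01 a b) t = 0 := by
  obtain ⟨s, rfl⟩ := Nat.exists_eq_add_of_le' ht
  rw [← w01_len a b, lt_add_length, w01_lt _ _ _ (by omega), if_pos (by omega)]

theorem w01_letter_lt (a b t : ℕ) : lt (w01 a b) t < 2 := by
  rcases Nat.eq_zero_or_pos (a + b) with h | h
  · have : w01 a b = [] := by
      rw [← List.length_eq_zero_iff, w01_len, h]
    rw [this]
    simp [lt]
  · rw [← lt_mod, w01_len]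
    rw [w01_lt _ _ _ (Nat.mod_lt _ h)]
    split_ifs <;> omega

/-- the first four coordinates of a key, all letters `< 2` -/
theorem key_four (w : List ℕ) (h : ∀ t, lt w t < 2) (t : ℕ) :
    ofLex (key 2 w t) 0 = lt w t ∧ ofLex (key 2 w t) 1 = -(lt w (t + 1) : ℤ) ∧
      ofLex (key 2 w t) 2 = lt w (t + 2) ∧ ofLex (key 2 w t) 3 = -(lt w (t + 3) : ℤ) := by
  refine ⟨?_, ?_, ?_, ?_⟩
  · rw [key_zero]
  · rw [key_apply]
    unfold sg
    rw [prod_range_one, if_pos (h _)]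
    ring
  · rw [key_apply]
    unfold sg
    rw [prod_range_succ, prod_range_one, if_pos (h _), if_pos (h _)]
    ring
  · rw [key_apply]
    unfold sg
    rw [prod_range_succ, prod_range_succ, prod_range_one, if_pos (h _), if_pos (h _), if_pos (h _)]
    ring

open Classical in
/-- `D` of the word `0^a 1^b` in the region 0 -/
theorem w01_D (a b : ℕ) (ha : 1 ≤ a) (hb : 1 ≤ b) (κ : Lex (ℕ → ℤ)) (hκ : ofLex κ 0 = 0) :
    D 2 (w01 a b) 0 κ = (∑ s ∈ Ico 1 a, if key 2 (w01 a b) s ≤ κ then (1 : ℤ) else 0) -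
      (if key 2 (w01 a b) 0 ≤ κ then 1 else 0) := by
  rw [D_eq, w01_len, range_eq_Ico]
  have h1 : ∀ t, lt (w01 a b) t = 1 → ¬ key 2 (w01 a b) t ≤ κ := by
    intro t ht h
    have := key_le_zero _ _ h
    rw [key_zero, ht, hκ] at this
    norm_num at this
  rw [← sum_Ico_consecutive _ (Nat.zero_le (a - 1)) (by omega : a - 1 ≤ a + b)]
  rw [← sum_Ico_consecutive _ (show a - 1 ≤ a + b - 1 by omega) (by omega : a + b - 1 ≤ a + b)]
  have e1 : ∑ t ∈ Ico 0 (a - 1), (if key 2 (w01 a b) (t + 1) ≤ κ then cc 0 (lt (w01 a b) t)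
      else 0) = ∑ s ∈ Ico 1 a, if key 2 (w01 a b) s ≤ κ then (1 : ℤ) else 0 := by
    have := sum_Ico_add' (fun s => if key 2 (w01 a b) s ≤ κ then (1 : ℤ) else 0) 0 (a - 1) 1
    rw [zero_add, show a - 1 + 1 = a by omega] at this
    rw [← this]
    apply sum_congr rfl
    intro t ht
    rw [mem_Ico] at ht
    have hl : lt (w01 a b) t = 0 := by rw [w01_lt _ _ _ (by omega), if_pos (by omega)]
    rw [hl, cc_self]
  have e2 : ∑ t ∈ Ico (a - 1) (a + b - 1), (if key 2 (w01 a b) (t + 1) ≤ κ then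
      cc 0 (lt (w01 a b) t) else 0) = 0 := by
    apply sum_eq_zero
    intro t ht
    rw [mem_Ico] at ht
    rw [if_neg (h1 _ (by rw [w01_lt _ _ _ (by omega), if_neg (by omega)]))]
  have e3 : ∑ t ∈ Ico (a + b - 1) (a + b), (if key 2 (w01 a b) (t + 1) ≤ κ then
      cc 0 (lt (w01 a b) t) else 0) = -(if key 2 (w01 a b) 0 ≤ κ then 1 else 0) := by
    have e4 : Ico (a + b - 1) (a + b) = {a + b - 1} := by
      have : a + b = (a + b - 1) + 1 := by omega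
      rw [this, Nat.add_sub_cancel]
      exact Nat.Ico_succ_singleton (a + b - 1)
    rw [e4, sum_singleton, show a + b - 1 + 1 = a + b by omega]
    have e5 : key 2 (w01 a b) (a + b) = key 2 (w01 a b) 0 := by
      rw [← key_mod 2 (w01 a b) (a + b), w01_len, Nat.mod_self]
    have hl : lt (w01 a b) (a + b - 1) = 1 := by rw [w01_lt _ _ _ (by omega), if_neg (by omega)]
    have h2 : cc 0 1 = -1 := cc_succ 0
    rw [e5, hl, h2]
    split_ifs <;> rfl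
  rw [e1, e2, e3]
  ring

end Pool.Agent.RST
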