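import Pool.Agent.RST.FlatA

/-!
# RST/FlatB: bounds for the words `0^a 1^b` in the region 0
-/

set_option autoImplicit false

namespace Pool.Agent.RST

open Finset

/-- the class of the element `s` of `0^a 1^b` -/
def cl (a b s : ℕ) : ℕ :=
  if a - s = 1 then (if b = 2 then 2 else 1) else if a - s = 2 then 5 else
    if a - s = 3 then 3 else 4

theorem w01_cls (a b s : ℕ) (hb : 2 ≤ b) (hs : s < a) : Cls (cl a b s) (key 2 (w01 a b) s) := by
  obtain ⟨h0, h1, h2, h3⟩ := key_four (w01 a b) (w01_letter_lt a b) s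
  have l0 : lt (w01 a b) s = 0 := by rw [w01_lt _ _ _ (by omega), if_pos hs]
  unfold Cls cl
  rw [h0, h1, h2, h3, l0]
  refine ⟨rfl, ?_⟩
  rcases (show a - s = 1 ∨ a - s = 2 ∨ a - s = 3 ∨ 4 ≤ a - s by omega) with h | h | h | h
  · have l1 : lt (w01 a b) (s + 1) = 1 := by rw [w01_lt _ _ _ (by omega), if_neg (by omega)]
    have l2 : lt (w01 a b) (s + 2) = 1 := by rw [w01_lt _ _ _ (by omega), if_neg (by omega)]
    rw [if_pos h, l1, l2]
    by_cases hb2 : b = 2
    · have l3 : lt (w01 a b) (s + 3) = 0 := w01_lt' _ _ _ (by omega) (by omega)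
      rw [if_pos hb2, l3]
      right; left
      norm_num
    · have l3 : lt (w01 a b) (s + 3) = 1 := by rw [w01_lt _ _ _ (by omega), if_neg (by omega)]
      rw [if_neg hb2, l3]
      left
      norm_num
  · have l1 : lt (w01 a b) (s + 1) = 0 := by rw [w01_lt _ _ _ (by omega), if_pos (by omega)]
    have l2 : lt (w01 a b) (s + 2) = 1 := by rw [w01_lt _ _ _ (by omega), if_neg (by omega)]
    have l3 : lt (w01 a b) (s + 3) = 1 := by rw [w01_lt _ _ _ (by omega), if_neg (by omega)]
    rw [if_neg (by omega), if_pos h, l1, l2, l3]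
    right; right; right; right
    norm_num
  · have l1 : lt (w01 a b) (s + 1) = 0 := by rw [w01_lt _ _ _ (by omega), if_pos (by omega)]
    have l2 : lt (w01 a b) (s + 2) = 0 := by rw [w01_lt _ _ _ (by omega), if_pos (by omega)]
    have l3 : lt (w01 a b) (s + 3) = 1 := by rw [w01_lt _ _ _ (by omega), if_neg (by omega)]
    rw [if_neg (by omega), if_neg (by omega), if_pos h, l1, l2, l3]
    right; right; left
    norm_num
  · have l1 : lt (w01 a b) (s + 1) = 0 := by rw [w01_lt _ _ _ (by omega), if_pos (by omega)]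
    have l2 : lt (w01 a b) (s + 2) = 0 := by rw [w01_lt _ _ _ (by omega), if_pos (by omega)]
    have l3 : lt (w01 a b) (s + 3) = 0 := by rw [w01_lt _ _ _ (by omega), if_pos (by omega)]
    rw [if_neg (by omega), if_neg (by omega), if_neg (by omega), l1, l2, l3]
    right; right; right; left
    norm_num

/-- the lower bound in the region 0, class `j` -/
def lv (j a b : ℕ) : ℤ :=
  if j = 1 then 0 else if j = 2 then (if 3 ≤ b then 1 else 0)
  else if j = 3 ∨ j = 4 then (if a = 3 then 0 else 1)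
  else if j = 5 then ((a - 3 : ℕ) : ℤ) else (a : ℤ) - 2

/-- `j` is the class of `κ` -/
def ClsK (j : ℕ) (κ : Lex (ℕ → ℤ)) : Prop :=
  1 ≤ j ∧ j ≤ 6 ∧ ∀ i κ', Cls i κ' → (i < j → κ' ≤ κ) ∧ (j < i → ¬ κ' ≤ κ)

theorem w01_ge (a b j : ℕ) (ha : 2 ≤ a) (hb : 2 ≤ b) (κ : Lex (ℕ → ℤ)) (hκ : ofLex κ 0 = 0)
    (hj : ClsK j κ) : lv j a b ≤ D 2 (w01 a b) 0 κ := by
  classical
  rw [w01_D a b (by omega) (by omega) κ hκ]
  obtain ⟨hj1, hj6, hjc⟩ := hj
  set χ : ℕ → ℤ := fun s => if key 2 (w01 a b) s ≤ κ then (1 : ℤ) else 0 with hχ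
  have h0 : ∀ s, 0 ≤ χ s := by
    intro s; rw [hχ]; dsimp only; split_ifs <;> norm_num
  have h1 : χ 0 ≤ 1 := by
    rw [hχ]; dsimp only; split_ifs <;> norm_num
  have hp : ∀ s < a, cl a b s < j → χ s = 1 := by
    intro s hs h
    rw [hχ]
    exact if_pos ((hjc _ _ (w01_cls a b s hb hs)).1 h)
  have hn : j < cl a b 0 → χ 0 = 0 := by
    intro h
    rw [hχ]
    exact if_neg ((hjc _ _ (w01_cls a b 0 hb (by omega))).2 h)
  change lv j a b ≤ (∑ s ∈ Ico 1 a, χ s) - χ 0
  have hlast : cl a b (a - 1) = if b = 2 then 2 else 1 := by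
    unfold cl; rw [if_pos (by omega)]
  rcases Nat.eq_or_lt_of_le ha with ha2 | ha2
  · subst ha2
    have e : Ico 1 2 = {1} := by decide
    rw [e, sum_singleton]
    have c0 : cl 2 b 0 = 5 := by unfold cl; rw [if_neg (by omega), if_pos (by omega)]
    have c1 := hp 1 (by omega)
    have c2 := h0 1
    rw [show 2 - 1 = 1 by rfl] at hlast
    rw [hlast] at c1
    rw [c0] at hn
    unfold lv
    rcases (show j = 1 ∨ j = 2 ∨ j = 3 ∨ j = 4 ∨ j = 5 ∨ j = 6 by omega) with
      rfl | rfl | rfl | rfl | rfl | rfl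
    · rw [hn (by omega), if_pos rfl]; linarith
    · rw [hn (by omega), if_neg (by omega), if_pos rfl]
      by_cases hb3 : 3 ≤ b
      · rw [if_neg (by omega)] at c1
        rw [if_pos hb3, c1 (by omega)]; norm_num
      · rw [if_neg hb3]; linarith
    · rw [hn (by omega), if_neg (by omega), if_neg (by omega), if_pos (by omega), if_neg (by omega),
        c1 (by split_ifs <;> omega)]
      norm_num
    · rw [hn (by omega), if_neg (by omega), if_neg (by omega), if_pos (by omega), if_neg (by omega),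
        c1 (by split_ifs <;> omega)]
      norm_num
    · rw [if_neg (by omega), if_neg (by omega), if_neg (by omega), if_pos rfl,
        c1 (by split_ifs <;> omega)]
      push_cast
      linarith
    · rw [if_neg (by omega), if_neg (by omega), if_neg (by omega), if_neg (by omega),
        c1 (by split_ifs <;> omega)]
      push_cast
      linarith
  · -- `3 ≤ a`
    have e : ∑ s ∈ Ico 1 a, χ s = ∑ s ∈ Ico 1 (a - 2), χ s + χ (a - 2) + χ (a - 1) := by
      obtain ⟨n, rfl⟩ : ∃ n, a = n + 3 := ⟨a - 3, by omega⟩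
      rw [show n + 3 - 2 = n + 1 by omega, show n + 3 - 1 = n + 2 by omega,
        show n + 3 = n + 2 + 1 by omega, sum_Ico_succ_top (by omega),
        show n + 2 = n + 1 + 1 by omega, sum_Ico_succ_top (by omega)]
    rw [e]
    set U := ∑ s ∈ Ico 1 (a - 2), χ s with hU
    have hU0 : 0 ≤ U := sum_nonneg fun s _ => h0 s
    have c1 := hp (a - 1) (by omega)
    rw [hlast] at c1
    have c2 := hp (a - 2) (by omega)
    have c3 : cl a b (a - 2) = 5 := by unfold cl; rw [if_neg (by omega), if_pos (by omega)]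
    rw [c3] at c2
    have d1 := h0 (a - 1)
    have d2 := h0 (a - 2)
    have c0 : cl a b 0 = if a = 3 then 3 else 4 := by
      unfold cl
      rw [if_neg (by omega), if_neg (by omega)]
      split_ifs <;> omega
    rw [c0] at hn
    have hUa : 5 ≤ j → U = (a : ℤ) - 3 := by
      intro h5
      have : ∀ s ∈ Ico 1 (a - 2), χ s = 1 := by
        intro s hs
        rw [mem_Ico] at hs
        apply hp s (by omega)
        unfold cl
        rw [if_neg (by omega), if_neg (by omega)]
        split_ifs <;> omega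
      rw [hU, sum_congr rfl this, sum_const, Nat.card_Ico, nsmul_eq_mul, mul_one]
      omega
    have hU4 : j = 4 → 4 ≤ a → 1 ≤ U := by
      intro h4 ha4
      have h5 : χ (a - 3) = 1 := by
        apply hp (a - 3) (by omega)
        unfold cl
        rw [if_neg (by omega), if_neg (by omega), if_pos (by omega)]
        omega
      rw [← h5, hU]
      exact single_le_sum (fun s _ => h0 s) (mem_Ico.2 ⟨by omega, by omega⟩)
    unfold lv
    rcases (show j = 1 ∨ j = 2 ∨ j = 3 ∨ j = 4 ∨ j = 5 ∨ j = 6 by omega) with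
      rfl | rfl | rfl | rfl | rfl | rfl
    · rw [hn (by split_ifs <;> omega), if_pos rfl]; linarith
    · rw [hn (by split_ifs <;> omega), if_neg (by omega), if_pos rfl]
      by_cases hb3 : 3 ≤ b
      · rw [if_neg (by omega)] at c1
        rw [if_pos hb3, c1 (by omega)]; linarith
      · rw [if_neg hb3]; linarith
    · rw [if_neg (by omega), if_neg (by omega), if_pos (by omega),
        c1 (by split_ifs <;> omega)]
      by_cases h3 : a = 3
      · rw [if_pos h3]; linarith
      · rw [if_neg h3]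
        rw [if_neg h3] at hn
        rw [hn (by omega)]; linarith
    · rw [if_neg (by omega), if_neg (by omega), if_pos (by omega),
        c1 (by split_ifs <;> omega)]
      by_cases h3 : a = 3
      · rw [if_pos h3]; linarith
      · rw [if_neg h3]
        have := hU4 rfl (by omega)
        linarith
    · rw [if_neg (by omega), if_neg (by omega), if_neg (by omega), if_pos rfl,
        c1 (by split_ifs <;> omega), hUa (by omega)]
      push_cast [show 3 ≤ a by omega]
      linarith
    · rw [if_neg (by omega), if_neg (by omega), if_neg (by omega), if_neg (by omega),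
        c1 (by split_ifs <;> omega), c2 (by omega), hUa (by omega)]
      linarith

theorem w01_three (j : ℕ) (κ : Lex (ℕ → ℤ)) (hκ : ofLex κ 0 = 0)
    (hj : ClsK j κ) : -(if 2 ≤ j then 1 else 0) ≤ D 2 (w01 1 2) 0 κ := by
  classical
  rw [w01_D 1 2 (by omega) (by omega) κ hκ]
  obtain ⟨hj1, hj6, hjc⟩ := hj
  rw [Ico_self, sum_empty]
  by_cases h : 2 ≤ j
  · rw [if_pos h]
    split_ifs <;> norm_num
  · rw [if_neg h]
    have h1 : ¬ key 2 (w01 1 2) 0 ≤ κ := by
      refine (hjc 2 _ ?_).2 (by omega)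
      exact w01_cls 1 2 0 (by omega) (by omega)
    rw [if_neg h1]
    norm_num

theorem w00_key (s : ℕ) : Cls 4 (key 2 [0, 0] s) := by
  have hl : ∀ t, lt [0, 0] t = 0 := by
    intro t
    unfold lt
    have h : t % [0, 0].length < 2 := Nat.mod_lt _ (by simp)
    rcases (show t % [0, 0].length = 0 ∨ t % [0, 0].length = 1 by omega) with h | h <;> rw [h] <;> rfl
  obtain ⟨h0, h1, h2, h3⟩ := key_four [0, 0] (fun t => by rw [hl]; omega) s
  unfold Cls
  rw [h0, h1, h2, h3, hl, hl, hl, hl]
  simp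

theorem w00_ge (j : ℕ) (κ : Lex (ℕ → ℤ)) (hj : ClsK j κ) :
    (if 5 ≤ j then 2 else 0) ≤ D 2 [0, 0] 0 κ := by
  classical
  obtain ⟨hj1, hj6, hjc⟩ := hj
  rw [D_eq]
  have hl : ∀ t, lt [0, 0] t = 0 := by
    intro t
    unfold lt
    have h : t % [0, 0].length < 2 := Nat.mod_lt _ (by simp)
    rcases (show t % [0, 0].length = 0 ∨ t % [0, 0].length = 1 by omega) with h | h <;> rw [h] <;> rfl
  have h2 : ([0, 0] : List ℕ).length = 2 := rfl
  rw [h2, sum_range_succ, sum_range_one, hl, hl, cc_self]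
  by_cases h : 5 ≤ j
  · rw [if_pos h, if_pos ((hjc 4 _ (w00_key _)).1 (by omega)),
      if_pos ((hjc 4 _ (w00_key _)).1 (by omega))]
    norm_num
  · rw [if_neg h]
    split_ifs <;> norm_num

theorem w00_ge' (ρ : ℕ) (hρ : 1 ≤ ρ) (κ : Lex (ℕ → ℤ)) (hκ : ofLex κ 0 = (ρ : ℤ)) :
    2 ≤ D 2 [0, 0] 0 κ := by
  refine le_trans ?_ (D_ge 2 [0, 0] 0 ρ κ hκ)
  have e : hd [0, 0] = 0 := rfl
  rw [e]
  simp only [List.cons_append, List.nil_append, adjS, gg]
  rw [if_pos (by omega), cc_self]
  norm_num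

end Pool.Agent.RST
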