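import Pool.Agent.RST.Cmb
import Pool.Agent.RST.Flat

/-!
# RST/FlatC: two equal columns and placed mountains to the right of them
-/

set_option autoImplicit false

namespace Pool.Agent.RST

open Finset

/-- the mountain shifted by two columns to the left -/
def flatCsh (q : Mt) : Mt := ⟨q.l - 2, q.h - 2, fun j => q.f (j + 2)⟩

private theorem flatC_ok {q : Mt} {y : ℕ} (h : MtOK q.l q.h q.f) (hl : 2 ≤ q.l) (hy : q.h ≤ y) :
    MtOK (flatCsh q).l (flatCsh q).h (flatCsh q).f ∧ (flatCsh q).h ≤ y - 2 := by
  have h1 := h.lt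
  refine ⟨⟨?_, ?_, ?_, ?_, ?_⟩, ?_⟩
  · show q.l - 2 < q.h - 2
    omega
  · show 1 ≤ q.f (q.l - 2 + 2)
    rw [Nat.sub_add_cancel hl]
    exact h.bot
  · show 1 ≤ q.f (q.h - 2 + 2)
    rw [show q.h - 2 + 2 = q.h by omega]
    exact h.top
  · intro k hk1 hk2
    have hk1' : q.l - 2 < k := hk1
    have hk2' : k < q.h - 2 := hk2
    exact h.mid (k + 2) (by omega) (by omega)
  · intro k hk
    have hk' : k < q.l - 2 ∨ q.h - 2 < k := hk
    exact h.out (k + 2) (by omega)
  · show q.h - 2 ≤ y - 2
    omega

private theorem flatC_eb {l h : ℕ} (f : ℕ → ℕ) (hl : 2 ≤ l) (hlt : l < h) (m ρ : ℕ) :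
    eb (l - 2) (h - 2) (fun j => f (j + 2)) m ρ = eb l h f (m + 2) (ρ + 2) := by
  obtain ⟨l', rfl⟩ := Nat.exists_eq_add_of_le' hl
  obtain ⟨h', rfl⟩ := Nat.exists_eq_add_of_le' (show 2 ≤ h by omega)
  unfold eb
  simp only [Nat.add_sub_cancel, Nat.add_right_cancel_iff]
  have e2 : (m + 2 = l' + 1) ↔ (m + 1 = l') := by omega
  have e3 : (m + 2 = h' + 1) ↔ (m + 1 = h') := by omega
  have e4 : (l' + 2 < m + 2 + 1) ↔ (l' < m + 1) := by omega
  have e5 : (m + 2 + 1 < h' + 2) ↔ (m + 1 < h') := by omega
  have e6 : m + 1 + 2 = m + 2 + 1 := by omega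
  simp only [e2, e3, e4, e5, e6]

private theorem flatC_ebP {P : List Mt} {y : ℕ} (hP : POK y P) (hl : ∀ q ∈ P, 2 ≤ q.l) (m ρ : ℕ) :
    ebP (P.map flatCsh) m ρ = ebP P (m + 2) (ρ + 2) := by
  induction P with
  | nil => rfl
  | cons q P ih =>
    rw [List.map_cons, ebP_cons, ebP_cons, ih (fun r hr => hP r (by simp [hr]))
      (fun r hr => hl r (by simp [hr]))]
    have h1 := flatC_eb q.f (hl q (by simp)) (hP q (by simp)).1.lt m ρ
    show eb (q.l - 2) (q.h - 2) (fun j => q.f (j + 2)) m ρ + _ = _
    rw [h1]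

private theorem flatC_cntP (P : List Mt) (j : ℕ) :
    cntP (P.map flatCsh) j = cntP P (j + 2) := by
  unfold cntP
  rw [List.map_map]
  rfl

private theorem flatC_len {P : List Mt} {y : ℕ} (hy : 2 ≤ y) (hP : POK y P)
    (hl : ∀ q ∈ P, 2 ≤ q.l) : lnP (P.map flatCsh) = lnP P := by
  induction P with
  | nil => rfl
  | cons q P ih =>
    rw [List.map_cons, lnP_cons, lnP_cons, ih (fun r hr => hP r (by simp [hr]))
      (fun r hr => hl r (by simp [hr]))]
    have h1 := hP q (by simp)
    have h2 := hl q (by simp)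
    have h3 := flatC_ok h1.1 h2 h1.2
    rw [h3.1.length (y - 2) h3.2, h1.1.length y h1.2]
    congr 1
    obtain ⟨n, rfl⟩ := Nat.exists_eq_add_of_le' hy
    have e1 : ∑ k ∈ range (n + 2 + 1), q.f k = ∑ k ∈ range (n + 1), q.f (k + 2) := by
      rw [show n + 2 + 1 = n + 1 + 1 + 1 by omega, Finset.sum_range_succ', Finset.sum_range_succ',
        h1.1.out 0 (Or.inl (by omega)), h1.1.out (0 + 1) (Or.inl (by omega))]
      rfl
    rw [e1, Nat.add_sub_cancel]
    rfl

private theorem flatC_ex {y : ℕ} {x : ℕ → ℕ} (hy : 1 ≤ y) (hz : ∀ j, 1 < j → j ≤ y → x j = 0) :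
    Ex y x = x 1 := by
  unfold Ex
  rw [Finset.sum_eq_single 1]
  · intro j hj hj1
    rw [Finset.mem_Icc] at hj
    exact hz j (by omega) hj.2
  · intro h
    exact absurd (Finset.mem_Icc.2 ⟨le_rfl, hy⟩) h

private theorem flatC_list (n : ℕ) (C : ℕ → ℕ) :
    (List.range (n + 2)).map C ++ List.replicate (C (n + 2)) 1 =
      [C 0, C 1] ++ ((List.range n).map (fun j => C (j + 2)) ++ List.replicate (C (n + 2)) 1) := by
  rw [show n + 2 = n + 1 + 1 by omega, List.range_succ_eq_map, List.range_succ_eq_map]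
  simp only [List.map_cons, List.map_map, List.cons_append, List.nil_append]
  rfl

/-- The columns 0, 1 are equal and untouched by the placed mountains: direct sum of `real_flat` (for
the columns 0, 1 and the cycles `S`, `2` if `τ = 1`) and the placed mountains shifted by 2. -/
theorem st_flat {y τ : ℕ} {C : ℕ → ℕ} {al : Finset ℕ} {P : List Mt} {S : Finset ℕ} {x : ℕ → ℕ}
    {p g : ℕ} (st : St y τ C al P S x 1 p g) (h3 : 3 ∈ S) (hr : 2 ≤ S.card) (hC : C 0 = C 1)
    (hx : x 1 = C 1) (hne : τ = 0 → S ≠ {5, 3}) : Goal y C al := by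
  have hy := st.shp.hy
  have hcnt : cntP P 1 = 0 := by
    have := st.cnt 1 le_rfl (by omega)
    omega
  have hl : ∀ q ∈ P, 2 ≤ q.l := by
    intro q hq
    have h1 := st.bot q hq
    have h2 : q.f 1 = 0 := by
      unfold cntP at hcnt
      rw [List.sum_eq_zero_iff] at hcnt
      exact hcnt _ (List.mem_map.2 ⟨q, hq, rfl⟩)
    by_contra hcon
    have h3 : q.l = 1 := by omega
    have h4 := (st.pok q hq).1.bot
    rw [h3, h2] at h4
    omega
  have hPOK : POK (y - 2) (P.map flatCsh) := by
    intro q' hq'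
    obtain ⟨q, hq, rfl⟩ := List.mem_map.1 hq'
    exact flatC_ok (st.pok q hq).1 (hl q hq) (st.pok q hq).2
  have hlen := flatC_len hy st.pok hl
  have hpre := (pre_P hPOK).mono (x' := fun j => C (j + 2)) (b' := ebP (P.map flatCsh))
    (by
      intro j hj
      rw [flatC_cntP]
      have h1 := st.cnt (j + 2) (by omega) (by omega)
      have h2 := st.xz (j + 2) (by omega) (by omega)
      show cntP P (j + 2) = C (j + 2)
      omega) (fun _ _ _ _ => le_refl _)
  have hnd : ((wdP (P.map flatCsh)).map List.length).Nodup := by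
    have h1 : lnP (P.map flatCsh) ≤ al.val := by
      rw [hlen, ← st.len, add_assoc]
      exact Multiset.le_add_right _ _
    have h2 := Multiset.nodup_of_le h1 al.nodup
    exact Multiset.coe_nodup.1 h2
  have hreal := real_of_pre (y - 2) (wdP (P.map flatCsh)) (fun j => C (j + 2)) _ hpre
    (pairwise_of_nodup hnd) (by
    intro m ρ hm hρ
    rw [flatC_ebP st.pok hl]
    have hanti : C (m + 2 + 1) ≤ C (m + 2) := st.shp.anti (m + 2) (m + 2 + 1) (by omega) (by omega)
    have hanti' : (C (m + 2 + 1) : ℤ) ≤ C (m + 2) := by exact_mod_cast hanti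
    have e6 : m + 1 + 2 = m + 2 + 1 := by omega
    show 0 ≤ (if m < ρ then ((C (m + 2) : ℕ) : ℤ) - (C (m + 1 + 2) : ℕ) else 0) + _
    rw [e6]
    rcases lt_trichotomy ρ m with hc | hc | hc
    · rw [if_neg (by omega), ebP_zero (by omega) (by omega)]
      norm_num
    · subst hc
      rw [if_neg (by omega)]
      have := st.b0 (ρ + 2) (by omega)
      rw [if_neg (by omega)] at this
      linarith
    · rw [if_pos hc]
      by_cases hc1 : ρ = m + 1
      · subst hc1
        have := st.bhi (m + 2) (by omega) (by omega)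
        rw [e6]
        linarith
      · rw [ebP_zero (by omega) (by omega)]
        linarith) (by
    rcases Nat.eq_zero_or_pos (y - 2) with h0 | h0
    · exact Or.inl h0
    · right
      have e2 : y - 2 + 2 = y := by omega
      show C (y - 2 + 2) = 0 ∨ _
      rw [e2]
      rcases Nat.eq_zero_or_pos (C y) with h1 | h1
      · exact Or.inl h1
      · right
        apply TA_of
        · intro w hw
          obtain ⟨q', hq', rfl⟩ := List.mem_map.1 hw
          exact TO_mt (hPOK q' hq').1 (hPOK q' hq').2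
        · obtain ⟨q, hq, hq1, hq2⟩ := st.cr (by omega) h1
          have hq' : flatCsh q ∈ P.map flatCsh := List.mem_map.2 ⟨q, hq, rfl⟩
          have h5 := hl q hq
          refine ⟨mt (flatCsh q).l (flatCsh q).h (flatCsh q).f, List.mem_map.2 ⟨_, hq', rfl⟩,
            CR_mt (hPOK _ hq').1 (hPOK _ hq').2 ?_ ?_⟩
          · show q.l - 2 + 1 < y - 2
            omega
          · show y - 2 ≤ q.h - 2 + 1
            omega)
  have hreal' : Real (lnP P) ((List.range (y - 2)).map (fun j => C (j + 2)) ++
      List.replicate (C (y - 2 + 2)) 1) := by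
    rw [← hlen]
    exact hreal
  have hex := flatC_ex (y := y) (x := x) (by omega) st.xz
  have htot := st.tot
  rw [hex] at htot
  have hc0 := st.c0
  have h2S : 2 ∉ S := by
    intro h
    have := st.S3 2 h
    omega
  have hfin : ∀ S' : Finset ℕ, Real S'.val [C 0, C 0] → lnP P + S'.val = al.val →
      Goal y C al := by
    intro S' hS' hval
    have h1 := real_add _ _ _ _ hS' hreal'
    unfold Goal
    rw [← hval, add_comm]
    obtain ⟨n, rfl⟩ := Nat.exists_eq_add_of_le' hy
    rw [flatC_list, ← hC]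
    rw [Nat.add_sub_cancel] at h1
    exact h1
  rcases st.tau with ht | ⟨ht, -⟩
  · subst ht
    apply hfin S
    · apply real_flat S (C 0)
      · intro a ha
        have := st.S3 a ha
        omega
      · exact h3
      · rw [Finset.erase_eq_of_notMem h2S]
        exact hr
      · omega
      · exact hne rfl
    · have := st.len
      simpa using this
  · subst ht
    apply hfin (insert 2 S)
    · apply real_flat (insert 2 S) (C 0)
      · intro a ha
        rw [Finset.mem_insert] at ha
        rcases ha with rfl | ha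
        · exact le_rfl
        · have := st.S3 a ha
          omega
      · exact Finset.mem_insert_of_mem h3
      · rw [Finset.erase_insert h2S]
        exact hr
      · rw [Finset.sum_insert h2S]
        omega
      · intro h
        have h6 : 2 ∈ insert 2 S := Finset.mem_insert_self _ _
        rw [h] at h6
        simp at h6
    · have := st.len
      rw [Finset.insert_val_of_notMem h2S, ← this, Multiset.replicate_one]
      rw [← Multiset.singleton_add, add_comm {2} S.val, add_assoc]

end Pool.Agent.RST
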