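import Pool.Agent.RST.FlatB
import Pool.Agent.RST.Spor
import Pool.Agent.RST.Arith

/-!
# RST/FlatG: two equal columns
-/

set_option autoImplicit false

namespace Pool.Agent.RST

open Finset

theorem w01_reg (a b ρ : ℕ) (ha : 1 ≤ a) (hb : 2 ≤ b) (hρ : 1 ≤ ρ) (κ : Lex (ℕ → ℤ))
    (hκ : ofLex κ 0 = (ρ : ℤ)) : (a : ℤ) - b ≤ D 2 (w01 a b) 0 κ := by
  have hx : MtOK 0 1 (fun k => if k = 0 then a else if k = 1 then b else 0) := by
    refine ⟨by omega, ?_, ?_, ?_, ?_⟩
    · simpa using ha
    · simp; omega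
    · intro k h1 h2; omega
    · intro k hk
      rw [if_neg (by omega), if_neg (by omega)]
  have h := hx.D_ge 2 0 ρ (by omega) κ hκ
  have e : mt 0 1 (fun k => if k = 0 then a else if k = 1 then b else 0) = w01 a b := rfl
  rw [e] at h
  refine le_trans ?_ h
  unfold mb
  rw [if_neg (by omega), if_neg (by omega)]
  simp only [zero_add, if_true, one_ne_zero, if_false, lt_irrefl]
  split_ifs <;> omega

theorem w01_ok (a b : ℕ) (ha : 1 ≤ a) (hb : 1 ≤ b) : OkW 2 (w01 a b) := by
  apply okW_run 2 (by omega)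
  · intro h
    have := congrArg List.length h
    simp at this
    omega
  · intro h
    rw [List.mem_replicate] at h
    omega

theorem w01_count (a b : ℕ) : (w01 a b).count 0 = a ∧ (w01 a b).count 1 = b ∧
    (w01 a b).count 2 = 0 := by
  unfold w01
  refine ⟨?_, ?_, ?_⟩ <;> simp [List.count_append, List.count_replicate]

/-- the system of FLAT -/
noncomputable def flW (T : Finset ℕ) (f : ℕ → ℕ) : List (List ℕ) :=
  w01 1 2 :: T.toList.map fun s => w01 (f s) (s - f s)

theorem flW_sum (T : Finset ℕ) (f : ℕ → ℕ) (F : List ℕ → ℤ) :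
    ((flW T f).map F).sum = F (w01 1 2) + ∑ s ∈ T, F (w01 (f s) (s - f s)) := by
  unfold flW
  rw [List.map_cons, List.sum_cons, List.map_map]
  congr 1
  exact Finset.sum_map_toList T fun s => F (w01 (f s) (s - f s))

theorem flW_sumN (T : Finset ℕ) (f : ℕ → ℕ) (F : List ℕ → ℕ) :
    ((flW T f).map F).sum = F (w01 1 2) + ∑ s ∈ T, F (w01 (f s) (s - f s)) := by
  unfold flW
  rw [List.map_cons, List.sum_cons, List.map_map]
  congr 1
  exact Finset.sum_map_toList T fun s => F (w01 (f s) (s - f s))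

theorem flW_len (T : Finset ℕ) (f : ℕ → ℕ) (hf : ∀ s ∈ T, f s ≤ s) :
    (flW T f).map List.length = 3 :: T.toList := by
  unfold flW
  rw [List.map_cons, List.map_map]
  congr 1
  conv_rhs => rw [← List.map_id T.toList]
  apply List.map_congr_left
  intro s hs
  have := hf s (Finset.mem_toList.1 hs)
  simp only [Function.comp_apply, w01_len, id]
  omega

/-- the lower bound for the regions `≥ 1` -/
theorem flW_reg (T : Finset ℕ) (f : ℕ → ℕ) (hf : ∀ s ∈ T, 2 ≤ f s ∧ f s + 2 ≤ s) (ρ : ℕ)
    (hρ : 1 ≤ ρ) (κ : Lex (ℕ → ℤ)) (hκ : ofLex κ 0 = (ρ : ℤ)) :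
    -1 + ∑ s ∈ T, (2 * (f s : ℤ) - s) ≤ ((flW T f).map fun w => D 2 w 0 κ).sum := by
  rw [flW_sum]
  have h1 := w01_reg 1 2 ρ (by omega) (by omega) hρ κ hκ
  have h2 : ∑ s ∈ T, (2 * (f s : ℤ) - s) ≤ ∑ s ∈ T, D 2 (w01 (f s) (s - f s)) 0 κ := by
    apply sum_le_sum
    intro s hs
    obtain ⟨h3, h4⟩ := hf s hs
    have h5 := w01_reg (f s) (s - f s) ρ (by omega) (by omega) hρ κ hκ
    have h6 : ((s - f s : ℕ) : ℤ) = s - f s := by omega
    rw [h6] at h5
    linarith
  push_cast at h1
  linarith

/-- the lower bound for the region 0 -/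
theorem flW_zero (T : Finset ℕ) (f : ℕ → ℕ) (hf : ∀ s ∈ T, 2 ≤ f s ∧ f s + 2 ≤ s)
    (s0 s1 : ℕ) (hs0 : s0 ∈ T) (hs1 : s1 ∈ T) (hf0 : 4 ≤ f s0) (hf1 : f s1 + 3 ≤ s1) (j : ℕ)
    (κ : Lex (ℕ → ℤ)) (hκ : ofLex κ 0 = 0) (hj : ClsK j κ) :
    (if j = 6 then -1 + ∑ s ∈ T, ((f s : ℤ) - 2) else 0) ≤
      ((flW T f).map fun w => D 2 w 0 κ).sum := by
  rw [flW_sum]
  have h1 := w01_three j κ hκ hj
  have h2 : ∑ s ∈ T, lv j (f s) (s - f s) ≤ ∑ s ∈ T, D 2 (w01 (f s) (s - f s)) 0 κ := by
    apply sum_le_sum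
    intro s hs
    obtain ⟨h3, h4⟩ := hf s hs
    exact w01_ge (f s) (s - f s) j (by omega) (by omega) κ hκ hj
  have h3 : (if j = 6 then -1 + ∑ s ∈ T, ((f s : ℤ) - 2) else 0) ≤
      -(if 2 ≤ j then 1 else 0) + ∑ s ∈ T, lv j (f s) (s - f s) := by
    obtain ⟨hj1, hj6, -⟩ := hj
    have hnn : j ≤ 5 → ∀ s ∈ T, 0 ≤ lv j (f s) (s - f s) := by
      intro h5 s hs
      unfold lv
      split_ifs <;> omega
    rcases (show j = 1 ∨ j = 2 ∨ (j = 3 ∨ j = 4) ∨ j = 5 ∨ j = 6 by omega) with
      h | h | h | h | h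
    · rw [if_neg (by omega), if_neg (by omega)]
      have := sum_nonneg (hnn (by omega))
      linarith
    · rw [if_neg (by omega), if_pos (by omega)]
      have h5 := single_le_sum (hnn (by omega)) hs1
      have h6 : lv j (f s1) (s1 - f s1) = 1 := by
        unfold lv
        rw [if_neg (by omega), if_pos h, if_pos (by omega)]
      linarith
    · rw [if_neg (by omega), if_pos (by omega)]
      have h5 := single_le_sum (hnn (by omega)) hs0
      have h6 : lv j (f s0) (s0 - f s0) = 1 := by
        unfold lv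
        rw [if_neg (by omega), if_neg (by omega), if_pos h, if_neg (by omega)]
      linarith
    · rw [if_neg (by omega), if_pos (by omega)]
      have h5 := single_le_sum (hnn (by omega)) hs0
      have h6 : 1 ≤ lv j (f s0) (s0 - f s0) := by
        unfold lv
        rw [if_neg (by omega), if_neg (by omega), if_neg (by omega), if_pos h]
        omega
      linarith
    · rw [if_pos h, if_pos (by omega)]
      have h6 : ∀ s ∈ T, lv j (f s) (s - f s) = (f s : ℤ) - 2 := by
        intro s _
        unfold lv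
        rw [if_neg (by omega), if_neg (by omega), if_neg (by omega), if_neg (by omega)]
      rw [sum_congr rfl h6]
  linarith

/-- **FLAT with given cuts.** -/
theorem flat_gen (τ : Prop) [Decidable τ] (T : Finset ℕ) (f : ℕ → ℕ) (c : ℕ)
    (hT : ∀ s ∈ T, 4 ≤ s)
    (hf : ∀ s ∈ T, 2 ≤ f s ∧ f s + 2 ≤ s)
    (s0 s1 : ℕ) (hs0 : s0 ∈ T) (hs1 : s1 ∈ T) (hf0 : 4 ≤ f s0) (hf1 : f s1 + 3 ≤ s1)
    (hc0 : ∑ s ∈ T, f s + 1 + (if τ then 2 else 0) = c) (hc1 : ∑ s ∈ T, (s - f s) + 2 = c) :
    Real ((((if τ then [2] else []) ++ 3 :: T.toList : List ℕ)) : Multiset ℕ) [c, c] := by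
  set P : List (List ℕ) := if τ then [[0, 0]] else [] with hP
  have hW : ∀ w ∈ P ++ flW T f, (w = [0, 0] ∧ τ) ∨ ∃ a b, 1 ≤ a ∧ 1 ≤ b ∧ w = w01 a b := by
    intro w hw
    rw [List.mem_append] at hw
    rcases hw with hw | hw
    · left
      rw [hP] at hw
      split_ifs at hw with h
      · exact ⟨by simpa using hw, h⟩
      · simp at hw
    · right
      unfold flW at hw
      rw [List.mem_cons, List.mem_map] at hw
      rcases hw with rfl | ⟨s, hs, rfl⟩
      · exact ⟨1, 2, by omega, by omega, rfl⟩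
      · obtain ⟨h3, h4⟩ := hf s (Finset.mem_toList.1 hs)
        exact ⟨f s, s - f s, by omega, by omega, rfl⟩
  have hlet : ∀ w ∈ P ++ flW T f, ∀ x ∈ w, x < 2 := by
    intro w hw x hx
    rcases hW w hw with ⟨rfl, _⟩ | ⟨a, b, _, _, rfl⟩
    · simp at hx
      omega
    · unfold w01 at hx
      rw [List.mem_append, List.mem_replicate, List.mem_replicate] at hx
      omega
  have hlen : (P ++ flW T f).map List.length = (if τ then [2] else []) ++ 3 :: T.toList := by
    rw [List.map_append, flW_len T f fun s hs => by have := hf s hs; omega]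
    congr 1
    rw [hP]
    split_ifs <;> rfl
  have hcnt : ∀ m, ((P ++ flW T f).map fun w => w.count m).sum =
      (if τ then [0, 0].count m else 0) + ((w01 1 2).count m +
        ∑ s ∈ T, (w01 (f s) (s - f s)).count m) := by
    intro m
    rw [List.map_append, List.sum_append, flW_sumN]
    congr 1
    rw [hP]
    split_ifs
    · simp
    · simp
  have hsumZ : (∑ s ∈ T, (f s : ℤ)) + 1 + (if τ then 2 else 0) = c := by
    rw [← hc0]; push_cast; rfl
  have hsumZ2 : ∑ s ∈ T, ((s : ℤ) - f s) + 2 = c := by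
    rw [← hc1]; push_cast
    congr 1
    apply sum_congr rfl
    intro s hs
    have := hf s hs
    omega
  have h := real_words 2 (P ++ flW T f) (fun w hw x hx => (hlet w hw x hx).le) ?_ ?_ ?_ ?_
  · rw [hlen, hcnt 2] at h
    have e2 : ∑ s ∈ T, (w01 (f s) (s - f s)).count 2 = 0 :=
      sum_eq_zero fun s _ => (w01_count _ _).2.2
    rw [e2, (w01_count 1 2).2.2] at h
    have e3 : (if τ then [0, 0].count 2 else 0) + (0 + 0) = 0 := by
      split_ifs <;> rfl
    rw [e3, List.replicate_zero, List.append_nil] at h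
    have e4 : (List.range 2).map (fun m => ((P ++ flW T f).map fun w => w.count m).sum) =
        [c, c] := by
      have e5 : List.range 2 = [0, 1] := rfl
      rw [e5]
      simp only [List.map_cons, List.map_nil]
      rw [hcnt 0, hcnt 1, (w01_count 1 2).1, (w01_count 1 2).2.1,
        sum_congr rfl fun s _ => (w01_count (f s) (s - f s)).1,
        sum_congr rfl fun s _ => (w01_count (f s) (s - f s)).2.1]
      have e6 : (if τ then [0, 0].count 0 else 0) + (1 + ∑ s ∈ T, f s) = c := by
        rw [← hc0]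
        have : [0, 0].count 0 = 2 := rfl
        rw [this]
        ring
      have e7 : (if τ then [0, 0].count 1 else 0) + (2 + ∑ s ∈ T, (s - f s)) = c := by
        rw [← hc1]
        have : [0, 0].count 1 = 0 := rfl
        rw [this]
        split_ifs <;> ring
      rw [e6, e7]
    rw [e4] at h
    exact h
  · intro w hw
    rcases hW w hw with ⟨rfl, _⟩ | ⟨a, b, h1, h2, rfl⟩
    · exact okW_mm (by omega)
    · exact w01_ok a b h1 h2
  · have h2 : ((P ++ flW T f).map List.length).Nodup := by
      rw [hlen]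
      have h3 : (3 :: T.toList).Nodup := by
        rw [List.nodup_cons]
        refine ⟨?_, Finset.nodup_toList T⟩
        intro h4
        have := hT 3 (Finset.mem_toList.1 h4)
        omega
      split_ifs
      · rw [List.singleton_append, List.nodup_cons]
        refine ⟨?_, h3⟩
        intro h4
        rw [List.mem_cons] at h4
        rcases h4 with h4 | h4
        · omega
        · have := hT 2 (Finset.mem_toList.1 h4)
          omega
      · exact h3
    rw [List.Nodup, List.pairwise_map] at h2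
    exact h2
  · intro m ρ κ hm hρ hκ
    have hm0 : m = 0 := by omega
    subst hm0
    rw [List.map_append, List.sum_append]
    rcases Nat.eq_zero_or_pos ρ with h0 | h0
    · subst h0
      have hκ' : ofLex κ 0 = 0 := by rw [hκ]; rfl
      obtain ⟨j, hj⟩ := exists_cls κ hκ'
      have h1 := flW_zero T f hf s0 s1 hs0 hs1 hf0 hf1 j κ hκ' hj
      have h2 : (if τ then (if 5 ≤ j then 2 else 0) else 0) ≤ (P.map fun w => D 2 w 0 κ).sum := by
        rw [hP]
        by_cases hτ : τ
        · rw [if_pos hτ, if_pos hτ]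
          have := w00_ge j κ hj
          simpa using this
        · rw [if_neg hτ, if_neg hτ]
          simp
      by_cases h6 : j = 6
      · rw [if_pos h6] at h1
        have h7 : ∑ s ∈ T, ((f s : ℤ) - 2) + ∑ s ∈ T, (-((s : ℤ) - f s) + 2) +
            ∑ s ∈ T, ((s : ℤ) - f s) - ∑ s ∈ T, (f s : ℤ) = 0 := by
          rw [← sum_add_distrib, ← sum_add_distrib, ← sum_sub_distrib]
          apply sum_eq_zero
          intro s _
          ring
        have h8 : ∑ s ∈ T, (-((s : ℤ) - f s) + 2) ≤ 0 := by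
          apply sum_nonpos
          intro s hs
          have := hf s hs
          omega
        split_ifs at h2 hsumZ with hτ <;> linarith
      · rw [if_neg h6] at h1
        split_ifs at h2 <;> linarith
    · have h1 := flW_reg T f hf ρ h0 κ hκ
      have h2 : (if τ then 2 else 0) ≤ (P.map fun w => D 2 w 0 κ).sum := by
        rw [hP]
        by_cases hτ : τ
        · rw [if_pos hτ, if_pos hτ]
          have := w00_ge' ρ h0 κ hκ
          simpa using this
        · rw [if_neg hτ, if_neg hτ]
          simp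
      have h7 : ∑ s ∈ T, (2 * (f s : ℤ) - s) + ∑ s ∈ T, ((s : ℤ) - f s) -
          ∑ s ∈ T, (f s : ℤ) = 0 := by
        rw [← sum_add_distrib, ← sum_sub_distrib]
        apply sum_eq_zero
        intro s _
        ring
      split_ifs at h2 hsumZ with hτ <;> linarith
  · right
    intro w hw t ht hpv
    exfalso
    have h3 : pv w t ∈ w := by
      unfold pv lt
      rw [List.getD_eq_getElem _ _ (Nat.mod_lt _ (by omega))]
      exact List.getElem_mem _
    rw [hpv] at h3
    exact absurd (hlet w hw 2 h3) (lt_irrefl _)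

end Pool.Agent.RST
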