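import Pool.Agent.RST.StarA

/-!
# RST/Star: the star
-/

set_option autoImplicit false

namespace Pool.Agent.RST

open Finset

theorem rwd_lt_at (b : ℕ) (R : List ℕ) (e : ℕ) (k : ℕ) (hk : k < R.length + 1) :
    lt (rwd b R e) (b + k) = (R ++ [e]).getD k 0 := by
  unfold lt
  rw [Nat.mod_eq_of_lt (by rw [rwd_length]; omega)]
  unfold rwd
  have h1 := getD_at (List.replicate b 0) (R ++ [e]) k
  rw [List.length_replicate] at h1
  exact h1

theorem pv_succ (w : List ℕ) (t : ℕ) (ht : 1 ≤ t) (ht2 : t < w.length) :
    pv w t = lt w (t - 1) := by
  unfold pv
  rw [show t + (w.length - 1) = (t - 1) + w.length by omega, lt_add_length]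

theorem rwd_pv_zero (b : ℕ) (R : List ℕ) (e : ℕ) : pv (rwd b R e) 0 = e := by
  unfold pv
  rw [rwd_length, show 0 + (b + R.length + 1 - 1) = b + R.length by omega, rwd_lt_last]

theorem rwd_count (b : ℕ) (R : List ℕ) (e j : ℕ) :
    (rwd b R e).count j = (if j = 0 then b else 0) + R.count j + (if e = j then 1 else 0) := by
  unfold rwd
  rw [List.count_append, List.count_append, List.count_replicate]
  have h1 : List.count j [e] = if e = j then 1 else 0 := by
    by_cases h : e = j
    · subst h; simp
    · rw [if_neg h, List.count_eq_zero]
      simpa using fun h1 => h h1.symm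
  rw [h1]
  by_cases h : j = 0
  · subst h
    simp
    ring
  · have e1 : (0 == j) = false := by
      simp only [beq_eq_false_iff_ne, ne_eq]
      exact fun h1 => h h1.symm
    rw [e1, if_neg h]
    simp

theorem fin_star (y m : ℕ) (x : ℕ → ℕ) (S : Finset ℕ) (s0 : ℕ) (hm : 2 ≤ m) (hmy : m ≤ y)
    (hmid : ∀ j, 1 ≤ j → j < m → 2 ≤ x j) (hxm : 1 ≤ x m) (hz : ∀ j, m < j → j ≤ y → x j = 0)
    (hS : ∀ a ∈ S, 3 ≤ a) (hcard : 2 ≤ S.card) (hs0 : s0 ∈ S)
    (hsum : ∑ a ∈ S, a = ∑ j ∈ range (m + 1), x j)
    (hE : S.card ≤ ∑ j ∈ Icc 1 m, x j) (hb : ∑ j ∈ Icc 1 m, x j + 3 ≤ s0 + S.card)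
    (hmono : ∀ j, 1 ≤ j → j + 1 ≤ m → j + 1 < y → x (j + 1) ≤ x j) :
    Fin' y m x S.val S.card S.card := by
  classical
  obtain ⟨f, z, f0, f1, f2, z1, z2, f3, f4, f5⟩ := exists_first m x S.card hE
  have hx1 : ∀ j, 1 ≤ j → j ≤ m → 1 ≤ x j := by
    intro j h1 h2
    rcases Nat.lt_or_ge j m with h3 | h3
    · have := hmid j h1 h3
      omega
    · have : j = m := by omega
      subst this
      exact hxm
  -- the amounts of the absorber
  set r : List ℕ := (List.range' z (m + 1 - z)).map (fun a => x a - f a) with hr
  have hrlen : r.length = m + 1 - z := by rw [hr]; simp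
  have hxr : ∀ a, xr z r a = if z ≤ a ∧ a ≤ m then x a - f a else 0 := by
    intro a
    unfold xr
    by_cases h1 : z ≤ a
    · rw [if_pos h1, hr, getD_range']
      by_cases h2 : a ≤ m
      · rw [if_pos (by omega), if_pos ⟨h1, h2⟩, show z + (a - z) = a by omega]
      · rw [if_neg (by omega), if_neg (by omega)]
    · rw [if_neg h1, if_neg (by omega)]
  have hfx : ∀ a, 1 ≤ a → a ≤ m → f a + xr z r a = x a := by
    intro a h1 h2
    rw [hxr]
    rcases lt_trichotomy a z with h3 | h3 | h3
    · rw [if_neg (by omega), f3 a h1 h3]
      rfl
    · have := f4 (by omega)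
      rw [← h3] at this
      rw [if_pos (by omega)]
      omega
    · rw [if_pos (by omega), f5 a h3]
      omega
  have hrpos : ∀ a ∈ r, 1 ≤ a := by
    intro a ha
    rw [hr, List.mem_map] at ha
    obtain ⟨k, hk, rfl⟩ := ha
    rw [List.mem_range'_1] at hk
    rcases Nat.eq_or_lt_of_le hk.1 with h3 | h3
    · have := f4 (by omega)
      rw [h3] at this
      omega
    · rw [f5 k h3]
      have := hx1 k (by omega) (by omega)
      omega
  set R := dec z r with hRdef
  have hRle : ∀ a ∈ R, a ≤ m := by
    intro a ha
    have h1 := dec_le z r a ha
    have h2 := dec_ge z r a ha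
    omega
  have hR1 : ∀ a ∈ R, 1 ≤ a := fun a ha => z1.trans (dec_ge z r a ha)
  have hsumIcc : ∀ g : ℕ → ℕ, ∑ a ∈ range (m + 1), g a = g 0 + ∑ a ∈ Icc 1 m, g a := by
    intro g
    rw [← sum_filter_add_sum_filter_not (range (m + 1)) (fun a => a = 0)]
    have e1 : (range (m + 1)).filter (fun a => a = 0) = {0} := by
      ext a
      rw [mem_filter, mem_range, mem_singleton]
      omega
    have e2 : (range (m + 1)).filter (fun a => ¬ a = 0) = Icc 1 m := by
      ext a
      rw [mem_filter, mem_range, mem_Icc]
      omega
    rw [e1, e2, sum_singleton]
  -- the length of `R`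
  have hRlen : S.card + R.length = ∑ j ∈ Icc 1 m, x j := by
    rw [length_eq_count R m hRle, ← f2, ← sum_add_distrib,
      hsumIcc (fun a => f a + R.count a)]
    have h1 : f 0 + R.count 0 = 0 := by
      rw [f0, hRdef, count_dec, xr_lt z r 0 (by omega)]
    rw [h1, zero_add]
    apply sum_congr rfl
    intro a ha
    rw [mem_Icc] at ha
    rw [hRdef, count_dec]
    exact hfx a ha.1 ha.2
  -- the levels
  set lev : ℕ → ℕ := fun s => if s = s0 then s0 - R.length - 1 else s - 1 with hlev
  set RR : ℕ → List ℕ := fun s => if s = s0 then R else [] with hRR
  have hlen : ∀ s ∈ S, lev s + (RR s).length + 1 = s := by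
    intro s hs
    rw [hlev, hRR]
    simp only
    have := hS s hs
    split_ifs with h
    · subst h
      omega
    · simp
      omega
  have hlev2 : ∀ s ∈ S, 2 ≤ lev s := by
    intro s hs
    rw [hlev]
    simp only
    have := hS s hs
    split_ifs with h
    · omega
    · omega
  have hRR1 : ∀ s, ∀ a ∈ RR s, 1 ≤ a := by
    intro s a ha
    rw [hRR] at ha
    simp only at ha
    split_ifs at ha
    · exact hR1 a ha
    · simp at ha
  have hinj : ∀ s ∈ S, ∀ s' ∈ S, s ≠ s0 → s' ≠ s0 → lev s = lev s' → s = s' := by
    intro s hs s' hs' h1 h2 h3
    rw [hlev] at h3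
    simp only [if_neg h1, if_neg h2] at h3
    have := hS s hs
    have := hS s' hs'
    omega
  -- the exits
  set B := S.sup id with hB
  have hBle : ∀ s ∈ S, lev s ≤ B := by
    intro s hs
    have h1 : s ≤ B := by
      rw [hB]
      exact le_sup (f := id) hs
    have := hlen s hs
    omega
  obtain ⟨ex, ex1, ex2, ex3⟩ := exists_ex (fun s => lz B (lev s)) f (m + 1) S f2
  have ex4 : ∀ a, (S.filter fun s => ex s = a).card = f a := by
    intro a
    rcases Nat.lt_or_ge a (m + 1) with h1 | h1
    · exact ex3 a h1
    · rw [f1 a (by omega), card_eq_zero, filter_eq_empty_iff]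
      intro s hs h2
      have := ex1 s hs
      omega
  have hexf : ∀ s ∈ S, 1 ≤ f (ex s) := by
    intro s hs
    rw [← ex4, Nat.one_le_iff_ne_zero, Ne, card_eq_zero, ← Ne, ← nonempty_iff_ne_empty]
    exact ⟨s, mem_filter.2 ⟨hs, rfl⟩⟩
  have hex1 : ∀ s ∈ S, 1 ≤ ex s := by
    intro s hs
    by_contra hcon
    have h1 : ex s = 0 := by omega
    have h2 := hexf s hs
    rw [h1, f0] at h2
    omega
  have hexz : ∀ s ∈ S, ex s ≤ z := by
    intro s hs
    by_contra hcon
    have h2 := hexf s hs
    rw [f5 (ex s) (by omega)] at h2
    omega
  have hexm : ∀ s ∈ S, ex s ≤ m := fun s hs => by have := ex1 s hs; omega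
  have hexlev : ∀ s ∈ S, ∀ s' ∈ S, ex s < ex s' → levlt (lev s) (lev s') ∨ lev s = lev s' := by
    intro s hs s' hs' h
    exact lz_le B _ _ (hBle s hs) (hBle s' hs') (ex2 s hs s' hs' h)
  -- the words
  set wd : ℕ → List ℕ := fun s => rwd (lev s) (RR s) (ex s) with hwd
  have hwlen : ∀ s ∈ S, (wd s).length = s := by
    intro s hs
    rw [hwd]
    simp only
    rw [rwd_length]
    exact hlen s hs
  have hwle : ∀ s ∈ S, ∀ a ∈ wd s, a ≤ m := by
    intro s hs a ha
    rw [hwd] at ha
    simp only [rwd, List.mem_append, List.mem_replicate, List.mem_singleton] at ha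
    rcases ha with ha | ha | ha
    · omega
    · rw [hRR] at ha
      simp only at ha
      split_ifs at ha
      · exact hRle a ha
      · simp at ha
    · rw [ha]
      exact hexm s hs
  have hy0 : 0 < y := by omega
  have hkey : ∀ s ∈ S, ∀ s' ∈ S, levlt (lev s) (lev s') → key y (wd s) 0 < key y (wd s') 0 := by
    intro s hs s' hs' h
    apply key_lev y (wd s) (wd s') 0 0 (lev s) (lev s') hy0 _ _ _ _ h
    · intro i hi
      rw [zero_add]
      exact rwd_lt_zero _ _ _ i hi
    · rw [zero_add]
      have h1 := rwd_lt_pos (lev s) (RR s) (ex s) (hRR1 s) (hex1 s hs) (lev s) (le_refl _)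
        (by rw [rwd_length]; omega)
      exact h1
    · intro i hi
      rw [zero_add]
      exact rwd_lt_zero _ _ _ i hi
    · rw [zero_add]
      have h1 := rwd_lt_pos (lev s') (RR s') (ex s') (hRR1 s') (hex1 s' hs') (lev s') (le_refl _)
        (by rw [rwd_length]; omega)
      exact h1
  have hsumlev : ∑ s ∈ S, lev s = x 0 := by
    have h1 : ∑ s ∈ S, (lev s + (RR s).length + 1) = ∑ s ∈ S, s :=
      sum_congr rfl fun s hs => hlen s hs
    rw [sum_add_distrib, sum_add_distrib, hsum, sum_const, smul_eq_mul, mul_one,
      hsumIcc x] at h1
    have h2 : ∑ s ∈ S, (RR s).length = R.length := by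
      rw [sum_eq_single s0]
      · rw [hRR]
        simp
      · intro s _ hne
        rw [hRR]
        simp [hne]
      · intro h
        exact absurd hs0 h
    omega
  have hcnt : ∀ j, ∑ s ∈ S, (wd s).count j =
      (if j = 0 then x 0 else 0) + xr z r j + f j := by
    intro j
    have h1 : ∀ s ∈ S, (wd s).count j =
        (if j = 0 then lev s else 0) + (RR s).count j + (if ex s = j then 1 else 0) :=
      fun s _ => rwd_count _ _ _ _
    rw [sum_congr rfl h1, sum_add_distrib, sum_add_distrib]
    have h2 : ∑ s ∈ S, (RR s).count j = xr z r j := by
      rw [sum_eq_single s0]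
      · rw [hRR]
        simp only [if_true]
        rw [hRdef, count_dec]
      · intro s _ hne
        rw [hRR]
        simp [hne]
      · intro h
        exact absurd hs0 h
    have h3 : ∑ s ∈ S, (if ex s = j then 1 else 0) = f j := by
      rw [← ex4 j, card_filter]
    have h4 : ∑ s ∈ S, (if j = 0 then lev s else 0) = if j = 0 then x 0 else 0 := by
      split_ifs
      · exact hsumlev
      · exact sum_const_zero
    rw [h2, h3, h4]
  -- the sum of the exits
  have hcc : ∀ a, ∑ s ∈ S, cc a (ex s) = (f a : ℤ) - f (a + 1) := by
    intro a
    unfold cc
    rw [sum_sub_distrib]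
    have h3 : ∀ j, ∑ s ∈ S, (if ex s = j then (1 : ℤ) else 0) = f j := by
      intro j
      rw [← ex4 j, card_filter]
      push_cast
      rfl
    rw [h3, h3]
  refine ⟨S.toList.map wd, ?_, ?_, ?_, ?_⟩
  · -- lengths
    rw [List.map_map]
    have h1 : S.toList.map (List.length ∘ wd) = S.toList := by
      conv_rhs => rw [← List.map_id S.toList]
      apply List.map_congr_left
      intro s hs
      rw [mem_toList] at hs
      exact hwlen s hs
    rw [h1, coe_toList]
  · refine ⟨?_, ?_, ?_, ?_⟩
    · intro w hw a ha
      rw [List.mem_map] at hw
      obtain ⟨s, hs, rfl⟩ := hw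
      rw [mem_toList] at hs
      exact (hwle s hs a ha).trans hmy
    · intro w hw
      rw [List.mem_map] at hw
      obtain ⟨s, hs, rfl⟩ := hw
      rw [mem_toList] at hs
      exact rwd_okW y _ _ _ (by have := hlev2 s hs; omega) (hRR1 s) (hex1 s hs)
    · intro j hj
      rw [List.map_map, sum_map_toList]
      have h1 := hcnt j
      have h2 : ∑ s ∈ S, ((fun w => List.count j w) ∘ wd) s = ∑ s ∈ S, (wd s).count j := rfl
      rw [h2, h1]
      by_cases h0 : j = 0
      · subst h0
        rw [if_pos rfl, f0, xr_lt z r 0 (by omega)]
        rfl
      · rw [if_neg h0]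
        by_cases h3 : j ≤ m
        · have := hfx j (by omega) h3
          omega
        · rw [hz j (by omega) hj, f1 j (by omega), hxr, if_neg (by omega)]
    · intro a ρ κ ha hρ hκ
      rw [List.map_map, sum_map_toList]
      have h2 : ∑ s ∈ S, ((fun w => D y w a κ) ∘ wd) s = ∑ s ∈ S, D y (wd s) a κ := rfl
      rw [h2]
      rcases Nat.eq_zero_or_pos a with ha0 | ha0
      · -- the letter 0
        subst ha0
        rcases Nat.eq_zero_or_pos ρ with hρ0 | hρ0
        · subst hρ0
          have h3 : 0 ≤ ∑ s ∈ S, D y (wd s) 0 κ := by
            apply sum_nonneg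
            intro s hs
            apply rwd_D0_reg0 y _ _ _ κ hy0 _ (hlev2 s hs) (hRR1 s) (hex1 s hs)
            rw [hκ]
            rfl
          refine le_trans ?_ h3
          unfold fB
          rw [if_neg (lt_irrefl _), if_neg (lt_irrefl _), if_pos rfl, if_neg (by omega)]
          norm_num
        · have h3 : (x 0 : ℤ) - S.card - x 1 ≤ ∑ s ∈ S, D y (wd s) 0 κ := by
            have h4 : ∑ s ∈ S, ((lev s : ℤ) - 1 - ((RR s ++ [ex s]).count 1 : ℤ)) ≤
                ∑ s ∈ S, D y (wd s) 0 κ :=
              sum_le_sum fun s _ => rwd_D0_reg y _ _ _ ρ κ hκ hρ0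
            refine le_trans ?_ h4
            rw [sum_sub_distrib, sum_sub_distrib, sum_const, nsmul_eq_mul, mul_one]
            have h5 : ∑ s ∈ S, (lev s : ℤ) = x 0 := by
              rw [← hsumlev]
              push_cast
              rfl
            have h6 : ∑ s ∈ S, ((RR s ++ [ex s]).count 1 : ℤ) = x 1 := by
              have h7 : ∑ s ∈ S, (RR s ++ [ex s]).count 1 = x 1 := by
                have h8 := hcnt 1
                rw [if_neg (by norm_num)] at h8
                have h9 := hfx 1 (le_refl _) (by omega)
                rw [← h9]
                have h10 : ∑ s ∈ S, (wd s).count 1 = ∑ s ∈ S, (RR s ++ [ex s]).count 1 := by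
                  apply sum_congr rfl
                  intro s _
                  rw [hwd]
                  simp only [rwd]
                  rw [List.count_append, List.count_replicate]
                  simp
                omega
              rw [← h7]
              push_cast
              rfl
            rw [h5, h6]
          refine le_trans ?_ h3
          unfold fB
          rw [if_pos hρ0]
          split_ifs <;> push_cast <;> omega
      · rcases Nat.eq_zero_or_pos ρ with hρ0 | hρ0
        · -- region 0
          subst hρ0
          have hκ' : ofLex κ 0 = 0 := by rw [hκ]; rfl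
          have h3 : ∑ s ∈ S, D y (wd s) a κ =
              ∑ s ∈ S, (if key y (wd s) 0 ≤ κ then cc a (ex s) else 0) :=
            sum_congr rfl fun s hs => rwd_D_reg0 y _ _ _ a κ hκ' (hRR1 s) (hex1 s hs) ha0
          rw [h3]
          have h4 := reg0_ineq S ex lev (fun s => key y (wd s) 0 ≤ κ) a s0 hexlev hinj
            (by
              intro s hs s' hs' h5 h6
              exact (hkey s hs s' hs' h5).le.trans h6)
            (by
              rw [ex4, ex4]
              rcases Nat.eq_zero_or_pos (f (a + 1)) with h5 | h5
              · omega
              · have h6 : a + 1 ≤ z := by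
                  by_contra hcon
                  rw [f5 (a + 1) (by omega)] at h5
                  omega
                have h7 : a + 1 ≤ m := by
                  by_contra hcon
                  rw [f1 (a + 1) (by omega)] at h5
                  omega
                have h8 := f3 a ha0 (by omega)
                have h9 := hfx (a + 1) (by omega) h7
                have h10 := hmono a ha0 h7 ha
                omega)
            (by
              rw [ex4, ex4]
              rcases Nat.eq_zero_or_pos (f (a + 1)) with h5 | h5
              · exact Or.inl h5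
              · right
                have h6 : a + 1 ≤ z := by
                  by_contra hcon
                  rw [f5 (a + 1) (by omega)] at h5
                  omega
                have h7 : a + 1 ≤ m := by
                  by_contra hcon
                  rw [f1 (a + 1) (by omega)] at h5
                  omega
                rw [f3 a ha0 (by omega)]
                exact hmid a ha0 (by omega))
          have h5 : ∑ s ∈ S, (if key y (wd s) 0 ≤ κ then cc a (ex s) else 0) =
              ((S.filter fun s => ex s = a ∧ key y (wd s) 0 ≤ κ).card : ℤ) -
              ((S.filter fun s => ex s = a + 1 ∧ key y (wd s) 0 ≤ κ).card : ℤ) := by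
            have h6 : ∀ j, ((S.filter fun s => ex s = j ∧ key y (wd s) 0 ≤ κ).card : ℤ) =
                ∑ s ∈ S, (if ex s = j ∧ key y (wd s) 0 ≤ κ then (1 : ℤ) else 0) := by
              intro j
              rw [card_filter]
              push_cast
              rfl
            rw [h6, h6, ← sum_sub_distrib]
            apply sum_congr rfl
            intro s _
            unfold cc
            by_cases h7 : key y (wd s) 0 ≤ κ
            · simp only [h7, and_true, if_true]
            · simp only [h7, and_false, if_false]
              norm_num
          rw [h5]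
          have h6 : ((S.filter fun s => ex s = a + 1 ∧ key y (wd s) 0 ≤ κ).card : ℤ) ≤
              ((S.filter fun s => ex s = a ∧ key y (wd s) 0 ≤ κ).card : ℤ) := by
            exact_mod_cast h4
          unfold fB
          rw [if_neg (by omega), if_pos ha0]
          linarith
        · -- regions `≥ 1`
          have h3 : ∃ P : ℤ, (f a : ℤ) - f (a + 1) + P ≤ ∑ s ∈ S, D y (wd s) a κ ∧
              ((z ≤ m ∧ P = pm z r.length (xr z r) (ex s0) a ρ) ∨ (z = m + 1 ∧ P = 0)) := by
            by_cases hzm : z ≤ m
            · refine ⟨pm z r.length (xr z r) (ex s0) a ρ, ?_, Or.inl ⟨hzm, rfl⟩⟩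
              have h4 : ∑ s ∈ S, (cc a (ex s) + if s = s0 then
                  pm z r.length (xr z r) (ex s0) a ρ else 0) ≤ ∑ s ∈ S, D y (wd s) a κ := by
                apply sum_le_sum
                intro s hs
                by_cases h5 : s = s0
                · rw [if_pos h5, h5]
                  have h6 := ab_D y (lev s0) z r (ex s0) a ρ κ hκ
                    (by have := hlev2 s0 hs0; omega) ha0 hρ0 hrpos (by
                      intro h7
                      rw [h7] at hrlen
                      simp at hrlen
                      omega) (hexz s0 hs0)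
                  have h7 : wd s0 = ab (lev s0) z r (ex s0) := by
                    rw [hwd]
                    simp only [hRR, if_true]
                    rfl
                  rw [h7]
                  exact h6
                · rw [if_neg h5, add_zero]
                  have h6 := st_D y (lev s) (ex s) a ρ κ hκ
                    (by have := hlev2 s hs; omega) ha0 hρ0
                  have h7 : wd s = rwd (lev s) [] (ex s) := by
                    rw [hwd]
                    simp only [hRR, if_neg h5]
                  rw [h7]
                  exact h6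
              refine le_trans ?_ h4
              rw [sum_add_distrib, hcc, sum_ite_eq' S s0, if_pos hs0]
            · refine ⟨0, ?_, Or.inr ⟨by omega, rfl⟩⟩
              have hR0 : R = [] := by
                have h5 : r = [] := by
                  apply List.eq_nil_of_length_eq_zero
                  rw [hrlen]
                  omega
                rw [hRdef, h5]
                rfl
              rw [add_zero, ← hcc]
              apply sum_le_sum
              intro s hs
              have h6 := st_D y (lev s) (ex s) a ρ κ hκ
                (by have := hlev2 s hs; omega) ha0 hρ0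
              have h7 : wd s = rwd (lev s) [] (ex s) := by
                rw [hwd]
                simp only [hRR, hR0]
                split_ifs <;> rfl
              rw [h7]
              exact h6
          obtain ⟨P, h3, h4⟩ := h3
          refine le_trans ?_ h3
          unfold fB
          rcases h4 with ⟨hzm, h4⟩ | ⟨hzm, h4⟩
          · rw [h4]
            unfold pm
            rw [hxr, hxr, hrlen]
            -- facts about f at a, a+1
            have g1 : a < z → f a = x a := f3 a ha0
            have g2 : z < a → f a = 0 := f5 a
            have g3 : a + 1 < z → f (a + 1) = x (a + 1) := f3 (a + 1) (by omega)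
            have g4 : z < a + 1 → f (a + 1) = 0 := f5 (a + 1)
            have g5 := f4 hzm
            have g6 : a = z → f a < x a := by
              intro h
              rw [h]
              exact g5
            have g7 : a + 1 = z → f (a + 1) < x (a + 1) := by
              intro h
              rw [h]
              exact g5
            have g8 : a + 1 ≤ m → x (a + 1) ≤ x a := fun h => hmono a ha0 h ha
            have g9 : m < a + 1 → x (a + 1) = 0 := fun h => hz (a + 1) h (by omega)
            have g10 : m < a → x a = 0 := fun h => hz a h (by omega)
            have g11 : ex s0 = z → 1 ≤ f z := by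
              intro h
              have := hexf s0 hs0
              rw [h] at this
              exact this
            have g12 : a = z → ex s0 = z → 1 ≤ f a := by
              intro h h'
              rw [h]
              exact g11 h'
            rcases lt_trichotomy ρ a with h5 | h5 | h5
            · rw [if_neg (by omega), if_pos h5, if_pos h5]
              split_ifs <;> omega
            · subst h5
              simp only [lt_irrefl, if_false, if_true]
              split_ifs <;> omega
            · simp only [if_pos h5, if_neg (show ¬ ρ < a by omega), if_neg (show ¬ ρ = a by omega),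
                if_neg (show ¬ a = 0 by omega)]
              split_ifs <;> omega
          · rw [h4, add_zero]
            have g1 : a ≤ m → f a = x a := fun h => f3 a ha0 (by omega)
            have g3 : a + 1 ≤ m → f (a + 1) = x (a + 1) := fun h => f3 (a + 1) (by omega) (by omega)
            have g4 : m < a + 1 → f (a + 1) = 0 := f1 (a + 1)
            have g5 : m < a → f a = 0 := f1 a
            have g8 : a + 1 ≤ m → x (a + 1) ≤ x a := fun h => hmono a ha0 h ha
            have g9 : m < a + 1 → x (a + 1) = 0 := fun h => hz (a + 1) h (by omega)
            have g10 : m < a → x a = 0 := fun h => hz a h (by omega)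
            have g11 : a = m → 1 ≤ x a := fun h => by rw [h]; exact hxm
            rcases lt_trichotomy ρ a with h5 | h5 | h5
            · rw [if_neg (by omega), if_pos h5]
              omega
            · subst h5
              simp only [lt_irrefl, if_false, if_true]
              split_ifs <;> omega
            · simp only [if_pos h5, if_neg (show ¬ ρ < a by omega), if_neg (show ¬ ρ = a by omega),
                if_neg (show ¬ a = 0 by omega)]
              split_ifs <;> omega
  · -- the tail condition
    intro w hw t ht hp
    rw [List.mem_map] at hw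
    obtain ⟨s, hs, rfl⟩ := hw
    rw [mem_toList] at hs
    have hmem : pv (wd s) t ∈ wd s := lt_mem _ _ (by omega)
    have hmy' : m = y := by
      have := hwle s hs _ hmem
      omega
    have hpos : ∀ s' ∈ S, 0 < (wd s').length := by
      intro s' hs'
      rw [hwlen s' hs']
      have := hS s' hs'
      omega
    have hpv0 : ∀ s', pv (wd s') 0 = ex s' := fun s' => rwd_pv_zero _ _ _
    by_cases hA : 1 ≤ f (y - 1)
    · -- there is an exit `y - 1`
      have hne : (S.filter fun s => ex s = y - 1).Nonempty := by
        rw [← card_pos, ex4]
        exact hA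
      obtain ⟨s', hs'⟩ := hne
      rw [mem_filter] at hs'
      by_cases ht0 : lt (wd s) t = 0
      · -- `t = 0`, the exit of `s` is `y`
        have hex : t = 0 ∧ ex s = y := by
          have h1 : t < lev s := by
            by_contra hcon
            have := rwd_lt_pos (lev s) (RR s) (ex s) (hRR1 s) (hex1 s hs) t (by omega) ht
            have h2 : lt (rwd (lev s) (RR s) (ex s)) t = 0 := ht0
            omega
          have h2 : t = 0 := by
            by_contra hcon
            rw [pv_succ _ _ (by omega) ht] at hp
            have h3 : lt (wd s) (t - 1) = 0 := rwd_lt_zero _ _ _ _ (by omega)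
            omega
          subst h2
          rw [hpv0] at hp
          exact ⟨rfl, hp⟩
        obtain ⟨rfl, hexs⟩ := hex
        have hfy : 1 ≤ f y := by
          have := hexf s hs
          rw [hexs] at this
          exact this
        have hzy : y ≤ z := by
          by_contra hcon
          rw [f5 y (by omega)] at hfy
          omega
        have hf2 : 2 ≤ f (y - 1) := by
          rw [f3 (y - 1) (by omega) (by omega)]
          exact hmid (y - 1) (by omega) (by omega)
        rw [← ex4, ← Nat.lt_iff_add_one_le, one_lt_card] at hf2
        obtain ⟨u, hu, v, hv, huv⟩ := hf2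
        rw [mem_filter] at hu hv
        have h1 : levlt (lev u) (lev s) ∨ levlt (lev v) (lev s) := by
          by_contra hcon
          rw [not_or] at hcon
          have e1 : lev u = lev s := by
            rcases hexlev u hu.1 s hs (by omega) with h | h
            · exact absurd h hcon.1
            · exact h
          have e2 : lev v = lev s := by
            rcases hexlev v hv.1 s hs (by omega) with h | h
            · exact absurd h hcon.2
            · exact h
          refine three_lev S lev s0 hinj s u v hs hu.1 hv.1 ?_ ?_ huv e1.symm e2.symm
          · intro h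
            rw [← h] at hu
            omega
          · intro h
            rw [← h] at hv
            omega
        rcases h1 with h1 | h1
        · refine ⟨wd u, List.mem_map.2 ⟨u, mem_toList.2 hu.1, rfl⟩, 0, hpos u hu.1,
            (hkey u hu.1 s hs h1).le, ?_⟩
          rw [hpv0]
          omega
        · refine ⟨wd v, List.mem_map.2 ⟨v, mem_toList.2 hv.1, rfl⟩, 0, hpos v hv.1,
            (hkey v hv.1 s hs h1).le, ?_⟩
          rw [hpv0]
          omega
      · refine ⟨wd s', List.mem_map.2 ⟨s', mem_toList.2 hs'.1, rfl⟩, 0, hpos s' hs'.1, ?_, ?_⟩
        · apply le_of_lt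
          apply key_lt_of_zero
          rw [key_zero, key_zero]
          have h1 : lt (wd s') 0 = 0 := rwd_lt_zero _ _ _ _ (by
            have := hlev2 s' hs'.1
            omega)
          rw [h1]
          have : 0 < lt (wd s) t := Nat.pos_of_ne_zero ht0
          exact_mod_cast this
        · rw [hpv0]
          omega
    · -- no exit `y - 1`
      have hfy : f (y - 1) = 0 := by omega
      have hzy : z ≤ y - 1 := by
        by_contra hcon
        have h1 := f3 (y - 1) (by omega) (by omega)
        have h2 := hx1 (y - 1) (by omega) (by omega)
        omega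
      have he : ex s0 < y - 1 := by
        have h1 := hexz s0 hs0
        rcases Nat.lt_or_ge (ex s0) (y - 1) with h2 | h2
        · exact h2
        · exfalso
          have h3 : ex s0 = y - 1 := by omega
          have h4 := hexf s0 hs0
          rw [h3] at h4
          omega
      have hss : s = s0 := by
        by_contra hne
        have h1 : wd s = rwd (lev s) [] (ex s) := by
          rw [hwd]
          simp only [hRR, if_neg hne]
        have hmem' : ∀ v, v ∈ wd s → v = 0 ∨ v = ex s := by
          intro v hv
          rw [h1] at hv
          simp only [rwd, List.mem_append, List.mem_replicate, List.mem_singleton,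
            List.nil_append] at hv
          rcases hv with hv | hv
          · exact Or.inl hv.2
          · exact Or.inr hv
        rcases hmem' _ hmem with h2 | h2
        · omega
        · have h3 := hexf s hs
          rw [← h2, hp, f5 y (by omega)] at h3
          omega
      subst hss
      have hws : wd s = rwd (lev s) R (ex s) := by
        rw [hwd]
        simp only [hRR, if_true]
      obtain ⟨i, i1, i2, i3⟩ := dec_cross z r (ex s) hrpos (y - 1) hzy (by rw [hrlen]; omega) he
      have hRe : (R ++ [ex s]).length = R.length + 1 := by simp
      rw [← hRdef] at i1 i2 i3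
      rw [hRe] at i1
      have hl : (wd s).length = lev s + R.length + 1 := by rw [hws, rwd_length]
      refine ⟨wd s, List.mem_map.2 ⟨s, mem_toList.2 hs, rfl⟩, lev s + (i + 1), ?_, ?_, ?_⟩
      · omega
      · apply le_of_lt
        apply key_lt_of_zero
        rw [key_zero, key_zero]
        have h1 : lt (wd s) (lev s + (i + 1)) < y - 1 := by
          rw [hws, rwd_lt_at _ _ _ _ (by omega)]
          exact i3
        have h2 : y - 1 ≤ lt (wd s) t := by
          -- `t` is in `R`
          have h3 : 1 ≤ t := by
            by_contra hcon
            have : t = 0 := by omega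
            subst this
            rw [hpv0] at hp
            omega
          rw [pv_succ _ _ h3 ht] at hp
          have h4 : lev s ≤ t - 1 := by
            by_contra hcon
            have h5 : lt (wd s) (t - 1) = 0 := rwd_lt_zero _ _ _ _ (by omega)
            omega
          obtain ⟨k, hk⟩ := Nat.exists_eq_add_of_le h4
          rw [hk, hws, rwd_lt_at _ _ _ _ (by omega)] at hp
          have h6 := dec_step z r (ex s) hrpos (hexz s hs) k y (by
            rw [← hRdef, hRe]
            omega) (by rw [← hRdef]; exact hp) (by omega)
          rw [← hRdef] at h6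
          have h7 : t = lev s + (k + 1) := by omega
          rw [h7, hws, rwd_lt_at _ _ _ _ (by omega)]
          omega
        have h3 : lt (wd s) (lev s + (i + 1)) < lt (wd s) t := by omega
        exact_mod_cast h3
      · rw [pv_succ _ _ (by omega) (by omega), show lev s + (i + 1) - 1 = lev s + i by omega, hws,
          rwd_lt_at _ _ _ _ (by omega), i2]
        omega
  · -- crossing
    intro hym
    have hpv0 : ∀ s', pv (wd s') 0 = ex s' := fun s' => rwd_pv_zero _ _ _
    have hq1 : 1 ≤ y - 1 := by omega
    have hqm : y - 1 ≤ m := by omega
    have hxq := hx1 (y - 1) hq1 hqm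
    by_cases hA : 1 ≤ f (y - 1)
    · have hne : (S.filter fun s => ex s = y - 1).Nonempty := by
        rw [← card_pos, ex4]
        exact hA
      obtain ⟨s', hs'⟩ := hne
      rw [mem_filter] at hs'
      refine ⟨wd s', List.mem_map.2 ⟨s', mem_toList.2 hs'.1, rfl⟩, 0, ?_, ?_, ?_⟩
      · rw [hwlen s' hs'.1]
        have := hS s' hs'.1
        omega
      · rw [hpv0]
        omega
      · have h1 : lt (wd s') 0 = 0 := rwd_lt_zero _ _ _ _ (by
          have := hlev2 s' hs'.1
          omega)
        rw [h1]
        omega
    · have hfy : f (y - 1) = 0 := by omega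
      have hzy : z ≤ y - 1 := by
        by_contra hcon
        have h1 := f3 (y - 1) (by omega) (by omega)
        omega
      have he : ex s0 < y - 1 := by
        have h1 := hexz s0 hs0
        rcases Nat.lt_or_ge (ex s0) (y - 1) with h2 | h2
        · exact h2
        · exfalso
          have h3 : ex s0 = y - 1 := by omega
          have h4 := hexf s0 hs0
          rw [h3] at h4
          omega
      have hws : wd s0 = rwd (lev s0) R (ex s0) := by
        rw [hwd]
        simp only [hRR, if_true]
      obtain ⟨i, i1, i2, i3⟩ := dec_cross z r (ex s0) hrpos (y - 1) hzy (by rw [hrlen]; omega) he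
      have hRe : (R ++ [ex s0]).length = R.length + 1 := by simp
      rw [← hRdef] at i1 i2 i3
      rw [hRe] at i1
      have hl : (wd s0).length = lev s0 + R.length + 1 := by rw [hws, rwd_length]
      refine ⟨wd s0, List.mem_map.2 ⟨s0, mem_toList.2 hs0, rfl⟩, lev s0 + (i + 1), ?_, ?_, ?_⟩
      · omega
      · rw [pv_succ _ _ (by omega) (by omega), show lev s0 + (i + 1) - 1 = lev s0 + i by omega,
          hws, rwd_lt_at _ _ _ _ (by omega), i2]
        omega
      · rw [hws, rwd_lt_at _ _ _ _ (by omega)]
        omega

end Pool.Agent.RST
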