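import Pool.Agent.RST.Cmb
import Pool.Agent.RST.Arith
import Pool.Agent.RST.Fins
import Pool.Agent.RST.Star
import Pool.Agent.RST.FlatC

/-!
# RST/Fst: the final stage
-/

set_option autoImplicit false

namespace Pool.Agent.RST

open Finset

/-- a terminal state -/
structure FS (y τ : ℕ) (C : ℕ → ℕ) (al : Finset ℕ) (P : List Mt) (S : Finset ℕ) (x : ℕ → ℕ)
    (m p g : ℕ) : Prop extends St y τ C al P S x m p g where
  stop : S.card = 1 ∨ m = 1 ∨
    ∀ a ∈ S, a ≠ 3 → (∀ t ∈ S, t = 3 ∨ a ≤ t) → Ex y x + 2 ≤ a + S.card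
  mono : ∀ j, 1 ≤ j → j + 1 ≤ m → j + 1 < y → x (j + 1) ≤ x j
  c3 : 4 ≤ C 0 ∨ S.card = 1
  f1 : m = 1 → x 1 = C 1 ∨
    (1 ≤ g ∧ ∃ w, 3 ≤ w ∧ C 1 + 3 ≤ x 1 + 2 * g + w ∧ ∀ t ∈ S, t = 3 ∨ w + 1 ≤ t)
  f2 : 2 ≤ m → 2 ≤ S.card → (∃ d : ℕ, C 1 = x 1 + 2 * d ∧ (d : ℤ) ≤ ebP P 0 1 ∧
      (d = 0 ∨ Ex y x ≤ 2 * x 1) ∧ ∀ t ∈ S, t = 3 ∨ d + 4 ≤ t) ∨
    (∃ j : ℕ, C 1 = x 1 + j ∧ (j : ℤ) ≤ ebP P 0 1 ∧ ∀ t ∈ S, t = 3 ∨ j + 3 ≤ t)
  t1 : 3 ∈ S → S.card = 2 → 2 ≤ m → x 1 = 2 → ∀ a ∈ S, a ≠ 3 →
    (C 1 + 2 ≤ C 0 ∧ Ex y x + 1 ≤ a) ∨ Goal y C al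
  fl : 3 ∈ S → m = 1 → C 0 = C 1 → x 1 = C 1 → τ = 0 → S ≠ {5, 3}

theorem sum_range_Icc (x : ℕ → ℕ) (m : ℕ) :
    ∑ j ∈ range (m + 1), x j = x 0 + ∑ j ∈ Icc 1 m, x j := by
  rw [← Finset.sum_insert (s := Icc 1 m) (a := 0) (by simp)]
  apply sum_congr _ fun _ _ => rfl
  ext j
  rw [mem_range, mem_insert, mem_Icc]
  omega

theorem Ex_eq {y m : ℕ} {x : ℕ → ℕ} (hm : m ≤ y) (hz : ∀ j, m < j → j ≤ y → x j = 0) :
    Ex y x = ∑ j ∈ Icc 1 m, x j := by
  unfold Ex
  symm
  apply sum_subset
  · intro j
    rw [mem_Icc, mem_Icc]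
    omega
  · intro j h1 h2
    rw [mem_Icc] at h1 h2
    exact hz j (by omega) (by omega)

theorem Icc_two {m : ℕ} (x : ℕ → ℕ) (hm : 1 ≤ m) :
    ∑ j ∈ Icc 1 m, x j = x 1 + ∑ j ∈ Icc 2 m, x j := by
  rw [← Finset.sum_insert (s := Icc 2 m) (a := 1) (by simp)]
  apply sum_congr _ fun _ _ => rfl
  ext j
  rw [mem_Icc, mem_insert, mem_Icc]
  omega

theorem sum_sub_add {R : Finset ℕ} {b : ℕ → ℕ} (h : ∀ t ∈ R, b t ≤ t) :
    ∑ t ∈ R, (t - b t) + ∑ t ∈ R, b t = ∑ t ∈ R, t := by
  rw [← sum_add_distrib]
  apply sum_congr rfl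
  intro t ht
  have := h t ht
  omega

section

variable {y τ : ℕ} {C : ℕ → ℕ} {al : Finset ℕ} {P : List Mt} {S : Finset ℕ} {x : ℕ → ℕ}
  {m p g : ℕ}

theorem St.e01 (st : St y τ C al P S x m p g) : 0 ≤ ebP P 0 1 := by
  have hy := st.shp.hy
  have hm := st.m1
  rcases Nat.lt_or_ge 2 m with h | h
  · exact st.blo 0 (by omega)
  · rcases Nat.lt_or_ge 1 m with h1 | h1
    · have h2 : m = 2 := by omega
      subst h2
      have h3 := st.bm1 (le_refl _)
      have h4 : (0 : ℤ) ≤ p := by positivity
      exact h4.trans h3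
    · have h2 : m = 1 := by omega
      subst h2
      have h3 := st.bm (by omega)
      have h4 : (0 : ℤ) ≤ g := by positivity
      exact h4.trans h3

theorem St.x1le (st : St y τ C al P S x m p g) : x 1 ≤ C 1 := by
  have := st.cnt 1 (le_refl _) (by have := st.shp.hy; omega)
  omega

theorem St.c01 (st : St y τ C al P S x m p g) : C 1 ≤ C 0 :=
  st.shp.anti 0 1 (by omega) (by have := st.shp.hy; omega)

theorem St.exm (st : St y τ C al P S x m p g) : Ex y x = ∑ j ∈ Icc 1 m, x j :=
  Ex_eq st.my st.xz

theorem fs_one (fs : FS y τ C al P S x m p g) (h : S.card = 1) : Goal y C al := by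
  have st := fs.toSt
  have hy := st.shp.hy
  have he := st.e01
  have hc := st.c01
  have hc' : (C 1 : ℤ) ≤ C 0 := by exact_mod_cast hc
  obtain ⟨s, rfl⟩ := card_eq_one.1 h
  have h0 : 2 ≤ x 0 := by
    have h1 := st.c0
    have h2 := st.shp.two 0 (by omega)
    rcases st.tau with h3 | ⟨h3, h4⟩ <;> omega
  have hs : s = ∑ j ∈ range (m + 1), x j := by
    have h1 := st.tot
    rw [sum_singleton, st.exm] at h1
    rw [sum_range_Icc]
    exact h1
  have hf := fin_one y m x s hy st.m1 st.my h0 st.mid st.xm st.xz hs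
  refine comb st _ _ (S := {s}) hf ?_ (by linarith)
  split_ifs with h1
  · obtain ⟨h1, h2⟩ := h1
    subst h1
    have h3 := st.g1 (by omega) h2
    have h4 := st.bm (by omega)
    have h5 : (1 : ℤ) ≤ g := by exact_mod_cast h3
    have h6 : (g : ℤ) ≤ ebP P 0 1 := h4
    linarith
  · linarith

/-- another element than `3` -/
theorem exists_ne {S : Finset ℕ} (h : 2 ≤ S.card) : ∃ a ∈ S, a ≠ 3 ∧ ∀ t ∈ S, t = 3 ∨ a ≤ t := by
  have h1 : (S.erase 3).Nonempty := by
    rw [← card_pos]
    have := pred_card_le_card_erase (s := S) (a := 3)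
    omega
  refine ⟨(S.erase 3).min' h1, mem_of_mem_erase (min'_mem _ h1),
    (mem_erase.1 (min'_mem _ h1)).1, ?_⟩
  intro t ht
  by_cases h3 : t = 3
  · exact Or.inl h3
  · right
    exact min'_le _ _ (mem_erase.2 ⟨h3, ht⟩)

/-- the final stage if only the columns 0 and 1 are left -/
theorem fs_F2 (fs : FS y τ C al P S x m p g) (hm : m = 1) (hr : 2 ≤ S.card) : Goal y C al := by
  subst hm
  have st := fs.toSt
  have hy := st.shp.hy
  have he := st.e01
  have hc := st.c01
  have hxc := st.x1le
  have hex : Ex y x = x 1 := by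
    rw [st.exm]
    simp
  have htot := st.tot
  have hEr := st.Er
  have hc0 := st.c0
  have hg : (g : ℤ) ≤ ebP P 0 1 := st.bm (by omega)
  rw [hex] at htot hEr
  have hz : ∀ j, 1 < j → j ≤ y → x j = 0 := st.xz
  by_cases hflat : 3 ∈ S ∧ C 0 = C 1 ∧ x 1 = C 1
  · obtain ⟨h3, h1, h2⟩ := hflat
    exact st_flat st h3 hr h1 h2 (fs.fl h3 rfl h1 h2)
  have hf1 := fs.f1 rfl
  have hSne : S.Nonempty := by
    rw [← card_pos]
    omega
  obtain ⟨a, ha, ha3, hamin⟩ := exists_ne hr
  have ha4 : 4 ≤ a := by
    have := st.S3 a ha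
    omega
  -- the price of the 3-cycle
  have hth : 3 ∈ S → (1 : ℤ) ≤ (C 0 : ℤ) - C 1 + ebP P 0 1 := by
    intro h3
    by_cases h1 : C 0 = C 1
    · have h2 : x 1 ≠ C 1 := fun h => hflat ⟨h3, h1, h⟩
      rcases hf1 with h4 | ⟨h4, -⟩
      · exact absurd h4 h2
      · have h5 : (1 : ℤ) ≤ g := by exact_mod_cast h4
        have h6 : (C 0 : ℤ) = C 1 := by exact_mod_cast h1
        linarith
    · have h4 : C 1 + 1 ≤ C 0 := by omega
      have h5 : (C 1 : ℤ) + 1 ≤ C 0 := by exact_mod_cast h4
      linarith
  by_cases hx0 : 2 * S.card ≤ x 0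
  · rcases Nat.lt_or_ge (x 1) (2 * S.card) with hk | hk
    · -- some words with one cell in the column 1
      obtain ⟨U, hU, hUc, hU3⟩ := exists_sub S (2 * S.card - x 1) (by omega) (by omega)
      set b : ℕ → ℕ := fun t => if t ∈ U then 1 else 2 with hb
      have hsum := sum_one_two S U hU
      have hb' : ∀ s ∈ S, 1 ≤ b s ∧ b s + 2 ≤ s := by
        intro s hs
        have h3 := st.S3 s hs
        rw [hb]
        dsimp only
        split_ifs with h4
        · omega
        · have h5 : s ≠ 3 := by
            intro h5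
            subst h5
            exact h4 (hU3 hs)
          omega
      have hbs : ∑ s ∈ S, b s = x 1 := by
        have h4 : ∑ s ∈ S, b s = ∑ t ∈ S, (if t ∈ U then 1 else 2) := rfl
        omega
      have h0 : ∑ s ∈ S, (s - b s) = x 0 := by
        have h4 := sum_sub_add (R := S) (b := b) (fun t ht => by
          have := hb' t ht
          omega)
        omega
      have hf := fin_two y x S b hy hb' hbs h0 hz hSne
      have hK : (S.filter fun s => b s = 1).card = U.card := by
        congr 1
        ext t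
        rw [mem_filter, hb]
        constructor
        · rintro ⟨h4, h5⟩
          by_contra h6
          dsimp only at h5
          rw [if_neg h6] at h5
          omega
        · intro h4
          exact ⟨hU h4, if_pos h4⟩
      rw [hK] at hf
      refine comb st _ _ hf ?_ (by
        have : (C 1 : ℤ) ≤ C 0 := by exact_mod_cast hc
        linarith)
      rw [hUc]
      -- inequality F2a
      rcases hf1 with h4 | ⟨h4, w, hw, h5, h6⟩
      · have h7 := sum_four (R := S) st.S3
        have h8 : 2 * S.card ≤ C 0 := by omega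
        have h9 : 2 * S.card - x 1 + C 1 ≤ C 0 := by omega
        have h10 : ((2 * S.card - x 1 : ℕ) : ℤ) + C 1 ≤ C 0 := by exact_mod_cast h9
        linarith
      · have h7 : w + 1 ≤ a := by
          rcases h6 a ha with h8 | h8
          · exact absurd h8 ha3
          · exact h8
        have h8 := sum_one (b := w + 1) st.S3 ha h7
        have h9 : 2 * S.card - x 1 + C 1 ≤ C 0 + g := by omega
        have h10 : ((2 * S.card - x 1 : ℕ) : ℤ) + C 1 ≤ C 0 + g := by exact_mod_cast h9
        linarith
    · -- at least two cells in the column 1 for all parts `≥ 4`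
      obtain ⟨b, hb1, hb2⟩ := exists_dist S (fun t => if t = 3 then 1 else 2) (fun t => t - 2)
        (by
          intro t ht
          have := st.S3 t ht
          split_ifs <;> omega) (x 1) (by
          have h4 : ∑ t ∈ S, (if t = 3 then 1 else 2) ≤ ∑ t ∈ S, 2 := by
            apply sum_le_sum
            intro t _
            split_ifs <;> omega
          rw [sum_const, smul_eq_mul] at h4
          omega) (by
          have h4 := sum_sub_add (R := S) (b := fun _ => 2) (fun t ht => by
            have := st.S3 t ht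
            omega)
          rw [sum_const, smul_eq_mul] at h4
          omega)
      have hb' : ∀ s ∈ S, 1 ≤ b s ∧ b s + 2 ≤ s := by
        intro s hs
        have h3 := st.S3 s hs
        have h4 := hb1 s hs
        split_ifs at h4 <;> omega
      have h0 : ∑ s ∈ S, (s - b s) = x 0 := by
        have h4 := sum_sub_add (R := S) (b := b) (fun t ht => by
          have := hb' t ht
          omega)
        omega
      have hf := fin_two y x S b hy hb' hb2 h0 hz hSne
      have hsub : (S.filter fun s => b s = 1) ⊆ S.filter fun s => s = 3 := by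
        intro t ht
        rw [mem_filter] at ht ⊢
        refine ⟨ht.1, ?_⟩
        by_contra h4
        have h5 := hb1 t ht.1
        rw [if_neg h4] at h5
        omega
      refine comb st _ _ hf ?_ (by
        have : (C 1 : ℤ) ≤ C 0 := by exact_mod_cast hc
        linarith)
      have hcard := card_le_card hsub
      by_cases h3 : 3 ∈ S
      · rw [filter_eq' S 3, if_pos h3, card_singleton] at hcard
        have h4 := hth h3
        have h5 : (((S.filter fun s => b s = 1).card : ℕ) : ℤ) ≤ 1 := by exact_mod_cast hcard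
        linarith
      · rw [filter_eq' S 3, if_neg h3, card_empty] at hcard
        have h5 : (((S.filter fun s => b s = 1).card : ℕ) : ℤ) ≤ 0 := by exact_mod_cast hcard
        have : (C 1 : ℤ) ≤ C 0 := by exact_mod_cast hc
        linarith
  · -- the exceptional sets
    have h4 := sum_four (R := S) st.S3
    have ht1 : τ = 1 := by
      rcases st.tau with h5 | ⟨h5, -⟩
      · subst h5
        omega
      · exact h5
    subst ht1
    have h5 : ∀ t ∈ S, t ≤ 5 := by
      intro t ht
      have := sum_one (b := t) st.S3 ht (le_refl _)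
      omega
    have hS : S ∈ ({3, 4, 5} : Finset ℕ).powerset := by
      rw [mem_powerset]
      intro t ht
      have h6 := h5 t ht
      have h7 := st.S3 t ht
      simp only [mem_insert, mem_singleton]
      omega
    have hcases : S = {3, 4} ∨ S = {3, 5} ∨ S = {4, 5} ∨ S = {3, 4, 5} := by
      have h6 : ∀ T ∈ ({3, 4, 5} : Finset ℕ).powerset, 2 ≤ T.card →
          T = {3, 4} ∨ T = {3, 5} ∨ T = {4, 5} ∨ T = {3, 4, 5} := by decide
      exact h6 S hS hr
    rcases hcases with rfl | rfl | rfl | rfl
    · have h6 : ∑ t ∈ ({3, 4} : Finset ℕ), t = 7 := by decide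
      have h7 : ({3, 4} : Finset ℕ).card = 2 := by decide
      rw [h6] at htot
      rw [h7] at hx0
      have hx3 : x 0 = 3 := by omega
      have hx4 : x 1 = 4 := by omega
      have hf := fin_run1 y 1 (fun j => (if j = 0 then 2 else 0) + x j) 4 hy (le_refl _)
        (by omega) (by simp [hx3]) (by simp [hx4]) (by intro j h8 h9; omega) (by simp [hx4])
        (by
          intro j h8 h9
          rw [if_neg (by omega), zero_add]
          exact hz j h8 h9) (by simp [hx4])
      refine comb0 st _ _ _ _ ?_ ?_ ?_ hf ?_ (by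
        have : (C 1 : ℤ) ≤ C 0 := by exact_mod_cast hc
        linarith)
      · intro j hj
        rcases Nat.eq_zero_or_pos j with h0 | h0
        · subst h0
          have := cntP_zero st.pok st.bot
          rw [if_pos rfl]
          omega
        · rw [if_neg (by omega), zero_add]
          exact st.cnt j h0 hj
      · simp
      · have h8 := st.len
        rw [← h8, add_assoc]
        congr 1
        decide
      · rw [if_neg (by omega)]
        rcases Nat.lt_or_ge (C 1) (C 0) with h8 | h8
        · have h9 : (C 1 : ℤ) + 1 ≤ C 0 := by exact_mod_cast h8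
          linarith
        · rcases hf1 with h9 | ⟨h9, -⟩
          · omega
          · have h10 : (1 : ℤ) ≤ g := by exact_mod_cast h9
            have h11 : (C 1 : ℤ) ≤ C 0 := by exact_mod_cast hc
            linarith
    · have h6 : ∑ t ∈ ({3, 5} : Finset ℕ), t = 8 := by decide
      have h7 : ({3, 5} : Finset ℕ).card = 2 := by decide
      rw [h6] at htot
      rw [h7] at hx0
      exact absurd ⟨by decide, by omega, by omega⟩ hflat
    · have h6 : ∑ t ∈ ({4, 5} : Finset ℕ), t = 9 := by decide
      have h7 : ({4, 5} : Finset ℕ).card = 2 := by decide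
      rw [h6] at htot
      rw [h7] at hx0
      omega
    · have h6 : ∑ t ∈ ({3, 4, 5} : Finset ℕ), t = 12 := by decide
      have h7 : ({3, 4, 5} : Finset ℕ).card = 3 := by decide
      rw [h6] at htot
      rw [h7] at hx0
      exact absurd ⟨by decide, by omega, by omega⟩ hflat

/-- the star -/
theorem fs_star (fs : FS y τ C al P S x m p g) (hm : 2 ≤ m) (hr : 2 ≤ S.card) (s0 : ℕ)
    (hs0 : s0 ∈ S) (h1 : Ex y x + 3 ≤ s0 + S.card) (h2 : S.card + C 1 ≤ C 0) : Goal y C al := by
  have st := fs.toSt
  have he := st.e01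
  have hf := fin_star y m x S s0 hm st.my st.mid st.xm st.xz st.S3 hr hs0
    (by rw [sum_range_Icc, ← st.exm]; exact st.tot) (by rw [← st.exm]; exact st.Er)
    (by rw [← st.exm]; exact h1) fs.mono
  have h3 : (S.card : ℤ) + C 1 ≤ C 0 := by exact_mod_cast h2
  exact comb st _ _ hf (by linarith) (by linarith)

/-- the budget for one 3-cycle with one cell in the column 1 -/
theorem fs_budget1 (fs : FS y τ C al P S x m p g) (hm : 2 ≤ m) (hr : 2 ≤ S.card)
    (h : x 1 < C 0) :
    (1 : ℤ) ≤ (C 0 : ℤ) - C 1 + ebP P 0 1 := by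
  have st := fs.toSt
  have he := st.e01
  have hc : (C 1 : ℤ) ≤ C 0 := by exact_mod_cast st.c01
  have h' : (x 1 : ℤ) + 1 ≤ C 0 := by exact_mod_cast h
  rcases fs.f2 hm hr with ⟨d, h1, h2, -⟩ | ⟨d, h1, h2, -⟩
  · rcases Nat.eq_zero_or_pos d with h3 | h3
    · subst h3
      have h4 : (C 1 : ℤ) = x 1 := by
        rw [h1]
        push_cast
        ring
      linarith
    · have h4 : (1 : ℤ) ≤ d := by exact_mod_cast h3
      linarith
  · rcases Nat.eq_zero_or_pos d with h3 | h3
    · subst h3
      have h4 : (C 1 : ℤ) = x 1 := by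
        rw [h1]
        push_cast
        ring
      linarith
    · have h4 : (1 : ℤ) ≤ d := by exact_mod_cast h3
      linarith

/-- the final stage for `S = {a, 3}` -/
theorem fs_pair (fs : FS y τ C al P S x m p g) (hm : 2 ≤ m) (h3 : 3 ∈ S) (a : ℕ)
    (ha3 : a ≠ 3) (hSa : S = insert a {3}) (hE : Ex y x ≤ a) : Goal y C al := by
  have st := fs.toSt
  have hy := st.shp.hy
  have he := st.e01
  have hc := st.c01
  have hci : (C 1 : ℤ) ≤ C 0 := by exact_mod_cast hc
  have haS : a ∈ S := by rw [hSa]; exact mem_insert_self _ _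
  have ha4 : 4 ≤ a := by
    have := st.S3 a haS
    omega
  have hcard : S.card = 2 := by
    rw [hSa, card_insert_of_notMem (by simpa using ha3), card_singleton]
  have htot := st.tot
  have hsum : ∑ t ∈ S, t = a + 3 := by
    rw [hSa, sum_insert (by simpa using ha3), sum_singleton]
  rw [hsum] at htot
  have hEr := st.Er
  rw [hcard] at hEr
  have hc0 := st.c0
  have hx1 : 2 ≤ x 1 := st.mid 1 (le_refl _) (by omega)
  have hc4 : 4 ≤ C 0 := by
    rcases fs.c3 with h | h
    · exact h
    · omega
  have hE2 : Ex y x = x 1 + ∑ j ∈ Icc 2 m, x j := by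
    rw [st.exm]
    exact Icc_two x (by omega)
  by_cases hx2 : x 1 = 2
  · rcases fs.t1 h3 hcard hm hx2 a haS ha3 with ⟨h4, h5⟩ | h4
    · exact fs_star fs hm (by omega) a haS (by omega) (by omega)
    · exact h4
  · by_cases hx0 : x 0 = 3
    · have ht : τ = 1 := by
        rcases st.tau with h4 | ⟨h4, -⟩
        · omega
        · exact h4
      subst ht
      obtain ⟨x', hx'0, hx'⟩ : ∃ x' : ℕ → ℕ, x' 0 = x 0 + 2 ∧ ∀ j, 1 ≤ j → x' j = x j :=
        ⟨fun j => if j = 0 then x 0 + 2 else x j, by simp, by
          intro j hj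
          show (if j = 0 then x 0 + 2 else x j) = x j
          rw [if_neg (by omega)]⟩
      have hf := fin_run1 y m x' a hy (by omega) st.my (by omega) (by rw [hx' 1 (le_refl _)]; omega)
        (by
          intro j h8 h9
          rw [hx' j (by omega)]
          exact st.mid j (by omega) h9) (by rw [hx' m (by omega)]; exact st.xm)
        (by
          intro j h8 h9
          rw [hx' j (by omega)]
          exact st.xz j h8 h9) (by
          have h4 : ∑ j ∈ Icc 1 m, x' j = ∑ j ∈ Icc 1 m, x j := by
            apply sum_congr rfl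
            intro j hj
            rw [mem_Icc] at hj
            exact hx' j hj.1
          rw [h4, ← st.exm]
          omega)
      refine comb0 st x' _ _ _ ?_ (hx' m (by omega)) ?_ hf ?_ (by linarith)
      · intro j hj
        rcases Nat.eq_zero_or_pos j with h0 | h0
        · subst h0
          have := cntP_zero st.pok st.bot
          omega
        · rw [hx' j h0]
          exact st.cnt j h0 hj
      · have h8 := st.len
        rw [← h8, add_assoc]
        congr 1
        rw [hSa, insert_val_of_notMem (by simpa using ha3)]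
        rw [Multiset.replicate_one, singleton_val, ← Multiset.singleton_add,
          ← Multiset.singleton_add, ← Multiset.singleton_add]
        abel
      · rw [hx' 1 (le_refl _)]
        split_ifs with h4
        · linarith
        · have h5 := fs_budget1 fs hm (by omega) (by omega)
          linarith
    · -- the pair
      have hb1 : ∀ s ∈ ({3} : Finset ℕ), 1 ≤ (fun _ : ℕ => 1) s ∧ (fun _ : ℕ => 1) s + 2 ≤ s := by
        intro s hs
        rw [mem_singleton] at hs
        subst hs
        norm_num
      have hf := fin_mix y m x {3} a (x 0 - 2) (x 1 - 1) (fun _ => 1) hm st.my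
        (by simpa using ha3) hb1 (by rw [sum_singleton]; omega) (by rw [sum_singleton]; omega)
        (by omega) (by omega) (fun j h8 h9 => st.mid j (by omega) h9) st.xm st.xz (by omega)
      rw [← hSa] at hf
      refine comb st _ _ hf ?_ (by linarith)
      have hcf : (({3} : Finset ℕ).filter fun _ => (1 : ℕ) = 1).card = 1 := by
        rw [filter_true_of_mem (fun _ _ => rfl), card_singleton]
      rw [hcf]
      split_ifs with h4
      · push_cast
        linarith
      · have h5 := fs_budget1 fs hm (by omega) (by omega)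
        push_cast
        linarith

/-- the mix -/
theorem fs_mix (fs : FS y τ C al P S x m p g) (hm : 2 ≤ m) (a s0 : ℕ) (ha : a ∈ S) (ha4 : 4 ≤ a)
    (hs0 : s0 ∈ S) (hlt : a < s0)
    (hE : Ex y x + 2 ≤ a + S.card) (hx1 : S.card + 1 ≤ x 1) : Goal y C al := by
  have st := fs.toSt
  have hy := st.shp.hy
  have he := st.e01
  have hc := st.c01
  have hci : (C 1 : ℤ) ≤ C 0 := by exact_mod_cast hc
  have htot := st.tot
  have hEr := st.Er
  have hc0 := st.c0
  have hE2 : Ex y x = x 1 + ∑ j ∈ Icc 2 m, x j := by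
    rw [st.exm]
    exact Icc_two x (by omega)
  have hsum2 := sum_two st.S3 ha hs0 hlt
  set R := S.erase s0 with hR
  have hRS : R ⊆ S := erase_subset _ _
  have hRc : R.card + 1 = S.card := by
    rw [hR, card_erase_of_mem hs0]
    have : 0 < S.card := card_pos.2 ⟨s0, hs0⟩
    omega
  have hRs : s0 + ∑ t ∈ R, t = ∑ t ∈ S, t := add_sum_erase S (fun t => t) hs0
  have hRi : insert s0 R = S := insert_erase hs0
  have hRn : s0 ∉ R := notMem_erase _ _
  have h3R : 3 ∈ S → 3 ∈ R := by
    intro h3
    exact mem_erase.2 ⟨by omega, h3⟩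
  have haR : a ∈ R := mem_erase.2 ⟨by omega, ha⟩
  have hRc1 : 1 ≤ R.card := card_pos.2 ⟨a, haR⟩
  -- the set of the words with one cell in the column 1
  obtain ⟨U, hU, hU3, hUk⟩ : ∃ U ⊆ R, (3 ∈ S → 3 ∈ U) ∧
      ((U.card = 2 * S.card - x 1 ∧ x 1 + U.card = 2 * S.card) ∨
        (2 * S.card ≤ x 1 ∧ U.card ≤ 1 ∧ (U.card = 1 → 3 ∈ S) ∧ (3 ∈ S → U.card = 1))) := by
    rcases Nat.lt_or_ge (x 1) (2 * S.card) with hk | hk
    · obtain ⟨U, hU, hUc, hU3⟩ := exists_sub R (2 * S.card - x 1) (by omega) (by omega)
      exact ⟨U, hU, fun h => hU3 (h3R h), Or.inl ⟨hUc, by omega⟩⟩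
    · by_cases h3 : 3 ∈ S
      · refine ⟨{3}, by simpa using h3R h3, fun _ => by simp, Or.inr ⟨hk, by simp, fun _ => h3,
          fun _ => by simp⟩⟩
      · exact ⟨∅, by simp, fun h => absurd h h3, Or.inr ⟨hk, by simp, fun h => by simp at h,
          fun h => absurd h h3⟩⟩
  have hUc : U.card ≤ R.card := card_le_card hU
  have hsum := sum_one_two R U hU
  set b : ℕ → ℕ := fun t => if t ∈ U then 1 else 2 with hb
  have hb' : ∀ s ∈ R, 1 ≤ b s ∧ b s + 2 ≤ s := by
    intro s hs
    have h3 := st.S3 s (hRS hs)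
    rw [hb]
    dsimp only
    split_ifs with h4
    · omega
    · have h5 : s ≠ 3 := by
        intro h5
        subst h5
        exact h4 (hU3 (hRS hs))
      omega
  have hbs : ∑ s ∈ R, b s + U.card = 2 * R.card := hsum
  have hsub := sum_sub_add (R := R) (b := b) (fun t ht => by
    have := hb' t ht
    omega)
  have hK : (R.filter fun s => b s = 1).card = U.card := by
    congr 1
    ext t
    rw [mem_filter, hb]
    constructor
    · rintro ⟨h4, h5⟩
      by_contra h6
      dsimp only at h5
      rw [if_neg h6] at h5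
      omega
    · intro h4
      exact ⟨hU h4, if_pos h4⟩
  have hf := fin_mix y m x R s0 (x 0 - ∑ s ∈ R, (s - b s)) (x 1 - ∑ s ∈ R, b s) b hm st.my hRn
    hb' (by omega) (by omega) (by omega) (by omega) (fun j h8 h9 => st.mid j (by omega) h9) st.xm
    st.xz (by omega)
  rw [hRi, hK] at hf
  refine comb st _ _ hf ?_ (by linarith)
  rcases hUk with ⟨h4, h5⟩ | ⟨h4, h5, h6, h7⟩
  · rw [if_neg (by omega)]
    -- inequality M1
    rcases fs.f2 hm (by omega) with ⟨d, h8, h9, -, h10⟩ | ⟨d, h8, h9, -⟩
    · have h11 : d + 4 ≤ a := by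
        rcases h10 a ha with h | h
        · omega
        · exact h
      have h12 : U.card + C 1 ≤ C 0 + d := by omega
      have h13 : (U.card : ℤ) + C 1 ≤ C 0 + d := by exact_mod_cast h12
      linarith
    · have h12 : U.card + C 1 ≤ C 0 + d := by omega
      have h13 : (U.card : ℤ) + C 1 ≤ C 0 + d := by exact_mod_cast h12
      linarith
  · by_cases h3 : 3 ∈ S
    · have h8 := h7 h3
      rw [h8, if_pos (by omega)]
      push_cast
      linarith
    · have h8 : U.card = 0 := by
        by_contra h9
        exact h3 (h6 (by omega))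
      rw [h8]
      split_ifs
      · push_cast
        linarith
      · push_cast
        linarith

/-- **The final stage.** -/
theorem fs_goal (fs : FS y τ C al P S x m p g) : Goal y C al := by
  have st := fs.toSt
  have hSne : S.Nonempty := by
    by_contra h
    rw [not_nonempty_iff_eq_empty] at h
    have h1 := st.tot
    rw [h, sum_empty] at h1
    have h2 := st.c0
    have h3 := st.shp.two 0 (by have := st.shp.hy; omega)
    rcases st.tau with h4 | ⟨h4, h5⟩ <;> omega
  have h0 : 0 < S.card := card_pos.2 hSne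
  by_cases h1 : S.card = 1
  · exact fs_one fs h1
  have hr : 2 ≤ S.card := by omega
  by_cases hm : m = 1
  · exact fs_F2 fs hm hr
  have hm2 : 2 ≤ m := by
    have := st.m1
    omega
  obtain ⟨a, ha, ha3, hamin⟩ := exists_ne hr
  have ha4 : 4 ≤ a := by
    have := st.S3 a ha
    omega
  have hE : Ex y x + 2 ≤ a + S.card := by
    rcases fs.stop with h | h | h
    · exact absurd h h1
    · exact absurd h hm
    · exact h a ha ha3 hamin
  by_cases hq : ∃ s ∈ S, s ≠ 3 ∧ s ≠ a
  · -- at least two parts `≥ 4`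
    obtain ⟨s, hs, hs3, hsa⟩ := hq
    have hlt : a < s := by
      rcases hamin s hs with h | h
      · exact absurd h hs3
      · omega
    rcases Nat.lt_or_ge S.card (x 1) with hx | hx
    · exact fs_mix fs hm2 a s ha ha4 hs hlt hE (by omega)
    · apply fs_star fs hm2 hr s hs (by omega)
      have hsum2 := sum_two st.S3 ha hs hlt
      have hsum2' := sum_two' st.S3 ha hs hlt
      have htot := st.tot
      have hc0 := st.c0
      rcases fs.f2 hm2 hr with ⟨d, h8, -, h9, h10⟩ | ⟨d, h8, -, h10⟩
      · have h11 : d + 4 ≤ a := by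
          rcases h10 a ha with h | h
          · omega
          · exact h
        rcases h9 with h9 | h9 <;> omega
      · have h11 : d + 3 ≤ a := by
          rcases h10 a ha with h | h
          · omega
          · exact h
        omega
  · push Not at hq
    have h3 : 3 ∈ S := by
      by_contra h3
      have h4 : S ⊆ {a} := by
        intro t ht
        rw [mem_singleton]
        apply hq t ht
        intro h5
        exact h3 (h5 ▸ ht)
      have h5 := card_le_card h4
      rw [card_singleton] at h5
      omega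
    have hSa : S = insert a {3} := by
      ext t
      rw [mem_insert, mem_singleton]
      constructor
      · intro ht
        by_cases h4 : t = 3
        · exact Or.inr h4
        · exact Or.inl (hq t ht h4)
      · rintro (rfl | rfl)
        · exact ha
        · exact h3
    have hcard : S.card = 2 := by
      rw [hSa, card_insert_of_notMem (by simpa using ha3), card_singleton]
    exact fs_pair fs hm2 h3 a ha3 hSa (by omega)

end

end Pool.Agent.RST
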