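import Pool.Agent.RST.RectD
import Pool.Agent.RST.DSum

/-!
# RST/Rect3: rectangles with columns of length 3
-/

set_option autoImplicit false
set_option linter.unusedSimpArgs false

namespace Pool.Agent.RST

open Finset

theorem real_chainM (p : List ℕ) (β : Multiset ℕ) (j : ℕ) (h4 : ∀ b ∈ β, 4 ≤ b)
    (hnd : ((p : Multiset ℕ) + β).Nodup) (hs : ((p : Multiset ℕ) + β).sum = 3 * j)
    (hstr : ∀ L : List ℕ, (∀ b ∈ L, 4 ≤ b) → (p ++ L).sum = 3 * j → Str (3 * j) (p ++ L)) :
    Real ((p : Multiset ℕ) + β) (List.replicate j 3) := by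
  have e : (p : Multiset ℕ) + β = ((p ++ β.toList : List ℕ) : Multiset ℕ) := by
    rw [← Multiset.coe_add, Multiset.coe_toList]
  rw [e]
  rw [e] at hnd hs
  apply real_chain3
  · exact Multiset.coe_nodup.1 hnd
  · apply hstr
    · intro b hb
      exact h4 b (Multiset.mem_toList.1 hb)
    · rw [← Multiset.sum_coe]
      exact hs

theorem real_three_mul (k : ℕ) (hk : 2 ≤ k) : Real {3 * k} (List.replicate k 3) := by
  have := real_chain3 [3 * k] k (by simp) (by
    refine ⟨le_refl _, by omega, by omega, ?_⟩
    change 3 * k - 3 * k = 0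
    omega)
  exact this

/-- adding parts which are multiples of 3 -/
theorem real_add_mul3 (κ : Multiset ℕ) (k : ℕ) (h : Real κ (List.replicate k 3)) (δ : Multiset ℕ)
    (hδ : ∀ d ∈ δ, d % 3 = 0 ∧ 4 ≤ d) (j : ℕ) (hj : (κ + δ).sum = 3 * j) (hk : κ.sum = 3 * k) :
    Real (κ + δ) (List.replicate j 3) := by
  induction δ using Multiset.induction_on generalizing κ k with
  | empty =>
    rw [add_zero] at hj ⊢
    have : k = j := by omega
    rw [← this]
    exact h
  | cons d δ ih =>
    obtain ⟨h1, h2⟩ := hδ d (Multiset.mem_cons_self d δ)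
    have h3 : Real (κ + {d}) (List.replicate (k + d / 3) 3) := by
      have h4 := real_three_mul (d / 3) (by omega)
      rw [show 3 * (d / 3) = d by omega] at h4
      have := real_add κ {d} _ _ h h4
      rw [List.replicate_append_replicate] at this
      exact this
    have e : κ + d ::ₘ δ = (κ + {d}) + δ := by
      rw [add_assoc, Multiset.singleton_add]
    rw [e] at hj ⊢
    apply ih (κ + {d}) (k + d / 3) h3
    · intro x hx
      exact hδ x (Multiset.mem_cons_of_mem hx)
    · exact hj
    · rw [Multiset.sum_add, Multiset.sum_singleton, hk]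
      omega

theorem core_u3 (u : ℕ) (h1 : u % 3 = 0) (h2 : 4 ≤ u) :
    Real {u, 3} (List.replicate (u / 3 + 1) 3) := by
  rcases Nat.lt_or_ge u 9 with h | h
  · have : u = 6 := by omega
    subst this
    exact spor_63_333
  · obtain ⟨n, hn⟩ : ∃ n, u = 3 * n + 9 := ⟨(u - 9) / 3, by omega⟩
    have := F4_real n
    rw [hn, show (3 * n + 9) / 3 + 1 = n + 4 by omega]
    exact this

theorem core_b2 (b : ℕ) (h1 : b % 3 = 1) (h2 : 7 ≤ b) :
    Real {b, 2} (List.replicate ((b + 2) / 3) 3) := by
  rcases Nat.lt_or_ge b 10 with h | h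
  · have : b = 7 := by omega
    subst this
    exact spor_72_333
  · obtain ⟨n, hn⟩ : ∃ n, b = 3 * n + 10 := ⟨(b - 10) / 3, by omega⟩
    have := F1_real n
    rw [hn, show (3 * n + 10 + 2) / 3 = n + 4 by omega]
    exact this

theorem core_u42 (u : ℕ) (h1 : u % 3 = 0) (h2 : 4 ≤ u) :
    Real {u, 4, 2} (List.replicate (u / 3 + 2) 3) := by
  rcases Nat.lt_or_ge u 9 with h | h
  · have : u = 6 := by omega
    subst this
    exact spor_642_3333
  · obtain ⟨n, hn⟩ : ∃ n, u = 3 * n + 9 := ⟨(u - 9) / 3, by omega⟩
    have := F2_real n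
    rw [hn, show (3 * n + 9) / 3 + 2 = n + 5 by omega]
    exact this

theorem core_b32 (b : ℕ) (h1 : b % 3 = 1) (h2 : 4 ≤ b) :
    Real {b, 3, 2} (List.replicate ((b + 5) / 3) 3) := by
  rcases Nat.lt_or_ge b 13 with h | h
  · rcases (show b = 4 ∨ b = 7 ∨ b = 10 by omega) with rfl | rfl | rfl
    · exact spor_432_333
    · exact spor_732_3333
    · exact spor_10_3_2
  · obtain ⟨n, hn⟩ : ∃ n, b = 3 * n + 13 := ⟨(b - 13) / 3, by omega⟩
    have := F3_real n
    rw [hn, show (3 * n + 13 + 5) / 3 = n + 6 by omega]
    exact this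

theorem sum_mod3 (γ : Multiset ℕ) (h : ∀ g ∈ γ, g % 3 = 0) : γ.sum % 3 = 0 := by
  have : 3 ∣ γ.sum := Multiset.dvd_sum fun g hg => Nat.dvd_of_mod_eq_zero (h g hg)
  omega

/-- chains starting with the block `q` (remaining `≡ 1 mod 3`), then 2, then 3 if present -/
theorem real_two_chain (q : List ℕ) (β : Multiset ℕ) (j : ℕ) (hβ : ∀ b ∈ β, 3 ≤ b)
    (hnd : ((q ++ [2] : List ℕ) + β : Multiset ℕ).Nodup)
    (hs : ((q ++ [2] : List ℕ) + β : Multiset ℕ).sum = 3 * j) (hq : q.sum % 3 = 2)
    (hq4 : ∀ a ∈ q, 4 ≤ a) :
    Real (((q ++ [2] : List ℕ) : Multiset ℕ) + β) (List.replicate j 3) := by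
  have key : ∀ (q : List ℕ) (N : ℕ) (T : List ℕ), (∀ a ∈ q, 4 ≤ a) → q.sum ≤ N →
      Str (N - q.sum) T → Str N (q ++ T) := by
    intro q
    induction q with
    | nil => intro N T _ _ h; simpa using h
    | cons a q ih =>
      intro N T h1 h2 h3
      rw [List.sum_cons] at h2 h3
      have h4 := h1 a (by simp)
      refine ⟨by omega, by omega, by omega, ?_⟩
      apply ih
      · intro b hb; exact h1 b (by simp [hb])
      · omega
      · rw [show N - a - q.sum = N - (a + q.sum) by omega]; exact h3
  by_cases h3 : 3 ∈ β
  · obtain ⟨γ, rfl⟩ := Multiset.exists_cons_of_mem h3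
    have e : ((q ++ [2] : List ℕ) : Multiset ℕ) + 3 ::ₘ γ =
        ((q ++ [2, 3] : List ℕ) : Multiset ℕ) + γ := by
      rw [show q ++ [2, 3] = q ++ [2] ++ [3] by simp, ← Multiset.coe_add (q ++ [2]) [3],
        Multiset.coe_singleton, add_assoc, Multiset.singleton_add]
    rw [e] at hnd hs ⊢
    have hγ : ∀ b ∈ γ, 4 ≤ b := by
      intro b hb
      have h5 := hβ b (Multiset.mem_cons_of_mem hb)
      rcases Nat.eq_or_lt_of_le h5 with h6 | h6
      · exfalso
        rw [← h6] at hb
        have := (Multiset.nodup_add.1 hnd).2.2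
        rw [Multiset.disjoint_left] at this
        exact this (by simp) hb
      · exact h6
    apply real_chainM _ _ _ hγ hnd hs
    intro L hL hsL
    rw [List.append_assoc]
    simp only [List.sum_append, List.sum_cons, List.sum_nil] at hsL
    apply key q _ _ hq4 (by omega)
    refine ⟨by omega, by omega, by omega, by omega, by omega, by omega, ?_⟩
    exact str_of_four L _ hL (by omega)
  · have hγ : ∀ b ∈ β, 4 ≤ b := by
      intro b hb
      have h5 := hβ b hb
      rcases Nat.eq_or_lt_of_le h5 with h6 | h6
      · exfalso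
        rw [← h6] at hb
        exact h3 hb
      · exact h6
    apply real_chainM _ _ _ hγ hnd hs
    intro L hL hsL
    rw [List.append_assoc]
    simp only [List.sum_append, List.sum_cons, List.sum_nil] at hsL
    apply key q _ _ hq4 (by omega)
    refine ⟨by omega, by omega, by omega, ?_⟩
    exact str_of_four L _ hL (by omega)

/-- **Rectangles with columns of length 3.** -/
theorem real_rect3 (α : Multiset ℕ) (j : ℕ) (hnd : α.Nodup) (h2 : ∀ a ∈ α, 2 ≤ a)
    (h23 : 2 ∈ α ∨ 3 ∈ α) (hc : 2 ≤ Multiset.card α) (hs : α.sum = 3 * j) (hne : α ≠ {4, 2}) :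
    Real α (List.replicate j 3) := by
  by_cases hm2 : 2 ∈ α
  · obtain ⟨γ, rfl⟩ := Multiset.exists_cons_of_mem hm2
    rw [Multiset.nodup_cons] at hnd
    have hγ : ∀ b ∈ γ, 3 ≤ b := by
      intro b hb
      have := h2 b (Multiset.mem_cons_of_mem hb)
      rcases Nat.eq_or_lt_of_le this with h6 | h6
      · exfalso
        rw [← h6] at hb
        exact hnd.1 hb
      · exact h6
    by_cases hB1 : ∃ a ∈ γ, a % 3 = 2
    · obtain ⟨a, ha, ha3⟩ := hB1
      obtain ⟨δ, rfl⟩ := Multiset.exists_cons_of_mem ha
      have h5 := hγ a ha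
      have e : 2 ::ₘ a ::ₘ δ = (([a] ++ [2] : List ℕ) : Multiset ℕ) + δ := by
        rw [Multiset.cons_swap]
        simp only [List.cons_append, List.nil_append, ← Multiset.cons_coe, Multiset.coe_nil,
          Multiset.insert_eq_cons, Multiset.cons_add, Multiset.singleton_add, zero_add]
      rw [e] at hs ⊢
      apply real_two_chain [a] δ j (fun b hb => hγ b (Multiset.mem_cons_of_mem hb))
      · rw [← e]; exact Multiset.nodup_cons.2 hnd
      · exact hs
      · simpa using ha3
      · intro x hx; rw [List.mem_singleton] at hx; omega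
    · push Not at hB1
      by_cases hB2 : ∃ a ∈ γ, a % 3 = 1
      · obtain ⟨a, ha, ha3⟩ := hB2
        obtain ⟨δ, rfl⟩ := Multiset.exists_cons_of_mem ha
        have h5 := hγ a ha
        rw [Multiset.nodup_cons] at hnd
        by_cases hB3 : ∃ b ∈ δ, b % 3 = 1
        · obtain ⟨b, hb, hb3⟩ := hB3
          obtain ⟨ε, rfl⟩ := Multiset.exists_cons_of_mem hb
          have h6 := hγ b (Multiset.mem_cons_of_mem hb)
          have e : 2 ::ₘ a ::ₘ b ::ₘ ε = (([a, b] ++ [2] : List ℕ) : Multiset ℕ) + ε := by
            rw [Multiset.cons_swap, Multiset.cons_swap 2 b]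
            simp only [List.cons_append, List.nil_append, ← Multiset.cons_coe, Multiset.coe_nil,
              Multiset.insert_eq_cons, Multiset.cons_add, Multiset.singleton_add, zero_add]
          rw [e] at hs ⊢
          apply real_two_chain [a, b] ε j
            (fun x hx => hγ x (Multiset.mem_cons_of_mem (Multiset.mem_cons_of_mem hx)))
          · rw [← e, Multiset.nodup_cons, Multiset.nodup_cons]; exact hnd
          · exact hs
          · simp; omega
          · intro x hx
            simp only [List.mem_cons, List.not_mem_nil, or_false] at hx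
            omega
        · push Not at hB3
          have hδ : ∀ d ∈ δ, d % 3 = 0 := by
            intro d hd
            have h6 := hB3 d hd
            have h7 := hB1 d (Multiset.mem_cons_of_mem hd)
            omega
          by_cases h3 : 3 ∈ δ
          · obtain ⟨ε, rfl⟩ := Multiset.exists_cons_of_mem h3
            have hnd2 := hnd.2.2
            rw [Multiset.nodup_cons] at hnd2
            have e : 2 ::ₘ a ::ₘ 3 ::ₘ ε = ({a, 3, 2} : Multiset ℕ) + ε := by
              rw [Multiset.cons_swap, Multiset.cons_swap 2 3]
              simp only [List.cons_append, List.nil_append, ← Multiset.cons_coe, Multiset.coe_nil,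
                Multiset.insert_eq_cons, Multiset.cons_add, Multiset.singleton_add, zero_add]
            rw [e] at hs ⊢
            apply real_add_mul3 _ _ (core_b32 a ha3 (by omega)) _ _ _ hs
            · simp; omega
            · intro d hd
              have h6 := hδ d (Multiset.mem_cons_of_mem hd)
              have h7 := hγ d (Multiset.mem_cons_of_mem (Multiset.mem_cons_of_mem hd))
              have h8 : d ≠ 3 := by
                intro h9
                rw [h9] at hd
                exact hnd2.1 hd
              omega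
          · have hδ4 : ∀ d ∈ δ, d % 3 = 0 ∧ 4 ≤ d := by
              intro d hd
              have h6 := hδ d hd
              have h7 := hγ d (Multiset.mem_cons_of_mem hd)
              have h8 : d ≠ 3 := by
                intro h9
                rw [h9] at hd
                exact h3 hd
              omega
            by_cases ha4 : a = 4
            · subst ha4
              have hδ0 : δ ≠ 0 := by
                intro h0
                apply hne
                rw [h0, Multiset.cons_swap]
                rfl
              obtain ⟨u, hu⟩ := Multiset.exists_mem_of_ne_zero hδ0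
              obtain ⟨ε, rfl⟩ := Multiset.exists_cons_of_mem hu
              obtain ⟨h6, h7⟩ := hδ4 u hu
              have e : 2 ::ₘ 4 ::ₘ u ::ₘ ε = ({u, 4, 2} : Multiset ℕ) + ε := by
                have e1 : 2 ::ₘ 4 ::ₘ u ::ₘ ε = u ::ₘ 4 ::ₘ 2 ::ₘ ε := by
                  rw [Multiset.cons_swap 4 u, Multiset.cons_swap 2 u, Multiset.cons_swap 2 4]
                rw [e1]
                simp only [List.cons_append, List.nil_append, ← Multiset.cons_coe, Multiset.coe_nil,
                  Multiset.insert_eq_cons, Multiset.cons_add, Multiset.singleton_add, zero_add]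
              rw [e] at hs ⊢
              apply real_add_mul3 _ _ (core_u42 u h6 h7) _ _ _ hs
              · simp; omega
              · intro d hd
                exact hδ4 d (Multiset.mem_cons_of_mem hd)
            · have e : 2 ::ₘ a ::ₘ δ = ({a, 2} : Multiset ℕ) + δ := by
                rw [Multiset.cons_swap]
                simp only [List.cons_append, List.nil_append, ← Multiset.cons_coe, Multiset.coe_nil,
                  Multiset.insert_eq_cons, Multiset.cons_add, Multiset.singleton_add, zero_add]
              rw [e] at hs ⊢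
              apply real_add_mul3 _ _ (core_b2 a ha3 (by omega)) _ hδ4 _ hs
              simp; omega
      · exfalso
        push Not at hB2
        have := sum_mod3 γ (by
          intro g hg
          have := hB1 g hg
          have := hB2 g hg
          omega)
        rw [Multiset.sum_cons] at hs
        omega
  · have hm3 : 3 ∈ α := by tauto
    obtain ⟨γ, rfl⟩ := Multiset.exists_cons_of_mem hm3
    rw [Multiset.nodup_cons] at hnd
    have hγ : ∀ b ∈ γ, 4 ≤ b := by
      intro b hb
      have h5 := h2 b (Multiset.mem_cons_of_mem hb)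
      have h6 : b ≠ 3 := by
        intro h9
        rw [h9] at hb
        exact hnd.1 hb
      have h7 : b ≠ 2 := by
        intro h9
        rw [h9] at hb
        exact hm2 (Multiset.mem_cons_of_mem hb)
      omega
    by_cases hA1 : ∃ a ∈ γ, a % 3 ≠ 0
    · obtain ⟨a, ha, ha3⟩ := hA1
      obtain ⟨δ, rfl⟩ := Multiset.exists_cons_of_mem ha
      have h5 := hγ a ha
      have e : 3 ::ₘ a ::ₘ δ = (([a, 3] : List ℕ) : Multiset ℕ) + δ := by
        rw [Multiset.cons_swap]
        simp only [List.cons_append, List.nil_append, ← Multiset.cons_coe, Multiset.coe_nil,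
          Multiset.insert_eq_cons, Multiset.cons_add, Multiset.singleton_add, zero_add]
      rw [e] at hs ⊢
      apply real_chainM _ _ _ (fun b hb => hγ b (Multiset.mem_cons_of_mem hb))
      · rw [← e]; exact Multiset.nodup_cons.2 hnd
      · exact hs
      · intro L hL hsL
        simp only [List.cons_append, List.nil_append, List.sum_cons] at hsL
        refine ⟨by omega, by omega, by omega, by omega, by omega, by omega, ?_⟩
        exact str_of_four L _ hL (by omega)
    · push Not at hA1
      have hγ0 : γ ≠ 0 := by
        intro h0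
        rw [h0] at hc
        simp at hc
      obtain ⟨u, hu⟩ := Multiset.exists_mem_of_ne_zero hγ0
      obtain ⟨δ, rfl⟩ := Multiset.exists_cons_of_mem hu
      have h5 := hγ u hu
      have h6 := hA1 u hu
      have e : 3 ::ₘ u ::ₘ δ = ({u, 3} : Multiset ℕ) + δ := by
        rw [Multiset.cons_swap]
        simp only [List.cons_append, List.nil_append, ← Multiset.cons_coe, Multiset.coe_nil,
          Multiset.insert_eq_cons, Multiset.cons_add, Multiset.singleton_add, zero_add]
      rw [e] at hs ⊢
      apply real_add_mul3 _ _ (core_u3 u h6 h5) _ _ _ hs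
      · simp; omega
      · intro d hd
        exact ⟨hA1 d (Multiset.mem_cons_of_mem hd), hγ d (Multiset.mem_cons_of_mem hd)⟩

end Pool.Agent.RST
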