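import Pool.Agent.RST.Chn3
import Pool.Agent.RST.DsrL
import Pool.Agent.RST.Rect3

/-!
# RST/Ind: initial states and the induction
-/

set_option autoImplicit false

namespace Pool.Agent.RST

open Finset

/-- start without tail cells -/
theorem startC {y τ : ℕ} {C : ℕ → ℕ} {al : Finset ℕ} {P : List Mt} {S : Finset ℕ} {x : ℕ → ℕ}
    {g : ℕ} (hne : ¬ Exc y C al) (st : St y τ C al P S x (y - 1) 0 g)
    (full : ∀ j, 1 ≤ j → j + 2 ≤ y - 1 → x j = C j) (c1 : 2 ≤ y - 1 → C (y - 2) = x (y - 2))
    (f1 : y - 1 = 1 → x 1 = C 1 ∨
      (1 ≤ g ∧ ∃ w, 3 ≤ w ∧ C 1 + 3 ≤ x 1 + 2 * g + w ∧ ∀ t ∈ S, t = 3 ∨ w + 1 ≤ t))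
    (hnr : C 0 ≤ 3 → 3 ∈ S → 2 ≤ S.card → x (y - 1) ≤ 2)
    (hP : (P = [] ∧ C y = 0) ∨ (C 0 ≤ 3 ∧ x (y - 1) = 2)) : Goal y C al := by
  have hy := st.shp.hy
  by_cases hx : 3 ∈ S ∧ 2 ≤ S.card ∧ 3 + S.card ≤ Ex y x + 1 ∧ x (y - 1) ≤ 2 ∧ 2 ≤ y - 1
  · obtain ⟨h3, hr, hE, hx2, hy1⟩ := hx
    have h3e : 3 ∉ S.erase 3 := by simp
    obtain ⟨q, x', m', g', hlen, st'⟩ := st_cross st hy1 hr full
      (by rw [show y - 1 - 1 = y - 2 by omega]; have := c1 hy1; omega) 3 h3 (by
        intro t ht
        rw [mem_erase] at ht
        have := st.S3 t ht.2
        right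
        omega) hE (by omega) (fun _ => Or.inl h3e) (by
        rintro ⟨h, -⟩
        omega)
    exact loopC hne _ _ _ _ _ _ _ rfl st' (fun h => absurd h h3e)
  · have hc0 := st.c0
    have htot := st.tot
    have hsmall : C 0 ≤ 3 → 3 ∈ S → 2 ≤ S.card → False := by
      intro hc h3 hr
      have hx0 : x 0 ≤ 3 := by omega
      apply hx
      refine ⟨h3, hr, ?_, hnr hc h3 hr, ?_⟩
      · by_contra h
        exact small_aux st.S3 hx0 htot hr (by omega)
      · by_contra h
        have h4 : y - 1 = 1 := by omega
        have h5 := st.exm
        rw [h4] at h5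
        have h6 := sum_four st.S3
        have h7 := hnr hc h3 hr
        rw [h4] at h7
        simp only [Icc_self, sum_singleton] at h5
        omega
    have st' : StC y τ C al P S x (y - 1) 0 g := by
      refine ⟨st, by omega, full, ?_, ?_, ?_, ?_, f1, ?_⟩
      · intro h
        rw [show y - 1 - 1 = y - 2 by omega, c1 h]
        ring
      · intro h
        rw [show y - 1 - 1 = y - 2 by omega, ← c1 h]
        have h1 := st.xle (y - 1) (by omega) (by omega)
        have h2 := st.shp.anti (y - 2) (y - 1) (by omega) (by omega)
        omega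
      · intro _ h
        omega
      · intro _ t ht
        have := st.S3 t ht
        omega
      · intro hc
        by_contra hcon
        rw [not_or, not_not] at hcon
        have h1 : 1 ≤ S.card := card_pos.2 ⟨3, hcon.1⟩
        exact hsmall hc hcon.1 (by omega)
    refine loopC hne _ _ _ _ _ _ _ rfl st' ?_
    intro h3
    by_cases h1 : S.card = 1
    · exact Or.inl h1
    have hr : 2 ≤ S.card := by
      have : 1 ≤ S.card := card_pos.2 ⟨3, h3⟩
      omega
    right
    rcases hP with ⟨hP, hCy⟩ | ⟨hc, -⟩
    · by_cases hE : Ex y x ≤ S.card + 1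
      · exact Or.inl ⟨hP, hE⟩
      · right
        have hx3 : 3 ≤ x (y - 1) := by
          by_contra hcon
          apply hx
          refine ⟨h3, hr, by omega, by omega, ?_⟩
          by_contra h
          have h4 : y - 1 = 1 := by omega
          have h5 := st.exm
          rw [h4] at h5 hcon
          simp only [Icc_self, sum_singleton] at h5
          omega
        have h4 := st.xle (y - 1) (by omega) (by omega)
        subst hP
        refine ⟨hCy, by omega, ?_, ?_, ?_, ?_, ?_⟩
        · intro _ h
          omega
        · omega
        · intro _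
          omega
        · intro t ht
          have := st.S3 t ht
          simp only [List.length_nil]
          omega
        · intro w hw
          simp [wdP] at hw
    · exact absurd (hsmall hc h3 hr) (by simp)

/-- the initial state without placed mountains -/
theorem init_St {y τ m : ℕ} {C x : ℕ → ℕ} {al S : Finset ℕ} (shp : Shp y C)
    (tau : τ = 0 ∨ (τ = 1 ∧ 4 ≤ C 0)) (len : S.val + Multiset.replicate τ 2 = al.val)
    (S3 : ∀ a ∈ S, 3 ≤ a) (h0 : x 0 + 2 * τ = C 0) (hx : ∀ j, 1 ≤ j → x j = C j)
    (tot : ∑ a ∈ S, a + 2 * τ = C 0 + Ex y C) (hE : S.card ≤ Ex y C)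
    (hm : (m = y ∧ 1 ≤ C y) ∨ (m + 1 = y ∧ C y = 0)) :
    St y τ C al [] S x m 0 0 := by
  have hy := shp.hy
  have hEx : Ex y x = Ex y C := by
    unfold Ex
    apply sum_congr rfl
    intro j hj
    rw [mem_Icc] at hj
    exact hx j hj.1
  constructor
  · exact shp
  · exact tau
  · rw [← len]
    simp [lnP, wdP]
  · exact S3
  · intro p hp
    simp at hp
  · intro p hp
    simp at hp
  · intro j h1 _
    have h2 : cntP ([] : List Mt) j = 0 := rfl
    rw [h2, hx j h1]
    ring
  · exact h0
  · rw [hEx]
    omega
  · omega
  · omega
  · rw [hx m (by omega)]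
    rcases hm with ⟨h1, h2⟩ | ⟨h1, h2⟩
    · rw [h1]
      exact h2
    · have := shp.two m (by omega)
      omega
  · intro j h1 h2
    rw [hx j (by omega)]
    rcases hm with ⟨h3, h4⟩ | ⟨h3, h4⟩
    · omega
    · rw [show j = y by omega]
      exact h4
  · intro j h1 h2
    rw [hx j h1]
    exact shp.two j (by omega)
  · intro b hb
    rw [ebP_nil]
    split_ifs <;> norm_num
  · intro b hb h1
    rw [ebP_nil]
    have h2 : C (b + 1) ≤ C b := shp.anti b (b + 1) (by omega) hb
    have h3 : (C (b + 1) : ℤ) ≤ C b := by exact_mod_cast h2
    linarith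
  · intro _
    rw [ebP_nil]
    norm_num
  · intro _
    rw [ebP_nil]
    norm_num
  · intro b _
    rw [ebP_nil]
  · intro h1 h2
    rw [hx m (by omega)] at h2
    have := shp.two m h1
    omega
  · intro h1 h2
    omega
  · rw [hEx]
    exact hE

/-- the initial state with the 2-cycle placed as `y - 1, y` -/
theorem init_MA {y m p g : ℕ} {C x : ℕ → ℕ} {al S : Finset ℕ} (shp : Shp y C)
    (len : 2 ::ₘ S.val = al.val) (S3 : ∀ a ∈ S, 3 ≤ a) (hx : ∀ j, j + 1 < y → x j = C j)
    (hxy1 : x (y - 1) + 1 = C (y - 1)) (hxy : x y + 1 = C y)
    (hE : S.card + 2 ≤ Ex y C) (tot : ∑ a ∈ S, a + 2 = C 0 + Ex y C)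
    (hm : (m = y ∧ 1 ≤ x y ∧ p = 1 ∧ g = 0 ∧ 2 ≤ x (y - 1)) ∨
      (m + 1 = y ∧ x y = 0 ∧ p = 0 ∧ g = 1)) :
    ∃ q : Mt, lnP [q] = {2} ∧ St y 0 C al [q] S x m p g := by
  have hy := shp.hy
  obtain ⟨f, hf1, hf2, hf0⟩ : ∃ f : ℕ → ℕ, f (y - 1) = 1 ∧ f y = 1 ∧
      ∀ j, j ≠ y - 1 → j ≠ y → f j = 0 :=
    ⟨fun j => if j = y - 1 then 1 else if j = y then 1 else 0, by simp, by
      show (if y = y - 1 then 1 else if y = y then 1 else 0) = 1
      rw [if_neg (by omega), if_pos rfl], by
      intro j h1 h2
      show (if j = y - 1 then 1 else if j = y then 1 else 0) = 0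
      rw [if_neg h1, if_neg h2]⟩
  have hok : MtOK (y - 1) y f := by
    refine ⟨by omega, by omega, by omega, ?_, ?_⟩
    · intro k h1 h2
      omega
    · intro k h1
      exact hf0 k (by omega) (by omega)
  have hlen : (mt (y - 1) y f).length = 2 := by
    rw [hok.length y (le_refl _), sum_range_succ, hf2]
    have h1 : ∑ k ∈ range y, f k = f (y - 1) := by
      apply sum_eq_single
      · intro b hb h1
        rw [mem_range] at hb
        exact hf0 b h1 (by omega)
      · intro h
        rw [mem_range] at h
        omega
    rw [h1, hf1]
  have hln : lnP [⟨y - 1, y, f⟩] = {2} := by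
    rw [lnP_cons]
    simp only
    rw [hlen]
    rfl
  have hcnt : ∀ j, cntP [⟨y - 1, y, f⟩] j = f j := by
    intro j
    simp [cntP]
  have heb : ∀ b ρ, ebP [⟨y - 1, y, f⟩] b ρ = eb (y - 1) y f b ρ := by
    intro b ρ
    rw [ebP_cons, ebP_nil, add_zero]
  have hEx : Ex y x + 2 = Ex y C := by
    unfold Ex
    have h1 : Icc 1 y = insert y (insert (y - 1) (Icc 1 (y - 2))) := by
      ext j
      rw [mem_insert, mem_insert, mem_Icc, mem_Icc]
      omega
    rw [h1, sum_insert, sum_insert, sum_insert, sum_insert]
    · have h2 : ∑ j ∈ Icc 1 (y - 2), x j = ∑ j ∈ Icc 1 (y - 2), C j := by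
        apply sum_congr rfl
        intro j hj
        rw [mem_Icc] at hj
        exact hx j (by omega)
      omega
    · rw [mem_Icc]
      omega
    · rw [mem_insert, mem_Icc]
      omega
    · rw [mem_Icc]
      omega
    · rw [mem_insert, mem_Icc]
      omega
  refine ⟨⟨y - 1, y, f⟩, hln, ?_⟩
  constructor
  · exact shp
  · exact Or.inl rfl
  · rw [hln, ← len, Multiset.replicate_zero, add_zero, Multiset.singleton_add]
  · exact S3
  · intro r hr
    rw [List.mem_singleton] at hr
    subst hr
    exact ⟨hok, le_refl _⟩
  · intro r hr
    rw [List.mem_singleton] at hr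
    subst hr
    simp only
    omega
  · intro j h1 h2
    rw [hcnt]
    rcases Nat.lt_or_ge (j + 1) y with h3 | h3
    · rw [hf0 j (by omega) (by omega), hx j h3, zero_add]
    · rcases Nat.lt_or_ge j y with h4 | h4
      · have h5 : j = y - 1 := by omega
        rw [h5, hf1]
        omega
      · have h5 : j = y := by omega
        rw [h5, hf2]
        omega
  · rw [hx 0 (by omega)]
    ring
  · rw [hx 0 (by omega)]
    omega
  · omega
  · omega
  · rcases hm with ⟨h1, h2, -⟩ | ⟨h1, h2, -⟩
    · rw [h1]
      exact h2
    · have := shp.two (y - 1) (by omega)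
      rw [show m = y - 1 by omega]
      omega
  · intro j h1 h2
    rcases hm with ⟨h3, -⟩ | ⟨h3, h4, -⟩
    · omega
    · rw [show j = y by omega]
      exact h4
  · intro j h1 h2
    rcases Nat.lt_or_ge (j + 1) y with h3 | h3
    · rw [hx j h3]
      exact shp.two j (by omega)
    · rcases hm with ⟨h4, -, -, -, h5⟩ | ⟨h4, -⟩
      · rw [show j = y - 1 by omega]
        exact h5
      · omega
  · intro b hb
    rw [heb]
    unfold eb
    rw [if_pos rfl, if_neg (show ¬ b = y by omega),
      if_neg (show ¬ (b = y - 1 ∧ f (y - 1) = 1) by omega)]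
    split_ifs <;> norm_num
  · intro b hb h1
    omega
  · intro h1
    rw [heb]
    rcases hm with ⟨h4, -⟩ | ⟨h4, -, -, h5⟩
    · omega
    · have h6 := eb_succ (y - 1) y f (m - 1)
      rw [show m - 1 + 1 = m by omega] at h6
      rw [h6, if_pos (by omega), if_neg (by omega), if_neg (by omega), h5]
      norm_num
  · intro h1
    rw [heb]
    have h6 := eb_succ (y - 1) y f (m - 2)
    rw [show m - 2 + 1 = m - 1 by omega] at h6
    rw [h6]
    rcases hm with ⟨h4, -, h5, -⟩ | ⟨h4, -, h5, -⟩
    · rw [if_pos (by omega), if_neg (by omega), if_neg (by omega), h5]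
      norm_num
    · rw [if_neg (by omega), if_neg (by omega), if_neg (by omega), h5]
      norm_num
  · intro b hb
    rw [heb, eb_succ, if_neg (by omega), if_neg (by omega), if_neg (by omega)]
    norm_num
  · intro h1 _
    rcases hm with ⟨h4, -⟩ | ⟨h4, -, -, h5⟩ <;> omega
  · intro h1 h2
    omega
  · omega

/-- start without placed mountains (`τ = 0`: `2 ∉ al`, `τ = 1`: the 2-cycle is the word `0 0`) -/
theorem start0 {y τ : ℕ} {C : ℕ → ℕ} {al S : Finset ℕ} (shp : Shp y C) (hne : ¬ Exc y C al)
    (hds : DSR y C al) (hE2 : al.card + y ≤ ∑ j ∈ range y, C j)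
    (tau : τ = 0 ∨ (τ = 1 ∧ 4 ≤ C 0)) (len : S.val + Multiset.replicate τ 2 = al.val)
    (S3 : ∀ a ∈ S, 3 ≤ a) (tot : ∑ a ∈ S, a + 2 * τ = C 0 + Ex y C) (hE : S.card ≤ Ex y C)
    (hnr : C 0 ≤ 3 → 3 ∈ S → 2 ≤ S.card → C y = 0 → C (y - 1) ≤ 2) : Goal y C al := by
  have hy := shp.hy
  have h4 : 2 * τ ≤ C 0 := by rcases tau with h | ⟨h, h'⟩ <;> omega
  obtain ⟨x, h0, hx⟩ : ∃ x : ℕ → ℕ, x 0 + 2 * τ = C 0 ∧ ∀ j, 1 ≤ j → x j = C j :=
    ⟨fun j => if j = 0 then C 0 - 2 * τ else C j, by
      show (if 0 = 0 then C 0 - 2 * τ else C 0) + 2 * τ = C 0
      rw [if_pos rfl]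
      omega, by
      intro j hj
      show (if j = 0 then C 0 - 2 * τ else C j) = C j
      rw [if_neg (by omega)]⟩
  rcases Nat.eq_zero_or_pos (C y) with hCy | hCy
  · have st := init_St (m := y - 1) shp tau len S3 h0 hx tot hE (Or.inr ⟨by omega, hCy⟩)
    refine startC hne st (fun j h1 _ => hx j h1) (fun h => (hx (y - 2) (by omega)).symm)
      (fun h => Or.inl (hx 1 (le_refl _))) ?_ (Or.inl ⟨rfl, hCy⟩)
    intro h1 h2 h3
    rw [hx (y - 1) (by omega)]
    exact hnr h1 h2 h3 hCy
  · have st := init_St (m := y) shp tau len S3 h0 hx tot hE (Or.inl ⟨rfl, hCy⟩)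
    have stT : StT y τ C al [] S x 0 := by
      refine ⟨st, fun j h1 _ => hx j h1, ?_, rfl, ?_, ?_, ?_⟩
      · rw [hx (y - 1) (by omega)]
        ring
      · rw [hx y (by omega)]
        simp [lnP, wdP]
      · rw [hx (y - 1) (by omega)]
        exact shp.two (y - 1) (by omega)
      · intro _ t ht
        have := S3 t ht
        omega
    exact loopT hne hds hE2 _ _ _ _ _ rfl stT

theorem Ex_range {y : ℕ} (C : ℕ → ℕ) : ∑ j ∈ range (y + 1), C j = C 0 + Ex y C :=
  sum_range_Icc C y

/-- **The main theorem** for sorted shapes. -/
theorem mainAt (y : ℕ) (hy : 1 ≤ y) : MainAt y := by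
  induction y with
  | zero => omega
  | succ z ih =>
    rcases Nat.eq_zero_or_pos z with hz | hz
    · -- hooks
      subst hz
      intro C al anti two hne h2 hsum hE1 hE2 _
      simp only [zero_add, sum_range_succ, range_one, sum_singleton, Icc_self] at hsum hE1 hE2
      have hnev : al.val ≠ 0 := by
        intro h
        rw [Finset.val_eq_zero] at h
        rw [h] at hne
        simp at hne
      have hsv : al.val.sum = C 0 + C 1 := by
        rw [← hsum]
        exact (Finset.sum_val al).symm ▸ rfl
      have := real_hook al.val (C 0) (C 1) al.nodup (fun a ha => h2 a ha) hnev hsv hE2 (by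
        rw [add_comm]
        exact hE1)
      exact this
    · have ih' := ih hz
      intro C al anti two hne h2 hsum hE1 hE2 hexc
      have hy2 : 2 ≤ z + 1 := by omega
      have hds : DSR (z + 1) C al :=
        dsr_of_main hy2 (by simpa using ih') C al anti two h2 hsum
      have shp : Shp (z + 1) C := ⟨hy2, anti, two⟩
      have htot : ∑ a ∈ al, a = C 0 + Ex (z + 1) C := by
        rw [hsum]
        exact Ex_range C
      have hC0 := two 0 (by omega)
      have hC1 := two 1 (by omega)
      have hExge : C 1 ≤ Ex (z + 1) C := by
        unfold Ex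
        apply single_le_sum (f := C) (fun _ _ => Nat.zero_le _)
        rw [mem_Icc]
        omega
      have hEx1 : Ex (z + 1) C = (∑ j ∈ Icc 1 (z - 1), C j) + C z + C (z + 1) := by
        unfold Ex
        have h1 : Icc 1 (z + 1) = insert (z + 1) (insert z (Icc 1 (z - 1))) := by
          ext j
          rw [mem_insert, mem_insert, mem_Icc, mem_Icc]
          omega
        rw [h1, sum_insert, sum_insert]
        · ring
        · rw [mem_Icc]
          omega
        · rw [mem_insert, mem_Icc]
          omega
      -- rectangles
      by_cases hrect : 2 ≤ al.card ∧ (∀ j, j < z + 1 → C j = 3) ∧ C (z + 1) = 0 ∧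
          (2 ∈ al ∨ 3 ∈ al)
      · obtain ⟨hr, hC, hCy, h23⟩ := hrect
        have hs3 : ∑ a ∈ al, a = 3 * (z + 1) := by
          rw [hsum, sum_range_succ, hCy, add_zero, sum_congr rfl (fun j hj => hC j
            (by rwa [mem_range] at hj)), sum_const, card_range, smul_eq_mul, mul_comm]
        have hne42 : al.val ≠ {4, 2} := by
          intro h
          apply hexc
          have hal : al = {4, 2} := by
            apply Finset.val_injective
            rw [h]
            decide
          have h5 : ∑ a ∈ al, a = 6 := by
            rw [hal]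
            decide
          have hz1 : z = 1 := by omega
          subst hz1
          exact ⟨rfl, hCy, Or.inr (Or.inl ⟨hal, hC 0 (by omega), hC 1 (by omega)⟩)⟩
        have := real_rect3 al.val (z + 1) al.nodup (fun a ha => h2 a ha) h23 hr
          (by rw [← hs3]; exact (Finset.sum_val al).symm ▸ rfl) hne42
        unfold Goal
        rw [hCy, List.replicate_zero, List.append_nil]
        have hm : (List.range (z + 1)).map C = List.replicate (z + 1) 3 := by
          rw [List.eq_replicate_iff]
          refine ⟨by simp, ?_⟩
          intro b hb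
          rw [List.mem_map] at hb
          obtain ⟨j, hj, rfl⟩ := hb
          rw [List.mem_range] at hj
          exact hC j hj
        rw [hm]
        exact this
      by_cases h2al : 2 ∈ al
      · -- the cycles without the 2-cycle
        have hval : al.val = 2 ::ₘ (al.erase 2).val := by
          rw [erase_val, Multiset.cons_erase h2al]
        have hcard : (al.erase 2).card + 1 = al.card := by
          rw [card_erase_of_mem h2al]
          have : 0 < al.card := card_pos.2 hne
          omega
        have hsumE : ∑ a ∈ al.erase 2, a + 2 = C 0 + Ex (z + 1) C := by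
          rw [← htot, ← add_sum_erase al (fun t => t) h2al]
          ring
        have hS3 : ∀ a ∈ al.erase 2, 3 ≤ a := by
          intro a ha
          rw [mem_erase] at ha
          have := h2 a ha.2
          omega
        have hSne : 1 ≤ (al.erase 2).card := by
          by_contra h
          have h0 : (al.erase 2).card = 0 := by omega
          rw [card_eq_zero] at h0
          rw [h0, sum_empty] at hsumE
          omega
        have hE1' : (al.erase 2).card ≤ Ex (z + 1) C := by
          rw [if_pos h2al] at hE1
          have h5 : ∑ j ∈ Icc 1 (z + 1), C j = Ex (z + 1) C := rfl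
          omega
        rcases Nat.lt_or_ge 3 (C 0) with h4 | h4
        · -- the 2-cycle is the word 0 0
          refine start0 (τ := 1) (S := al.erase 2) shp hexc hds hE2 (Or.inr ⟨rfl, h4⟩) ?_ hS3
            (by rw [← hsumE]) hE1' (fun h => by omega)
          rw [hval, Multiset.replicate_one, ← Multiset.singleton_add, add_comm]
        · rcases Nat.lt_or_ge (C z) 3 with h5 | h5
          · -- the last column has height 2
            have hCz : C z = 2 := by
              have := two z (by omega)
              omega
            have hsd : al \ {2} = al.erase 2 := by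
              rw [sdiff_singleton_eq_erase]
            have hfour := sum_four hS3
            have h22 : 2 ∉ al.erase 2 := by simp
            refine hds {2} 0 (by simpa using h2al) (by simp [hCz]) (by omega) (by simp [hCz])
              (by simp) ?_ ?_ ?_
            · rw [hsd, if_neg h22, zero_add]
              simp only [show z + 1 - 2 = z - 1 by omega, Nat.sub_zero]
              by_contra hcon
              have h6 : (al.erase 2).card = 1 := by omega
              have h7 : (∑ j ∈ Icc 1 (z - 1), C j) = 0 ∧ C (z + 1) = 0 := by omega
              have hz1 : z = 1 := by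
                by_contra h
                have h8 : C 1 ≤ ∑ j ∈ Icc 1 (z - 1), C j := by
                  apply single_le_sum (f := C) (fun _ _ => Nat.zero_le _)
                  rw [mem_Icc]
                  omega
                omega
              subst hz1
              obtain ⟨a, ha⟩ := card_eq_one.1 h6
              have ha' : ∑ t ∈ al.erase 2, t = a := by rw [ha, sum_singleton]
              have ha3 := hS3 a (by rw [ha]; simp)
              have ha4 : a = 3 := by omega
              apply hexc
              refine ⟨rfl, h7.2, Or.inl ⟨?_, by omega, hCz⟩⟩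
              rw [← insert_erase h2al, ha, ha4]
              decide
            · rw [hsd]
              rw [sum_range_succ] at hE2
              simp only [Nat.add_sub_cancel]
              omega
            · rintro ⟨g1, g2, g3⟩
              rw [hsd] at g3
              rcases g3 with ⟨g3, -⟩ | ⟨g3, -⟩ | ⟨-, g3, -⟩
              · apply h22
                rw [g3]
                decide
              · apply h22
                rw [g3]
                decide
              · have g4 : (if 0 < z + 1 - 1 then C 0 else C (z + 1) - 0) = 4 := g3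
                rw [if_pos (by omega)] at g4
                omega
          · -- all columns have height 3
            have hC : ∀ j, j < z + 1 → C j = 3 := by
              intro j hj
              have h6 := anti j z (by omega) (by omega)
              have h7 := anti 0 j (by omega) (by omega)
              omega
            have hCy : 1 ≤ C (z + 1) := by
              by_contra h
              exact hrect ⟨by omega, hC, by omega, Or.inl h2al⟩
            have hfour := sum_four hS3
            have hEE : (al.erase 2).card + 2 ≤ Ex (z + 1) C := by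
              have h6 := hC 0 (by omega)
              have h7 := hC 1 (by omega)
              have h8 := hC z (by omega)
              omega
            obtain ⟨x, hx, hx1, hx2⟩ : ∃ x : ℕ → ℕ, (∀ j, j + 1 < z + 1 → x j = C j) ∧
                x z + 1 = C z ∧ x (z + 1) + 1 = C (z + 1) :=
              ⟨fun j => if j < z then C j else C j - 1, by
                intro j hj
                show (if j < z then C j else C j - 1) = C j
                rw [if_pos (by omega)], by
                show (if z < z then C z else C z - 1) + 1 = C z
                rw [if_neg (by omega)]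
                omega, by
                show (if z + 1 < z then C (z + 1) else C (z + 1) - 1) + 1 = C (z + 1)
                rw [if_neg (by omega)]
                omega⟩
            have hCz := hC z (by omega)
            have hC00 := hC 0 (by omega)
            rcases Nat.eq_zero_or_pos (x (z + 1)) with hx0 | hx0
            · obtain ⟨q, hq, st⟩ := init_MA (m := z) (p := 0) (g := 1) (x := x) shp hval.symm hS3 hx
                (by simpa using hx1) hx2 hEE hsumE (Or.inr ⟨rfl, hx0, rfl, rfl⟩)
              refine startC hexc (g := 1) (P := [q]) (x := x) (S := al.erase 2) (τ := 0)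
                (by simpa using st) ?_ ?_ ?_ ?_ ?_
              · intro j h6 h7
                exact hx j (by omega)
              · intro h
                exact (hx _ (by omega)).symm
              · intro h
                right
                have hz1 : z = 1 := by omega
                subst hz1
                refine ⟨le_refl _, 3, le_refl _, by omega, ?_⟩
                intro t ht
                have := hS3 t ht
                omega
              · intro _ _ _
                simp only [Nat.add_sub_cancel]
                omega
              · right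
                simp only [Nat.add_sub_cancel]
                omega
            · obtain ⟨q, hq, st⟩ := init_MA (m := z + 1) (p := 1) (g := 0) (x := x) shp
                hval.symm hS3 hx (by simpa using hx1) hx2 hEE hsumE
                (Or.inl ⟨rfl, hx0, rfl, rfl, by simp only [Nat.add_sub_cancel]; omega⟩)
              have stT : StT (z + 1) 0 C al [q] (al.erase 2) x 1 := by
                refine ⟨st, ?_, ?_, rfl, ?_, ?_, ?_⟩
                · intro j _ h7
                  exact hx j (by omega)
                · simp only [Nat.add_sub_cancel]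
                  omega
                · rw [hq, Multiset.sum_singleton]
                  omega
                · simp only [Nat.add_sub_cancel]
                  omega
                · intro h
                  omega
              exact loopT hexc hds hE2 _ _ _ _ _ rfl stT
      · -- no 2-cycle
        have hS3 : ∀ a ∈ al, 3 ≤ a := by
          intro a ha
          have h5 := h2 a ha
          have h6 : a ≠ 2 := fun h => h2al (h ▸ ha)
          omega
        refine start0 (τ := 0) (S := al) shp hexc hds hE2 (Or.inl rfl) (by simp) hS3
          (by rw [htot]; ring) ?_ ?_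
        · rw [if_neg h2al, zero_add] at hE1
          exact hE1
        · intro h4 h3 hr hCy
          by_contra h
          apply hrect
          refine ⟨hr, ?_, hCy, Or.inr h3⟩
          intro j hj
          have h6 := anti j z (by omega) (by omega)
          have h7 := anti 0 j (by omega) (by omega)
          simp only [Nat.add_sub_cancel] at h
          omega

end Pool.Agent.RST
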