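import Pool.Agent.RST.Defs

/-!
# RST/Ins: the insertion tableau of a labelled lattice word
-/

set_option autoImplicit false

namespace Pool.Agent.RST

/-- the tableau with `h` rows whose columns (from the left, each read downwards) are `C` -/
def tabC : ℕ → List (List ℕ) → List (List ℕ)
  | 0, _ => []
  | h + 1, C => C.filterMap List.head? :: tabC h (C.map List.tail)

theorem rowLen_tabC (h : ℕ) (C : List (List ℕ)) (hC : ∀ c ∈ C, c.length ≤ h) (i : ℕ) :
    rowLen (tabC h C) i = (C.filter fun c => i < c.length).length := by
  induction h generalizing C i with
  | zero =>
    have h1 : (C.filter fun c => i < c.length) = [] := by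
      rw [List.filter_eq_nil_iff]
      intro c hc
      have := hC c hc
      simp only [decide_eq_true_eq]
      omega
    rw [h1]
    simp [tabC, rowLen]
  | succ h ih =>
    cases i with
    | zero =>
      have h1 : rowLen (tabC (h + 1) C) 0 = (C.filterMap List.head?).length := by
        simp [tabC, rowLen]
      rw [h1]
      clear h1 ih hC
      induction C with
      | nil => rfl
      | cons c C ih =>
        cases c with
        | nil => simpa using ih
        | cons y c => simpa using ih
    | succ i =>
      have h1 : rowLen (tabC (h + 1) C) (i + 1) = rowLen (tabC h (C.map List.tail)) i := by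
        simp [tabC, rowLen]
      rw [h1, ih]
      · rw [List.filter_map, List.length_map]
        congr 1
        apply List.filter_congr
        intro c _
        simp only [Function.comp, List.length_tail, decide_eq_decide]
        omega
      · intro c hc
        rw [List.mem_map] at hc
        obtain ⟨d, hd, rfl⟩ := hc
        have := hC d hd
        rw [List.length_tail]
        omega

theorem rowIns_append (x : ℕ) (P R : List ℕ) (hP : ∀ p ∈ P, p < x) :
    rowIns x (P ++ R) = (P ++ (rowIns x R).1, (rowIns x R).2) := by
  induction P with
  | nil => simp
  | cons p P ih =>
    have h1 : ¬ x < p := by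
      have := hP p (by simp)
      omega
    rw [List.cons_append, rowIns, if_neg h1, ih (fun q hq => hP q (by simp [hq]))]
    simp

/-- the conditions on the columns of a tableau -/
structure Good (C : List (List ℕ)) : Prop where
  lens : C.Pairwise fun a b => b.length ≤ a.length
  inc : ∀ c ∈ C, c.Pairwise (· < ·)
  cross : C.Pairwise fun a b => ∀ x ∈ a, ∀ y ∈ b, x < y

private theorem Good.tail {C : List (List ℕ)} (h : Good C) : Good (C.map List.tail) := by
  refine ⟨?_, ?_, ?_⟩
  · rw [List.pairwise_map]
    refine h.lens.imp ?_
    intro a b hab
    rw [List.length_tail, List.length_tail]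
    omega
  · intro c hc
    rw [List.mem_map] at hc
    obtain ⟨d, hd, rfl⟩ := hc
    exact (h.inc d hd).sublist (List.tail_sublist d)
  · rw [List.pairwise_map]
    refine h.cross.imp ?_
    intro a b hab x hx y hy
    exact hab x (List.mem_of_mem_tail hx) y (List.mem_of_mem_tail hy)

theorem tabIns_tabC (h : ℕ) (A B : List (List ℕ)) (c : List ℕ) (x : ℕ)
    (hh : ((A ++ c :: B).headD []).length = h) (hg : Good (A ++ c :: B))
    (hA : ∀ a ∈ A, c.length + 1 ≤ a.length) (hAx : ∀ a ∈ A, ∀ y ∈ a, y < x)
    (hcx : ∀ y ∈ c, x < y) :
    tabIns x (tabC h (A ++ c :: B)) =
      tabC ((A ++ (x :: c) :: B).headD []).length (A ++ (x :: c) :: B) := by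
  induction h generalizing A B c x with
  | zero =>
    have hA0 : A = [] := by
      cases A with
      | nil => rfl
      | cons a A =>
        have h1 := hA a (by simp)
        simp only [List.cons_append, List.headD_cons] at hh
        omega
    subst hA0
    simp only [List.nil_append, List.headD_cons] at hh
    have hc0 : c = [] := List.length_eq_zero_iff.1 hh
    subst hc0
    have hB : ∀ b ∈ B, b = [] := by
      intro b hb
      have h1 := hg.lens
      rw [List.nil_append, List.pairwise_cons] at h1
      have h2 := h1.1 b hb
      exact List.length_eq_zero_iff.1 (by simpa using h2)
    have h3 : B.filterMap List.head? = [] := by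
      rw [List.filterMap_eq_nil_iff]
      intro b hb
      rw [hB b hb]
      rfl
    simp [tabC, tabIns, h3]
  | succ h ih =>
    -- the first row
    have hlens := hg.lens
    rw [List.pairwise_append, List.pairwise_cons] at hlens
    obtain ⟨-, ⟨hcB, -⟩, -⟩ := hlens
    have hPx : ∀ p ∈ A.filterMap List.head?, p < x := by
      intro p hp
      rw [List.mem_filterMap] at hp
      obtain ⟨a, ha, hpa⟩ := hp
      exact hAx a ha p (List.mem_of_mem_head? hpa)
    have hrow : (A ++ c :: B).filterMap List.head? =
        A.filterMap List.head? ++ (c :: B).filterMap List.head? := List.filterMap_append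
    have hrow' : (A ++ (x :: c) :: B).filterMap List.head? =
        A.filterMap List.head? ++ x :: B.filterMap List.head? := by
      rw [List.filterMap_append]
      rfl
    cases c with
    | nil =>
      have hB : ∀ b ∈ B, b = [] := by
        intro b hb
        have h2 := hcB b hb
        exact List.length_eq_zero_iff.1 (by simpa using h2)
      have h3 : B.filterMap List.head? = [] := by
        rw [List.filterMap_eq_nil_iff]
        intro b hb
        rw [hB b hb]
        rfl
      have h4 : ([] :: B : List (List ℕ)).filterMap List.head? = [] := by
        simpa using h3
      have hA1 : A ≠ [] := by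
        intro h5
        rw [h5] at hh
        simp at hh
      obtain ⟨a, A', rfl⟩ := List.exists_cons_of_ne_nil hA1
      have h6 : ((a :: A' ++ (x :: []) :: B).headD []).length = h + 1 := by
        simpa using hh
      rw [h6]
      have h7 : ((a :: A' ++ [] :: B).map List.tail) = ((a :: A' ++ [x] :: B).map List.tail) := by
        simp
      rw [tabC, tabC, hrow, hrow', h3, h4, List.append_nil, tabIns]
      have h8 := rowIns_append x ((a :: A').filterMap List.head?) [] hPx
      rw [List.append_nil] at h8
      simp only [h8, rowIns, h7]
    | cons y c =>
      have hxy : x < y := hcx y (by simp)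
      have h8 := rowIns_append x (A.filterMap List.head?) (y :: B.filterMap List.head?) hPx
      rw [rowIns, if_pos hxy] at h8
      have h9 : ((y :: c) :: B).filterMap List.head? = y :: B.filterMap List.head? := rfl
      rw [tabC, hrow, h9, tabIns]
      simp only [h8]
      have hmap : (A ++ (y :: c) :: B).map List.tail =
          A.map List.tail ++ c :: B.map List.tail := by simp
      have hmap' : (A ++ (x :: y :: c) :: B).map List.tail =
          A.map List.tail ++ (y :: c) :: B.map List.tail := by simp
      have hg' := hg.tail
      rw [hmap] at hg'
      have hinc : (y :: c).Pairwise (· < ·) := hg.inc _ (by simp)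
      rw [List.pairwise_cons] at hinc
      have hcr := hg.cross
      rw [List.pairwise_append] at hcr
      have hh' : ((A.map List.tail ++ c :: B.map List.tail).headD []).length = h := by
        cases A with
        | nil =>
          simp only [List.nil_append, List.headD_cons, List.length_cons] at hh
          simp only [List.map_nil, List.nil_append, List.headD_cons]
          omega
        | cons a A =>
          simp only [List.cons_append, List.headD_cons] at hh
          simp only [List.map_cons, List.cons_append, List.headD_cons, List.length_tail]
          omega
      have h10 := ih (A.map List.tail) (B.map List.tail) c y hh' hg' (by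
        intro a ha
        rw [List.mem_map] at ha
        obtain ⟨d, hd, rfl⟩ := ha
        have := hA d hd
        rw [List.length_cons] at this
        rw [List.length_tail]
        omega) (by
        intro a ha z hz
        rw [List.mem_map] at ha
        obtain ⟨d, hd, rfl⟩ := ha
        exact hcr.2.2 d hd (y :: c) (by simp) z (List.mem_of_mem_tail hz) y (by simp))
        hinc.1
      rw [hmap, h10]
      have h11 : ((A ++ (x :: y :: c) :: B).headD []).length =
          ((A.map List.tail ++ (y :: c) :: B.map List.tail).headD []).length + 1 := by
        cases A with
        | nil => simp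
        | cons a A =>
          have := hA a (by simp)
          simp only [List.cons_append, List.headD_cons, List.map_cons, List.length_tail]
          rw [List.length_cons] at this
          omega
      rw [h11, tabC, hrow', hmap']

/-- the columns of the tableau of a labelled word -/
def colsOf (M : ℕ) (l : ℕ → ℕ) (u : List ℕ) : List (List ℕ) :=
  (List.range M).map fun m => (u.filter fun y => l y = m).reverse

private theorem colsOf_split (M : ℕ) (l : ℕ → ℕ) (u : List ℕ) (m : ℕ) (hm : m < M) :
    colsOf M l u = (List.range m).map (fun m => (u.filter fun y => l y = m).reverse) ++
      (u.filter fun y => l y = m).reverse ::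
        (List.range' (m + 1) (M - (m + 1))).map fun m => (u.filter fun y => l y = m).reverse := by
  have h1 : List.range M = List.range m ++ m :: List.range' (m + 1) (M - (m + 1)) := by
    have e1 : M = m + (1 + (M - (m + 1))) := by omega
    conv_lhs => rw [e1, List.range_eq_range']
    rw [← List.range'_append_1, List.range_eq_range', zero_add, ← List.range'_append_1]
    rfl
  unfold colsOf
  rw [h1, List.map_append, List.map_cons]

theorem rsTab_eq (M : ℕ) (l : ℕ → ℕ) (u : List ℕ) (hM : ∀ x ∈ u, l x < M)
    (hmono : ∀ x ∈ u, ∀ y ∈ u, l x < l y → x < y)
    (hdec : u.Pairwise fun x y => l x = l y → y < x)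
    (hlat : ∀ k m, ((u.take k).filter fun y => l y = m + 1).length ≤
      ((u.take k).filter fun y => l y = m).length) :
    rsTab u = tabC ((colsOf M l u).headD []).length (colsOf M l u) ∧ Good (colsOf M l u) := by
  induction u using List.reverseRecOn with
  | nil =>
    have h1 : colsOf M l [] = List.replicate M [] := by
      unfold colsOf
      simp
    rw [h1]
    constructor
    · have h2 : ((List.replicate M ([] : List ℕ)).headD []).length = 0 := by
        cases M with
        | zero => rfl
        | succ M => simp [List.replicate_succ]
      rw [h2]
      rfl
    · refine ⟨?_, ?_, ?_⟩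
      · rw [List.pairwise_replicate]
        right
        exact le_refl _
      · intro c hc
        rw [List.mem_replicate] at hc
        rw [hc.2]
        exact List.Pairwise.nil
      · rw [List.pairwise_replicate]
        right
        intro x hx
        simp at hx
  | append_singleton u x ih =>
    have hM' : ∀ y ∈ u, l y < M := fun y hy => hM y (by simp [hy])
    have hmono' : ∀ y ∈ u, ∀ z ∈ u, l y < l z → y < z := fun y hy z hz =>
      hmono y (by simp [hy]) z (by simp [hz])
    rw [List.pairwise_append] at hdec
    obtain ⟨hdec1, -, hdec2⟩ := hdec
    have hlat' : ∀ k m, ((u.take k).filter fun y => l y = m + 1).length ≤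
        ((u.take k).filter fun y => l y = m).length := by
      intro k m
      rcases Nat.lt_or_ge u.length k with h1 | h1
      · have h2 := hlat u.length m
        rw [List.take_left'] at h2
        · rw [List.take_of_length_le h1.le]
          exact h2
        · rfl
      · have h2 := hlat k m
        rwa [List.take_append_of_le_length h1] at h2
    obtain ⟨ih1, ih2⟩ := ih hM' hmono' hdec1 hlat'
    have hxM : l x < M := hM x (by simp)
    set m := l x with hm
    have hcol : ∀ j, ((u ++ [x]).filter fun y => l y = j).reverse =
        if j = m then x :: (u.filter fun y => l y = j).reverse
        else (u.filter fun y => l y = j).reverse := by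
      intro j
      rw [List.filter_append, List.reverse_append]
      by_cases hj : j = m
      · rw [if_pos hj]
        have : ([x].filter fun y => l y = j) = [x] := by
          rw [List.filter_cons_of_pos]
          · rfl
          · simp [← hm, hj]
        rw [this]
        rfl
      · rw [if_neg hj]
        have : ([x].filter fun y => l y = j) = [] := by
          rw [List.filter_cons_of_neg]
          · rfl
          · simp only [decide_eq_true_eq]
            intro h
            exact hj (by rw [← h])
        rw [this]
        rfl
    have hs := colsOf_split M l u m hxM
    have hs' := colsOf_split M l (u ++ [x]) m hxM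
    have e1 : (List.range m).map (fun m => ((u ++ [x]).filter fun y => l y = m).reverse) =
        (List.range m).map (fun m => (u.filter fun y => l y = m).reverse) := by
      apply List.map_congr_left
      intro j hj
      rw [List.mem_range] at hj
      rw [hcol j, if_neg (by omega)]
    have e2 : (List.range' (m + 1) (M - (m + 1))).map
          (fun m => ((u ++ [x]).filter fun y => l y = m).reverse) =
        (List.range' (m + 1) (M - (m + 1))).map
          (fun m => (u.filter fun y => l y = m).reverse) := by
      apply List.map_congr_left
      intro j hj
      rw [List.mem_range'_1] at hj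
      rw [hcol j, if_neg (by omega)]
    rw [e1, e2, hcol m, if_pos rfl] at hs'
    -- the heights
    have hlatx : ∀ j, ((u ++ [x]).filter fun y => l y = j + 1).length ≤
        ((u ++ [x]).filter fun y => l y = j).length := by
      intro j
      have := hlat (u ++ [x]).length j
      rwa [List.take_length] at this
    have hanti : ∀ i j, i ≤ j → ((u ++ [x]).filter fun y => l y = j).length ≤
        ((u ++ [x]).filter fun y => l y = i).length := by
      intro i j hij
      induction j, hij using Nat.le_induction with
      | base => exact le_refl _
      | succ j _ ihj => exact (hlatx j).trans ihj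
    have hlen : ∀ j, ((u ++ [x]).filter fun y => l y = j).length =
        (u.filter fun y => l y = j).length + if j = m then 1 else 0 := by
      intro j
      have h1 := congrArg List.length (hcol j)
      rw [List.length_reverse] at h1
      rw [h1]
      by_cases hj : j = m
      · simp [hj]
      · simp [hj]
    have hgood : Good (colsOf M l (u ++ [x])) := by
      refine ⟨?_, ?_, ?_⟩
      · unfold colsOf
        rw [List.pairwise_map]
        refine (List.pairwise_lt_range (n := M)).imp ?_
        intro a b hab
        rw [List.length_reverse, List.length_reverse]
        exact hanti a b hab.le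
      · intro c hc
        unfold colsOf at hc
        rw [List.mem_map] at hc
        obtain ⟨j, -, rfl⟩ := hc
        rw [List.pairwise_reverse]
        have h1 : (u ++ [x]).Pairwise fun y z => l y = l z → z < y := by
          rw [List.pairwise_append]
          exact ⟨hdec1, List.pairwise_singleton _ _, hdec2⟩
        have h2 := h1.filter (fun y => l y = j)
        refine List.Pairwise.imp_of_mem ?_ h2
        intro a b ha hb hab
        rw [List.mem_filter] at ha hb
        have h3 : l a = j := by simpa using ha.2
        have h4 : l b = j := by simpa using hb.2
        exact hab (by rw [h3, h4])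
      · unfold colsOf
        rw [List.pairwise_map]
        refine (List.pairwise_lt_range (n := M)).imp ?_
        intro a b hab y hy z hz
        rw [List.mem_reverse, List.mem_filter] at hy hz
        have h3 : l y = a := by simpa using hy.2
        have h4 : l z = b := by simpa using hz.2
        exact hmono y hy.1 z hz.1 (by omega)
    refine ⟨?_, hgood⟩
    have hrs : rsTab (u ++ [x]) = tabIns x (rsTab u) := by
      unfold rsTab
      rw [List.foldl_append]
      rfl
    rw [hrs, ih1, hs', hs]
    apply tabIns_tabC
    · rfl
    · rw [← hs]
      exact ih2
    · intro a ha
      rw [List.mem_map] at ha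
      obtain ⟨j, hj, rfl⟩ := ha
      rw [List.mem_range] at hj
      rw [List.length_reverse, List.length_reverse]
      have h1 := hanti j m hj.le
      rw [hlen j, hlen m, if_pos rfl, if_neg (by omega)] at h1
      omega
    · intro a ha y hy
      rw [List.mem_map] at ha
      obtain ⟨j, hj, rfl⟩ := ha
      rw [List.mem_range] at hj
      rw [List.mem_reverse, List.mem_filter] at hy
      have h3 : l y = j := by simpa using hy.2
      exact hmono y (by simp [hy.1]) x (by simp) (by omega)
    · intro y hy
      rw [List.mem_reverse, List.mem_filter] at hy
      have h3 : l y = m := by simpa using hy.2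
      exact hdec2 y hy.1 x (by simp) (by rw [h3])

theorem rowLen_rsTab (M : ℕ) (l : ℕ → ℕ) (u : List ℕ) (hM : ∀ x ∈ u, l x < M)
    (hmono : ∀ x ∈ u, ∀ y ∈ u, l x < l y → x < y)
    (hdec : u.Pairwise fun x y => l x = l y → y < x)
    (hlat : ∀ k m, ((u.take k).filter fun y => l y = m + 1).length ≤
      ((u.take k).filter fun y => l y = m).length) (i : ℕ) :
    rowLen (rsTab u) i =
      (((List.range M).map fun m => (u.filter fun y => l y = m).length).filter
        fun x => i < x).length := by
  obtain ⟨h1, h2⟩ := rsTab_eq M l u hM hmono hdec hlat
  rw [h1, rowLen_tabC]
  · unfold colsOf
    rw [List.filter_map, List.filter_map, List.length_map, List.length_map]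
    congr 1
    apply List.filter_congr
    intro m _
    simp only [Function.comp, List.length_reverse]
  · intro c hc
    have h3 := h2.lens
    cases hC : colsOf M l u with
    | nil =>
      rw [hC] at hc
      simp at hc
    | cons d C =>
      rw [hC] at hc h3
      rw [List.headD_cons]
      rw [List.mem_cons] at hc
      rcases hc with rfl | hc
      · exact le_refl _
      · rw [List.pairwise_cons] at h3
        exact h3.1 c hc

end Pool.Agent.RST
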