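import Pool.Agent.RST.Core

/-!
# RST/Keys: words with decreasing letters `< y` and one increasing letter `y`

A word `w` (a list of letters) is read cyclically.  The letters `0, .., y - 1` are columns of the
shape (decreasing letters); the letter `y` stands for all columns of height 1 which are not among
these (increasing letter, the tail).  The key of the position `t` is the sequence
`s ↦ ± w[t + s]`, where the sign is `(-1)` to the number of decreasing letters among
`w[t], .., w[t + s - 1]`; keys are compared lexicographically.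
-/

set_option autoImplicit false

namespace Pool.Agent.RST

open Finset

/-- the letter at the (cyclic) position `t` -/
def lt (w : List ℕ) (t : ℕ) : ℕ := w.getD (t % w.length) 0

/-- the letter before the position `t` (for `t < w.length`) -/
def pv (w : List ℕ) (t : ℕ) : ℕ := lt w (t + (w.length - 1))

/-- the sign of the entry `s` of the key of the position `t` -/
def sg (y : ℕ) (w : List ℕ) (t s : ℕ) : ℤ := ∏ i ∈ range s, if lt w (t + i) < y then -1 else 1

/-- the key of the position `t` -/
def key (y : ℕ) (w : List ℕ) (t : ℕ) : Lex (ℕ → ℤ) :=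
  toLex fun s => sg y w t s * (lt w (t + s) : ℤ)

/-- the number of letters `m` minus the number of letters `m + 1` in front of the positions whose
key is at most `κ` -/
noncomputable def D (y : ℕ) (w : List ℕ) (m : ℕ) (κ : Lex (ℕ → ℤ)) : ℤ := by
  classical
  exact ∑ t ∈ range w.length, if key y w t ≤ κ then
    ((if pv w t = m then 1 else 0) - (if pv w t = m + 1 then 1 else 0) : ℤ) else 0

/-- the word has no period smaller than its length -/
def PrimW (w : List ℕ) : Prop := ∀ d, 0 < d → d < w.length → ∃ t, lt w (t + d) ≠ lt w t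

/-- admissible words: primitive words and `m m` with a decreasing letter `m` -/
def OkW (y : ℕ) (w : List ℕ) : Prop := 2 ≤ w.length ∧ (PrimW w ∨ ∃ m < y, w = [m, m])

theorem lt_add_length (w : List ℕ) (t : ℕ) : lt w (t + w.length) = lt w t := by
  unfold lt
  rw [Nat.add_mod_right]

theorem lt_mod (w : List ℕ) (t : ℕ) : lt w (t % w.length) = lt w t := by
  unfold lt
  rw [Nat.mod_mod]

theorem lt_add_mul (w : List ℕ) (t n : ℕ) : lt w (t + w.length * n) = lt w t := by
  unfold lt
  rw [Nat.add_mul_mod_self_left]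

theorem sg_ne_zero (y : ℕ) (w : List ℕ) (t s : ℕ) : sg y w t s ≠ 0 := by
  unfold sg
  rw [prod_ne_zero_iff]
  intro i _
  split_ifs <;> norm_num

theorem sg_abs (y : ℕ) (w : List ℕ) (t s : ℕ) : (sg y w t s).natAbs = 1 := by
  unfold sg
  induction s with
  | zero => rfl
  | succ s ih =>
    rw [prod_range_succ, Int.natAbs_mul, ih]
    split_ifs <;> rfl

theorem sg_succ (y : ℕ) (w : List ℕ) (t s : ℕ) :
    sg y w t (s + 1) = (if lt w t < y then -1 else 1) * sg y w (t + 1) s := by
  unfold sg
  rw [prod_range_succ', mul_comm]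
  congr 1
  apply prod_congr rfl
  intro i _
  rw [show t + 1 + i = t + (i + 1) by ring]

theorem key_apply (y : ℕ) (w : List ℕ) (t s : ℕ) :
    ofLex (key y w t) s = sg y w t s * (lt w (t + s) : ℤ) := rfl

theorem key_zero (y : ℕ) (w : List ℕ) (t : ℕ) : ofLex (key y w t) 0 = (lt w t : ℤ) := by
  rw [key_apply]
  simp [sg]

theorem key_succ_dec (y : ℕ) (w : List ℕ) (t s : ℕ) (h : lt w t < y) :
    ofLex (key y w (t + 1)) s = -ofLex (key y w t) (s + 1) := by
  rw [key_apply, key_apply, sg_succ, if_pos h, show t + 1 + s = t + (s + 1) by ring]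
  ring

theorem key_succ_inc (y : ℕ) (w : List ℕ) (t s : ℕ) (h : ¬ lt w t < y) :
    ofLex (key y w (t + 1)) s = ofLex (key y w t) (s + 1) := by
  rw [key_apply, key_apply, sg_succ, if_neg h, show t + 1 + s = t + (s + 1) by ring]
  ring

theorem key_mod (y : ℕ) (w : List ℕ) (t : ℕ) : key y w (t % w.length) = key y w t := by
  have h1 : ∀ s, lt w (t % w.length + s) = lt w (t + s) := by
    intro s
    rw [← lt_mod w (t % w.length + s), ← lt_mod w (t + s), Nat.mod_add_mod]
  unfold key sg
  congr 1
  funext s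
  rw [h1 s]
  congr 1
  apply prod_congr rfl
  intro i _
  rw [h1 i]

theorem key_eq (y : ℕ) (w w' : List ℕ) (t t' : ℕ) (h : key y w t = key y w' t') (s : ℕ) :
    lt w (t + s) = lt w' (t' + s) := by
  have h1 : ofLex (key y w t) s = ofLex (key y w' t') s := by rw [h]
  rw [key_apply, key_apply] at h1
  have h2 := congrArg Int.natAbs h1
  rw [Int.natAbs_mul, Int.natAbs_mul, sg_abs, sg_abs, one_mul, one_mul] at h2
  exact_mod_cast h2

private theorem per_gcd (f : ℕ → ℕ) (a b : ℕ) (ha : 0 < a) (hb : 0 < b)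
    (h1 : ∀ x, f (x + a) = f x) (h2 : ∀ x, f (x + b) = f x) (x : ℕ) :
    f (x + Nat.gcd a b) = f x := by
  have h3 : ∀ n x, f (x + a * n) = f x := by
    intro n
    induction n with
    | zero => intro x; simp
    | succ n ih => intro x; rw [Nat.mul_succ, ← add_assoc, h1, ih]
  have h4 : ∀ n x, f (x + b * n) = f x := by
    intro n
    induction n with
    | zero => intro x; simp
    | succ n ih => intro x; rw [Nat.mul_succ, ← add_assoc, h2, ih]
  obtain ⟨u, v, huv⟩ : ∃ u v : ℕ, a * u = b * v + Nat.gcd a b := by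
    have h5 := Nat.gcd_eq_gcd_ab a b
    -- `gcd = a x + b y`
    refine ⟨(a.gcdA b + b * (|a.gcdA b| + |a.gcdB b|)).toNat,
      (-(a.gcdB b) + a * (|a.gcdA b| + |a.gcdB b|)).toNat, ?_⟩
    have ha' : (1 : ℤ) ≤ a := by exact_mod_cast ha
    have hb' : (1 : ℤ) ≤ b := by exact_mod_cast hb
    have h6 : (0 : ℤ) ≤ a.gcdA b + b * (|a.gcdA b| + |a.gcdB b|) := by
      have e1 := neg_abs_le (a.gcdA b)
      have e2 := abs_nonneg (a.gcdB b)
      have e3 := abs_nonneg (a.gcdA b)
      nlinarith
    have h7 : (0 : ℤ) ≤ -(a.gcdB b) + a * (|a.gcdA b| + |a.gcdB b|) := by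
      have e1 := le_abs_self (a.gcdB b)
      have e2 := abs_nonneg (a.gcdB b)
      have e3 := abs_nonneg (a.gcdA b)
      nlinarith
    zify
    rw [Int.toNat_of_nonneg h6, Int.toNat_of_nonneg h7, h5]
    ring
  calc f (x + Nat.gcd a b) = f (x + Nat.gcd a b + b * v) := (h4 v _).symm
    _ = f (x + a * u) := by rw [huv]; congr 1; ring
    _ = f x := h3 u x

private theorem prim_shift (w : List ℕ) (t d : ℕ) (hw : 0 < w.length)
    (h : ∀ s, lt w (t + d + s) = lt w (t + s)) (x : ℕ) : lt w (x + d) = lt w x := by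
  -- `x + len * t = t + s`
  have h1 : t ≤ x + w.length * t := by
    have : t ≤ w.length * t := Nat.le_mul_of_pos_left t hw
    omega
  obtain ⟨s, hs⟩ := Nat.exists_eq_add_of_le h1
  have h2 := h s
  have h3 : t + d + s = (x + d) + w.length * t := by omega
  rw [h3, lt_add_mul, ← hs, lt_add_mul] at h2
  exact h2

/-- two positions of a primitive word have different keys -/
theorem key_inj_prim (y : ℕ) (w : List ℕ) (hw : PrimW w) (t t' : ℕ) (ht : t < w.length)
    (ht' : t' < w.length) (h : key y w t = key y w t') : t = t' := by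
  have main : ∀ t t' : ℕ, t < w.length → t' < w.length → t < t' → key y w t = key y w t' → False := by
    intro t t' ht ht' htt h
    obtain ⟨x, hx⟩ := hw (t' - t) (by omega) (by omega)
    apply hx
    apply prim_shift w t (t' - t) (by omega)
    intro s
    have h1 := key_eq y w w t t' h s
    rw [h1]
    congr 1
    omega
  rcases lt_trichotomy t t' with h1 | h1 | h1
  · exact (main t t' ht ht' h1 h).elim
  · exact h1
  · exact (main t' t ht' ht h1 h.symm).elim

/-- positions of two admissible words of different lengths have different keys -/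
theorem key_ne_of_length_ne (y : ℕ) (w w' : List ℕ) (hw : OkW y w) (hw' : OkW y w')
    (hne : w.length ≠ w'.length) (t t' : ℕ) : key y w t ≠ key y w' t' := by
  intro h
  have ha : 0 < w.length := by
    have := hw.1
    omega
  have hb : 0 < w'.length := by
    have := hw'.1
    omega
  have hE := key_eq y w w' t t' h
  set f : ℕ → ℕ := fun s => lt w (t + s) with hf
  have hf' : ∀ s, f s = lt w' (t' + s) := hE
  have p1 : ∀ x, f (x + w.length) = f x := by
    intro x
    rw [hf]
    simp only
    rw [← add_assoc, lt_add_length]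
  have p2 : ∀ x, f (x + w'.length) = f x := by
    intro x
    rw [hf', hf', ← add_assoc, lt_add_length]
  have p3 := per_gcd f _ _ ha hb p1 p2
  have q1 : ∀ d, (∀ x, f (x + d) = f x) → ∀ x, lt w (x + d) = lt w x := by
    intro d hd
    apply prim_shift w t d ha
    intro s
    have := hd s
    rw [hf] at this
    simp only at this
    rw [← this]
    congr 1
    ring
  have q2 : ∀ d, (∀ x, f (x + d) = f x) → ∀ x, lt w' (x + d) = lt w' x := by
    intro d hd
    apply prim_shift w' t' d hb
    intro s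
    have := hd s
    rw [hf', hf'] at this
    rw [← this]
    congr 1
    ring
  have hconst : ∀ m : ℕ, ∀ v : List ℕ, v = [m, m] → ∀ x, lt v x = m := by
    intro m v hv x
    rw [hv]
    unfold lt
    have : x % [m, m].length < 2 := Nat.mod_lt _ (by norm_num)
    interval_cases h5 : x % [m, m].length <;> rfl
  rcases hw.2 with h1 | ⟨m, -, h1⟩
  · rcases hw'.2 with h2 | ⟨m', -, h2⟩
    · have g1 : Nat.gcd w.length w'.length = w.length := by
        by_contra hcon
        have hlt : Nat.gcd w.length w'.length < w.length :=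
          lt_of_le_of_ne (Nat.gcd_le_left _ ha) hcon
        obtain ⟨x, hx⟩ := h1 _ (Nat.gcd_pos_of_pos_left _ ha) hlt
        exact hx (q1 _ p3 x)
      have g2 : Nat.gcd w.length w'.length = w'.length := by
        by_contra hcon
        have hlt : Nat.gcd w.length w'.length < w'.length :=
          lt_of_le_of_ne (Nat.gcd_le_right _ hb) hcon
        obtain ⟨x, hx⟩ := h2 _ (Nat.gcd_pos_of_pos_left _ ha) hlt
        exact hx (q2 _ p3 x)
      exact hne (g1.symm.trans g2)
    · have hc := hconst m' w' h2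
      have p4 : ∀ x, f (x + 1) = f x := by
        intro x
        rw [hf', hf', hc, hc]
      obtain ⟨x, hx⟩ := h1 1 (by norm_num) (by have := hw.1; omega)
      exact hx (q1 1 p4 x)
  · have hc := hconst m w h1
    have p4 : ∀ x, f (x + 1) = f x := by
      intro x
      rw [hf]
      simp only
      rw [hc, hc]
    rcases hw'.2 with h2 | ⟨m', -, h2⟩
    · obtain ⟨x, hx⟩ := h2 1 (by norm_num) (by have := hw'.1; omega)
      exact hx (q2 1 p4 x)
    · apply hne
      rw [h1, h2]
      rfl

/-- the key order: first letters -/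
theorem key_lt_of_zero (κ κ' : Lex (ℕ → ℤ)) (h : ofLex κ 0 < ofLex κ' 0) : κ < κ' := by
  refine ⟨0, ?_, h⟩
  intro j hj
  exact absurd hj (Nat.not_lt_zero j)

theorem key_le_zero (κ κ' : Lex (ℕ → ℤ)) (h : κ ≤ κ') : ofLex κ 0 ≤ ofLex κ' 0 := by
  by_contra hcon
  exact absurd (key_lt_of_zero κ' κ (not_le.1 hcon)) (not_lt.2 h)

/-- the shift of a key -/
def shf (y : ℕ) (κ : Lex (ℕ → ℤ)) : Lex (ℕ → ℤ) :=
  toLex fun s => if ofLex κ 0 < (y : ℤ) then -ofLex κ (s + 1) else ofLex κ (s + 1)

theorem shf_dec (y : ℕ) (κ : Lex (ℕ → ℤ)) (h : ofLex κ 0 < (y : ℤ)) (s : ℕ) :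
    ofLex (shf y κ) s = -ofLex κ (s + 1) := if_pos h

theorem shf_inc (y : ℕ) (κ : Lex (ℕ → ℤ)) (h : ¬ ofLex κ 0 < (y : ℤ)) (s : ℕ) :
    ofLex (shf y κ) s = ofLex κ (s + 1) := if_neg h

theorem shf_key (y : ℕ) (w : List ℕ) (t : ℕ) : shf y (key y w t) = key y w (t + 1) := by
  have h0 := key_zero y w t
  by_cases h : lt w t < y
  · have h1 : ofLex (key y w t) 0 < (y : ℤ) := by
      rw [h0]
      exact_mod_cast h
    have h2 : ofLex (shf y (key y w t)) = ofLex (key y w (t + 1)) := by
      funext s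
      rw [shf_dec y _ h1, key_succ_dec y w t s h]
    exact h2
  · have h1 : ¬ ofLex (key y w t) 0 < (y : ℤ) := by
      rw [h0]
      exact_mod_cast h
    have h2 : ofLex (shf y (key y w t)) = ofLex (key y w (t + 1)) := by
      funext s
      rw [shf_inc y _ h1, key_succ_inc y w t s h]
    exact h2

theorem lt_iff_shf (y : ℕ) (κ κ' : Lex (ℕ → ℤ)) (h0 : ofLex κ 0 = ofLex κ' 0)
    (hy : ofLex κ 0 < (y : ℤ)) : κ < κ' ↔ shf y κ' < shf y κ := by
  have hy' : ofLex κ' 0 < (y : ℤ) := h0 ▸ hy
  constructor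
  · rintro ⟨i, hi1, hi2⟩
    cases i with
    | zero => exact absurd hi2 (by rw [show κ 0 = κ' 0 from h0]; exact lt_irrefl _)
    | succ i =>
      refine ⟨i, ?_, ?_⟩
      · intro j hj
        show ofLex (shf y κ') j = ofLex (shf y κ) j
        rw [shf_dec y _ hy, shf_dec y _ hy',
          show ofLex κ (j + 1) = ofLex κ' (j + 1) from hi1 (j + 1) (by omega)]
      · show ofLex (shf y κ') i < ofLex (shf y κ) i
        rw [shf_dec y _ hy, shf_dec y _ hy']
        have : ofLex κ (i + 1) < ofLex κ' (i + 1) := hi2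
        linarith
  · rintro ⟨i, hi1, hi2⟩
    refine ⟨i + 1, ?_, ?_⟩
    · intro j hj
      cases j with
      | zero => exact h0
      | succ j =>
        have h1 : ofLex (shf y κ') j = ofLex (shf y κ) j := hi1 j (by omega)
        rw [shf_dec y _ hy, shf_dec y _ hy'] at h1
        show ofLex κ (j + 1) = ofLex κ' (j + 1)
        linarith
    · have h1 : ofLex (shf y κ') i < ofLex (shf y κ) i := hi2
      rw [shf_dec y _ hy, shf_dec y _ hy'] at h1
      show ofLex κ (i + 1) < ofLex κ' (i + 1)
      linarith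

theorem le_iff_shf (y : ℕ) (κ κ' : Lex (ℕ → ℤ)) (h0 : ofLex κ 0 = ofLex κ' 0)
    (hy : ofLex κ 0 < (y : ℤ)) : κ ≤ κ' ↔ shf y κ' ≤ shf y κ := by
  rw [← not_lt, ← not_lt]
  exact not_congr (lt_iff_shf y κ' κ h0.symm (h0 ▸ hy))

theorem lt_iff_shf_inc (y : ℕ) (κ κ' : Lex (ℕ → ℤ)) (h0 : ofLex κ 0 = ofLex κ' 0)
    (hy : ¬ ofLex κ 0 < (y : ℤ)) : κ < κ' ↔ shf y κ < shf y κ' := by
  have hy' : ¬ ofLex κ' 0 < (y : ℤ) := h0 ▸ hy
  constructor
  · rintro ⟨i, hi1, hi2⟩
    cases i with
    | zero => exact absurd hi2 (by rw [show κ 0 = κ' 0 from h0]; exact lt_irrefl _)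
    | succ i =>
      refine ⟨i, ?_, ?_⟩
      · intro j hj
        show ofLex (shf y κ) j = ofLex (shf y κ') j
        rw [shf_inc y _ hy, shf_inc y _ hy',
          show ofLex κ (j + 1) = ofLex κ' (j + 1) from hi1 (j + 1) (by omega)]
      · show ofLex (shf y κ) i < ofLex (shf y κ') i
        rw [shf_inc y _ hy, shf_inc y _ hy']
        exact hi2
  · rintro ⟨i, hi1, hi2⟩
    refine ⟨i + 1, ?_, ?_⟩
    · intro j hj
      cases j with
      | zero => exact h0
      | succ j =>
        have h1 : ofLex (shf y κ) j = ofLex (shf y κ') j := hi1 j (by omega)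
        rw [shf_inc y _ hy, shf_inc y _ hy'] at h1
        exact h1
    · have h1 : ofLex (shf y κ) i < ofLex (shf y κ') i := hi2
      rw [shf_inc y _ hy, shf_inc y _ hy'] at h1
      exact h1

theorem le_iff_shf_inc (y : ℕ) (κ κ' : Lex (ℕ → ℤ)) (h0 : ofLex κ 0 = ofLex κ' 0)
    (hy : ¬ ofLex κ 0 < (y : ℤ)) : κ ≤ κ' ↔ shf y κ ≤ shf y κ' := by
  rw [← not_lt, ← not_lt]
  exact not_congr (lt_iff_shf_inc y κ' κ h0.symm (h0 ▸ hy))

end Pool.Agent.RST
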