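import Pool.Agent.RST.Chn
import Pool.Agent.RST.Final

/-!
# RST/MainL: from sorted shapes to all shapes
-/

set_option autoImplicit false

namespace Pool.Agent.RST

open Finset

theorem main_of_mainAt (h : ∀ y, 1 ≤ y → MainAt y) : Main := by
  intro α c hnd h2 h3 hpos hsum hlen hrow
  -- the columns of height at least two, sorted
  set L : List ℕ := (c.filter fun x => 2 ≤ x).insertionSort (· ≥ ·) with hL
  set k : ℕ := (c.filter fun x => ¬ 2 ≤ x).length with hk
  have hLperm : L.Perm (c.filter fun x => 2 ≤ x) := List.perm_insertionSort _ _
  have hones : (c.filter fun x => ¬ 2 ≤ x) = List.replicate k 1 := by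
    rw [List.eq_replicate_iff]
    refine ⟨hk.symm, ?_⟩
    intro b hb
    rw [List.mem_filter] at hb
    have h1 := hpos b hb.1
    have h2 := hb.2
    simp only [not_le, decide_eq_true_eq] at h2
    omega
  have hcperm : (L ++ List.replicate k 1).Perm c := by
    rw [← hones]
    refine (List.Perm.append_right _ hLperm).trans ?_
    have := List.filter_append_perm (fun x => decide (2 ≤ x)) c
    refine List.Perm.trans (List.Perm.of_eq ?_) this
    congr 1
    apply List.filter_congr
    intro x _
    by_cases hx : 2 ≤ x <;> simp [hx]
  have hLs : L.Pairwise (· ≥ ·) := by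
    have := List.pairwise_insertionSort (α := ℕ) (r := (· ≥ ·)) (c.filter fun x => 2 ≤ x)
    exact this
  have hLmem : ∀ x ∈ L, x ∈ c ∧ 2 ≤ x := by
    intro x hx
    have := hLperm.mem_iff.mp hx
    rw [List.mem_filter] at this
    exact ⟨this.1, by simpa using this.2⟩
  set y := L.length with hy
  set C : ℕ → ℕ := fun j => if j < y then L.getD j 0 else k with hC
  have hCy : C y = k := by simp [hC]
  have hmap : (List.range y).map C = L := by
    apply List.ext_getElem
    · simp [hy]
    · intro i h1 h2
      have h4 : i < y := by simpa using h1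
      simp only [List.getElem_map, List.getElem_range, hC]
      rw [if_pos h4, List.getD_eq_getElem _ _ h4]
  have hCmem : ∀ j, j < y → C j ∈ L := by
    intro j hj
    simp only [hC]
    rw [if_pos hj, List.getD_eq_getElem _ _ hj]
    exact List.getElem_mem _
  have hsumL : ∑ j ∈ range y, C j = L.sum := by
    rw [← hmap]
    rw [Finset.sum_range, ← List.sum_ofFn]
    congr 1
    rw [List.ofFn_eq_map]
    rw [← List.map_coe_finRange_eq_range, List.map_map]
    rfl
  have hsumc : L.sum + k = α.sum := by
    have := hcperm.sum_eq
    simp only [List.sum_append, List.sum_replicate, smul_eq_mul, mul_one] at this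
    omega
  have hlenc : c.length = y + k := by
    have := hcperm.length_eq
    simp only [List.length_append, List.length_replicate] at this
    omega
  have hcard2 : 2 * Multiset.card α ≤ α.sum := by
    have := Multiset.card_nsmul_le_sum (s := α) (a := 2) h2
    simpa [mul_comm] using this
  have hyp : 1 ≤ y := by
    by_contra hc
    have h0 : y = 0 := by omega
    have : L = [] := List.length_eq_zero_iff.mp h0
    rw [this] at hsumc
    simp at hsumc
    omega
  have hCle : C 0 ≤ α.sum - Multiset.card α + (if 2 ∈ α then 1 else 0) :=
    hrow _ (hLmem _ (hCmem 0 hyp)).1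
  let al : Finset ℕ := ⟨α, hnd⟩
  have hcard : al.card = Multiset.card α := rfl
  have hal : ∀ x, x ∈ al ↔ x ∈ α := fun x => Iff.rfl
  have hsal : ∑ a ∈ al, a = α.sum := by
    change (Multiset.map (fun a => a) al.val).sum = _
    rw [Multiset.map_id']
  have hif : (if 2 ∈ al then 1 else 0) = (if 2 ∈ α then 1 else 0 : ℕ) := by
    simp only [hal]
  have htot : ∑ j ∈ range (y + 1), C j = α.sum := by
    rw [Finset.sum_range_succ, hsumL, hCy, hsumc]
  have hG : Goal y C al := by
    apply h y hyp C al
    · intro i j hij hj
      have hi : i < y := by omega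
      simp only [hC]
      rw [if_pos hj, if_pos hi, List.getD_eq_getElem _ _ hj, List.getD_eq_getElem _ _ hi]
      rcases Nat.eq_or_lt_of_le hij with e | e
      · subst e; exact le_rfl
      · exact List.pairwise_iff_getElem.mp hLs i j hi hj e
    · intro j hj
      exact (hLmem _ (hCmem j hj)).2
    · rw [← Finset.card_pos]; omega
    · intro a ha; exact h2 a ha
    · rw [hsal, htot]
    · rw [hif, hcard]
      have := sum_range_Icc C y
      rw [htot] at this
      omega
    · rw [hcard, hsumL]
      omega
    · rintro ⟨-, -, hE⟩
      rcases hE with ⟨e, -⟩ | ⟨e, -⟩ | ⟨e, -⟩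
      all_goals
        have : al.card = 2 := by rw [e]; decide
        omega
  have hG' : Real α ((List.range y).map C ++ List.replicate (C y) 1) := hG
  rw [hmap, hCy] at hG'
  exact real_perm _ _ _ hcperm hG'

end Pool.Agent.RST
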