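import Pool.Agent.RST.MtF

/-!
# RST/MtC: mountains and the tail letter, the word `0 0`
-/

set_option autoImplicit false

namespace Pool.Agent.RST

open Finset

theorem mS_zero (f : ℕ → ℕ → ℤ) (h1 : ∀ j, f j (j + 1) = 0) (h2 : ∀ j, f (j + 1) (j + 1) = 0)
    (h3 : ∀ j, f (j + 1) j = 0) (j : ℕ) (r : List ℕ) : mS f j r = 0 := by
  induction r generalizing j with
  | nil => rfl
  | cons a r ih =>
    cases r with
    | nil => simp [mS, h1, h2, h3]
    | cons b r =>
      simp only [mS, h1, h2, h3, ih (j + 1)]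
      ring

theorem mS_pos (f : ℕ → ℕ → ℤ) (h0 : ∀ p q, 0 ≤ f p q) (j : ℕ) (r : List ℕ) (hr : Adm r) (k : ℕ)
    (hk1 : j ≤ k) (hk2 : k < j + r.length) (hk : 1 ≤ f (k + 1) k) : 1 ≤ mS f j r := by
  have hnn : ∀ (r : List ℕ) (_ : Adm r) (j : ℕ), 0 ≤ mS f j r := by
    intro r
    induction r with
    | nil => intro hr; exact hr.elim
    | cons a r ih =>
      intro hr j
      cases r with
      | nil =>
        have ha : 1 ≤ a := hr
        simp only [mS]
        have e1 := h0 j (j + 1)
        have e2 := h0 (j + 1) (j + 1)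
        have e3 := h0 (j + 1) j
        have e4 : (0 : ℤ) ≤ ((a : ℤ) - 1) * f (j + 1) (j + 1) :=
          mul_nonneg (by have : (1 : ℤ) ≤ a := by exact_mod_cast ha
                         linarith) e2
        linarith
      | cons b r =>
        have ha := hr.1
        simp only [mS]
        have e1 := h0 j (j + 1)
        have e2 := h0 (j + 1) (j + 1)
        have e3 := h0 (j + 1) j
        have e4 : (0 : ℤ) ≤ ((a : ℤ) - 2) * f (j + 1) (j + 1) :=
          mul_nonneg (by have : (2 : ℤ) ≤ a := by exact_mod_cast ha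
                         linarith) e2
        have e5 := ih hr.2 (j + 1)
        linarith
  induction r generalizing j with
  | nil => exact hr.elim
  | cons a r ih =>
    cases r with
    | nil =>
      have ha : 1 ≤ a := hr
      simp only [List.length_cons, List.length_nil] at hk2
      have hkj : k = j := by omega
      subst hkj
      simp only [mS]
      have e1 := h0 k (k + 1)
      have e2 := h0 (k + 1) (k + 1)
      have e4 : (0 : ℤ) ≤ ((a : ℤ) - 1) * f (k + 1) (k + 1) :=
        mul_nonneg (by have : (1 : ℤ) ≤ a := by exact_mod_cast ha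
                       linarith) e2
      linarith
    | cons b r =>
      have ha := hr.1
      simp only [mS]
      have e1 := h0 j (j + 1)
      have e2 := h0 (j + 1) (j + 1)
      have e3 := h0 (j + 1) j
      have e4 : (0 : ℤ) ≤ ((a : ℤ) - 2) * f (j + 1) (j + 1) :=
        mul_nonneg (by have : (2 : ℤ) ≤ a := by exact_mod_cast ha
                       linarith) e2
      rcases Nat.lt_or_ge j k with h5 | h5
      · have e5 := ih (j + 1) hr.2 (by omega) (by simp only [List.length_cons] at hk2 ⊢; omega)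
        linarith
      · have hkj : k = j := by omega
        subst hkj
        have e5 := hnn (b :: r) hr.2 (k + 1)
        linarith

theorem prev_pos (w : List ℕ) (t : ℕ) (ht : t < w.length) :
    ∃ s < w.length, lt w s = pv w t ∧ lt w (s + 1) = lt w t := by
  refine ⟨(t + (w.length - 1)) % w.length, Nat.mod_lt _ (by omega), ?_, ?_⟩
  · rw [lt_mod]; rfl
  · rw [← lt_mod, Nat.mod_add_mod, show t + (w.length - 1) + 1 = t + w.length by omega, lt_mod,
      lt_add_length]

theorem next_pos (w : List ℕ) (s : ℕ) (hs : s < w.length) :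
    ∃ t < w.length, pv w t = lt w s ∧ lt w t = lt w (s + 1) := by
  refine ⟨(s + 1) % w.length, Nat.mod_lt _ (by omega), ?_, ?_⟩
  · unfold pv
    rw [← lt_mod, Nat.mod_add_mod, show s + 1 + (w.length - 1) = s + w.length by omega, lt_mod,
      lt_add_length]
  · rw [lt_mod]

theorem mt_adjS {l h : ℕ} {x : ℕ → ℕ} (hx : MtOK l h x) (f : ℕ → ℕ → ℤ) :
    ∑ t ∈ range (mt l h x).length, f (lt (mt l h x) t) (lt (mt l h x) (t + 1)) =
      (x l - 1) * f l l + mS f l ((List.range' (l + 1) (h - l)).map x) := by
  rw [sum_lt_eq_adjS]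
  exact adjS_mtn f l (x l) _ hx.bot hx.adm

theorem TO_mt {y l h : ℕ} {x : ℕ → ℕ} (hx : MtOK l h x) (hy : h ≤ y) : TO y (mt l h x) := by
  intro t ht hp
  by_contra hcon
  obtain ⟨s, hs, h1, h2⟩ := prev_pos _ t ht
  set f : ℕ → ℕ → ℤ := fun p q => if p = y ∧ q + 1 < y then 1 else 0 with hf
  have h3 := mt_adjS hx f
  have hlh := hx.lt
  rw [mS_zero f (by
    intro j
    rw [hf]; simp only
    rw [if_neg]; omega) (by
    intro j
    rw [hf]; simp only
    rw [if_neg]; omega) (by
    intro j
    rw [hf]; simp only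
    rw [if_neg]; omega), show f l l = 0 by
      rw [hf]; simp only
      rw [if_neg]; omega] at h3
  have h4 : f (lt (mt l h x) s) (lt (mt l h x) (s + 1)) ≤ 0 := by
    have h5 : f (lt (mt l h x) s) (lt (mt l h x) (s + 1)) ≤
        ∑ t ∈ range (mt l h x).length, f (lt (mt l h x) t) (lt (mt l h x) (t + 1)) :=
      Finset.single_le_sum (f := fun t => f (lt (mt l h x) t) (lt (mt l h x) (t + 1)))
        (fun i _ => by rw [hf]; simp only; split_ifs <;> norm_num) (mem_range.2 hs)
    rw [h3] at h5
    simpa using h5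
  rw [h1, h2, hp] at h4
  have h6 : f y (lt (mt l h x) t) = 1 := by
    rw [hf]; simp only
    rw [if_pos ⟨trivial, by omega⟩]
  rw [h6] at h4
  norm_num at h4

theorem CR_mt {y l h : ℕ} {x : ℕ → ℕ} (hx : MtOK l h x) (hy : h ≤ y) (h1 : l + 1 < y)
    (h2 : y ≤ h + 1) : CR y (mt l h x) := by
  set f : ℕ → ℕ → ℤ := fun p q => if p + 1 = y ∧ q + 1 < y then 1 else 0 with hf
  have h0 : ∀ p q, 0 ≤ f p q := by
    intro p q; rw [hf]; simp only; split_ifs <;> norm_num
  have h3 := mt_adjS hx f
  have hb := hx.bot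
  have h4 : 1 ≤ mS f l ((List.range' (l + 1) (h - l)).map x) := by
    apply mS_pos f h0 l _ hx.adm (y - 2) (by omega)
    · simp only [List.length_map, List.length_range']; omega
    · rw [hf]; simp only
      rw [if_pos]
      omega
  have h5 : (0 : ℤ) ≤ ((x l : ℤ) - 1) * f l l :=
    mul_nonneg (by have : (1 : ℤ) ≤ x l := by exact_mod_cast hb
                   linarith) (h0 l l)
  have h6 : 0 < ∑ t ∈ range (mt l h x).length, f (lt (mt l h x) t) (lt (mt l h x) (t + 1)) := by
    rw [h3]; linarith
  obtain ⟨s, hs, hs2⟩ := Finset.exists_ne_zero_of_sum_ne_zero (ne_of_gt h6)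
  rw [mem_range] at hs
  obtain ⟨t, ht, ht1, ht2⟩ := next_pos _ s hs
  refine ⟨t, ht, ?_, ?_⟩
  · rw [ht1]
    by_contra hcon
    apply hs2
    rw [hf]; simp only
    rw [if_neg]
    exact fun h => hcon h.1
  · rw [ht2]
    by_contra hcon
    apply hs2
    rw [hf]; simp only
    rw [if_neg]
    exact fun h => hcon h.2

/-- the word `0 0` -/
theorem pre_00 {y : ℕ} (hy : 2 ≤ y) :
    Pre y [[0, 0]] (fun j => if j = 0 then 2 else 0) (fun _ _ => 0) where
  le := by
    intro w hw a ha
    simp only [List.mem_singleton] at hw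
    subst hw
    simp at ha
    omega
  ok := by
    intro w hw
    simp only [List.mem_singleton] at hw
    subst hw
    exact okW_mm (by omega)
  cnt := by
    intro m _
    rcases Nat.eq_zero_or_pos m with rfl | h
    · simp
    · have : ¬ m = 0 := by omega
      simp [this, List.count_cons]
      omega
  bd := by
    intro m ρ κ hm hρ hκ
    have h1 := D_ge y [0, 0] m ρ κ hκ
    simp only [List.map_cons, List.map_nil, List.sum_cons, List.sum_nil, add_zero]
    refine le_trans ?_ h1
    have h2 : adjS (gg m ρ) ([0, 0] ++ [hd [0, 0]]) = 2 * gg m ρ 0 0 := by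
      simp [adjS, hd]; ring
    rw [h2]
    unfold gg cc
    rcases Nat.eq_zero_or_pos m with rfl | h
    · rcases Nat.eq_zero_or_pos ρ with rfl | h'
      · simp
      · rw [if_pos h', if_pos h']; simp
    · have e1 : ¬ m = 0 := by omega
      have e2 : ¬ (0 : ℕ) = m := by omega
      simp [e1, e2]

theorem TO_00 {y : ℕ} (hy : 2 ≤ y) : TO y [0, 0] := by
  intro t ht hp
  have h1 : ∀ t, lt [0, 0] t = 0 := by
    intro t
    unfold lt
    have h2 : t % [0, 0].length < 2 := Nat.mod_lt _ (by norm_num)
    interval_cases h3 : t % [0, 0].length <;> rfl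
  unfold pv at hp
  rw [h1] at hp
  omega

end Pool.Agent.RST
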