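import Pool.Agent.RST.Sys

/-!
# RST/MtF: lists of mountains
-/

set_option autoImplicit false

namespace Pool.Agent.RST

open Finset

/-- data of a mountain: bottom, top, content -/
structure Mt where
  l : ℕ
  h : ℕ
  f : ℕ → ℕ

/-- the excess part of the lower bound for a mountain -/
def eb (l h : ℕ) (x : ℕ → ℕ) (m ρ : ℕ) : ℤ :=
  if ρ = m then (if m = h then 1 else 0) - (if m = l ∧ x l = 1 then 1 else 0)
  else if ρ = m + 1 then (if m + 1 = l then 1 else 0) - (if m + 1 = h ∧ x h = 1 then 1 else 0) +
      (if l < m + 1 ∧ m + 1 < h ∧ 3 ≤ x (m + 1) then 1 else 0)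
  else 0

theorem pre_mt {y l h : ℕ} {x : ℕ → ℕ} (hx : MtOK l h x) (hy : h ≤ y) :
    Pre y [mt l h x] x (eb l h x) where
  le := by
    intro w hw a ha
    rw [List.mem_singleton] at hw
    subst hw
    exact (hx.le_top a ha).trans hy
  ok := by
    intro w hw
    rw [List.mem_singleton] at hw
    subst hw
    exact hx.okW y
  cnt := by
    intro m _
    simp [hx.count]
  bd := by
    intro m ρ κ hm _ hκ
    have h1 := hx.D_ge y m ρ hm κ hκ
    simp only [List.map_cons, List.map_nil, List.sum_cons, List.sum_nil, add_zero]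
    refine le_trans ?_ h1
    unfold eb mb
    split_ifs <;> omega

theorem lt_mem (w : List ℕ) (t : ℕ) (h : 0 < w.length) : lt w t ∈ w := by
  unfold lt
  have h4 : t % w.length < w.length := Nat.mod_lt _ h
  rw [List.getD_eq_getElem?_getD, List.getElem?_eq_getElem h4]
  exact List.getElem_mem _

/-- admissible list of mountains -/
def POK (y : ℕ) (P : List Mt) : Prop := ∀ p ∈ P, MtOK p.l p.h p.f ∧ p.h ≤ y

/-- the words -/
def wdP (P : List Mt) : List (List ℕ) := P.map fun p => mt p.l p.h p.f

/-- the content -/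
def cntP (P : List Mt) (j : ℕ) : ℕ := (P.map fun p => p.f j).sum

/-- the excess bound -/
def ebP (P : List Mt) (m ρ : ℕ) : ℤ := (P.map fun p => eb p.l p.h p.f m ρ).sum

theorem pre_P {y : ℕ} {P : List Mt} (h : POK y P) : Pre y (wdP P) (cntP P) (ebP P) := by
  induction P with
  | nil => exact Pre.nil y
  | cons p P ih =>
    have h1 := ih fun q hq => h q (by simp [hq])
    have h2 := h p (by simp)
    have h3 := (pre_mt (y := y) h2.1 h2.2).append h1
    exact h3

end Pool.Agent.RST
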