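import Pool.Agent.RST.Words

/-!
# RST/Prim: primitive words
-/

set_option autoImplicit false

namespace Pool.Agent.RST

theorem lt_run_lt {a x : ℕ} {R : List ℕ} {t : ℕ} (h : t < a) :
    lt (List.replicate a x ++ R) t = x := by
  unfold lt
  rw [Nat.mod_eq_of_lt (by simp; omega), List.getD_append _ _ _ _ (by simpa using h)]
  rw [List.getD_eq_getElem _ _ (by simpa using h)]
  simp

theorem lt_run_ge {a x : ℕ} {R : List ℕ} {t : ℕ} (h1 : a ≤ t) (h2 : t < a + R.length) :
    lt (List.replicate a x ++ R) t ∈ R := by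
  unfold lt
  rw [Nat.mod_eq_of_lt (by simp; omega), List.getD_append_right _ _ _ _ (by simpa using h1)]
  rw [List.getD_eq_getElem _ _ (by simp; omega)]
  exact List.getElem_mem _

/-- a word with a letter which occurs in one run only is primitive -/
theorem prim_of_run {a x : ℕ} {R : List ℕ} (ha : 0 < a) (hR : R ≠ []) (hx : x ∉ R) :
    PrimW (List.replicate a x ++ R) := by
  intro d hd1 hd2
  rw [List.length_append, List.length_replicate] at hd2
  rcases Nat.lt_or_ge d a with h | h
  · -- `t = a - d`
    have hR' : 0 < R.length := List.length_pos_of_ne_nil hR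
    refine ⟨a - d, ?_⟩
    rw [lt_run_lt (t := a - d) (by omega)]
    have h1 := lt_run_ge (a := a) (x := x) (R := R) (t := a - d + d) (by omega) (by omega)
    intro h2
    rw [h2] at h1
    exact hx h1
  · refine ⟨0, ?_⟩
    rw [lt_run_lt (t := 0) ha]
    have h1 := lt_run_ge (a := a) (x := x) (R := R) (t := 0 + d) (by omega) (by omega)
    intro h2
    rw [h2] at h1
    exact hx h1

theorem okW_run (y : ℕ) {a x : ℕ} {R : List ℕ} (ha : 0 < a) (hR : R ≠ []) (hx : x ∉ R) :
    OkW y (List.replicate a x ++ R) := by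
  have hR' : 0 < R.length := List.length_pos_of_ne_nil hR
  refine ⟨by simp; omega, Or.inl (prim_of_run ha hR hx)⟩

theorem okW_mm {y m : ℕ} (h : m < y) : OkW y [m, m] := ⟨by simp, Or.inr ⟨m, h, rfl⟩⟩

end Pool.Agent.RST
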