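import Pool.Agent.RST.Mtn3
import Pool.Agent.RST.Prim

/-!
# RST/MtOk: mountains are admissible words
-/

set_option autoImplicit false

namespace Pool.Agent.RST

theorem MtOK.okW {l h : ℕ} {x : ℕ → ℕ} (hx : MtOK l h x) (y : ℕ) : OkW y (mt l h x) := by
  unfold mt mtn
  apply okW_run y hx.bot
  · intro h1
    have h2 := count_mid (l + 1) (l + 1) _ hx.adm
    rw [h1, List.count_nil, if_pos (le_refl _), Nat.sub_self, getD_range',
      if_pos (by have := hx.lt; omega), add_zero] at h2
    rcases Nat.lt_or_ge (l + 1) h with h3 | h3
    · have := hx.mid (l + 1) (by omega) h3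
      omega
    · have h4 : l + 1 = h := by have := hx.lt; omega
      have := hx.top
      rw [← h4] at this
      omega
  · intro h1
    have h2 := count_mid (l + 1) l _ hx.adm
    rw [if_neg (by omega), List.count_eq_zero] at h2
    exact h2 h1

end Pool.Agent.RST
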