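import Pool.Agent.RST.Adj

/-!
# RST/Mtn: mountains
-/

set_option autoImplicit false

namespace Pool.Agent.RST

open Finset

/-- the part of a mountain from column `j` on: one cell on the way up, the others on the way down;
the last column is the top -/
def mid : ℕ → List ℕ → List ℕ
  | _, [] => []
  | j, [a] => List.replicate a j
  | j, a :: b :: r => j :: (mid (j + 1) (b :: r) ++ List.replicate (a - 1) j)

/-- the mountain with base column `l`, amount `a` in it, and amounts `r` in the next columns -/
def mtn (l a : ℕ) (r : List ℕ) : List ℕ := List.replicate a l ++ mid (l + 1) r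

/-- amounts of a mountain above the base: the last one is `≥ 1`, the others are `≥ 2` -/
def Adm : List ℕ → Prop
  | [] => False
  | [a] => 1 ≤ a
  | a :: b :: r => 2 ≤ a ∧ Adm (b :: r)

theorem Adm.ne_nil {r : List ℕ} (h : Adm r) : r ≠ [] := by
  intro h1
  rw [h1] at h
  exact h

theorem count_mid (j m : ℕ) (r : List ℕ) (hr : Adm r) :
    (mid j r).count m = if j ≤ m then r.getD (m - j) 0 else 0 := by
  induction r generalizing j with
  | nil => exact hr.elim
  | cons a r ih =>
    cases r with
    | nil =>
      rw [mid, List.count_replicate]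
      by_cases h1 : j = m
      · subst h1
        simp
      · rw [if_neg (by simpa using h1)]
        by_cases h2 : j ≤ m
        · rw [if_pos h2]
          obtain ⟨k, hk⟩ := Nat.exists_eq_add_of_lt (lt_of_le_of_ne h2 h1)
          rw [show m - j = k + 1 by omega]
          simp
        · rw [if_neg h2]
    | cons b r =>
      rw [mid, List.count_cons, List.count_append, List.count_replicate, ih (j + 1) hr.2]
      by_cases h1 : j = m
      · subst h1
        have := hr.1
        simp
        omega
      · have e1 : (j == m) = false := by simpa using h1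
        rw [e1]
        by_cases h2 : j ≤ m
        · rw [if_pos h2, if_pos (by omega)]
          obtain ⟨k, hk⟩ := Nat.exists_eq_add_of_lt (lt_of_le_of_ne h2 h1)
          rw [show m - j = k + 1 by omega, show m - (j + 1) = k by omega]
          simp
        · rw [if_neg h2, if_neg (by omega)]
          simp

/-- the amount of a mountain in the column `m` -/
def am (l a : ℕ) (r : List ℕ) (m : ℕ) : ℕ :=
  if m = l then a else if l < m then r.getD (m - (l + 1)) 0 else 0

theorem count_mtn (l a : ℕ) (r : List ℕ) (hr : Adm r) (m : ℕ) :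
    (mtn l a r).count m = am l a r m := by
  unfold mtn am
  rw [List.count_append, List.count_replicate, count_mid _ _ _ hr]
  rcases lt_trichotomy m l with h1 | h1 | h1
  · have e1 : (l == m) = false := by
      simp only [beq_eq_false_iff_ne, ne_eq]
      omega
    have e2 : ¬ l + 1 ≤ m := by omega
    have e3 : ¬ m = l := by omega
    have e4 : ¬ l < m := by omega
    simp [e1, e2, e3, e4]
  · subst h1
    simp
  · have e1 : (l == m) = false := by
      simp only [beq_eq_false_iff_ne, ne_eq]
      omega
    have e2 : l + 1 ≤ m := by omega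
    have e3 : ¬ m = l := by omega
    simp only [e1, e2, e3, h1, if_true, if_false, Bool.false_eq_true, zero_add]

private theorem adjS_replicate (f : ℕ → ℕ → ℤ) (n j : ℕ) :
    adjS f (List.replicate (n + 1) j) = n * f j j := by
  induction n with
  | zero => simp [adjS]
  | succ n ih =>
    rw [List.replicate_succ, List.replicate_succ, adjS, ← List.replicate_succ, ih]
    push_cast
    ring

/-- closed form of the sum over adjacent pairs for `mid` -/
def mS (f : ℕ → ℕ → ℤ) : ℕ → List ℕ → ℤ
  | _, [] => 0
  | j, [a] => f j (j + 1) + (a - 1) * f (j + 1) (j + 1) + f (j + 1) j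
  | j, a :: b :: r => f j (j + 1) + mS f (j + 1) (b :: r) + (a - 2) * f (j + 1) (j + 1) +
      f (j + 1) j

theorem adjS_mid (f : ℕ → ℕ → ℤ) (j : ℕ) (r : List ℕ) (hr : Adm r) :
    adjS f (j :: (mid (j + 1) r ++ [j])) = mS f j r := by
  induction r generalizing j with
  | nil => exact hr.elim
  | cons a r ih =>
    cases r with
    | nil =>
      obtain ⟨n, hn⟩ : ∃ n, a = n + 1 := ⟨a - 1, by have : 1 ≤ a := hr; omega⟩
      subst hn
      rw [mid, mS]
      have h1 : j :: (List.replicate (n + 1) (j + 1) ++ [j]) =
          (j :: List.replicate n (j + 1)) ++ (j + 1) :: [j] := by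
        rw [List.replicate_succ']
        simp
      rw [h1, adjS_append]
      have h2 : (j :: List.replicate n (j + 1)) ++ [j + 1] =
          j :: List.replicate (n + 1) (j + 1) := by
        rw [List.replicate_succ']
        simp
      rw [h2, List.replicate_succ, adjS, ← List.replicate_succ, adjS_replicate]
      simp only [adjS]
      push_cast
      ring
    | cons b r =>
      obtain ⟨n, hn⟩ : ∃ n, a = n + 2 := ⟨a - 2, by have := hr.1; omega⟩
      subst hn
      rw [mid, mS, ← ih (j + 1) hr.2]
      have h1 : (j :: ((j + 1) :: (mid (j + 1 + 1) (b :: r) ++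
          List.replicate (n + 2 - 1) (j + 1)) ++ [j])) =
          (j :: (j + 1) :: mid (j + 1 + 1) (b :: r)) ++
            (j + 1) :: (List.replicate n (j + 1) ++ [j]) := by
        rw [show n + 2 - 1 = n + 1 by omega, List.replicate_succ]
        simp
      rw [h1, adjS_append]
      have h2 : (j :: (j + 1) :: mid (j + 1 + 1) (b :: r)) ++ [j + 1] =
          j :: (j + 1) :: (mid (j + 1 + 1) (b :: r) ++ [j + 1]) := by simp
      have h3 : (j + 1) :: (List.replicate n (j + 1) ++ [j]) =
          List.replicate n (j + 1) ++ (j + 1) :: [j] := by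
        have : (j + 1) :: List.replicate n (j + 1) = List.replicate n (j + 1) ++ [j + 1] := by
          rw [← List.replicate_succ, List.replicate_succ']
        rw [← List.cons_append, this, List.append_assoc]
        rfl
      rw [h2, adjS, h3, adjS_append]
      have h4 : List.replicate n (j + 1) ++ [j + 1] = List.replicate (n + 1) (j + 1) := by
        rw [List.replicate_succ']
      rw [h4, adjS_replicate]
      simp only [adjS]
      push_cast
      ring

theorem adjS_mtn (f : ℕ → ℕ → ℤ) (l a : ℕ) (r : List ℕ) (ha : 1 ≤ a) (hr : Adm r) :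
    adjS f (mtn l a r ++ [hd (mtn l a r)]) = (a - 1) * f l l + mS f l r := by
  obtain ⟨n, hn⟩ : ∃ n, a = n + 1 := ⟨a - 1, by omega⟩
  subst hn
  have h0 : hd (mtn l (n + 1) r) = l := by
    unfold hd mtn
    rw [List.replicate_succ]
    rfl
  rw [h0]
  unfold mtn
  have h1 : List.replicate (n + 1) l ++ mid (l + 1) r ++ [l] =
      List.replicate n l ++ l :: (mid (l + 1) r ++ [l]) := by
    rw [List.replicate_succ']
    simp
  rw [h1, adjS_append, adjS_mid f l r hr]
  have h2 : List.replicate n l ++ [l] = List.replicate (n + 1) l := by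
    rw [List.replicate_succ']
  rw [h2, adjS_replicate]
  push_cast
  ring

/-- values of `gg` on up steps, down steps and repetitions -/
theorem gg_up (m ρ p : ℕ) : gg m ρ p (p + 1) =
    if ρ ≤ m + 1 then 0 else if p = m then 1 else if p = m + 1 then -1 else 0 := by
  unfold gg cc
  split_ifs <;> first | rfl | omega

theorem gg_flat (m ρ p : ℕ) : gg m ρ p p =
    if ρ ≤ m then 0 else if p = m then 1 else if p = m + 1 then -1 else 0 := by
  unfold gg cc
  split_ifs <;> first | rfl | omega

theorem gg_down (m ρ p : ℕ) : gg m ρ (p + 1) p =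
    if ρ < m then 0 else if p + 1 = m then 1 else if p = m then -1 else 0 := by
  unfold gg cc
  split_ifs <;> first | rfl | omega

/-- the amount in the column `m` of the part above the column `j` -/
def amR (j : ℕ) (r : List ℕ) (m : ℕ) : ℕ := if j + 1 ≤ m then r.getD (m - (j + 1)) 0 else 0

theorem amR_cons (j a : ℕ) (r : List ℕ) (m : ℕ) :
    amR j (a :: r) m = if m = j + 1 then a else amR (j + 1) r m := by
  unfold amR
  rcases lt_trichotomy m (j + 1) with h | h | h
  · rw [if_neg (by omega), if_neg (by omega), if_neg (by omega)]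
  · subst h
    simp
  · rw [if_pos (by omega), if_neg (by omega), if_pos (by omega)]
    obtain ⟨k, hk⟩ := Nat.exists_eq_add_of_lt h
    rw [show m - (j + 1) = k + 1 by omega, show m - (j + 1 + 1) = k by omega]
    simp

theorem amR_nil (j m : ℕ) : amR j [] m = 0 := by
  unfold amR
  split_ifs <;> simp

theorem mS_lt (m ρ j : ℕ) (r : List ℕ) (h : ρ < m) : mS (gg m ρ) j r = 0 := by
  induction r generalizing j with
  | nil => rfl
  | cons a r ih =>
    have h1 : ρ ≤ m + 1 := by omega
    have h2 : ρ ≤ m := by omega
    cases r with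
    | nil => simp only [mS, gg_up, gg_flat, gg_down, if_pos h, if_pos h1, if_pos h2]; ring
    | cons b r =>
      simp only [mS, gg_up, gg_flat, gg_down, if_pos h, if_pos h1, if_pos h2, ih]
      ring

theorem mS_eq (m j : ℕ) (r : List ℕ) (hr : r ≠ []) : mS (gg m m) j r =
    (if j < m ∧ m ≤ j + r.length then 1 else 0) -
      (if j ≤ m ∧ m < j + r.length then 1 else 0) := by
  induction r generalizing j with
  | nil => exact absurd rfl hr
  | cons a r ih =>
    have h1 : m ≤ m + 1 := by omega
    cases r with
    | nil =>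
      simp only [mS, gg_up, gg_flat, gg_down, if_pos h1, if_pos (le_refl m),
        if_neg (lt_irrefl m), List.length_cons, List.length_nil]
      split_ifs <;> omega
    | cons b r =>
      have h2 := ih (j + 1) (by simp)
      simp only [mS, gg_up, gg_flat, gg_down, if_pos h1, if_pos (le_refl m),
        if_neg (lt_irrefl m), h2, List.length_cons]
      split_ifs <;> omega

theorem mS_gt (m ρ j : ℕ) (r : List ℕ) (hr : r ≠ []) (h : m + 2 ≤ ρ) : mS (gg m ρ) j r =
    cc m j + amR j r m - amR j r (m + 1) := by
  have h1 : ¬ ρ ≤ m + 1 := by omega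
  have h2 : ¬ ρ ≤ m := by omega
  have h3 : ¬ ρ < m := by omega
  induction r generalizing j with
  | nil => exact absurd rfl hr
  | cons a r ih =>
    cases r with
    | nil =>
      simp only [mS, gg_up, gg_flat, gg_down, if_neg h1, if_neg h2, if_neg h3, amR_cons, amR_nil,
        cc]
      split_ifs <;> omega
    | cons b r =>
      have h4 := ih (j + 1) (by simp)
      simp only [mS, h4]
      simp only [gg_up, gg_flat, gg_down, if_neg h1, if_neg h2, if_neg h3, cc]
      rw [amR_cons j a (b :: r) m, amR_cons j a (b :: r) (m + 1)]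
      have e0 : ∀ k, k ≤ j + 1 → amR (j + 1) (b :: r) k = 0 := by
        intro k hk
        unfold amR
        rw [if_neg (by omega)]
      rcases lt_trichotomy m j with g | g | g
      · rw [e0 m (by omega), e0 (m + 1) (by omega)]
        split_ifs <;> omega
      · subst g
        rw [e0 m (by omega), e0 (m + 1) (by omega)]
        split_ifs <;> omega
      · rcases Nat.eq_or_lt_of_le g with g1 | g1
        · subst g1
          rw [e0 _ (le_refl _)]
          split_ifs <;> omega
        · split_ifs <;> omega

theorem mS_gt1 (m j : ℕ) (r : List ℕ) (hr : r ≠ []) : mS (gg m (m + 1)) j r =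
    cc m j + amR j r m - amR j r (m + 1) - (if j ≤ m ∧ m < j + r.length then 1 else 0) +
      (if j ≤ m + 1 ∧ m + 1 < j + r.length then 1 else 0) := by
  have h1 : m + 1 ≤ m + 1 := le_refl _
  have h2 : ¬ m + 1 ≤ m := by omega
  have h3 : ¬ m + 1 < m := by omega
  induction r generalizing j with
  | nil => exact absurd rfl hr
  | cons a r ih =>
    cases r with
    | nil =>
      simp only [mS, gg_up, gg_flat, gg_down, if_pos h1, if_neg h2, if_neg h3, amR_cons, amR_nil,
        cc, List.length_cons, List.length_nil]
      split_ifs <;> omega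
    | cons b r =>
      have h4 := ih (j + 1) (by simp)
      simp only [mS, h4]
      simp only [gg_up, gg_flat, gg_down, if_pos h1, if_neg h2, if_neg h3, cc, List.length_cons]
      rw [amR_cons j a (b :: r) m, amR_cons j a (b :: r) (m + 1)]
      have e0 : ∀ k, k ≤ j + 1 → amR (j + 1) (b :: r) k = 0 := by
        intro k hk
        unfold amR
        rw [if_neg (by omega)]
      rcases lt_trichotomy m j with g | g | g
      · rw [e0 m (by omega), e0 (m + 1) (by omega)]
        split_ifs <;> omega
      · subst g
        rw [e0 m (by omega), e0 (m + 1) (by omega)]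
        split_ifs <;> omega
      · rcases Nat.eq_or_lt_of_le g with g1 | g1
        · subst g1
          rw [e0 _ (le_refl _)]
          split_ifs <;> omega
        · split_ifs <;> omega

theorem am_eq (l a : ℕ) (r : List ℕ) (m : ℕ) :
    (am l a r m : ℤ) = (if m = l then (a : ℤ) else 0) + amR l r m := by
  unfold am amR
  rcases lt_trichotomy m l with h | h | h
  · rw [if_neg (by omega), if_neg (by omega), if_neg (by omega), if_neg (by omega)]
    simp
  · subst h
    rw [if_pos rfl, if_pos rfl, if_neg (by omega)]
    simp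
  · rw [if_neg (by omega), if_pos h, if_neg (by omega), if_pos (by omega)]
    simp

/-- region `< m` -/
theorem mtn_D_lt (y l a : ℕ) (r : List ℕ) (ha : 1 ≤ a) (hr : Adm r) (m ρ : ℕ)
    (κ : Lex (ℕ → ℤ)) (hκ : ofLex κ 0 = (ρ : ℤ)) (h : ρ < m) : 0 ≤ D y (mtn l a r) m κ := by
  refine le_trans ?_ (D_ge y _ m ρ κ hκ)
  rw [adjS_mtn _ l a r ha hr, mS_lt m ρ l r h, gg_flat, if_pos h.le]
  simp

/-- region `m` -/
theorem mtn_D_eq (y l a : ℕ) (r : List ℕ) (ha : 1 ≤ a) (hr : Adm r) (m : ℕ)
    (κ : Lex (ℕ → ℤ)) (hκ : ofLex κ 0 = (m : ℤ)) :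
    (if l < m ∧ m ≤ l + r.length then 1 else 0) - (if l ≤ m ∧ m < l + r.length then 1 else 0) ≤
      D y (mtn l a r) m κ := by
  refine le_trans ?_ (D_ge y _ m m κ hκ)
  rw [adjS_mtn _ l a r ha hr, mS_eq m l r hr.ne_nil, gg_flat, if_pos (le_refl m)]
  simp

/-- region `m + 1` -/
theorem mtn_D_gt1 (y l a : ℕ) (r : List ℕ) (ha : 1 ≤ a) (hr : Adm r) (m : ℕ)
    (κ : Lex (ℕ → ℤ)) (hκ : ofLex κ 0 = ((m + 1 : ℕ) : ℤ)) :
    (am l a r m : ℤ) - am l a r (m + 1) - (if l ≤ m ∧ m < l + r.length then 1 else 0) +
      (if l ≤ m + 1 ∧ m + 1 < l + r.length then 1 else 0) ≤ D y (mtn l a r) m κ := by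
  refine le_trans ?_ (D_ge y _ m (m + 1) κ hκ)
  have hf : gg m (m + 1) l l = cc m l := by
    rw [gg_flat, if_neg (by omega)]
    unfold cc
    split_ifs <;> omega
  rw [adjS_mtn _ l a r ha hr, mS_gt1 m l r hr.ne_nil, hf, am_eq, am_eq]
  have h1 : ((a : ℤ) - 1) * cc m l + cc m l = (if m = l then (a : ℤ) else 0) -
      (if m + 1 = l then (a : ℤ) else 0) := by
    unfold cc
    split_ifs <;> first | omega | (push_cast; ring1)
  linarith

/-- regions `≥ m + 2` -/
theorem mtn_D_gt (y l a : ℕ) (r : List ℕ) (ha : 1 ≤ a) (hr : Adm r) (m ρ : ℕ)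
    (κ : Lex (ℕ → ℤ)) (hκ : ofLex κ 0 = (ρ : ℤ)) (h : m + 2 ≤ ρ) :
    (am l a r m : ℤ) - am l a r (m + 1) ≤ D y (mtn l a r) m κ := by
  refine le_trans ?_ (D_ge y _ m ρ κ hκ)
  have hf : gg m ρ l l = cc m l := by
    rw [gg_flat, if_neg (by omega)]
    unfold cc
    split_ifs <;> omega
  rw [adjS_mtn _ l a r ha hr, mS_gt m ρ l r hr.ne_nil h, hf, am_eq, am_eq]
  have h1 : ((a : ℤ) - 1) * cc m l + cc m l = (if m = l then (a : ℤ) else 0) -
      (if m + 1 = l then (a : ℤ) else 0) := by
    unfold cc
    split_ifs <;> first | omega | (push_cast; ring1)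
  linarith

end Pool.Agent.RST
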