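import Pool.Agent.RST.Mtn

/-!
# RST/Mtn2: the sharp bounds for mountains
-/

set_option autoImplicit false

namespace Pool.Agent.RST

open Finset

/-- the key order: second letters -/
theorem key_lt_of_one (κ κ' : Lex (ℕ → ℤ)) (h0 : ofLex κ 0 = ofLex κ' 0)
    (h : ofLex κ 1 < ofLex κ' 1) : κ < κ' := by
  refine ⟨1, ?_, h⟩
  intro j hj
  obtain rfl : j = 0 := by omega
  exact h0

theorem key_one (y : ℕ) (w : List ℕ) (t : ℕ) (h : lt w t < y) :
    ofLex (key y w t) 1 = -(lt w (t + 1) : ℤ) := by
  rw [key_apply]
  unfold sg
  rw [prod_range_one, add_zero, if_pos h]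
  ring

theorem key_one_inc (y : ℕ) (w : List ℕ) (t : ℕ) (h : ¬ lt w t < y) :
    ofLex (key y w t) 1 = (lt w (t + 1) : ℤ) := by
  rw [key_apply]
  unfold sg
  rw [prod_range_one, add_zero, if_neg h]
  ring

/-- two positions with the same first letter (decreasing); the one with the larger second letter is
smaller -/
theorem key_lt_of_snd (y : ℕ) (w w' : List ℕ) (t t' : ℕ) (h0 : lt w t = lt w' t')
    (hy : lt w t < y) (h : lt w' (t' + 1) < lt w (t + 1)) : key y w t < key y w' t' := by
  apply key_lt_of_one
  · rw [key_zero, key_zero, h0]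
  · rw [key_one _ _ _ hy, key_one _ _ _ (h0 ▸ hy)]
    have : (lt w' (t' + 1) : ℤ) < lt w (t + 1) := by exact_mod_cast h
    linarith

theorem lt_eq_getD (w : List ℕ) (t : ℕ) (ht : t ≤ w.length) :
    lt w t = (w ++ [hd w]).getD t 0 := by
  rcases Nat.lt_or_ge t w.length with h4 | h4
  · unfold lt
    rw [Nat.mod_eq_of_lt h4, List.getD_append _ _ _ _ h4]
  · have h5 : t = w.length := by omega
    unfold lt
    rw [h5, Nat.mod_self, List.getD_append_right _ _ _ _ (le_refl _), Nat.sub_self]
    rfl

theorem mid_split (l : ℕ) (r : List ℕ) (hr : Adm r) (i : ℕ) (hi : i < r.length) :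
    ∃ X Z X' Z', mid (l + 1) r = X ++ mid (l + 1 + i) (r.drop i) ++ Z ∧
      l :: X = X' ++ [l + i] ∧ Z ++ [l] = (l + i) :: Z' := by
  induction i generalizing l r with
  | zero => exact ⟨[], [], [], [], by simp, by simp, by simp⟩
  | succ i ih =>
    cases r with
    | nil => exact absurd hi (by simp)
    | cons a r =>
      cases r with
      | nil => exact absurd hi (by simp)
      | cons b r =>
        obtain ⟨X, Z, X', Z', h1, h2, h3⟩ := ih (l + 1) (b :: r) hr.2 (by simpa using hi)
        refine ⟨(l + 1) :: X, Z ++ List.replicate (a - 1) (l + 1), l :: X',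
          Z' ++ List.replicate (a - 2) (l + 1) ++ [l], ?_, ?_, ?_⟩
        · rw [mid, h1, List.drop_succ_cons, show l + 1 + 1 + i = l + 1 + (i + 1) by ring]
          simp [List.append_assoc]
        · rw [h2, show l + 1 + i = l + (i + 1) by ring]
          rfl
        · obtain ⟨n, hn⟩ : ∃ n, a = n + 2 := ⟨a - 2, by have := hr.1; omega⟩
          subst hn
          rw [show n + 2 - 1 = n + 1 by omega, show n + 2 - 2 = n by omega,
            List.replicate_succ]
          have h4 : Z ++ (l + 1) :: List.replicate n (l + 1) ++ [l] =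
              (Z ++ [l + 1]) ++ (List.replicate n (l + 1) ++ [l]) := by simp
          rw [h4, h3, show l + 1 + i = l + (i + 1) by ring]
          simp

/-- the mountain followed by its first letter, split at a column -/
theorem mtn_split (l a : ℕ) (r : List ℕ) (ha : 1 ≤ a) (hr : Adm r) (i : ℕ) (hi : i < r.length) :
    ∃ P Z', mtn l a r ++ [hd (mtn l a r)] =
      P ++ (l + i) :: (mid (l + 1 + i) (r.drop i) ++ (l + i) :: Z') := by
  obtain ⟨n, hn⟩ : ∃ n, a = n + 1 := ⟨a - 1, by omega⟩
  subst hn
  have h0 : hd (mtn l (n + 1) r) = l := by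
    unfold hd mtn
    rw [List.replicate_succ]
    rfl
  obtain ⟨X, Z, X', Z', h1, h2, h3⟩ := mid_split l r hr i hi
  refine ⟨List.replicate n l ++ X', Z', ?_⟩
  rw [h0]
  unfold mtn
  rw [h1, List.replicate_succ']
  calc List.replicate n l ++ [l] ++ (X ++ mid (l + 1 + i) (r.drop i) ++ Z) ++ [l]
      = List.replicate n l ++ (l :: X) ++ mid (l + 1 + i) (r.drop i) ++ (Z ++ [l]) := by simp
    _ = _ := by rw [h2, h3]; simp

/-- reading letters -/
theorem getD_at (P Q : List ℕ) (k : ℕ) : (P ++ Q).getD (P.length + k) 0 = Q.getD k 0 := by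
  rw [List.getD_append_right _ _ _ _ (by omega)]
  congr 1
  omega

open Classical in
/-- the engine: positions `s` and `e` -/
theorem engine (y : ℕ) (w : List ℕ) (m ρ : ℕ) (κ : Lex (ℕ → ℤ))
    (hκ : ofLex κ 0 = (ρ : ℤ)) (s e : ℕ) (hs : s < w.length) (he : e < w.length)
    (h1 : cc m (lt w s) = 1) (h2 : cc m (lt w e) = -1)
    (h3 : lt w (s + 1) = ρ) (h4 : lt w (e + 1) = ρ)
    (h5 : key y w (s + 1) < key y w (e + 1)) :
    adjS (gg m ρ) (w ++ [hd w]) + 1 ≤ D y w m κ := by
  have hse : s ≠ e := by
    intro h
    rw [h] at h5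
    exact absurd h5 (lt_irrefl _)
  apply D_ge_one y w m ρ κ hκ s e hs he hse
  have g1 : gg m ρ (lt w s) (lt w (s + 1)) = 0 := by
    unfold gg
    rw [h3, if_neg (lt_irrefl _), if_pos rfl, h1]
    rfl
  have g2 : gg m ρ (lt w e) (lt w (e + 1)) = -1 := by
    unfold gg
    rw [h4, if_neg (lt_irrefl _), if_pos rfl, h2]
    rfl
  rw [g1, g2, h1, h2]
  by_cases h6 : key y w (e + 1) ≤ κ
  · have h7 : key y w (s + 1) ≤ κ := le_trans h5.le h6
    rw [if_pos h6, if_pos h7]
    norm_num
  · rw [if_neg h6]
    split_ifs <;> norm_num

theorem cc_self (m : ℕ) : cc m m = 1 := by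
  unfold cc
  rw [if_pos rfl, if_neg (by omega)]
  rfl

theorem cc_succ (m : ℕ) : cc m (m + 1) = -1 := by
  unfold cc
  rw [if_pos rfl, if_neg (by omega)]
  rfl

theorem length_mtn (l a : ℕ) (r : List ℕ) : (mtn l a r).length = a + (mid (l + 1) r).length := by
  unfold mtn
  simp

theorem mid_head (j : ℕ) (r : List ℕ) (hr : Adm r) : ∃ T, mid j r = j :: T := by
  cases r with
  | nil => exact hr.elim
  | cons a r =>
    cases r with
    | nil =>
      obtain ⟨n, hn⟩ : ∃ n, a = n + 1 := ⟨a - 1, by have : 1 ≤ a := hr; omega⟩
      subst hn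
      exact ⟨List.replicate n j, by rw [mid, List.replicate_succ]⟩
    | cons b r => exact ⟨_, by rw [mid]⟩

theorem Adm.drop {r : List ℕ} (hr : Adm r) (i : ℕ) (hi : i < r.length) : Adm (r.drop i) := by
  induction i generalizing r with
  | zero => simpa using hr
  | succ i ih =>
    cases r with
    | nil => exact absurd hi (by simp)
    | cons a r =>
      cases r with
      | nil => exact absurd hi (by simp)
      | cons b r =>
        rw [List.drop_succ_cons]
        exact ih hr.2 (by simpa using hi)

/-- bottom improvement -/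
theorem mtn_D_bot (y l a : ℕ) (r : List ℕ) (ha : 2 ≤ a) (hr : Adm r) (hly : l < y)
    (κ : Lex (ℕ → ℤ)) (hκ : ofLex κ 0 = (l : ℤ)) : 0 ≤ D y (mtn l a r) l κ := by
  obtain ⟨P, Z', hP⟩ := mtn_split l a r (by omega) hr 0 (by
    have := hr.ne_nil
    exact List.length_pos_iff.2 this)
  set w := mtn l a r with hw
  -- letters of `w`
  obtain ⟨T, hT⟩ := mid_head (l + 1) r hr
  have hlen : w.length = a + (T.length + 1) := by rw [hw, length_mtn, hT]; simp
  have hwT : w = List.replicate a l ++ (l + 1) :: T := by rw [hw]; unfold mtn; rw [hT]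
  have hrep : ∀ i < a, lt w i = l := by
    intro i hi
    unfold lt
    rw [Nat.mod_eq_of_lt (by omega), hwT, List.getD_append _ _ _ _ (by simpa using hi)]
    simp [List.getD_eq_getElem?_getD, hi]
  have ha1 : lt w a = l + 1 := by
    unfold lt
    rw [Nat.mod_eq_of_lt (by omega), hwT]
    have := getD_at (List.replicate a l) ((l + 1) :: T) 0
    rw [List.length_replicate, add_zero] at this
    rw [this]
    rfl
  -- the last letter
  have hlast : lt w (w.length - 1) = l + 1 := by
    have h1 : adjS (fun _ _ => 0) [l] = 0 := rfl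
    have h2 : ∀ (r : List ℕ), Adm r → ∀ j, ∃ T', mid j r = T' ++ [j] := by
      intro r hr j
      cases r with
      | nil => exact hr.elim
      | cons a r =>
        cases r with
        | nil =>
          obtain ⟨n, hn⟩ : ∃ n, a = n + 1 := ⟨a - 1, by have : 1 ≤ a := hr; omega⟩
          subst hn
          exact ⟨List.replicate n j, by rw [mid, List.replicate_succ']⟩
        | cons b r =>
          obtain ⟨n, hn⟩ : ∃ n, a = n + 2 := ⟨a - 2, by have := hr.1; omega⟩
          subst hn
          refine ⟨j :: (mid (j + 1) (b :: r) ++ List.replicate n j), ?_⟩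
          rw [mid, show n + 2 - 1 = n + 1 by omega, List.replicate_succ']
          simp
    obtain ⟨T', hT'⟩ := h2 r hr (l + 1)
    have h3 : w = (List.replicate a l ++ T') ++ [l + 1] := by
      rw [hw]
      unfold mtn
      rw [hT']
      simp
    unfold lt
    rw [Nat.mod_eq_of_lt (by omega), h3]
    have := getD_at (List.replicate a l ++ T') [l + 1] 0
    rw [add_zero] at this
    have e1 : (List.replicate a l ++ T' ++ [l + 1]).length - 1 =
        (List.replicate a l ++ T').length := by simp
    rw [e1, this]
    rfl
  have h := engine y w l l κ hκ (a - 2) (w.length - 1) (by omega) (by omega)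
    (by rw [hrep _ (by omega), cc_self]) (by rw [hlast, cc_succ])
    (by rw [hrep _ (by omega)]) (by
      rw [show w.length - 1 + 1 = 0 + w.length by omega, lt_add_length, hrep _ (by omega)])
    (by
      have e0 : key y w (w.length - 1 + 1) = key y w 0 := by
        rw [← key_mod y w (w.length - 1 + 1), show w.length - 1 + 1 = w.length by omega,
          Nat.mod_self]
      rw [e0, show a - 2 + 1 = a - 1 by omega]
      apply key_lt_of_snd
      · rw [hrep _ (by omega), hrep _ (by omega)]
      · rw [hrep _ (by omega)]
        exact hly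
      · rw [hrep _ (by omega), show a - 1 + 1 = a by omega, ha1]
        omega)
  have h5 : adjS (gg l l) (w ++ [hd w]) = -1 := by
    rw [hw, adjS_mtn _ l a r (by omega) hr, mS_eq l l r hr.ne_nil, gg_flat, if_pos (le_refl l),
      if_neg (by omega), if_pos ⟨le_refl _, by
        have := List.length_pos_iff.2 hr.ne_nil
        omega⟩]
    ring
  rw [h5] at h
  linarith

/-- improvement at the top or at a column with at least 3 cells, in the region of this column -/
theorem mtn_D_up (y l a : ℕ) (r : List ℕ) (ha : 1 ≤ a) (hr : Adm r) (i : ℕ) (hi : i < r.length)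
    (hiy : l + i + 1 < y) (hx : (i + 1 = r.length ∧ 2 ≤ r.getD i 0) ∨ 3 ≤ r.getD i 0)
    (κ : Lex (ℕ → ℤ)) (hκ : ofLex κ 0 = ((l + i + 1 : ℕ) : ℤ)) :
    (am l a r (l + i) : ℤ) - am l a r (l + i + 1) + (if i + 1 = r.length then 0 else 1) ≤
      D y (mtn l a r) (l + i) κ := by
  obtain ⟨P, Z', hP⟩ := mtn_split l a r ha hr i hi
  set w := mtn l a r with hw
  have hlenw : w.length = P.length + 1 + (mid (l + 1 + i) (r.drop i)).length + Z'.length := by
    have := congrArg List.length hP
    simp only [List.length_append, List.length_cons, List.length_nil] at this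
    omega
  have hlt : ∀ k, P.length + k ≤ w.length → lt w (P.length + k) =
      ((l + i) :: (mid (l + 1 + i) (r.drop i) ++ (l + i) :: Z')).getD k 0 := by
    intro k hk
    rw [lt_eq_getD _ _ hk, hP, getD_at]
  have hdr : r.drop i = r.getD i 0 :: r.drop (i + 1) := by
    rw [List.drop_eq_getElem_cons hi, List.getD_eq_getElem _ _ hi]
  obtain ⟨x, hx'⟩ : ∃ x, r.getD i 0 = x := ⟨_, rfl⟩
  rw [hx'] at hdr hx
  -- there is a position `e`
  have key1 : ∃ e, P.length < e ∧ e < w.length ∧ lt w e = l + i + 1 ∧ lt w (e + 1) = l + i + 1 ∧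
      lt w (P.length + 1) = l + i + 1 ∧
      key y w (P.length + 1) < key y w (e + 1) := by
    by_cases htop : i + 1 = r.length
    · have hx2 : 2 ≤ x := by
        rcases hx with h | h
        · exact h.2
        · omega
      have hd1 : r.drop (i + 1) = [] := by rw [htop]; simp
      rw [hd1] at hdr
      rw [hdr] at hlt hlenw
      have hmid : mid (l + 1 + i) [x] = List.replicate x (l + i + 1) := by
        rw [mid, show l + 1 + i = l + i + 1 by ring]
      rw [hmid] at hlt hlenw
      rw [List.length_replicate] at hlenw
      have hin : ∀ k, 1 ≤ k → k ≤ x → lt w (P.length + k) = l + i + 1 := by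
        intro k hk1 hk2
        rw [hlt k (by omega)]
        obtain ⟨k', rfl⟩ : ∃ k', k = k' + 1 := ⟨k - 1, by omega⟩
        rw [List.getD_cons_succ, List.getD_append _ _ _ _ (by simp; omega)]
        rw [List.getD_eq_getElem?_getD, List.getElem?_replicate, if_pos (by omega)]
        rfl
      have hout : lt w (P.length + (x + 1)) = l + i := by
        rw [hlt _ (by omega), List.getD_cons_succ]
        have := getD_at (List.replicate x (l + i + 1)) ((l + i) :: Z') 0
        rw [List.length_replicate, add_zero] at this
        rw [this]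
        rfl
      refine ⟨P.length + (x - 1), by omega, by omega, hin _ (by omega) (by omega), ?_,
        hin _ (by omega) (by omega), ?_⟩
      · rw [show P.length + (x - 1) + 1 = P.length + x by omega]
        exact hin _ (by omega) (by omega)
      · rw [show P.length + (x - 1) + 1 = P.length + x by omega]
        apply key_lt_of_snd
        · rw [hin _ (by omega) (by omega), hin _ (by omega) (by omega)]
        · rw [hin _ (by omega) (by omega)]
          exact hiy
        · rw [show P.length + x + 1 = P.length + (x + 1) by ring, hout,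
            show P.length + 1 + 1 = P.length + 2 by ring, hin 2 (by omega) (by omega)]
          omega
    · have hx3 : 3 ≤ x := by
        rcases hx with h | h
        · exact absurd h.1 htop
        · exact h
      have hi2 : i + 1 < r.length := by omega
      have had := hr.drop (i + 1) hi2
      obtain ⟨T, hT⟩ := mid_head (l + i + 2) _ had
      have hmid : mid (l + 1 + i) (r.drop i) =
          (l + i + 1) :: ((l + i + 2) :: T ++ List.replicate (x - 1) (l + i + 1)) := by
        rw [hdr]
        obtain ⟨b, r', hb⟩ : ∃ b r', r.drop (i + 1) = b :: r' := by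
          cases h : r.drop (i + 1) with
          | nil => rw [h] at had; exact had.elim
          | cons b r' => exact ⟨b, r', rfl⟩
        rw [hb, mid, ← hb, show l + 1 + i + 1 = l + i + 2 by ring, hT,
          show l + 1 + i = l + i + 1 by ring]
      rw [hmid] at hlt hlenw
      simp only [List.length_cons, List.length_append, List.length_replicate] at hlenw
      have e1 : lt w (P.length + 1) = l + i + 1 := by
        rw [hlt 1 (by omega)]
        rfl
      have e2 : lt w (P.length + 2) = l + i + 2 := by
        rw [hlt 2 (by omega)]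
        rfl
      have e3 : ∀ k, k < x - 1 → lt w (P.length + (T.length + 3 + k)) = l + i + 1 := by
        intro k hk
        rw [hlt _ (by omega)]
        rw [show T.length + 3 + k = (((l + i + 2) :: T).length + k) + 1 + 1 by simp; ring,
          List.getD_cons_succ]
        rw [List.cons_append, List.getD_cons_succ, List.append_assoc, getD_at,
          List.getD_append _ _ _ _ (by simpa using hk)]
        rw [List.getD_eq_getElem?_getD, List.getElem?_replicate, if_pos hk]
        rfl
      have e4 : lt w (P.length + (T.length + 3 + (x - 1))) = l + i := by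
        rw [hlt _ (by omega)]
        rw [show T.length + 3 + (x - 1) = (((l + i + 2) :: T).length + (x - 1)) + 1 + 1 by
          simp; ring, List.getD_cons_succ]
        rw [List.cons_append, List.getD_cons_succ, List.append_assoc, getD_at]
        have := getD_at (List.replicate (x - 1) (l + i + 1)) ((l + i) :: Z') 0
        rw [List.length_replicate, add_zero] at this
        rw [this]
        rfl
      refine ⟨P.length + (T.length + 3 + (x - 3)), by omega, by omega, e3 _ (by omega), ?_, e1, ?_⟩
      · rw [show P.length + (T.length + 3 + (x - 3)) + 1 = P.length + (T.length + 3 + (x - 2)) by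
          omega]
        exact e3 _ (by omega)
      · rw [show P.length + (T.length + 3 + (x - 3)) + 1 = P.length + (T.length + 3 + (x - 2)) by
          omega]
        apply key_lt_of_snd
        · rw [e1, e3 _ (by omega)]
        · rw [e1]
          exact hiy
        · rw [show P.length + (T.length + 3 + (x - 2)) + 1 =
            P.length + (T.length + 3 + (x - 1)) by omega, e4,
            show P.length + 1 + 1 = P.length + 2 by ring, e2]
          omega
  obtain ⟨e, he0, he1, he2, he3, he4, he5⟩ := key1
  have hPw : P.length < w.length := by omega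
  have hP0 : lt w P.length = l + i := by
    have := hlt 0 (by omega)
    rw [add_zero] at this
    rw [this]
    rfl
  have h := engine y w (l + i) (l + i + 1) κ hκ P.length e hPw he1
    (by rw [hP0, cc_self]) (by rw [he2, cc_succ]) he4 he3 he5
  have hf : gg (l + i) (l + i + 1) l l = cc (l + i) l := by
    rw [gg_flat, if_neg (by omega)]
    unfold cc
    split_ifs <;> omega
  have h5 : adjS (gg (l + i) (l + i + 1)) (w ++ [hd w]) =
      (am l a r (l + i) : ℤ) - am l a r (l + i + 1) - 1 +
        (if i + 1 = r.length then 0 else 1) := by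
    rw [hw, adjS_mtn _ l a r ha hr, mS_gt1 (l + i) l r hr.ne_nil, hf, am_eq, am_eq]
    have h1 : ((a : ℤ) - 1) * cc (l + i) l + cc (l + i) l = (if l + i = l then (a : ℤ) else 0) -
        (if l + i + 1 = l then (a : ℤ) else 0) := by
      unfold cc
      split_ifs <;> first | omega | (push_cast; ring1)
    have h2 : (if l ≤ l + i ∧ l + i < l + r.length then (1 : ℤ) else 0) = 1 := by
      rw [if_pos ⟨by omega, by omega⟩]
    have h3 : (if l ≤ l + i + 1 ∧ l + i + 1 < l + r.length then (1 : ℤ) else 0) =
        if i + 1 = r.length then 0 else 1 := by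
      split_ifs <;> omega
    rw [h2, h3]
    linarith
  rw [h5] at h
  linarith

end Pool.Agent.RST
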