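import Pool.Agent.RST.Mtn2

/-!
# RST/Mtn3: mountains given by a function `x`, the combined bound
-/

set_option autoImplicit false

namespace Pool.Agent.RST

open Finset

/-- `x` is the content of a mountain from the column `l` to the column `h` -/
structure MtOK (l h : ℕ) (x : ℕ → ℕ) : Prop where
  lt : l < h
  bot : 1 ≤ x l
  top : 1 ≤ x h
  mid : ∀ k, l < k → k < h → 2 ≤ x k
  out : ∀ k, k < l ∨ h < k → x k = 0

/-- the mountain with the content `x` from the column `l` to the column `h` -/
def mt (l h : ℕ) (x : ℕ → ℕ) : List ℕ := mtn l (x l) ((List.range' (l + 1) (h - l)).map x)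

theorem adm_range' (x : ℕ → ℕ) (s n : ℕ) (h1 : ∀ k, s ≤ k → k < s + n → 2 ≤ x k)
    (h2 : 1 ≤ x (s + n)) : Adm ((List.range' s (n + 1)).map x) := by
  induction n generalizing s with
  | zero =>
    simp only [Nat.zero_add, List.range'_one, List.map_cons, List.map_nil]
    exact h2
  | succ n ih =>
    have h3 := ih (s + 1) (fun k hk1 hk2 => h1 k (by omega) (by omega))
      (by rw [show s + 1 + n = s + (n + 1) by ring]; exact h2)
    rw [List.range'_succ, List.map_cons]
    rw [List.range'_succ, List.map_cons] at h3 ⊢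
    exact ⟨h1 s (le_refl _) (by omega), h3⟩

theorem MtOK.adm {l h : ℕ} {x : ℕ → ℕ} (hx : MtOK l h x) :
    Adm ((List.range' (l + 1) (h - l)).map x) := by
  have h1 := hx.lt
  obtain ⟨n, hn⟩ : ∃ n, h - l = n + 1 := ⟨h - l - 1, by omega⟩
  rw [hn]
  apply adm_range'
  · intro k hk1 hk2
    exact hx.mid k (by omega) (by omega)
  · rw [show l + 1 + n = h by omega]
    exact hx.top

theorem getD_range' (x : ℕ → ℕ) (s n i : ℕ) :
    ((List.range' s n).map x).getD i 0 = if i < n then x (s + i) else 0 := by
  rw [List.getD_eq_getElem?_getD, List.getElem?_map]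
  by_cases h : i < n
  · rw [List.getElem?_range' h, if_pos h]
    simp
  · rw [if_neg h, List.getElem?_eq_none (by simpa using h)]
    rfl

theorem MtOK.am {l h : ℕ} {x : ℕ → ℕ} (hx : MtOK l h x) (m : ℕ) :
    am l (x l) ((List.range' (l + 1) (h - l)).map x) m = x m := by
  have h1 := hx.lt
  unfold Pool.Agent.RST.am
  rcases lt_trichotomy m l with h2 | h2 | h2
  · rw [if_neg (by omega), if_neg (by omega), hx.out m (Or.inl h2)]
  · rw [if_pos h2, h2]
  · rw [if_neg (by omega), if_pos h2, getD_range']
    by_cases h3 : m ≤ h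
    · rw [if_pos (by omega), show l + 1 + (m - (l + 1)) = m by omega]
    · rw [if_neg (by omega), hx.out m (Or.inr (by omega))]

theorem MtOK.count {l h : ℕ} {x : ℕ → ℕ} (hx : MtOK l h x) (m : ℕ) :
    (mt l h x).count m = x m := by
  unfold mt
  rw [count_mtn _ _ _ hx.adm, hx.am]

/-- the lower bound for a mountain -/
def mb (l h : ℕ) (x : ℕ → ℕ) (m ρ : ℕ) : ℤ :=
  if ρ < m then 0
  else if ρ = m then (if m = h then 1 else 0) - (if m = l ∧ x l = 1 then 1 else 0)
  else (x m : ℤ) - x (m + 1) + (if ρ = m + 1 then
    (if m + 1 = l then 1 else 0) - (if m + 1 = h ∧ x h = 1 then 1 else 0) +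
      (if l < m + 1 ∧ m + 1 < h ∧ 3 ≤ x (m + 1) then 1 else 0) else 0)

theorem MtOK.D_ge {l h : ℕ} {x : ℕ → ℕ} (hx : MtOK l h x) (y m ρ : ℕ) (hm : m + 1 < y)
    (κ : Lex (ℕ → ℤ)) (hκ : ofLex κ 0 = (ρ : ℤ)) : mb l h x m ρ ≤ D y (mt l h x) m κ := by
  have hlh := hx.lt
  have hadm := hx.adm
  have ham := hx.am
  set r := (List.range' (l + 1) (h - l)).map x with hr
  have hrl : r.length = h - l := by rw [hr]; simp
  have hw : mt l h x = mtn l (x l) r := rfl
  rw [hw]
  unfold mb
  rcases lt_trichotomy ρ m with h1 | h1 | h1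
  · rw [if_pos h1]
    exact mtn_D_lt y l _ r hx.bot hadm m ρ κ hκ h1
  · subst h1
    rw [if_neg (lt_irrefl _), if_pos rfl]
    have h2 := mtn_D_eq y l _ r hx.bot hadm ρ κ hκ
    rw [hrl] at h2
    by_cases h3 : ρ = l ∧ 2 ≤ x l
    · obtain ⟨h3, h4⟩ := h3
      rw [h3] at hκ ⊢
      have h5 := mtn_D_bot y l _ r h4 hadm (by omega) κ hκ
      rw [if_neg (by omega), if_neg (by omega)]
      simpa using h5
    · refine le_trans ?_ h2
      have hb := hx.bot
      rw [not_and] at h3
      split_ifs <;> omega
  · rw [if_neg (by omega), if_neg (by omega)]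
    rcases Nat.lt_or_ge (m + 1) ρ with h2 | h2
    · rw [if_neg (by omega), add_zero]
      have h3 := mtn_D_gt y l _ r hx.bot hadm m ρ κ hκ h2
      rw [ham, ham] at h3
      exact h3
    · have h3 : ρ = m + 1 := by omega
      subst h3
      rw [if_pos rfl]
      have h4 := mtn_D_gt1 y l _ r hx.bot hadm m κ hκ
      rw [ham, ham, hrl] at h4
      by_cases h5 : l ≤ m ∧ m < h ∧ ((m + 1 = h ∧ 2 ≤ x h) ∨ 3 ≤ x (m + 1))
      · obtain ⟨h6, h7, h8⟩ := h5
        obtain ⟨i, hi⟩ := Nat.exists_eq_add_of_le h6
        subst hi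
        have h9 : r.getD i 0 = x (l + i + 1) := by
          rw [hr, getD_range', if_pos (by omega)]
          congr 1
          ring
        have h10 := mtn_D_up y l _ r hx.bot hadm i (by omega) hm (by
          rw [h9, hrl]
          rcases h8 with ⟨h8, h8'⟩ | h8
          · left
            rw [← h8] at h8'
            exact ⟨by omega, h8'⟩
          · right
            exact h8) κ hκ
        rw [ham, ham, hrl] at h10
        refine le_trans ?_ h10
        rcases h8 with ⟨h8, h8'⟩ | h8
        · have e1 : i + 1 = h - l := by omega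
          rw [if_pos e1]
          split_ifs <;> omega
        · by_cases e1 : i + 1 = h - l
          · have e2 : l + i + 1 = h := by omega
            rw [e2] at h8
            rw [if_pos e1]
            split_ifs <;> omega
          · rw [if_neg e1]
            split_ifs <;> omega
      · refine le_trans ?_ h4
        have hb := hx.bot
        have ht := hx.top
        rw [not_and, not_and, not_or] at h5
        rcases Nat.lt_or_ge m l with g1 | g1
        · split_ifs <;> omega
        · rcases Nat.lt_or_ge m h with g2 | g2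
          · obtain ⟨g3, g4⟩ := h5 g1 g2
            rw [not_and] at g3
            split_ifs <;> omega
          · split_ifs <;> omega

theorem MtOK.length {l h : ℕ} {x : ℕ → ℕ} (hx : MtOK l h x) (y : ℕ) (hy : h ≤ y) :
    (mt l h x).length = ∑ k ∈ range (y + 1), x k := by
  have h1 : ∀ w : List ℕ, (∀ a ∈ w, a ≤ y) → w.length = ∑ k ∈ range (y + 1), w.count k := by
    intro w hw
    induction w with
    | nil => simp
    | cons a w ih =>
      rw [List.length_cons, ih (fun b hb => hw b (List.mem_cons_of_mem _ hb))]
      have h2 : ∀ k, (a :: w).count k = w.count k + if k = a then 1 else 0 := by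
        intro k
        rw [List.count_cons]
        congr 1
        by_cases h3 : k = a
        · subst h3
          simp
        · have e1 : (a == k) = false := by
            simp only [beq_eq_false_iff_ne, ne_eq]
            exact fun h => h3 h.symm
          rw [e1, if_neg h3]
          simp
      simp only [h2]
      rw [sum_add_distrib, sum_ite_eq' (range (y + 1)) a, if_pos (by
        have := hw a (by simp)
        simpa [Nat.lt_succ_iff] using this)]
  rw [h1]
  · apply sum_congr rfl
    intro k _
    rw [hx.count]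
  · intro a ha
    by_contra hcon
    have h2 : (mt l h x).count a = 0 := by
      rw [hx.count]
      exact hx.out a (Or.inr (by omega))
    rw [List.count_eq_zero] at h2
    exact h2 ha

theorem MtOK.le_top {l h : ℕ} {x : ℕ → ℕ} (hx : MtOK l h x) : ∀ a ∈ mt l h x, a ≤ h := by
  intro a ha
  by_contra hcon
  have h2 : (mt l h x).count a = 0 := by
    rw [hx.count]
    exact hx.out a (Or.inr (by omega))
  rw [List.count_eq_zero] at h2
  exact h2 ha

end Pool.Agent.RST
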