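import Pool.Agent.RST.MtOk

/-!
# RST/RectA: rectangles with columns of length 3, chains of mountains
-/

set_option autoImplicit false

namespace Pool.Agent.RST

open Finset

/-- the number of the cells `N' ≤ i < N` in the column `k` (cells `3 k, 3 k + 1, 3 k + 2`) -/
def cx (N' N k : ℕ) : ℕ := min N (3 * k + 3) - max N' (3 * k)

/-- the words of a chain: remaining cells `N`, lengths `o` -/
def chW : ℕ → List ℕ → List (List ℕ)
  | _, [] => []
  | N, a :: o => mt ((N - a) / 3) ((N - 1) / 3) (cx (N - a) N) :: chW (N - a) o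

/-- the condition for the chain -/
def Str : ℕ → List ℕ → Prop
  | N, [] => N = 0
  | N, a :: o => a ≤ N ∧ 2 ≤ a ∧ (N - a) / 3 < (N - 1) / 3 ∧ Str (N - a) o

theorem cx_ok {N a : ℕ} (h1 : a ≤ N) (h2 : 2 ≤ a) (h3 : (N - a) / 3 < (N - 1) / 3) :
    MtOK ((N - a) / 3) ((N - 1) / 3) (cx (N - a) N) := by
  refine ⟨h3, ?_, ?_, ?_, ?_⟩
  · unfold cx; omega
  · unfold cx; omega
  · intro k hk1 hk2; unfold cx; omega
  · intro k hk; unfold cx; omega

/-- the potential of a state -/
def phi (N m ρ : ℕ) : ℤ :=
  if ρ < m then 0 else if ρ = m then (if 3 * m < N ∧ N ≤ 3 * m + 3 then 1 else 0)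
  else (cx 0 N m : ℤ) - cx 0 N (m + 1) - (if ρ = m + 1 ∧ N = 3 * m + 4 then 1 else 0)

theorem phi_step {N a m ρ : ℕ} (h1 : a ≤ N) (h2 : 2 ≤ a) (h3 : (N - a) / 3 < (N - 1) / 3) :
    phi N m ρ ≤ mb ((N - a) / 3) ((N - 1) / 3) (cx (N - a) N) m ρ + phi (N - a) m ρ := by
  obtain ⟨N', rfl⟩ := Nat.exists_eq_add_of_le h1
  have e1 : a + N' - a = N' := by omega
  rw [e1] at h3 ⊢
  unfold phi mb
  rcases lt_trichotomy ρ m with h | h | h
  · simp only [if_pos h]; omega
  · subst h
    simp only [lt_irrefl, if_false, if_true]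
    have e2 : cx N' (a + N') (N' / 3) = 1 ↔ N' % 3 = 2 := by unfold cx; omega
    simp only [e2]
    split_ifs <;> omega
  · have g1 : ¬ ρ < m := by omega
    have g2 : ¬ ρ = m := by omega
    simp only [if_neg g1, if_neg g2]
    have e3 : (cx 0 (a + N') m : ℤ) = cx N' (a + N') m + cx 0 N' m := by unfold cx; omega
    have e4 : (cx 0 (a + N') (m + 1) : ℤ) = cx N' (a + N') (m + 1) + cx 0 N' (m + 1) := by
      unfold cx; omega
    have e5 : cx N' (a + N') ((a + N' - 1) / 3) = 1 ↔ (a + N') % 3 = 1 := by unfold cx; omega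
    rw [e3, e4]
    simp only [e5]
    generalize (cx N' (a + N') m : ℤ) = A
    generalize hB : (cx N' (a + N') (m + 1)) = B
    generalize (cx 0 N' m : ℤ) = C
    generalize (cx 0 N' (m + 1) : ℤ) = E
    split_ifs <;> omega

theorem sum_chW (y : ℕ) (o : List ℕ) (N : ℕ) (hs : Str N o) (m ρ : ℕ) (hm : m + 1 < y)
    (κ : Lex (ℕ → ℤ)) (hκ : ofLex κ 0 = (ρ : ℤ)) :
    phi N m ρ ≤ ((chW N o).map fun w => D y w m κ).sum := by
  induction o generalizing N with
  | nil =>
    have h0 : N = 0 := hs
    subst h0
    unfold phi cx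
    simp only [chW, List.map_nil, List.sum_nil]
    split_ifs <;> omega
  | cons a o ih =>
    obtain ⟨h1, h2, h3, h4⟩ := hs
    have h5 := ih (N - a) h4
    have h6 := (cx_ok h1 h2 h3).D_ge y m ρ hm κ hκ
    have h7 := phi_step (m := m) (ρ := ρ) h1 h2 h3
    rw [chW, List.map_cons, List.sum_cons]
    linarith

theorem count_chW (o : List ℕ) (N : ℕ) (hs : Str N o) (k : ℕ) :
    ((chW N o).map fun w => w.count k).sum = cx 0 N k := by
  induction o generalizing N with
  | nil =>
    have h0 : N = 0 := hs
    subst h0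
    unfold cx
    simp only [chW, List.map_nil, List.sum_nil]
    omega
  | cons a o ih =>
    obtain ⟨h1, h2, h3, h4⟩ := hs
    rw [chW, List.map_cons, List.sum_cons, ih (N - a) h4, (cx_ok h1 h2 h3).count]
    unfold cx
    omega

theorem mem_chW (o : List ℕ) (N : ℕ) (hs : Str N o) (w : List ℕ) (hw : w ∈ chW N o) :
    (∀ y, OkW y w) ∧ ∀ x ∈ w, 3 * x < N := by
  induction o generalizing N with
  | nil => simp [chW] at hw
  | cons a o ih =>
    obtain ⟨h1, h2, h3, h4⟩ := hs
    rw [chW, List.mem_cons] at hw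
    rcases hw with rfl | hw
    · refine ⟨fun y => (cx_ok h1 h2 h3).okW y, ?_⟩
      intro x hx
      have h5 := (cx_ok h1 h2 h3).count x
      have h6 := List.count_pos_iff.2 hx
      rw [h5] at h6
      unfold cx at h6
      omega
    · obtain ⟨h5, h6⟩ := ih (N - a) h4 hw
      refine ⟨h5, ?_⟩
      intro x hx
      have := h6 x hx
      omega

theorem length_eq_sum_count (y : ℕ) (w : List ℕ) (h : ∀ x ∈ w, x < y) :
    w.length = ∑ k ∈ range y, w.count k := by
  have h1 := List.sum_toFinset_count_eq_length w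
  rw [← h1]
  apply Finset.sum_subset
  · intro x hx
    rw [List.mem_toFinset] at hx
    exact mem_range.2 (h x hx)
  · intro x _ hx
    rw [List.mem_toFinset] at hx
    exact List.count_eq_zero.2 hx

theorem sum_cx (N' N y : ℕ) (h : N' ≤ N) (h2 : N ≤ 3 * y) : ∑ k ∈ range y, cx N' N k = N - N' := by
  have h1 : ∀ y, ∑ k ∈ range y, cx N' N k = min N (3 * y) - min N' (3 * y) := by
    intro y
    induction y with
    | zero => simp
    | succ y ih =>
      rw [sum_range_succ, ih]
      unfold cx
      omega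
  rw [h1]
  omega

theorem length_chW (o : List ℕ) (N : ℕ) (hs : Str N o) : (chW N o).map List.length = o := by
  induction o generalizing N with
  | nil => rfl
  | cons a o ih =>
    obtain ⟨h1, h2, h3, h4⟩ := hs
    rw [chW, List.map_cons, ih (N - a) h4]
    congr 1
    rw [length_eq_sum_count N]
    · have h5 : ∀ k ∈ range N, (mt ((N - a) / 3) ((N - 1) / 3) (cx (N - a) N)).count k =
          cx (N - a) N k := fun k _ => (cx_ok h1 h2 h3).count k
      rw [sum_congr rfl h5, sum_cx _ _ _ (by omega) (by omega)]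
      omega
    · intro x hx
      have h5 := (cx_ok h1 h2 h3).count x
      have h6 := List.count_pos_iff.2 hx
      rw [h5] at h6
      unfold cx at h6
      omega

/-- **Chains on rectangles with columns of length 3.** -/
theorem real_chain3 (o : List ℕ) (j : ℕ) (hnd : o.Nodup) (hs : Str (3 * j) o) :
    Real (o : Multiset ℕ) (List.replicate j 3) := by
  have h1 := real_words j (chW (3 * j) o)
    (fun w hw x hx => by
      have := (mem_chW o _ hs w hw).2 x hx
      omega)
    (fun w hw => (mem_chW o _ hs w hw).1 j)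
    (by
      have h2 : ((chW (3 * j) o).map List.length).Nodup := by rw [length_chW o _ hs]; exact hnd
      rw [List.Nodup, List.pairwise_map] at h2
      exact h2)
    (by
      intro m ρ κ hm hρ hκ
      refine le_trans ?_ (sum_chW j o _ hs m ρ hm κ hκ)
      unfold phi cx
      split_ifs <;> omega)
    (by
      right
      intro w hw t ht hpv
      exfalso
      have h3 : pv w t ∈ w := by
        unfold pv lt
        rw [List.getD_eq_getElem _ _ (Nat.mod_lt _ (by omega))]
        exact List.getElem_mem _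
      rw [hpv] at h3
      have := (mem_chW o _ hs w hw).2 j h3
      omega)
  rw [length_chW o _ hs, count_chW o _ hs] at h1
  have h2 : (List.range j).map (fun m => ((chW (3 * j) o).map fun w => w.count m).sum) =
      List.replicate j 3 := by
    rw [List.eq_replicate_iff]
    refine ⟨by simp, ?_⟩
    intro b hb
    rw [List.mem_map] at hb
    obtain ⟨k, hk, rfl⟩ := hb
    rw [List.mem_range] at hk
    rw [count_chW o _ hs]
    unfold cx
    omega
  rw [h2] at h1
  have h3 : cx 0 (3 * j) j = 0 := by unfold cx; omega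
  rw [h3, List.replicate_zero, List.append_nil] at h1
  exact h1

theorem str_of_four (o : List ℕ) (N : ℕ) (h : ∀ a ∈ o, 4 ≤ a) (hN : o.sum = N) : Str N o := by
  induction o generalizing N with
  | nil => simpa [Str] using hN.symm
  | cons a o ih =>
    rw [List.sum_cons] at hN
    have h1 := h a (by simp)
    refine ⟨by omega, by omega, by omega, ?_⟩
    apply ih
    · intro b hb
      exact h b (by simp [hb])
    · omega

end Pool.Agent.RST
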