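import Pool.Agent.RST.RectA

/-!
# RST/RectB: tools for the special words on rectangles
-/

set_option autoImplicit false

namespace Pool.Agent.RST

open Finset

open Classical in
theorem D_ge_at (y : ℕ) (w : List ℕ) (m ρ : ℕ) (κ : Lex (ℕ → ℤ)) (hκ : ofLex κ 0 = (ρ : ℤ))
    (s : ℕ) (hs : s < w.length) :
    adjS (gg m ρ) (w ++ [hd w]) + ((if key y w (s + 1) ≤ κ then cc m (lt w s) else 0) -
      gg m ρ (lt w s) (lt w (s + 1))) ≤ D y w m κ := by
  rw [D_eq, ← sum_lt_eq_adjS]
  have hs' : s ∈ range w.length := mem_range.2 hs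
  rw [← add_sum_erase _ _ hs', ← add_sum_erase _ _ hs']
  have h1 : ∑ t ∈ (range w.length).erase s, gg m ρ (lt w t) (lt w (t + 1)) ≤
      ∑ t ∈ (range w.length).erase s, (if key y w (t + 1) ≤ κ then cc m (lt w t) else 0) :=
    sum_le_sum fun t _ => gg_le y w m ρ κ hκ t
  linarith

/-- the pair improvement in one word -/
theorem D_pair (y : ℕ) (w : List ℕ) (m ρ : ℕ) (κ : Lex (ℕ → ℤ))
    (hκ : ofLex κ 0 = (ρ : ℤ)) (s e : ℕ) (hs : s < w.length) (he : e < w.length)
    (h1 : lt w s = m) (h2 : lt w e = m + 1)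
    (h3 : lt w (s + 1) = ρ) (h4 : lt w (e + 1) = ρ) (hρ : ρ < y)
    (h5 : lt w (e + 1 + 1) < lt w (s + 1 + 1)) :
    adjS (gg m ρ) (w ++ [hd w]) + 1 ≤ D y w m κ := by
  have hk : key y w (s + 1) < key y w (e + 1) :=
    key_lt_of_snd y w w (s + 1) (e + 1) (by rw [h3, h4]) (by rw [h3]; exact hρ) h5
  have hse : s ≠ e := by
    intro h
    rw [h] at h1
    omega
  apply D_ge_one y w m ρ κ hκ s e hs he hse
  have g1 : gg m ρ (lt w s) (lt w (s + 1)) = 0 := by
    unfold gg
    rw [h3, if_neg (lt_irrefl _), if_pos rfl, h1, cc_self]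
    rfl
  have g2 : gg m ρ (lt w e) (lt w (e + 1)) = -1 := by
    unfold gg
    rw [h4, if_neg (lt_irrefl _), if_pos rfl, h2, cc_succ]
    rfl
  rw [g1, g2, h1, h2, cc_self, cc_succ]
  by_cases h6 : key y w (e + 1) ≤ κ
  · have h7 : key y w (s + 1) ≤ κ := le_trans hk.le h6
    rw [if_pos h6, if_pos h7]
    norm_num
  · rw [if_neg h6]
    split_ifs <;> norm_num

/-- the pair improvement in two words -/
theorem D_pair2 (y : ℕ) (w w' : List ℕ) (m ρ : ℕ) (κ : Lex (ℕ → ℤ))
    (hκ : ofLex κ 0 = (ρ : ℤ)) (s e : ℕ) (hs : s < w.length) (he : e < w'.length)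
    (h1 : lt w s = m) (h2 : lt w' e = m + 1)
    (h3 : lt w (s + 1) = ρ) (h4 : lt w' (e + 1) = ρ) (hρ : ρ < y)
    (h5 : lt w' (e + 1 + 1) < lt w (s + 1 + 1)) :
    adjS (gg m ρ) (w ++ [hd w]) + adjS (gg m ρ) (w' ++ [hd w']) + 1 ≤ D y w m κ + D y w' m κ := by
  have hk : key y w (s + 1) < key y w' (e + 1) :=
    key_lt_of_snd y w w' (s + 1) (e + 1) (by rw [h3, h4]) (by rw [h3]; exact hρ) h5
  have a1 := D_ge_at y w m ρ κ hκ s hs
  have a2 := D_ge_at y w' m ρ κ hκ e he
  have g1 : gg m ρ (lt w s) (lt w (s + 1)) = 0 := by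
    unfold gg
    rw [h3, if_neg (lt_irrefl _), if_pos rfl, h1, cc_self]
    rfl
  have g2 : gg m ρ (lt w' e) (lt w' (e + 1)) = -1 := by
    unfold gg
    rw [h4, if_neg (lt_irrefl _), if_pos rfl, h2, cc_succ]
    rfl
  rw [g1, h1, cc_self] at a1
  rw [g2, h2, cc_succ] at a2
  by_cases h6 : key y w' (e + 1) ≤ κ
  · have h7 : key y w (s + 1) ≤ κ := le_trans hk.le h6
    rw [if_pos h6] at a2
    rw [if_pos h7] at a1
    linarith
  · rw [if_neg h6] at a2
    split_ifs at a1 <;> linarith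

theorem lt_at (A B : List ℕ) (k : ℕ) (hk : k < B.length) : lt (A ++ B) (A.length + k) =
    B.getD k 0 := by
  unfold lt
  rw [Nat.mod_eq_of_lt (by simp; omega), getD_at]

theorem lt_lt (w : List ℕ) (k : ℕ) (hk : k < w.length) : lt w k = w.getD k 0 := by
  unfold lt
  rw [Nat.mod_eq_of_lt hk]

theorem mid_last (r : List ℕ) (hr : Adm r) (j : ℕ) : ∃ A, mid j r = A ++ [j] := by
  cases r with
  | nil => exact hr.elim
  | cons a r =>
    cases r with
    | nil =>
      obtain ⟨n, hn⟩ : ∃ n, a = n + 1 := ⟨a - 1, by have : 1 ≤ a := hr; omega⟩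
      subst hn
      exact ⟨List.replicate n j, by rw [mid, List.replicate_succ']⟩
    | cons b r =>
      obtain ⟨n, hn⟩ : ∃ n, a = n + 2 := ⟨a - 2, by have := hr.1; omega⟩
      subst hn
      refine ⟨j :: (mid (j + 1) (b :: r) ++ List.replicate n j), ?_⟩
      rw [mid, show n + 2 - 1 = n + 1 by omega, List.replicate_succ']
      simp

theorem length_mid (j : ℕ) (r : List ℕ) (hr : Adm r) : (mid j r).length = r.sum := by
  induction r generalizing j with
  | nil => exact hr.elim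
  | cons a r ih =>
    cases r with
    | nil => simp [mid]
    | cons b r =>
      have h1 := ih (j + 1) hr.2
      have h2 := hr.1
      rw [mid, List.length_cons, List.length_append, h1, List.length_replicate]
      simp only [List.sum_cons]
      omega

theorem adjS_mid_in (f : ℕ → ℕ → ℤ) (p q j : ℕ) (r : List ℕ) (hr : Adm r) :
    adjS f (p :: (mid (j + 1) r ++ [q])) =
      mS f j r - f j (j + 1) - f (j + 1) j + f p (j + 1) + f (j + 1) q := by
  have h1 : ∀ p q, adjS f (p :: (mid (j + 1) r ++ [q])) =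
      f p (j + 1) + adjS f (mid (j + 1) r) + f (j + 1) q := by
    intro p q
    obtain ⟨T, hT⟩ := mid_head (j + 1) r hr
    obtain ⟨A, hA⟩ := mid_last r hr (j + 1)
    have h2 : adjS f (p :: (mid (j + 1) r ++ [q])) =
        f p (j + 1) + adjS f (mid (j + 1) r ++ [q]) := by
      rw [hT]
      rfl
    rw [h2]
    have h3 : adjS f (mid (j + 1) r ++ [q]) = adjS f (mid (j + 1) r) + f (j + 1) q := by
      conv_lhs => rw [hA, List.append_assoc, List.singleton_append, adjS_append, ← hA]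
      simp [adjS]
    rw [h3]
    ring
  have h2 := adjS_mid f j r hr
  rw [h1] at h2 ⊢
  linarith

theorem adjS_fam (f : ℕ → ℕ → ℤ) (P : List ℕ) (p q j : ℕ) (r Q : List ℕ) (hr : Adm r) :
    adjS f (P ++ p :: (mid (j + 1) r ++ q :: Q)) = adjS f (P ++ [p]) +
      (mS f j r - f j (j + 1) - f (j + 1) j + f p (j + 1) + f (j + 1) q) + adjS f (q :: Q) := by
  rw [adjS_append, ← adjS_mid_in f p q j r hr]
  have h1 : p :: (mid (j + 1) r ++ q :: Q) = (p :: mid (j + 1) r) ++ q :: Q := rfl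
  have h2 : p :: (mid (j + 1) r ++ [q]) = (p :: mid (j + 1) r) ++ [q] := rfl
  rw [h1, h2, adjS_append _ (p :: mid (j + 1) r) Q q]
  ring

theorem adm_rep (n : ℕ) (a : ℕ) (ha : 1 ≤ a) : Adm (List.replicate n 3 ++ [a]) := by
  induction n with
  | zero => exact ha
  | succ n ih =>
    rw [List.replicate_succ]
    cases n with
    | zero => exact ⟨by omega, ha⟩
    | succ n =>
      rw [List.replicate_succ] at ih ⊢
      exact ⟨by omega, ih⟩

theorem amR_rep (j n a m : ℕ) : amR j (List.replicate n 3 ++ [a]) m =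
    if j + 1 ≤ m ∧ m ≤ j + n then 3 else if m = j + n + 1 then a else 0 := by
  unfold amR
  by_cases h : j + 1 ≤ m
  · rw [if_pos h]
    by_cases h2 : m ≤ j + n
    · rw [if_pos ⟨h, h2⟩, List.getD_append _ _ _ _ (by simp; omega)]
      simp [List.getD_eq_getElem?_getD, show m - (j + 1) < n by omega]
    · rw [if_neg (by omega), List.getD_append_right _ _ _ _ (by simp; omega)]
      by_cases h3 : m = j + n + 1
      · rw [if_pos h3]
        simp [h3]
      · rw [if_neg h3]
        rw [List.getD_eq_default _ _ (by simp; omega)]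
  · rw [if_neg h, if_neg (by omega), if_neg (by omega)]

/-- the top improvement: the part `m, m+1, m+1, m+1, b` with `b < m + 1` -/
theorem top_improve (y : ℕ) (A B : List ℕ) (m b : ℕ) (hb : b < m + 1) (hm : m + 1 < y)
    (κ : Lex (ℕ → ℤ)) (hκ : ofLex κ 0 = ((m + 1 : ℕ) : ℤ)) :
    adjS (gg m (m + 1)) ((A ++ (m :: (m + 1) :: (m + 1) :: (m + 1) :: b :: B)) ++
      [hd (A ++ (m :: (m + 1) :: (m + 1) :: (m + 1) :: b :: B))]) + 1 ≤
      D y (A ++ (m :: (m + 1) :: (m + 1) :: (m + 1) :: b :: B)) m κ := by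
  set w := A ++ (m :: (m + 1) :: (m + 1) :: (m + 1) :: b :: B) with hw
  have hl : w.length = A.length + (5 + B.length) := by rw [hw]; simp; omega
  have l0 : lt w A.length = m := by
    have := lt_at A (m :: (m + 1) :: (m + 1) :: (m + 1) :: b :: B) 0 (by simp)
    rw [add_zero] at this
    rw [hw, this]
    rfl
  have l1 : lt w (A.length + 1) = m + 1 := by
    rw [hw, lt_at _ _ _ (by simp)]; rfl
  have l2 : lt w (A.length + 2) = m + 1 := by
    rw [hw, lt_at _ _ _ (by simp)]; rfl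
  have l3 : lt w (A.length + 3) = m + 1 := by
    rw [hw, lt_at _ _ _ (by simp)]; rfl
  have l4 : lt w (A.length + 4) = b := by
    rw [hw, lt_at _ _ _ (by simp)]; rfl
  apply D_pair y w m (m + 1) κ hκ A.length (A.length + 2) (by omega) (by omega) l0 l2 l1 l3 hm
  rw [show A.length + 2 + 1 + 1 = A.length + 4 by ring, show A.length + 1 + 1 = A.length + 2 by ring,
    l2, l4]
  exact hb

/-- the word around the top -/
theorem mid_top (j n : ℕ) (q : ℕ) (Q : List ℕ) (hq : q < j + n + 1) : ∃ A b B,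
    j :: (mid (j + 1) (List.replicate n 3 ++ [3]) ++ q :: Q) =
      A ++ ((j + n) :: (j + n + 1) :: (j + n + 1) :: (j + n + 1) :: b :: B) ∧ b < j + n + 1 := by
  induction n generalizing j q Q with
  | zero => exact ⟨[], q, Q, rfl, hq⟩
  | succ n ih =>
    obtain ⟨A, b, B, h1, h2⟩ := ih (j + 1) (j + 1) ((j + 1) :: q :: Q) (by omega)
    refine ⟨j :: A, b, B, ?_, by omega⟩
    have e1 : List.replicate (n + 1) 3 ++ [3] = 3 :: (List.replicate n 3 ++ [3]) := by
      rw [List.replicate_succ]; rfl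
    have e2 : ∃ b r, List.replicate n 3 ++ [3] = b :: r := by
      cases n with
      | zero => exact ⟨3, [], rfl⟩
      | succ n => exact ⟨3, _, by rw [List.replicate_succ]; rfl⟩
    obtain ⟨b', r, e2⟩ := e2
    rw [e1, e2, mid, ← e2]
    have e3 : j :: ((j + 1) :: (mid (j + 1 + 1) (List.replicate n 3 ++ [3]) ++
        List.replicate (3 - 1) (j + 1)) ++ q :: Q) =
        j :: ((j + 1) :: (mid (j + 1 + 1) (List.replicate n 3 ++ [3]) ++
          (j + 1) :: ((j + 1) :: q :: Q))) := by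
      simp
    rw [e3, h1]
    simp only [List.cons_append]
    rw [show j + 1 + n = j + (n + 1) by ring]

end Pool.Agent.RST
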