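import Pool.Agent.RST.RectB

/-!
# RST/RectC: the bounds for the four special families on rectangles with columns of length 3
-/

set_option autoImplicit false

namespace Pool.Agent.RST

open Finset

/-- the bound for the middle part -/
def mB (m ρ j n a : ℕ) : ℤ :=
  if ρ < m then 0
  else if ρ = m then (if j < m ∧ m ≤ j + n + 1 then 1 else 0) -
      (if j ≤ m ∧ m < j + n + 1 then 1 else 0)
  else cc m j + (if j + 1 ≤ m ∧ m ≤ j + n then 3 else if m = j + n + 1 then (a : ℤ) else 0)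
    - (if j + 1 ≤ m + 1 ∧ m + 1 ≤ j + n then 3 else if m + 1 = j + n + 1 then (a : ℤ) else 0)
    + (if ρ = m + 1 then (if j ≤ m + 1 ∧ m + 1 < j + n + 1 then 1 else 0) -
      (if j ≤ m ∧ m < j + n + 1 then 1 else 0) else 0)

theorem mS_rep (m ρ j n a : ℕ) : mS (gg m ρ) j (List.replicate n 3 ++ [a]) =
    mB m ρ j n a := by
  have hne : List.replicate n 3 ++ [a] ≠ [] := by simp
  have hl : (List.replicate n 3 ++ [a]).length = n + 1 := by simp
  have e1 : ((amR j (List.replicate n 3 ++ [a]) m : ℕ) : ℤ) =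
      (if j + 1 ≤ m ∧ m ≤ j + n then 3 else if m = j + n + 1 then (a : ℤ) else 0) := by
    rw [amR_rep]; push_cast; rfl
  have e2 : ((amR j (List.replicate n 3 ++ [a]) (m + 1) : ℕ) : ℤ) =
      (if j + 1 ≤ m + 1 ∧ m + 1 ≤ j + n then 3 else if m + 1 = j + n + 1 then (a : ℤ) else 0) := by
    rw [amR_rep]; push_cast; rfl
  unfold mB
  rcases Nat.lt_or_ge ρ m with h | h
  · rw [if_pos h, mS_lt m ρ j _ h]
  · rw [if_neg (show ¬ ρ < m by omega)]
    rcases Nat.eq_or_lt_of_le h with h1 | h1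
    · subst h1
      rw [if_pos rfl, mS_eq m j _ hne, hl]
      rfl
    · rw [if_neg (show ¬ ρ = m by omega)]
      rcases Nat.lt_or_ge (m + 1) ρ with h2 | h2
      · rw [if_neg (show ¬ ρ = m + 1 by omega), mS_gt m ρ j _ hne h2, e1, e2, add_zero]
      · have h3 : ρ = m + 1 := by omega
        subst h3
        rw [if_pos rfl, mS_gt1 m j _ hne, e1, e2, hl]
        simp only [add_assoc]
        ring

theorem gg_zero {m ρ p q : ℕ} (h : p < m) : gg m ρ p q = 0 := by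
  have : cc m p = 0 := by unfold cc; rw [if_neg (by omega), if_neg (by omega)]; rfl
  unfold gg
  rw [this]
  simp


theorem gg_zero' {m ρ p q : ℕ} (h : m + 1 < p) : gg m ρ p q = 0 := by
  have : cc m p = 0 := by unfold cc; rw [if_neg (by omega), if_neg (by omega)]; rfl
  unfold gg
  rw [this]
  simp

theorem mB_in (m ρ j n a : ℕ) (h1 : j < m) (h2 : m + 1 ≤ j + n) : mB m ρ j n a = 0 := by
  have e : cc m j = 0 := by unfold cc; rw [if_neg (by omega), if_neg (by omega)]; rfl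
  unfold mB
  rw [e, if_pos (show j < m ∧ m ≤ j + n + 1 by omega), if_pos (show j ≤ m ∧ m < j + n + 1 by omega),
    if_pos (show j + 1 ≤ m ∧ m ≤ j + n by omega),
    if_pos (show j + 1 ≤ m + 1 ∧ m + 1 ≤ j + n by omega),
    if_pos (show j ≤ m + 1 ∧ m + 1 < j + n + 1 by omega)]
  split_ifs <;> norm_num

theorem mB_pre (m ρ j n a : ℕ) (h1 : j < m) (h2 : m = j + n) : mB m ρ j n a =
    if ρ ≤ m then 0 else if ρ = m + 1 then 2 - (a : ℤ) else 3 - (a : ℤ) := by
  have e : cc m j = 0 := by unfold cc; rw [if_neg (by omega), if_neg (by omega)]; rfl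
  unfold mB
  rw [e, if_pos (show j < m ∧ m ≤ j + n + 1 by omega), if_pos (show j ≤ m ∧ m < j + n + 1 by omega),
    if_pos (show j + 1 ≤ m ∧ m ≤ j + n by omega),
    if_neg (show ¬ (j + 1 ≤ m + 1 ∧ m + 1 ≤ j + n) by omega), if_pos (show m + 1 = j + n + 1 by omega),
    if_neg (show ¬ (j ≤ m + 1 ∧ m + 1 < j + n + 1) by omega)]
  rcases lt_trichotomy ρ m with h | h | h
  · rw [if_pos h, if_pos (show ρ ≤ m by omega)]
  · rw [if_neg (show ¬ ρ < m by omega), if_pos h, if_pos (show ρ ≤ m by omega)]; rfl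
  · rw [if_neg (show ¬ ρ < m by omega), if_neg (show ¬ ρ = m by omega),
      if_neg (show ¬ ρ ≤ m by omega)]
    split_ifs <;> ring

theorem mB_top (m ρ j n a : ℕ) (h2 : m = j + n + 1) : mB m ρ j n a =
    if ρ < m then 0 else if ρ = m then 1 else (a : ℤ) := by
  have e : cc m j = 0 := by unfold cc; rw [if_neg (by omega), if_neg (by omega)]; rfl
  unfold mB
  rw [e, if_pos (show j < m ∧ m ≤ j + n + 1 by omega),
    if_neg (show ¬ (j ≤ m ∧ m < j + n + 1) by omega),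
    if_neg (show ¬ (j + 1 ≤ m ∧ m ≤ j + n) by omega), if_pos (show m = j + n + 1 by omega),
    if_neg (show ¬ (j + 1 ≤ m + 1 ∧ m + 1 ≤ j + n) by omega),
    if_neg (show ¬ m + 1 = j + n + 1 by omega),
    if_neg (show ¬ (j ≤ m + 1 ∧ m + 1 < j + n + 1) by omega)]
  split_ifs <;> norm_num

theorem F4_bound (n m ρ : ℕ) (hm : m + 1 < n + 4) :
    0 ≤ (2 * gg m ρ 0 0 + gg m ρ 0 2 + (mB m ρ 2 n 3 - gg m ρ 3 2 + gg m ρ 3 1) + gg m ρ 1 1 +
      gg m ρ 1 0) + (gg m ρ 1 2 + gg m ρ 2 2 + gg m ρ 2 1) +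
      (if (m = 0 ∧ ρ = 0) ∨ (m = 0 ∧ ρ = 2) ∨ (m = 2 ∧ ρ = 1) ∨ (m = n + 2 ∧ ρ = n + 3)
        then 1 else 0) := by
  rcases (show m = 0 ∨ m = 1 ∨ m = 2 ∨ m = 3 ∨ 4 ≤ m by omega) with rfl | rfl | rfl | rfl | h
  iterate 4
    · unfold mB
      rcases (show ρ = 0 ∨ ρ = 1 ∨ ρ = 2 ∨ ρ = 3 ∨ ρ = 4 ∨ 5 ≤ ρ by omega) with
        rfl | rfl | rfl | rfl | rfl | h <;>
      (simp [gg, cc] <;> first | done | (split_ifs <;> omega))
  · rw [gg_zero (show 0 < m by omega), gg_zero (show 0 < m by omega), gg_zero (show 3 < m by omega),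
      gg_zero (show 3 < m by omega), gg_zero (show 1 < m by omega), gg_zero (show 1 < m by omega),
      gg_zero (show 1 < m by omega), gg_zero (show 2 < m by omega), gg_zero (show 2 < m by omega)]
    rcases (show m + 1 ≤ 2 + n ∨ m = 2 + n ∨ m = 2 + n + 1 by omega) with h1 | h1 | h1
    · rw [mB_in m ρ 2 n 3 (by omega) h1]
      split_ifs <;> norm_num
    · rw [mB_pre m ρ 2 n 3 (by omega) h1]
      split_ifs <;> omega
    · omega

theorem F1_bound (n m ρ : ℕ) (hm : m + 1 < n + 4) :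
    0 ≤ (2 * gg m ρ 0 0 + gg m ρ 0 2 + gg m ρ 2 2 + (mB m ρ 2 n 3 - gg m ρ 3 2 + gg m ρ 3 1) +
      gg m ρ 1 1 + gg m ρ 1 0) + (gg m ρ 1 2 + gg m ρ 2 1) +
      (if (m = 0 ∧ ρ = 0) ∨ (m = 0 ∧ ρ = 2) ∨ (m = 2 ∧ ρ = 1) ∨ (m = n + 2 ∧ ρ = n + 3)
        then 1 else 0) := by
  rcases (show m = 0 ∨ m = 1 ∨ m = 2 ∨ m = 3 ∨ 4 ≤ m by omega) with rfl | rfl | rfl | rfl | h
  iterate 4
    · unfold mB
      rcases (show ρ = 0 ∨ ρ = 1 ∨ ρ = 2 ∨ ρ = 3 ∨ ρ = 4 ∨ 5 ≤ ρ by omega) with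
        rfl | rfl | rfl | rfl | rfl | h <;>
      (simp [gg, cc] <;> first | done | (split_ifs <;> omega))
  · rw [gg_zero (show 0 < m by omega), gg_zero (show 0 < m by omega), gg_zero (show 2 < m by omega),
      gg_zero (show 3 < m by omega), gg_zero (show 3 < m by omega), gg_zero (show 1 < m by omega),
      gg_zero (show 1 < m by omega), gg_zero (show 1 < m by omega), gg_zero (show 2 < m by omega)]
    rcases (show m + 1 ≤ 2 + n ∨ m = 2 + n ∨ m = 2 + n + 1 by omega) with h1 | h1 | h1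
    · rw [mB_in m ρ 2 n 3 (by omega) h1]
      split_ifs <;> norm_num
    · rw [mB_pre m ρ 2 n 3 (by omega) h1]
      split_ifs <;> omega
    · omega

/-- the contribution of the word `n + 3, n + 4, n + 4, n + 4` -/
def tB (m ρ n : ℕ) : ℤ :=
  if m = n + 2 then (if n + 4 ≤ ρ then -1 else 0)
  else if m = n + 3 then (if n + 4 < ρ then 1 else 0) + 2 * (if n + 4 ≤ ρ then -1 else 0) +
    (if n + 3 ≤ ρ then -1 else 0) else 0

theorem tB_eq (m ρ n : ℕ) (hm : m + 1 < n + 5) : gg m ρ (n + 3) (n + 4) +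
    2 * gg m ρ (n + 4) (n + 4) + gg m ρ (n + 4) (n + 3) = tB m ρ n := by
  unfold tB
  rcases (show m + 1 < n + 3 ∨ m = n + 2 ∨ m = n + 3 by omega) with h1 | h1 | h1
  · rw [gg_zero' (show m + 1 < n + 3 by omega), gg_zero' (show m + 1 < n + 4 by omega),
      gg_zero' (show m + 1 < n + 4 by omega), if_neg (by omega), if_neg (by omega)]
    rfl
  · have e1 : gg m ρ (n + 3) (n + 4) = if n + 4 ≤ ρ then -1 else 0 := by
      unfold gg
      rw [show n + 3 = m + 1 by omega, cc_succ]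
      split_ifs <;> first | rfl | omega
    rw [e1, gg_zero' (show m + 1 < n + 4 by omega), gg_zero' (show m + 1 < n + 4 by omega),
      if_pos h1]
    ring
  · have e1 : gg m ρ (n + 3) (n + 4) = if n + 4 < ρ then 1 else 0 := by
      unfold gg
      rw [show n + 3 = m by omega, cc_self]
      split_ifs <;> rfl
    have e2 : gg m ρ (n + 4) (n + 4) = if n + 4 ≤ ρ then -1 else 0 := by
      unfold gg
      rw [show n + 4 = m + 1 by omega, cc_succ]
      split_ifs <;> first | rfl | omega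
    have e3 : gg m ρ (n + 4) (n + 3) = if n + 3 ≤ ρ then -1 else 0 := by
      unfold gg
      rw [show n + 4 = m + 1 by omega, cc_succ]
      split_ifs <;> first | rfl | omega
    rw [e1, e2, e3, if_neg (show ¬ m = n + 2 by omega), if_pos h1]

theorem F2_bound (n m ρ : ℕ) (hm : m + 1 < n + 5) :
    0 ≤ (2 * gg m ρ 0 0 + gg m ρ 0 2 + gg m ρ 2 2 + (mB m ρ 2 n 2 - gg m ρ 3 2 + gg m ρ 3 1) +
      gg m ρ 1 1 + gg m ρ 1 0) + (gg m ρ 1 2 + gg m ρ 2 1) +
      (gg m ρ (n + 3) (n + 4) + 2 * gg m ρ (n + 4) (n + 4) + gg m ρ (n + 4) (n + 3)) +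
      (if (m = 0 ∧ ρ = 0) ∨ (m = 0 ∧ ρ = 2) ∨ (m = 2 ∧ ρ = 1) ∨ (m = n + 3 ∧ ρ = n + 4)
        then 1 else 0) := by
  rw [tB_eq m ρ n hm]
  rcases (show m = 0 ∨ m = 1 ∨ m = 2 ∨ m = 3 ∨ 4 ≤ m by omega) with rfl | rfl | rfl | rfl | h
  iterate 2
    · have e : ∀ k, k ≤ 1 → tB k ρ n = 0 := by
        intro k hk
        unfold tB
        rw [if_neg (by omega), if_neg (by omega)]
      rw [e _ (by omega)]
      unfold mB
      rcases (show ρ = 0 ∨ ρ = 1 ∨ ρ = 2 ∨ ρ = 3 ∨ ρ = 4 ∨ 5 ≤ ρ by omega) with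
        rfl | rfl | rfl | rfl | rfl | h <;>
      (simp [gg, cc] <;> first | done | (split_ifs <;> omega))
  iterate 2
    · rcases (show n = 0 ∨ n = 1 ∨ 2 ≤ n by omega) with rfl | rfl | hn
      · unfold tB mB
        rcases (show ρ = 0 ∨ ρ = 1 ∨ ρ = 2 ∨ ρ = 3 ∨ ρ = 4 ∨ 5 ≤ ρ by omega) with
          rfl | rfl | rfl | rfl | rfl | h <;>
        (simp [gg, cc] <;> first | done | (split_ifs <;> omega))
      · unfold tB mB
        rcases (show ρ = 0 ∨ ρ = 1 ∨ ρ = 2 ∨ ρ = 3 ∨ ρ = 4 ∨ 5 ≤ ρ by omega) with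
          rfl | rfl | rfl | rfl | rfl | h <;>
        (simp [gg, cc] <;> first | done | (split_ifs <;> omega))
      · have e : ∀ k, k ≤ 3 → tB k ρ n = 0 := by
          intro k hk
          unfold tB
          rw [if_neg (by omega), if_neg (by omega)]
        rw [e _ (by omega)]
        unfold mB
        rcases (show ρ = 0 ∨ ρ = 1 ∨ ρ = 2 ∨ ρ = 3 ∨ ρ = 4 ∨ 5 ≤ ρ by omega) with
          rfl | rfl | rfl | rfl | rfl | h <;>
        (simp [gg, cc] <;> first | done | (split_ifs <;> omega))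
  · rw [gg_zero (show 0 < m by omega), gg_zero (show 0 < m by omega), gg_zero (show 2 < m by omega),
      gg_zero (show 3 < m by omega), gg_zero (show 3 < m by omega), gg_zero (show 1 < m by omega),
      gg_zero (show 1 < m by omega), gg_zero (show 1 < m by omega), gg_zero (show 2 < m by omega)]
    rcases (show m ≤ n + 1 ∨ m = n + 2 ∨ m = n + 3 by omega) with h1 | h1 | h1
    · have e1 := mB_in m ρ 2 n 2 (by omega) (by omega)
      have e2 : tB m ρ n = 0 := by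
        unfold tB
        rw [if_neg (by omega), if_neg (by omega)]
      rw [e1, e2]
      split_ifs <;> norm_num
    · have e1 := mB_pre m ρ 2 n 2 (by omega) (by omega)
      have e2 : tB m ρ n = if n + 4 ≤ ρ then -1 else 0 := by
        unfold tB
        rw [if_pos h1]
      rw [e1, e2, if_neg (show ¬ ((m = 0 ∧ ρ = 0) ∨ (m = 0 ∧ ρ = 2) ∨ (m = 2 ∧ ρ = 1) ∨
        (m = n + 3 ∧ ρ = n + 4)) by omega)]
      split_ifs <;> omega
    · have e1 := mB_top m ρ 2 n 2 (by omega)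
      have e2 : tB m ρ n = (if n + 4 < ρ then 1 else 0) + 2 * (if n + 4 ≤ ρ then -1 else 0) +
          (if n + 3 ≤ ρ then -1 else 0) := by
        unfold tB
        rw [if_neg (by omega), if_pos h1]
      rw [e1, e2]
      rcases (show ρ < n + 3 ∨ ρ = n + 3 ∨ ρ = n + 4 ∨ n + 4 < ρ by omega) with h2 | h2 | h2 | h2
      · rw [if_pos (show ρ < m by omega), if_neg (show ¬ n + 4 < ρ by omega),
          if_neg (show ¬ n + 4 ≤ ρ by omega), if_neg (show ¬ n + 3 ≤ ρ by omega)]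
        split_ifs <;> norm_num
      · rw [if_neg (show ¬ ρ < m by omega), if_pos (show ρ = m by omega),
          if_neg (show ¬ n + 4 < ρ by omega),
          if_neg (show ¬ n + 4 ≤ ρ by omega), if_pos (show n + 3 ≤ ρ by omega)]
        split_ifs <;> norm_num
      · rw [if_neg (show ¬ ρ < m by omega), if_neg (show ¬ ρ = m by omega),
          if_neg (show ¬ n + 4 < ρ by omega),
          if_pos (show n + 4 ≤ ρ by omega), if_pos (show n + 3 ≤ ρ by omega),
          if_pos (show ((m = 0 ∧ ρ = 0) ∨ (m = 0 ∧ ρ = 2) ∨ (m = 2 ∧ ρ = 1) ∨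
            (m = n + 3 ∧ ρ = n + 4)) by omega)]
        norm_num
      · rw [if_neg (show ¬ ρ < m by omega), if_neg (show ¬ ρ = m by omega),
          if_pos (show n + 4 < ρ by omega),
          if_pos (show n + 4 ≤ ρ by omega), if_pos (show n + 3 ≤ ρ by omega)]
        split_ifs <;> norm_num


theorem F3_bound (n m ρ : ℕ) (hm : m + 1 < n + 6) :
    0 ≤ (2 * gg m ρ 0 0 + gg m ρ 0 2 + gg m ρ 2 4 + gg m ρ 4 4 +
      (mB m ρ 4 n 3 - gg m ρ 5 4 + gg m ρ 5 3) +
      gg m ρ 3 3 + gg m ρ 3 1 + gg m ρ 1 1 + gg m ρ 1 0) +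
      (gg m ρ 1 2 + gg m ρ 2 2 + gg m ρ 2 1) + (gg m ρ 3 4 + gg m ρ 4 3) +
      (if (m = 0 ∧ ρ = 0) ∨ (m = 0 ∧ ρ = 2) ∨ (m = 2 ∧ ρ = 1) ∨ (m = n + 4 ∧ ρ = n + 5) ∨
        (m = 2 ∧ ρ = 4) ∨ (m = 4 ∧ ρ = 3) then 1 else 0) := by
  rcases (show m = 0 ∨ m = 1 ∨ m = 2 ∨ m = 3 ∨ m = 4 ∨ m = 5 ∨ 6 ≤ m by omega) with
    rfl | rfl | rfl | rfl | rfl | rfl | h
  iterate 6
    · unfold mB
      rcases (show ρ = 0 ∨ ρ = 1 ∨ ρ = 2 ∨ ρ = 3 ∨ ρ = 4 ∨ ρ = 5 ∨ ρ = 6 ∨ 7 ≤ ρ by omega) with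
        rfl | rfl | rfl | rfl | rfl | rfl | rfl | h <;>
      (simp [gg, cc] <;> first | done | (split_ifs <;> omega))
  · have z : ∀ p q, p ≤ 5 → gg m ρ p q = 0 := fun p q hp => gg_zero (by omega)
    rw [z 0 0 (by omega), z 0 2 (by omega), z 2 4 (by omega), z 4 4 (by omega), z 5 4 (by omega),
      z 5 3 (by omega), z 3 3 (by omega), z 3 1 (by omega), z 1 1 (by omega), z 1 0 (by omega),
      z 1 2 (by omega), z 2 2 (by omega), z 2 1 (by omega), z 3 4 (by omega), z 4 3 (by omega)]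
    rcases (show m + 1 ≤ 4 + n ∨ m = 4 + n ∨ m = 4 + n + 1 by omega) with h1 | h1 | h1
    · rw [mB_in m ρ 4 n 3 (by omega) h1]
      split_ifs <;> norm_num
    · rw [mB_pre m ρ 4 n 3 (by omega) h1]
      split_ifs <;> omega
    · omega

end Pool.Agent.RST
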