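import Pool.Agent.RST.Spor

/-!
# RST/Spor2: the sporadic pairs outside of the pure column class (explicit permutations)
-/

set_option autoImplicit false

namespace Pool.Agent.RST

/-- an explicit permutation given by its cycles -/
theorem real_of_cycles {n : ℕ} (cyc : List (List (Fin n))) (α : Multiset ℕ) (c : List ℕ)
    (hα : α = (cyc.map List.length : List ℕ)) (hn : α.sum = n)
    (h2 : ∀ l ∈ cyc, 2 ≤ l.length) (hfl : cyc.flatten.Nodup)
    (N : ℕ) (hN : (rsTab (oneLine (cyc.map List.formPerm).prod)).length ≤ N)
    (hc : ∀ x ∈ c, x ≤ N)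
    (h : ∀ i < N, rowLen (rsTab (oneLine (cyc.map List.formPerm).prod)) i =
      (c.filter fun x => i < x).length) : Real α c := by
  subst hn
  obtain ⟨hnd, hdis⟩ := List.nodup_flatten.1 hfl
  refine ⟨(cyc.map List.formPerm).prod, ?_, ?_⟩
  · rw [Equiv.Perm.cycleType_eq (cyc.map List.formPerm) rfl]
    · refine Eq.trans ?_ hα.symm
      rw [List.map_map]
      congr 1
      apply List.map_congr_left
      intro l hl
      have h3 := h2 l hl
      simp only [Function.comp_apply]
      rw [List.support_formPerm_of_nodup l (hnd l hl), List.toFinset_card_of_nodup (hnd l hl)]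
      intro x hx
      rw [hx] at h3
      simp at h3
    · intro σ hσ
      rw [List.mem_map] at hσ
      obtain ⟨l, hl, rfl⟩ := hσ
      exact List.isCycle_formPerm (hnd l hl) (h2 l hl)
    · rw [List.pairwise_map]
      refine List.Pairwise.imp_of_mem ?_ hdis
      intro l l' hl hl' hd
      exact (List.formPerm_disjoint_iff (hnd l hl) (hnd l' hl') (h2 l hl) (h2 l' hl')).2 hd
  · intro i
    by_cases hi : i < N
    · exact h i hi
    · have h1 : rowLen (rsTab (oneLine (cyc.map List.formPerm).prod)) i = 0 := by
        unfold rowLen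
        rw [List.getD_eq_default _ _ (by omega)]
        rfl
      rw [h1, List.filter_eq_nil_iff.2]
      · rfl
      · intro x hx
        have := hc x hx
        simp
        omega

theorem spor_72_333 : Real {7, 2} [3, 3, 3] :=
  real_of_cycles (n := 9) [[0, 2, 1, 7, 3, 5, 6], [4, 8]] _ _ (by decide) (by decide)
    (by decide) (by decide) 3 (by decide +kernel) (by decide) (by decide +kernel)

theorem spor_63_333 : Real {6, 3} [3, 3, 3] :=
  real_of_cycles (n := 9) [[0, 2, 8, 4, 5, 6], [1, 7, 3]] _ _ (by decide) (by decide)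
    (by decide) (by decide) 3 (by decide +kernel) (by decide) (by decide +kernel)

theorem spor_432_333 : Real {4, 3, 2} [3, 3, 3] :=
  real_of_cycles (n := 9) [[0, 6, 5, 4], [2, 3, 8], [1, 7]] _ _ (by decide) (by decide)
    (by decide) (by decide) 3 (by decide +kernel) (by decide) (by decide +kernel)

theorem spor_642_3333 : Real {6, 4, 2} [3, 3, 3, 3] :=
  real_of_cycles (n := 12) [[3, 4, 10, 6, 8, 9], [0, 2, 1, 5], [7, 11]] _ _ (by decide) (by decide)
    (by decide) (by decide) 3 (by decide +kernel) (by decide) (by decide +kernel)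

theorem spor_732_3333 : Real {7, 3, 2} [3, 3, 3, 3] :=
  real_of_cycles (n := 12) [[0, 2, 10, 4, 6, 7, 8], [1, 9, 3], [5, 11]] _ _ (by decide) (by decide)
    (by decide) (by decide) 3 (by decide +kernel) (by decide) (by decide +kernel)

end Pool.Agent.RST
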