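import Pool.Agent.RST.RectC
import Pool.Agent.RST.Spor2

/-!
# RST/RectD: the four special families on rectangles with columns of length 3
-/

set_option autoImplicit false

namespace Pool.Agent.RST

open Finset

/-- the large word of the special families -/
def wd (R : List ℕ) : List ℕ := 0 :: 0 :: 0 :: 2 :: (R ++ [3, 1, 1])

theorem wd_len (R : List ℕ) : (wd R).length = R.length + 7 := by
  unfold wd
  simp

theorem wd_fst (R : List ℕ) : lt (wd R) 0 = 0 ∧ lt (wd R) 1 = 0 ∧ lt (wd R) 2 = 0 ∧
    lt (wd R) 3 = 2 := by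
  refine ⟨?_, ?_, ?_, ?_⟩ <;>
    (rw [lt_lt _ _ (by rw [wd_len]; omega)]; rfl)

theorem wd_lst (R : List ℕ) : lt (wd R) (R.length + 4) = 3 ∧ lt (wd R) (R.length + 5) = 1 ∧
    lt (wd R) (R.length + 6) = 1 := by
  have h : wd R = (0 :: 0 :: 0 :: 2 :: R) ++ [3, 1, 1] := rfl
  have hl : (0 :: 0 :: 0 :: 2 :: R).length = R.length + 4 := by simp
  refine ⟨?_, ?_, ?_⟩
  · have := lt_at (0 :: 0 :: 0 :: 2 :: R) [3, 1, 1] 0 (by simp)
    rw [hl] at this
    rw [h]
    exact this
  · have := lt_at (0 :: 0 :: 0 :: 2 :: R) [3, 1, 1] 1 (by simp)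
    rw [hl] at this
    rw [h]
    exact this
  · have := lt_at (0 :: 0 :: 0 :: 2 :: R) [3, 1, 1] 2 (by simp)
    rw [hl] at this
    rw [h]
    exact this

/-- improvement `(0, 0)` -/
theorem wd_00 (y : ℕ) (hy : 0 < y) (R : List ℕ) (κ : Lex (ℕ → ℤ)) (hκ : ofLex κ 0 = ((0 : ℕ) : ℤ)) :
    adjS (gg 0 0) (wd R ++ [hd (wd R)]) + 1 ≤ D y (wd R) 0 κ := by
  obtain ⟨f0, f1, f2, f3⟩ := wd_fst R
  obtain ⟨g0, g1, g2⟩ := wd_lst R
  have hl := wd_len R
  have e1 : lt (wd R) (R.length + 6 + 1) = 0 := by
    rw [show R.length + 6 + 1 = 0 + (wd R).length by omega, lt_add_length, f0]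
  have e2 : lt (wd R) (R.length + 6 + 1 + 1) = 0 := by
    rw [show R.length + 6 + 1 + 1 = 1 + (wd R).length by omega, lt_add_length, f1]
  apply D_pair y (wd R) 0 0 κ hκ 1 (R.length + 6) (by omega) (by omega) f1 g2 f2 e1 hy
  rw [e2, f3]
  omega

/-- improvement `(0, 2)` -/
theorem wd_02 (y : ℕ) (hy : 2 < y) (R w2 : List ℕ) (κ : Lex (ℕ → ℤ))
    (hκ : ofLex κ 0 = ((2 : ℕ) : ℤ))
    (hw2 : w2 = [1, 2] ∧ 1 < lt (wd R) 4 ∨ w2 = [1, 2, 2] ∧ 2 < lt (wd R) 4) :
    adjS (gg 0 2) (wd R ++ [hd (wd R)]) + adjS (gg 0 2) (w2 ++ [hd w2]) + 1 ≤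
      D y (wd R) 0 κ + D y w2 0 κ := by
  obtain ⟨f0, f1, f2, f3⟩ := wd_fst R
  have hl := wd_len R
  rcases hw2 with ⟨rfl, h⟩ | ⟨rfl, h⟩
  · exact D_pair2 y (wd R) [1, 2] 0 2 κ hκ 2 0 (by omega) (by simp) f2 rfl f3 rfl hy h
  · exact D_pair2 y (wd R) [1, 2, 2] 0 2 κ hκ 2 0 (by omega) (by simp) f2 rfl f3 rfl hy h

/-- improvement `(2, 1)` -/
theorem wd_21 (y : ℕ) (hy : 1 < y) (R w2 : List ℕ) (κ : Lex (ℕ → ℤ))
    (hκ : ofLex κ 0 = ((1 : ℕ) : ℤ)) (hw2 : w2 = [1, 2] ∨ w2 = [1, 2, 2]) :
    adjS (gg 2 1) (wd R ++ [hd (wd R)]) + adjS (gg 2 1) (w2 ++ [hd w2]) + 1 ≤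
      D y (wd R) 2 κ + D y w2 2 κ := by
  obtain ⟨g0, g1, g2⟩ := wd_lst R
  have hl := wd_len R
  rcases hw2 with rfl | rfl
  · have := D_pair2 y [1, 2] (wd R) 2 1 κ hκ 1 (R.length + 4) (by simp) (by omega) rfl g0 rfl g1 hy
      (by rw [g2]; decide)
    linarith
  · have := D_pair2 y [1, 2, 2] (wd R) 2 1 κ hκ 2 (R.length + 4) (by simp) (by omega) rfl g0 rfl g1
      hy (by rw [g2]; decide)
    linarith

theorem wd_ok (y : ℕ) (R : List ℕ) (h : 0 ∉ R) : OkW y (wd R) := by
  have : wd R = List.replicate 3 0 ++ (2 :: (R ++ [3, 1, 1])) := rfl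
  rw [this]
  apply okW_run y (by omega) (by simp)
  simp [h]

theorem not_mem_mid (j n a : ℕ) (x : ℕ) (h : x < j ∨ j + n < x) (ha : 1 ≤ a) :
    x ∉ mid j (List.replicate n 3 ++ [a]) := by
  intro hx
  have h1 := List.count_pos_iff.2 hx
  rw [count_mid _ _ _ (adm_rep n a ha)] at h1
  split_ifs at h1 with h2
  · rw [List.getD_eq_default _ _ (by simp; omega)] at h1
    omega
  · omega

theorem count_mid_rep (j n a m : ℕ) (ha : 1 ≤ a) :
    (mid j (List.replicate n 3 ++ [a])).count m =
      if j ≤ m ∧ m < j + n then 3 else if m = j + n then a else 0 := by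
  rw [count_mid _ _ _ (adm_rep n a ha)]
  by_cases h : j ≤ m
  · rw [if_pos h]
    by_cases h2 : m < j + n
    · rw [if_pos ⟨h, h2⟩, List.getD_append _ _ _ _ (by simp; omega)]
      simp [List.getD_eq_getElem?_getD, show m - j < n by omega]
    · rw [if_neg (by omega), List.getD_append_right _ _ _ _ (by simp; omega)]
      by_cases h3 : m = j + n
      · rw [if_pos h3]
        simp [h3]
      · rw [if_neg h3]
        rw [List.getD_eq_default _ _ (by simp; omega)]
  · rw [if_neg h, if_neg (by omega), if_neg (by omega)]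

/-- the conclusion from the bound -/
theorem real_rect (y : ℕ) (W : List (List ℕ)) (hM : ∀ w ∈ W, ∀ x ∈ w, x < y)
    (hW : ∀ w ∈ W, OkW y w) (hd : W.Pairwise fun a b => a.length ≠ b.length)
    (hD : ∀ (m ρ : ℕ) (κ : Lex (ℕ → ℤ)), m + 1 < y → ρ ≤ y → ofLex κ 0 = (ρ : ℤ) →
      0 ≤ (W.map fun w => D y w m κ).sum)
    (hc : ∀ m < y, (W.map fun w => w.count m).sum = 3) :
    Real ((W.map List.length : List ℕ) : Multiset ℕ) (List.replicate y 3) := by
  have h1 := real_words y W (fun w hw x hx => (hM w hw x hx).le) hW hd hD (by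
      right
      intro w hw t ht hpv
      exfalso
      have h3 : pv w t ∈ w := by
        unfold pv lt
        rw [List.getD_eq_getElem _ _ (Nat.mod_lt _ (by omega))]
        exact List.getElem_mem _
      rw [hpv] at h3
      have := hM w hw y h3
      omega)
  have h2 : (List.range y).map (fun m => (W.map fun w => w.count m).sum) =
      List.replicate y 3 := by
    rw [List.eq_replicate_iff]
    refine ⟨by simp, ?_⟩
    intro b hb
    rw [List.mem_map] at hb
    obtain ⟨k, hk, rfl⟩ := hb
    rw [List.mem_range] at hk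
    exact hc k hk
  have h3 : (W.map fun w => w.count y).sum = 0 := by
    rw [List.sum_eq_zero_iff]
    intro x hx
    rw [List.mem_map] at hx
    obtain ⟨w, hw, rfl⟩ := hx
    rw [List.count_eq_zero]
    intro h4
    exact absurd (hM w hw y h4) (lt_irrefl _)
  rw [h2, h3, List.replicate_zero, List.append_nil] at h1
  exact h1

theorem F4_real (n : ℕ) : Real {3 * n + 9, 3} (List.replicate (n + 4) 3) := by
  have ha := adm_rep n 3 (by omega)
  obtain ⟨A, hA⟩ := mid_last _ ha 3
  have hw : wd A = [0, 0, 0] ++ 2 :: (mid (2 + 1) (List.replicate n 3 ++ [3]) ++ 1 :: [1]) := by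
    rw [show 2 + 1 = 3 by rfl, hA]
    simp [wd]
  have hAl : A.length = 3 * n + 2 := by
    have h1 := length_mid 3 _ ha
    rw [hA] at h1
    simp only [List.length_append, List.length_cons, List.length_nil, List.sum_append,
      List.sum_replicate, List.sum_cons, List.sum_nil, smul_eq_mul] at h1
    omega
  have hAm : ∀ x ∈ A, 3 ≤ x ∧ x ≤ n + 3 := by
    intro x hx
    by_contra hcon
    exact not_mem_mid 3 n 3 x (by omega) (by omega) (by rw [hA]; simp [hx])
  have h4 : 2 < lt (wd A) 4 := by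
    rcases A with - | ⟨a, A⟩
    · have := (wd_lst []).1
      simp only [List.length_nil, zero_add] at this
      rw [this]
      omega
    · rw [lt_lt _ _ (by rw [wd_len]; simp)]
      have := hAm a (by simp)
      change 2 < a
      omega
  have hadj : ∀ m ρ, adjS (gg m ρ) (wd A ++ [hd (wd A)]) =
      2 * gg m ρ 0 0 + gg m ρ 0 2 + (mB m ρ 2 n 3 - gg m ρ 3 2 + gg m ρ 3 1) + gg m ρ 1 1 +
      gg m ρ 1 0 := by
    intro m ρ
    have e0 : hd (wd A) = 0 := rfl
    rw [e0, hw]
    have e1 : [0, 0, 0] ++ 2 :: (mid (2 + 1) (List.replicate n 3 ++ [3]) ++ 1 :: [1]) ++ [0] =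
        [0, 0, 0] ++ 2 :: (mid (2 + 1) (List.replicate n 3 ++ [3]) ++ 1 :: [1, 0]) := by simp
    rw [e1, adjS_fam _ _ _ _ _ _ _ ha, mS_rep]
    simp only [List.cons_append, List.nil_append, adjS]
    ring
  have hadj2 : ∀ m ρ, adjS (gg m ρ) ([1, 2, 2] ++ [hd [1, 2, 2]]) =
      gg m ρ 1 2 + gg m ρ 2 2 + gg m ρ 2 1 := by
    intro m ρ
    have e0 : hd [1, 2, 2] = 1 := rfl
    rw [e0]
    simp only [List.cons_append, List.nil_append, adjS]
    ring
  have h := real_rect (n + 4) [wd A, [1, 2, 2]] ?_ ?_ ?_ ?_ ?_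
  · have e : ((([wd A, [1, 2, 2]] : List (List ℕ)).map List.length : List ℕ) : Multiset ℕ) =
        {3 * n + 9, 3} := by
      simp only [List.map_cons, List.map_nil, wd_len, hAl, List.length_cons, List.length_nil]
      rfl
    rw [e] at h
    exact h
  · intro w hw x hx
    simp only [List.mem_cons, List.not_mem_nil, or_false] at hw
    rcases hw with rfl | rfl
    · unfold wd at hx
      simp only [List.mem_cons, List.mem_append, List.not_mem_nil, or_false] at hx
      rcases hx with h | h | h | h | h | h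
      · omega
      · omega
      · omega
      · omega
      · have := hAm x h; omega
      · omega
    · simp at hx
      omega
  · intro w hw
    simp only [List.mem_cons, List.not_mem_nil, or_false] at hw
    rcases hw with rfl | rfl
    · apply wd_ok
      intro h0
      have := hAm 0 h0
      omega
    · exact okW_run (n + 4) (a := 1) (x := 1) (R := [2, 2]) (by omega) (by simp) (by simp)
  · simp only [List.pairwise_cons, List.mem_cons, List.not_mem_nil, or_false, forall_eq,
      wd_len, hAl, List.length_cons, List.length_nil, List.Pairwise.nil, and_true]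
    refine ⟨by omega, ?_⟩
    simp
  · intro m ρ κ hm hρ hκ
    have b := F4_bound n m ρ hm
    have c1 := D_ge (n + 4) (wd A) m ρ κ hκ
    have c2 := D_ge (n + 4) [1, 2, 2] m ρ κ hκ
    simp only [List.map_cons, List.map_nil, List.sum_cons, List.sum_nil, add_zero]
    rw [← hadj, ← hadj2] at b
    split_ifs at b with hc
    · rcases hc with ⟨rfl, rfl⟩ | ⟨rfl, rfl⟩ | ⟨rfl, rfl⟩ | ⟨hm1, hρ1⟩
      · have := wd_00 (n + 4) (by omega) A κ hκ
        linarith
      · have := wd_02 (n + 4) (by omega) A [1, 2, 2] κ hκ (Or.inr ⟨rfl, h4⟩)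
        linarith
      · have := wd_21 (n + 4) (by omega) A [1, 2, 2] κ hκ (Or.inr rfl)
        linarith
      · obtain ⟨A', b', B', h1, h2⟩ := mid_top 2 n 1 [1] (by omega)
        have h3 : wd A = ([0, 0, 0] ++ A') ++ ((m) :: (m + 1) :: (m + 1) :: (m + 1) :: b' :: B') := by
          rw [hw, h1, show 2 + n = m by omega]
          simp
        subst hm1
        subst hρ1
        have := top_improve (n + 4) ([0, 0, 0] ++ A') B' (n + 2) b' (by omega) (by omega) κ hκ
        rw [← h3] at this
        change _ ≤ _ at this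
        have e : n + 2 + 1 = n + 3 := rfl
        rw [e] at this
        linarith
    · linarith
  · intro m hm
    simp only [List.map_cons, List.map_nil, List.sum_cons, List.sum_nil, add_zero]
    have e0 : (wd A).count m = [0, 0, 0].count m + ([2].count m +
        ((mid (2 + 1) (List.replicate n 3 ++ [3])).count m + [1, 1].count m)) := by
      rw [hw, show [0, 0, 0] ++ 2 :: (mid (2 + 1) (List.replicate n 3 ++ [3]) ++ 1 :: [1]) =
        [0, 0, 0] ++ ([2] ++ (mid (2 + 1) (List.replicate n 3 ++ [3]) ++ [1, 1])) from rfl,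
        List.count_append, List.count_append, List.count_append]
    rw [e0, count_mid_rep _ _ _ _ (by omega)]
    rcases (show m = 0 ∨ m = 1 ∨ m = 2 ∨ 3 ≤ m by omega) with rfl | rfl | rfl | h
    iterate 3
      · rw [if_neg (by omega), if_neg (by omega)]; rfl
    · have e1 : List.count m [0, 0, 0] = 0 := List.count_eq_zero.2 (by simp; omega)
      have e2 : List.count m [1, 1] = 0 := List.count_eq_zero.2 (by simp; omega)
      have e3 : List.count m [1, 2, 2] = 0 := List.count_eq_zero.2 (by simp; omega)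
      have e4 : List.count m [2] = 0 := List.count_eq_zero.2 (by simp; omega)
      rw [e1, e2, e3, e4]
      split_ifs <;> omega

theorem F1_real (n : ℕ) : Real {3 * n + 10, 2} (List.replicate (n + 4) 3) := by
  have ha := adm_rep n 3 (by omega)
  obtain ⟨A, hA⟩ := mid_last _ ha 3
  have hw : wd (2 :: A) = [0, 0, 0, 2] ++ 2 :: (mid (2 + 1) (List.replicate n 3 ++ [3]) ++ 1 :: [1]) := by
    rw [show 2 + 1 = 3 by rfl, hA]
    simp [wd]
  have hAl : A.length = 3 * n + 2 := by
    have h1 := length_mid 3 _ ha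
    rw [hA] at h1
    simp only [List.length_append, List.length_cons, List.length_nil, List.sum_append,
      List.sum_replicate, List.sum_cons, List.sum_nil, smul_eq_mul] at h1
    omega
  have hAm : ∀ x ∈ A, 3 ≤ x ∧ x ≤ n + 3 := by
    intro x hx
    by_contra hcon
    exact not_mem_mid 3 n 3 x (by omega) (by omega) (by rw [hA]; simp [hx])
  have h4 : 1 < lt (wd (2 :: A)) 4 := by
    rw [lt_lt _ _ (by rw [wd_len]; simp)]
    change 1 < 2
    omega
  have hadj : ∀ m ρ, adjS (gg m ρ) (wd (2 :: A) ++ [hd (wd (2 :: A))]) =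
      2 * gg m ρ 0 0 + gg m ρ 0 2 + gg m ρ 2 2 + (mB m ρ 2 n 3 - gg m ρ 3 2 + gg m ρ 3 1) + gg m ρ 1 1 +
      gg m ρ 1 0 := by
    intro m ρ
    have e0 : hd (wd (2 :: A)) = 0 := rfl
    rw [e0, hw]
    have e1 : [0, 0, 0, 2] ++ 2 :: (mid (2 + 1) (List.replicate n 3 ++ [3]) ++ 1 :: [1]) ++ [0] =
        [0, 0, 0, 2] ++ 2 :: (mid (2 + 1) (List.replicate n 3 ++ [3]) ++ 1 :: [1, 0]) := by simp
    rw [e1, adjS_fam _ _ _ _ _ _ _ ha, mS_rep]
    simp only [List.cons_append, List.nil_append, adjS]
    ring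
  have hadj2 : ∀ m ρ, adjS (gg m ρ) ([1, 2] ++ [hd [1, 2]]) =
      gg m ρ 1 2 + gg m ρ 2 1 := by
    intro m ρ
    have e0 : hd [1, 2] = 1 := rfl
    rw [e0]
    simp only [List.cons_append, List.nil_append, adjS]
    ring
  have h := real_rect (n + 4) [wd (2 :: A), [1, 2]] ?_ ?_ ?_ ?_ ?_
  · have e : ((([wd (2 :: A), [1, 2]] : List (List ℕ)).map List.length : List ℕ) : Multiset ℕ) =
        {3 * n + 10, 2} := by
      simp only [List.map_cons, List.map_nil, wd_len, hAl, List.length_cons, List.length_nil]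
      rfl
    rw [e] at h
    exact h
  · intro w hw x hx
    simp only [List.mem_cons, List.not_mem_nil, or_false] at hw
    rcases hw with rfl | rfl
    · unfold wd at hx
      simp only [List.mem_cons, List.mem_append, List.not_mem_nil, or_false] at hx
      rcases hx with h | h | h | h | (h | h) | h
      · omega
      · omega
      · omega
      · omega
      · omega
      · have := hAm x h; omega
      · omega
    · simp at hx
      omega
  · intro w hw
    simp only [List.mem_cons, List.not_mem_nil, or_false] at hw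
    rcases hw with rfl | rfl
    · apply wd_ok
      intro h0
      rw [List.mem_cons] at h0
      rcases h0 with h0 | h0
      · omega
      have := hAm 0 h0
      omega
    · exact okW_run (n + 4) (a := 1) (x := 1) (R := [2]) (by omega) (by simp) (by simp)
  · simp only [List.pairwise_cons, List.mem_cons, List.not_mem_nil, or_false, forall_eq,
      wd_len, hAl, List.length_cons, List.length_nil, List.Pairwise.nil, and_true]
    refine ⟨by omega, ?_⟩
    simp
  · intro m ρ κ hm hρ hκ
    have b := F1_bound n m ρ hm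
    have c1 := D_ge (n + 4) (wd (2 :: A)) m ρ κ hκ
    have c2 := D_ge (n + 4) [1, 2] m ρ κ hκ
    simp only [List.map_cons, List.map_nil, List.sum_cons, List.sum_nil, add_zero]
    rw [← hadj, ← hadj2] at b
    split_ifs at b with hc
    · rcases hc with ⟨rfl, rfl⟩ | ⟨rfl, rfl⟩ | ⟨rfl, rfl⟩ | ⟨hm1, hρ1⟩
      · have := wd_00 (n + 4) (by omega) (2 :: A) κ hκ
        linarith
      · have := wd_02 (n + 4) (by omega) (2 :: A) [1, 2] κ hκ (Or.inl ⟨rfl, h4⟩)
        linarith
      · have := wd_21 (n + 4) (by omega) (2 :: A) [1, 2] κ hκ (Or.inl rfl)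
        linarith
      · obtain ⟨A', b', B', h1, h2⟩ := mid_top 2 n 1 [1] (by omega)
        have h3 : wd (2 :: A) = ([0, 0, 0, 2] ++ A') ++ ((m) :: (m + 1) :: (m + 1) :: (m + 1) :: b' :: B') := by
          rw [hw, h1, show 2 + n = m by omega]
          simp
        subst hm1
        subst hρ1
        have := top_improve (n + 4) ([0, 0, 0, 2] ++ A') B' (n + 2) b' (by omega) (by omega) κ hκ
        rw [← h3] at this
        change _ ≤ _ at this
        have e : n + 2 + 1 = n + 3 := rfl
        rw [e] at this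
        linarith
    · linarith
  · intro m hm
    simp only [List.map_cons, List.map_nil, List.sum_cons, List.sum_nil, add_zero]
    have e0 : (wd (2 :: A)).count m = [0, 0, 0, 2].count m + ([2].count m +
        ((mid (2 + 1) (List.replicate n 3 ++ [3])).count m + [1, 1].count m)) := by
      rw [hw, show [0, 0, 0, 2] ++ 2 :: (mid (2 + 1) (List.replicate n 3 ++ [3]) ++ 1 :: [1]) =
        [0, 0, 0, 2] ++ ([2] ++ (mid (2 + 1) (List.replicate n 3 ++ [3]) ++ [1, 1])) from rfl,
        List.count_append, List.count_append, List.count_append]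
    rw [e0, count_mid_rep _ _ _ _ (by omega)]
    rcases (show m = 0 ∨ m = 1 ∨ m = 2 ∨ 3 ≤ m by omega) with rfl | rfl | rfl | h
    iterate 3
      · rw [if_neg (by omega), if_neg (by omega)]; rfl
    · have e1 : List.count m [0, 0, 0, 2] = 0 := List.count_eq_zero.2 (by simp; omega)
      have e2 : List.count m [1, 1] = 0 := List.count_eq_zero.2 (by simp; omega)
      have e3 : List.count m [1, 2] = 0 := List.count_eq_zero.2 (by simp; omega)
      have e4 : List.count m [2] = 0 := List.count_eq_zero.2 (by simp; omega)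
      rw [e1, e2, e3, e4]
      split_ifs <;> omega

theorem F2_real (n : ℕ) : Real {3 * n + 9, 4, 2} (List.replicate (n + 5) 3) := by
  have ha := adm_rep n 2 (by omega)
  obtain ⟨A, hA⟩ := mid_last _ ha 3
  have hw : wd (2 :: A) =
      [0, 0, 0, 2] ++ 2 :: (mid (2 + 1) (List.replicate n 3 ++ [2]) ++ 1 :: [1]) := by
    rw [show 2 + 1 = 3 by rfl, hA]
    simp [wd]
  have hAl : A.length = 3 * n + 1 := by
    have h1 := length_mid 3 _ ha
    rw [hA] at h1
    simp only [List.length_append, List.length_cons, List.length_nil, List.sum_append,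
      List.sum_replicate, List.sum_cons, List.sum_nil, smul_eq_mul] at h1
    omega
  have hAm : ∀ x ∈ A, 3 ≤ x ∧ x ≤ n + 3 := by
    intro x hx
    by_contra hcon
    exact not_mem_mid 3 n 2 x (by omega) (by omega) (by rw [hA]; simp [hx])
  have h4 : 1 < lt (wd (2 :: A)) 4 := by
    rw [lt_lt _ _ (by rw [wd_len]; simp)]
    change 1 < 2
    omega
  have hadj : ∀ m ρ, adjS (gg m ρ) (wd (2 :: A) ++ [hd (wd (2 :: A))]) =
      2 * gg m ρ 0 0 + gg m ρ 0 2 + gg m ρ 2 2 + (mB m ρ 2 n 2 - gg m ρ 3 2 + gg m ρ 3 1) +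
      gg m ρ 1 1 + gg m ρ 1 0 := by
    intro m ρ
    have e0 : hd (wd (2 :: A)) = 0 := rfl
    rw [e0, hw]
    have e1 : [0, 0, 0, 2] ++ 2 :: (mid (2 + 1) (List.replicate n 3 ++ [2]) ++ 1 :: [1]) ++ [0] =
        [0, 0, 0, 2] ++ 2 :: (mid (2 + 1) (List.replicate n 3 ++ [2]) ++ 1 :: [1, 0]) := by simp
    rw [e1, adjS_fam _ _ _ _ _ _ _ ha, mS_rep]
    simp only [List.cons_append, List.nil_append, adjS]
    ring
  have hadj2 : ∀ m ρ, adjS (gg m ρ) ([1, 2] ++ [hd [1, 2]]) = gg m ρ 1 2 + gg m ρ 2 1 := by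
    intro m ρ
    have e0 : hd [1, 2] = 1 := rfl
    rw [e0]
    simp only [List.cons_append, List.nil_append, adjS]
    ring
  have hadj3 : ∀ m ρ, adjS (gg m ρ) ([n + 3, n + 4, n + 4, n + 4] ++
      [hd [n + 3, n + 4, n + 4, n + 4]]) =
      gg m ρ (n + 3) (n + 4) + 2 * gg m ρ (n + 4) (n + 4) + gg m ρ (n + 4) (n + 3) := by
    intro m ρ
    have e0 : hd [n + 3, n + 4, n + 4, n + 4] = n + 3 := rfl
    rw [e0]
    simp only [List.cons_append, List.nil_append, adjS]
    ring
  have h := real_rect (n + 5) [wd (2 :: A), [n + 3, n + 4, n + 4, n + 4], [1, 2]] ?_ ?_ ?_ ?_ ?_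
  · have e : ((([wd (2 :: A), [n + 3, n + 4, n + 4, n + 4], [1, 2]] : List (List ℕ)).map
        List.length : List ℕ) : Multiset ℕ) = {3 * n + 9, 4, 2} := by
      simp only [List.map_cons, List.map_nil, wd_len, hAl, List.length_cons, List.length_nil]
      rfl
    rw [e] at h
    exact h
  · intro w hw x hx
    simp only [List.mem_cons, List.not_mem_nil, or_false] at hw
    rcases hw with rfl | rfl | rfl
    · unfold wd at hx
      simp only [List.mem_cons, List.mem_append, List.not_mem_nil, or_false] at hx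
      rcases hx with h | h | h | h | (h | h) | h
      · omega
      · omega
      · omega
      · omega
      · omega
      · have := hAm x h; omega
      · omega
    · simp at hx
      omega
    · simp at hx
      omega
  · intro w hw
    simp only [List.mem_cons, List.not_mem_nil, or_false] at hw
    rcases hw with rfl | rfl | rfl
    · apply wd_ok
      intro h0
      rw [List.mem_cons] at h0
      rcases h0 with h0 | h0
      · omega
      have := hAm 0 h0
      omega
    · exact okW_run (n + 5) (a := 1) (x := n + 3) (R := [n + 4, n + 4, n + 4]) (by omega)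
        (by simp) (by simp)
    · exact okW_run (n + 5) (a := 1) (x := 1) (R := [2]) (by omega) (by simp) (by simp)
  · simp only [List.pairwise_cons, List.mem_cons, List.not_mem_nil, or_false, forall_eq_or_imp,
      forall_eq, wd_len, hAl, List.length_cons, List.length_nil, List.Pairwise.nil, and_true]
    refine ⟨⟨by omega, by omega⟩, by omega, ?_⟩
    simp
  · intro m ρ κ hm hρ hκ
    have b := F2_bound n m ρ hm
    have c1 := D_ge (n + 5) (wd (2 :: A)) m ρ κ hκ
    have c2 := D_ge (n + 5) [1, 2] m ρ κ hκ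
    have c3 := D_ge (n + 5) [n + 3, n + 4, n + 4, n + 4] m ρ κ hκ
    simp only [List.map_cons, List.map_nil, List.sum_cons, List.sum_nil, add_zero]
    rw [← hadj, ← hadj2, ← hadj3] at b
    split_ifs at b with hc
    · rcases hc with ⟨rfl, rfl⟩ | ⟨rfl, rfl⟩ | ⟨rfl, rfl⟩ | ⟨hm1, hρ1⟩
      · have := wd_00 (n + 5) (by omega) (2 :: A) κ hκ
        linarith
      · have := wd_02 (n + 5) (by omega) (2 :: A) [1, 2] κ hκ (Or.inl ⟨rfl, h4⟩)
        linarith
      · have := wd_21 (n + 5) (by omega) (2 :: A) [1, 2] κ hκ (Or.inl rfl)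
        linarith
      · subst hm1
        subst hρ1
        have := D_pair (n + 5) [n + 3, n + 4, n + 4, n + 4] (n + 3) (n + 4) κ hκ 0 2 (by simp)
          (by simp) rfl rfl rfl rfl (by omega) (by
            have e1 : lt [n + 3, n + 4, n + 4, n + 4] (2 + 1 + 1) = n + 3 := by simp [lt]
            have e2 : lt [n + 3, n + 4, n + 4, n + 4] (0 + 1 + 1) = n + 4 := by simp [lt]
            rw [e1, e2]
            omega)
        linarith
    · linarith
  · intro m hm
    simp only [List.map_cons, List.map_nil, List.sum_cons, List.sum_nil, add_zero]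
    have e0 : (wd (2 :: A)).count m = [0, 0, 0, 2].count m + ([2].count m +
        ((mid (2 + 1) (List.replicate n 3 ++ [2])).count m + [1, 1].count m)) := by
      rw [hw, show [0, 0, 0, 2] ++ 2 :: (mid (2 + 1) (List.replicate n 3 ++ [2]) ++ 1 :: [1]) =
        [0, 0, 0, 2] ++ ([2] ++ (mid (2 + 1) (List.replicate n 3 ++ [2]) ++ [1, 1])) from rfl,
        List.count_append, List.count_append, List.count_append]
    have e5 : [n + 3, n + 4, n + 4, n + 4].count m = if m = n + 3 then 1 else if m = n + 4 then 3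
        else 0 := by
      rcases (show m = n + 3 ∨ m = n + 4 ∨ m < n + 3 by omega) with rfl | rfl | h
      · simp
      · simp
      · rw [if_neg (by omega), if_neg (by omega)]
        exact List.count_eq_zero.2 (by simp; omega)
    rw [e0, count_mid_rep _ _ _ _ (by omega), e5]
    rcases (show m = 0 ∨ m = 1 ∨ m = 2 ∨ 3 ≤ m by omega) with rfl | rfl | rfl | h
    iterate 3
      · rw [if_neg (by omega), if_neg (by omega), if_neg (by omega), if_neg (by omega)]; rfl
    · have e1 : List.count m [0, 0, 0, 2] = 0 := List.count_eq_zero.2 (by simp; omega)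
      have e2 : List.count m [1, 1] = 0 := List.count_eq_zero.2 (by simp; omega)
      have e3 : List.count m [1, 2] = 0 := List.count_eq_zero.2 (by simp; omega)
      have e4 : List.count m [2] = 0 := List.count_eq_zero.2 (by simp; omega)
      rw [e1, e2, e3, e4]
      split_ifs <;> omega

theorem F3_real (n : ℕ) : Real {3 * n + 13, 3, 2} (List.replicate (n + 6) 3) := by
  have ha := adm_rep n 3 (by omega)
  obtain ⟨A, hA⟩ := mid_last _ ha 5
  set R : List ℕ := 4 :: 4 :: (A ++ [5, 3]) with hR
  have hw : wd R =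
      [0, 0, 0, 2, 4] ++ 4 :: (mid (4 + 1) (List.replicate n 3 ++ [3]) ++ 3 :: [3, 1, 1]) := by
    rw [show 4 + 1 = 5 by rfl, hA]
    simp [wd, hR]
  have hAl : A.length = 3 * n + 2 := by
    have h1 := length_mid 5 _ ha
    rw [hA] at h1
    simp only [List.length_append, List.length_cons, List.length_nil, List.sum_append,
      List.sum_replicate, List.sum_cons, List.sum_nil, smul_eq_mul] at h1
    omega
  have hRl : R.length = 3 * n + 6 := by
    rw [hR]
    simp only [List.length_append, List.length_cons, List.length_nil, hAl]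
  have hAm : ∀ x ∈ A, 5 ≤ x ∧ x ≤ n + 5 := by
    intro x hx
    by_contra hcon
    exact not_mem_mid 5 n 3 x (by omega) (by omega) (by rw [hA]; simp [hx])
  have hRm : ∀ x ∈ R, 3 ≤ x ∧ x ≤ n + 5 := by
    intro x hx
    rw [hR] at hx
    simp only [List.mem_cons, List.mem_append, List.not_mem_nil, or_false] at hx
    rcases hx with h | h | h | h | h
    · omega
    · omega
    · have := hAm x h; omega
    · omega
    · omega
  have h4 : lt (wd R) 4 = 4 := by
    rw [lt_lt _ _ (by rw [wd_len]; omega)]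
    rfl
  have h5 : lt (wd R) 5 = 4 := by
    rw [lt_lt _ _ (by rw [wd_len]; omega)]
    rfl
  have hsp : wd R = (0 :: 0 :: 0 :: 2 :: 4 :: 4 :: A) ++ [5, 3, 3, 1, 1] := by
    simp [wd, hR]
  have hspl : (0 :: 0 :: 0 :: 2 :: 4 :: 4 :: A).length = 3 * n + 8 := by
    simp only [List.length_cons, hAl]
  have k0 : lt (wd R) (3 * n + 8) = 5 := by
    have := lt_at (0 :: 0 :: 0 :: 2 :: 4 :: 4 :: A) [5, 3, 3, 1, 1] 0 (by simp)
    rw [hspl] at this
    rw [hsp]
    exact this
  have k1 : lt (wd R) (3 * n + 8 + 1) = 3 := by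
    have := lt_at (0 :: 0 :: 0 :: 2 :: 4 :: 4 :: A) [5, 3, 3, 1, 1] 1 (by simp)
    rw [hspl] at this
    rw [hsp]
    exact this
  have k2 : lt (wd R) (3 * n + 8 + 1 + 1) = 3 := by
    have := lt_at (0 :: 0 :: 0 :: 2 :: 4 :: 4 :: A) [5, 3, 3, 1, 1] 2 (by simp)
    rw [hspl] at this
    rw [hsp]
    exact this
  have hadj : ∀ m ρ, adjS (gg m ρ) (wd R ++ [hd (wd R)]) =
      2 * gg m ρ 0 0 + gg m ρ 0 2 + gg m ρ 2 4 + gg m ρ 4 4 +
      (mB m ρ 4 n 3 - gg m ρ 5 4 + gg m ρ 5 3) +
      gg m ρ 3 3 + gg m ρ 3 1 + gg m ρ 1 1 + gg m ρ 1 0 := by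
    intro m ρ
    have e0 : hd (wd R) = 0 := rfl
    rw [e0, hw]
    have e1 : [0, 0, 0, 2, 4] ++ 4 :: (mid (4 + 1) (List.replicate n 3 ++ [3]) ++
        3 :: [3, 1, 1]) ++ [0] =
        [0, 0, 0, 2, 4] ++ 4 :: (mid (4 + 1) (List.replicate n 3 ++ [3]) ++
          3 :: [3, 1, 1, 0]) := by simp
    rw [e1, adjS_fam _ _ _ _ _ _ _ ha, mS_rep]
    simp only [List.cons_append, List.nil_append, adjS]
    ring
  have hadj2 : ∀ m ρ, adjS (gg m ρ) ([1, 2, 2] ++ [hd [1, 2, 2]]) =
      gg m ρ 1 2 + gg m ρ 2 2 + gg m ρ 2 1 := by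
    intro m ρ
    have e0 : hd [1, 2, 2] = 1 := rfl
    rw [e0]
    simp only [List.cons_append, List.nil_append, adjS]
    ring
  have hadj3 : ∀ m ρ, adjS (gg m ρ) ([3, 4] ++ [hd [3, 4]]) = gg m ρ 3 4 + gg m ρ 4 3 := by
    intro m ρ
    have e0 : hd [3, 4] = 3 := rfl
    rw [e0]
    simp only [List.cons_append, List.nil_append, adjS]
    ring
  have h := real_rect (n + 6) [wd R, [1, 2, 2], [3, 4]] ?_ ?_ ?_ ?_ ?_
  · have e : ((([wd R, [1, 2, 2], [3, 4]] : List (List ℕ)).map
        List.length : List ℕ) : Multiset ℕ) = {3 * n + 13, 3, 2} := by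
      simp only [List.map_cons, List.map_nil, wd_len, hRl, List.length_cons, List.length_nil]
      rfl
    rw [e] at h
    exact h
  · intro w hw x hx
    simp only [List.mem_cons, List.not_mem_nil, or_false] at hw
    rcases hw with rfl | rfl | rfl
    · unfold wd at hx
      simp only [List.mem_cons, List.mem_append, List.not_mem_nil, or_false] at hx
      rcases hx with h | h | h | h | h | h
      · omega
      · omega
      · omega
      · omega
      · have := hRm x h; omega
      · omega
    · simp at hx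
      omega
    · simp at hx
      omega
  · intro w hw
    simp only [List.mem_cons, List.not_mem_nil, or_false] at hw
    rcases hw with rfl | rfl | rfl
    · apply wd_ok
      intro h0
      have := hRm 0 h0
      omega
    · exact okW_run (n + 6) (a := 1) (x := 1) (R := [2, 2]) (by omega) (by simp) (by simp)
    · exact okW_run (n + 6) (a := 1) (x := 3) (R := [4]) (by omega) (by simp) (by simp)
  · simp only [List.pairwise_cons, List.mem_cons, List.not_mem_nil, or_false, forall_eq_or_imp,
      forall_eq, wd_len, hRl, List.length_cons, List.length_nil, List.Pairwise.nil, and_true]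
    refine ⟨⟨by omega, by omega⟩, by omega, ?_⟩
    simp
  · intro m ρ κ hm hρ hκ
    have b := F3_bound n m ρ hm
    have c1 := D_ge (n + 6) (wd R) m ρ κ hκ
    have c2 := D_ge (n + 6) [1, 2, 2] m ρ κ hκ
    have c3 := D_ge (n + 6) [3, 4] m ρ κ hκ
    simp only [List.map_cons, List.map_nil, List.sum_cons, List.sum_nil, add_zero]
    rw [← hadj, ← hadj2, ← hadj3] at b
    split_ifs at b with hc
    · rcases hc with ⟨rfl, rfl⟩ | ⟨rfl, rfl⟩ | ⟨rfl, rfl⟩ | ⟨hm1, hρ1⟩ | ⟨rfl, rfl⟩ | ⟨rfl, rfl⟩
      · have := wd_00 (n + 6) (by omega) R κ hκ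
        linarith
      · have := wd_02 (n + 6) (by omega) R [1, 2, 2] κ hκ (Or.inr ⟨rfl, by omega⟩)
        linarith
      · have := wd_21 (n + 6) (by omega) R [1, 2, 2] κ hκ (Or.inr rfl)
        linarith
      · obtain ⟨A', b', B', h1, h2⟩ := mid_top 4 n 3 [3, 1, 1] (by omega)
        have h3 : wd R = ([0, 0, 0, 2, 4] ++ A') ++
            ((m) :: (m + 1) :: (m + 1) :: (m + 1) :: b' :: B') := by
          rw [hw, h1, show 4 + n = m by omega]
          simp
        subst hm1
        subst hρ1
        have := top_improve (n + 6) ([0, 0, 0, 2, 4] ++ A') B' (n + 4) b' (by omega) (by omega) κ hκ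
        rw [← h3] at this
        have e : n + 4 + 1 = n + 5 := rfl
        rw [e] at this
        linarith
      · have := D_pair2 (n + 6) (wd R) [3, 4] 2 4 κ hκ 3 0 (by rw [wd_len]; omega) (by simp)
          (wd_fst R).2.2.2 rfl h4 rfl (by omega) (by
            rw [h5]
            change 3 < 4
            omega)
        linarith
      · have := D_pair2 (n + 6) [3, 4] (wd R) 4 3 κ hκ 1 (3 * n + 8) (by simp)
          (by rw [wd_len]; omega) rfl k0 rfl k1 (by omega) (by
            rw [k2]
            change 3 < 4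
            omega)
        linarith
    · linarith
  · intro m hm
    simp only [List.map_cons, List.map_nil, List.sum_cons, List.sum_nil, add_zero]
    have e0 : (wd R).count m = [0, 0, 0, 2, 4, 4].count m +
        ((mid (4 + 1) (List.replicate n 3 ++ [3])).count m + [3, 3, 1, 1].count m) := by
      rw [hw, show [0, 0, 0, 2, 4] ++ 4 :: (mid (4 + 1) (List.replicate n 3 ++ [3]) ++
        3 :: [3, 1, 1]) =
        [0, 0, 0, 2, 4, 4] ++ (mid (4 + 1) (List.replicate n 3 ++ [3]) ++ [3, 3, 1, 1]) from rfl,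
        List.count_append, List.count_append]
    rw [e0, count_mid_rep _ _ _ _ (by omega)]
    rcases (show m = 0 ∨ m = 1 ∨ m = 2 ∨ m = 3 ∨ m = 4 ∨ 5 ≤ m by omega) with
      rfl | rfl | rfl | rfl | rfl | h
    iterate 5
      · rw [if_neg (by omega), if_neg (by omega)]; rfl
    · have e1 : List.count m [0, 0, 0, 2, 4, 4] = 0 := List.count_eq_zero.2 (by simp; omega)
      have e2 : List.count m [3, 3, 1, 1] = 0 := List.count_eq_zero.2 (by simp; omega)
      have e3 : List.count m [1, 2, 2] = 0 := List.count_eq_zero.2 (by simp; omega)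
      have e4 : List.count m [3, 4] = 0 := List.count_eq_zero.2 (by simp; omega)
      rw [e1, e2, e3, e4]
      split_ifs <;> omega

end Pool.Agent.RST
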