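import Pool.Agent.RST.Mtn2
import Pool.Agent.RST.Prim

/-!
# RST/Run: words `0^b R e` with nonzero letters `R`, `e` (singles and absorbers), and the order of
the runs of zeros
-/

set_option autoImplicit false

namespace Pool.Agent.RST

open Finset

/-- the order of the lengths of runs of zeros: `1 < 3 < 5 < ⋯ < 6 < 4 < 2` -/
def levlt (a a' : ℕ) : Prop := (a < a' ∧ a % 2 = 1) ∨ (a' < a ∧ a' % 2 = 0)

theorem sg_zeros (y : ℕ) (w : List ℕ) (t a : ℕ) (hy : 0 < y) (ha : ∀ i < a, lt w (t + i) = 0)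
    (s : ℕ) (hs : s ≤ a) : sg y w t s = (-1) ^ s := by
  unfold sg
  rw [prod_congr rfl (g := fun _ => (-1 : ℤ)), prod_const, card_range]
  intro i hi
  rw [mem_range] at hi
  rw [ha i (by omega), if_pos hy]

theorem key_zeros (y : ℕ) (w : List ℕ) (t a : ℕ) (hy : 0 < y) (ha : ∀ i < a, lt w (t + i) = 0)
    (s : ℕ) (hs : s < a) : ofLex (key y w t) s = 0 := by
  rw [key_apply, ha s hs]
  simp

theorem key_zeros_end (y : ℕ) (w : List ℕ) (t a : ℕ) (hy : 0 < y)
    (ha : ∀ i < a, lt w (t + i) = 0) :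
    ofLex (key y w t) a = (-1) ^ a * (lt w (t + a) : ℤ) := by
  rw [key_apply, sg_zeros y w t a hy ha a (le_refl _)]

/-- **Order of runs of zeros.** -/
theorem key_lev (y : ℕ) (w w' : List ℕ) (t t' a a' : ℕ) (hy : 0 < y)
    (ha : ∀ i < a, lt w (t + i) = 0) (ha1 : 0 < lt w (t + a))
    (ha' : ∀ i < a', lt w' (t' + i) = 0) (ha1' : 0 < lt w' (t' + a'))
    (h : levlt a a') : key y w t < key y w' t' := by
  rcases h with ⟨h1, h2⟩ | ⟨h1, h2⟩
  · refine ⟨a, ?_, ?_⟩
    · intro j hj
      show ofLex (key y w t) j = ofLex (key y w' t') j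
      rw [key_zeros y w t a hy ha j hj, key_zeros y w' t' a' hy ha' j (by omega)]
    · show ofLex (key y w t) a < ofLex (key y w' t') a
      rw [key_zeros_end y w t a hy ha, key_zeros y w' t' a' hy ha' a h1,
        Odd.neg_one_pow (Nat.odd_iff.2 h2)]
      have : (0 : ℤ) < lt w (t + a) := by exact_mod_cast ha1
      linarith
  · refine ⟨a', ?_, ?_⟩
    · intro j hj
      show ofLex (key y w t) j = ofLex (key y w' t') j
      rw [key_zeros y w t a hy ha j (by omega), key_zeros y w' t' a' hy ha' j hj]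
    · show ofLex (key y w t) a' < ofLex (key y w' t') a'
      rw [key_zeros_end y w' t' a' hy ha', key_zeros y w t a hy ha a' h1,
        Even.neg_one_pow (Nat.even_iff.2 h2)]
      have : (0 : ℤ) < lt w' (t' + a') := by exact_mod_cast ha1'
      linarith

/-- the word `0^b R e` -/
def rwd (b : ℕ) (R : List ℕ) (e : ℕ) : List ℕ := List.replicate b 0 ++ (R ++ [e])

theorem rwd_length (b : ℕ) (R : List ℕ) (e : ℕ) : (rwd b R e).length = b + R.length + 1 := by
  unfold rwd
  simp
  ring

theorem rwd_lt_zero (b : ℕ) (R : List ℕ) (e : ℕ) (i : ℕ) (hi : i < b) :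
    lt (rwd b R e) i = 0 := lt_run_lt hi

theorem rwd_lt_pos (b : ℕ) (R : List ℕ) (e : ℕ) (hR : ∀ x ∈ R, 1 ≤ x) (he : 1 ≤ e) (i : ℕ)
    (hi : b ≤ i) (hi2 : i < (rwd b R e).length) : 1 ≤ lt (rwd b R e) i := by
  have h1 := lt_run_ge (a := b) (x := 0) (R := R ++ [e]) hi (by
    rw [rwd_length] at hi2
    simp
    omega)
  rcases List.mem_append.1 h1 with h2 | h2
  · exact hR _ h2
  · rw [List.mem_singleton] at h2
    show 1 ≤ lt (List.replicate b 0 ++ (R ++ [e])) i
    rw [h2]
    exact he

theorem rwd_lt_last (b : ℕ) (R : List ℕ) (e : ℕ) : lt (rwd b R e) (b + R.length) = e := by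
  unfold lt
  rw [Nat.mod_eq_of_lt (by rw [rwd_length]; omega)]
  unfold rwd
  have h1 := getD_at (List.replicate b 0) (R ++ [e]) R.length
  rw [List.length_replicate] at h1
  rw [h1]
  have h2 := getD_at R [e] 0
  rw [add_zero] at h2
  rw [h2]
  rfl

theorem rwd_okW (y : ℕ) (b : ℕ) (R : List ℕ) (e : ℕ) (hb : 1 ≤ b) (hR : ∀ x ∈ R, 1 ≤ x)
    (he : 1 ≤ e) : OkW y (rwd b R e) := by
  apply okW_run y hb (by simp)
  intro h
  rcases List.mem_append.1 h with h2 | h2
  · exact absurd (hR _ h2) (by norm_num)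
  · rw [List.mem_singleton] at h2
    omega

private theorem rwd_key_top (y b : ℕ) (R : List ℕ) (e : ℕ) (κ : Lex (ℕ → ℤ))
    (hκ : ofLex κ 0 = 0) (hR : ∀ x ∈ R, 1 ≤ x) (he : 1 ≤ e) (t : ℕ) (h1 : b ≤ t)
    (h2 : t < (rwd b R e).length) : ¬ key y (rwd b R e) t ≤ κ := by
  intro h
  have h3 := key_le_zero _ _ h
  rw [key_zero, hκ] at h3
  have h4 := rwd_lt_pos b R e hR he t h1 h2
  have h5 : (1 : ℤ) ≤ lt (rwd b R e) t := by exact_mod_cast h4
  linarith

open Classical in
/-- region `0`, letters `m ≥ 1` -/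
theorem rwd_D_reg0 (y b : ℕ) (R : List ℕ) (e : ℕ) (m : ℕ) (κ : Lex (ℕ → ℤ))
    (hκ : ofLex κ 0 = 0) (hR : ∀ x ∈ R, 1 ≤ x) (he : 1 ≤ e) (hm : 1 ≤ m) :
    D y (rwd b R e) m κ = if key y (rwd b R e) 0 ≤ κ then cc m e else 0 := by
  have hlen := rwd_length b R e
  rw [D_eq, hlen, sum_range_succ, rwd_lt_last]
  have h0 : key y (rwd b R e) (b + R.length + 1) = key y (rwd b R e) 0 := by
    rw [← key_mod y (rwd b R e) (b + R.length + 1), hlen, Nat.mod_self]
  rw [h0]
  have h1 : ∑ t ∈ range (b + R.length), (if key y (rwd b R e) (t + 1) ≤ κ then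
      cc m (lt (rwd b R e) t) else 0) = 0 := by
    apply sum_eq_zero
    intro t ht
    rw [mem_range] at ht
    rcases Nat.lt_or_ge t b with h2 | h2
    · rw [rwd_lt_zero b R e t h2]
      have h3 : cc m 0 = 0 := by
        unfold cc
        rw [if_neg (by omega), if_neg (by omega)]
        rfl
      rw [h3]
      simp
    · rw [if_neg (rwd_key_top y b R e κ hκ hR he (t + 1) (by omega) (by omega))]
  rw [h1, zero_add]

/-- the general bound in the regions `≥ 1`, letters `m ≥ 1` -/
theorem rwd_D_reg (y b : ℕ) (R : List ℕ) (e : ℕ) (m ρ : ℕ) (κ : Lex (ℕ → ℤ))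
    (hκ : ofLex κ 0 = (ρ : ℤ)) (hb : 1 ≤ b) (hm : 1 ≤ m) (hρ : 1 ≤ ρ) :
    cc m e + adjS (gg m ρ) (R ++ [e]) ≤ D y (rwd b R e) m κ := by
  refine le_trans ?_ (D_ge y _ m ρ κ hκ)
  have hf : ∀ q, gg m ρ 0 q = 0 := by
    intro q
    have h3 : cc m 0 = 0 := by
      unfold cc
      rw [if_neg (by omega), if_neg (by omega)]
      rfl
    unfold gg
    rw [h3]
    simp
  have h0 : hd (rwd b R e) = 0 := by
    obtain ⟨n, hn⟩ : ∃ n, b = n + 1 := ⟨b - 1, by omega⟩
    subst hn
    unfold hd rwd
    rw [List.replicate_succ]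
    rfl
  rw [h0]
  have h1 : ∀ (n : ℕ) (L : List ℕ), adjS (gg m ρ) (List.replicate n 0 ++ L) =
      adjS (gg m ρ) L := by
    intro n L
    induction n with
    | zero => simp
    | succ n ih =>
      rw [List.replicate_succ, List.cons_append]
      cases h2 : List.replicate n 0 ++ L with
      | nil =>
        rw [h2] at ih
        rw [← ih]
        rfl
      | cons x M =>
        rw [adjS, hf, zero_add, ← h2, ih]
  unfold rwd
  rw [List.append_assoc, h1, List.append_assoc]
  have h2 : R ++ ([e] ++ [0]) = R ++ e :: [0] := by simp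
  rw [h2, adjS_append (gg m ρ) R [0] e]
  have h3 : adjS (gg m ρ) [e, 0] = cc m e := by
    simp only [adjS, add_zero]
    unfold gg
    rw [if_pos (by omega)]
  rw [h3]
  linarith

/-- region `0`, letter `0` -/
theorem rwd_D0_reg0 (y b : ℕ) (R : List ℕ) (e : ℕ) (κ : Lex (ℕ → ℤ)) (hy : 0 < y)
    (hκ : ofLex κ 0 = 0) (hb : 2 ≤ b) (hR : ∀ x ∈ R, 1 ≤ x) (he : 1 ≤ e) :
    0 ≤ D y (rwd b R e) 0 κ := by
  classical
  have hlen := rwd_length b R e
  have hκ' : ofLex κ 0 = ((0 : ℕ) : ℤ) := by rw [hκ]; rfl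
  -- the pair sum
  have hadj : adjS (gg 0 0) (rwd b R e ++ [hd (rwd b R e)]) = if e = 1 then -1 else 0 := by
    rw [← sum_lt_eq_adjS, hlen, sum_range_succ, rwd_lt_last]
    have h1 : lt (rwd b R e) (b + R.length + 1) = 0 := by
      have := lt_add_length (rwd b R e) 0
      rw [zero_add, hlen, rwd_lt_zero b R e 0 (by omega)] at this
      exact this
    rw [h1]
    have h2 : ∑ t ∈ range (b + R.length), gg 0 0 (lt (rwd b R e) t) (lt (rwd b R e) (t + 1)) =
        0 := by
      apply sum_eq_zero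
      intro t ht
      rw [mem_range] at ht
      rcases Nat.lt_or_ge (t + 1) b with h3 | h3
      · rw [rwd_lt_zero b R e t (by omega), rwd_lt_zero b R e (t + 1) h3]
        rfl
      · have h4 := rwd_lt_pos b R e hR he (t + 1) h3 (by omega)
        unfold gg
        rw [if_neg (by omega), if_neg (by omega)]
    rw [h2, zero_add]
    unfold gg cc
    by_cases h5 : e = 1
    · subst h5
      rfl
    · rw [if_neg (by omega), if_pos rfl, if_neg (by omega), if_neg (by omega), if_neg h5]
      rfl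
  by_cases h5 : e = 1
  · rw [if_pos h5] at hadj
    have h := engine y (rwd b R e) 0 0 κ hκ' (b - 2) (b + R.length) (by omega) (by omega)
      (by rw [rwd_lt_zero b R e _ (by omega)]; rfl)
      (by rw [rwd_lt_last, h5]; rfl)
      (by rw [rwd_lt_zero b R e _ (by omega)])
      (by
        have := lt_add_length (rwd b R e) 0
        rw [zero_add, hlen, rwd_lt_zero b R e 0 (by omega)] at this
        exact this)
      (by
        have e0 : key y (rwd b R e) (b + R.length + 1) = key y (rwd b R e) 0 := by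
          rw [← key_mod y (rwd b R e) (b + R.length + 1), hlen, Nat.mod_self]
        rw [e0, show b - 2 + 1 = b - 1 by omega]
        apply key_lt_of_snd
        · rw [rwd_lt_zero b R e _ (by omega), rwd_lt_zero b R e _ (by omega)]
        · rw [rwd_lt_zero b R e _ (by omega)]
          exact hy
        · rw [show 0 + 1 = 1 by rfl, rwd_lt_zero b R e 1 (by omega), show b - 1 + 1 = b by omega]
          exact rwd_lt_pos b R e hR he b (le_refl _) (by omega))
    rw [hadj] at h
    linarith
  · rw [if_neg h5] at hadj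
    have h := D_ge y (rwd b R e) 0 0 κ hκ'
    rw [hadj] at h
    exact h

/-- the number of occurrences of a letter -/
theorem sum_lt_count (w : List ℕ) (m : ℕ) :
    ∑ t ∈ range w.length, (if lt w t = m then 1 else 0 : ℤ) = w.count m := by
  have h1 : ∀ w : List ℕ, ∑ t ∈ range w.length, (if w.getD t 0 = m then 1 else 0 : ℤ) =
      w.count m := by
    intro w
    induction w with
    | nil => simp
    | cons a w ih =>
      rw [List.length_cons, sum_range_succ']
      simp only [List.getD_cons_succ, List.getD_cons_zero]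
      rw [ih, List.count_cons]
      push_cast
      congr 1
      by_cases h : a = m
      · simp [h]
      · simp [h]
  rw [← h1 w]
  apply sum_congr rfl
  intro t ht
  rw [mem_range] at ht
  unfold lt
  rw [Nat.mod_eq_of_lt ht]

/-- regions `≥ 1`, letter `0` -/
theorem rwd_D0_reg (y b : ℕ) (R : List ℕ) (e : ℕ) (ρ : ℕ) (κ : Lex (ℕ → ℤ))
    (hκ : ofLex κ 0 = (ρ : ℤ)) (hρ : 1 ≤ ρ) :
    (b : ℤ) - 1 - ((R ++ [e]).count 1 : ℤ) ≤ D y (rwd b R e) 0 κ := by
  classical
  have hlen := rwd_length b R e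
  have hcount : ((rwd b R e).count 1 : ℤ) = (R ++ [e]).count 1 := by
    unfold rwd
    rw [List.count_append, List.count_replicate]
    simp
  rw [D_eq, ← hcount, ← sum_lt_count]
  have h1 : (b : ℤ) - 1 = ((b : ℤ) - 1) := rfl
  have h2 : (b : ℤ) - 1 ≤ ∑ t ∈ range (rwd b R e).length, (if t + 1 < b then (1 : ℤ) else 0) := by
    rw [← sum_filter, sum_const, nsmul_eq_mul, mul_one]
    have h3 : (range (b - 1)) ⊆ (range (rwd b R e).length).filter fun t => t + 1 < b := by
      intro t ht
      rw [mem_range] at ht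
      rw [mem_filter, mem_range]
      omega
    have h4 := card_le_card h3
    rw [card_range] at h4
    have h5 : ((b - 1 : ℕ) : ℤ) ≤
        (((range (rwd b R e).length).filter fun t => t + 1 < b).card : ℤ) := by
      exact_mod_cast h4
    omega
  have h3 : ∑ t ∈ range (rwd b R e).length, ((if t + 1 < b then (1 : ℤ) else 0) -
      (if lt (rwd b R e) t = 1 then 1 else 0)) ≤
      ∑ t ∈ range (rwd b R e).length, (if key y (rwd b R e) (t + 1) ≤ κ then
        cc 0 (lt (rwd b R e) t) else 0) := by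
    apply sum_le_sum
    intro t ht
    rw [mem_range] at ht
    rcases Nat.lt_or_ge (t + 1) b with h4 | h4
    · rw [if_pos h4, rwd_lt_zero b R e t (by omega), if_neg (by norm_num)]
      have h5 : key y (rwd b R e) (t + 1) ≤ κ := by
        apply le_of_lt
        apply key_lt_of_zero
        rw [key_zero, hκ, rwd_lt_zero b R e (t + 1) h4]
        exact_mod_cast hρ
      rw [if_pos h5]
      have : cc 0 0 = 1 := rfl
      rw [this]
      norm_num
    · rw [if_neg (by omega)]
      unfold cc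
      split_ifs <;> omega
  rw [sum_sub_distrib] at h3
  linarith

end Pool.Agent.RST
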