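import Pool.Agent.RST.Fam
import Pool.Agent.RST.Abs

/-!
# RST/StarA: combinatorial lemmas for the star
-/

set_option autoImplicit false

namespace Pool.Agent.RST

open Finset

theorem exists_top (S : Finset ℕ) (g : ℕ → ℤ) (k : ℕ) (hk : k ≤ S.card) :
    ∃ T ⊆ S, T.card = k ∧ ∀ s ∈ S, s ∉ T → ∀ t ∈ T, g s ≤ g t := by
  induction k with
  | zero => exact ⟨∅, by simp, by simp, by simp⟩
  | succ k ih =>
    obtain ⟨T, h1, h2, h3⟩ := ih (by omega)
    have h4 : (S \ T).Nonempty := by
      rw [← card_pos, card_sdiff_of_subset h1]
      omega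
    obtain ⟨u, hu, hmax⟩ := exists_max_image (S \ T) g h4
    rw [mem_sdiff] at hu
    refine ⟨insert u T, ?_, ?_, ?_⟩
    · intro s hs
      rw [mem_insert] at hs
      rcases hs with rfl | hs
      · exact hu.1
      · exact h1 hs
    · rw [card_insert_of_notMem hu.2, h2]
    · intro s hs hsn t ht
      rw [mem_insert, not_or] at hsn
      rw [mem_insert] at ht
      rcases ht with rfl | ht
      · exact hmax s (mem_sdiff.2 ⟨hs, hsn.2⟩)
      · exact h3 s hs hsn.2 t ht

/-- a monotone assignment with given counts -/
theorem exists_ex (g : ℕ → ℤ) (f : ℕ → ℕ) (N : ℕ) (S : Finset ℕ)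
    (hS : ∑ a ∈ range N, f a = S.card) :
    ∃ ex : ℕ → ℕ, (∀ s ∈ S, ex s < N) ∧
      (∀ s ∈ S, ∀ s' ∈ S, ex s < ex s' → g s ≤ g s') ∧
      ∀ a < N, (S.filter fun s => ex s = a).card = f a := by
  induction N generalizing S with
  | zero =>
    rw [sum_range_zero] at hS
    have : S = ∅ := card_eq_zero.1 hS.symm
    subst this
    exact ⟨fun _ => 0, by simp, by simp, by simp⟩
  | succ N ih =>
    rw [sum_range_succ] at hS
    obtain ⟨T, h1, h2, h3⟩ := exists_top S g (f N) (by omega)
    obtain ⟨ex, e1, e2, e3⟩ := ih (S \ T) (by rw [card_sdiff_of_subset h1]; omega)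
    refine ⟨fun s => if s ∈ T then N else ex s, ?_, ?_, ?_⟩
    · intro s hs
      by_cases hT : s ∈ T
      · simp [hT]
      · simp only [hT, if_false]
        have := e1 s (mem_sdiff.2 ⟨hs, hT⟩)
        omega
    · intro s hs s' hs' hlt
      by_cases hT : s ∈ T
      · by_cases hT' : s' ∈ T
        · simp [hT, hT'] at hlt
        · simp only [hT, hT', if_true, if_false] at hlt
          have := e1 s' (mem_sdiff.2 ⟨hs', hT'⟩)
          omega
      · by_cases hT' : s' ∈ T
        · exact h3 s hs hT s' hT'
        · simp only [hT, hT', if_false] at hlt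
          exact e2 s (mem_sdiff.2 ⟨hs, hT⟩) s' (mem_sdiff.2 ⟨hs', hT'⟩) hlt
    · intro a ha
      rcases Nat.lt_succ_iff_lt_or_eq.1 ha with h4 | h4
      · rw [← e3 a h4]
        congr 1
        ext s
        rw [mem_filter, mem_filter, mem_sdiff]
        by_cases hT : s ∈ T
        · simp only [hT, if_true, not_true, and_false, false_and, iff_false, not_and]
          intro _
          omega
        · simp [hT]
      · subst h4
        rw [← h2]
        congr 1
        ext s
        rw [mem_filter]
        by_cases hT : s ∈ T
        · simp [hT, h1 hT]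
        · simp only [hT, if_false, iff_false, not_and]
          intro hs
          have := e1 s (mem_sdiff.2 ⟨hs, hT⟩)
          omega

/-- the level as an integer -/
def lz (B a : ℕ) : ℤ := if a % 2 = 1 then a else 2 * B + 2 - a

theorem lz_le (B a b : ℕ) (ha : a ≤ B) (hb : b ≤ B) (h : lz B a ≤ lz B b) :
    levlt a b ∨ a = b := by
  unfold lz at h
  unfold levlt
  split_ifs at h <;> omega

/-- at most two elements have the same level -/
theorem three_lev (S : Finset ℕ) (lev : ℕ → ℕ) (s0 : ℕ)
    (h2 : ∀ s ∈ S, ∀ s' ∈ S, s ≠ s0 → s' ≠ s0 → lev s = lev s' → s = s')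
    (a b c : ℕ) (ha : a ∈ S) (hb : b ∈ S) (hc : c ∈ S) (hab : a ≠ b) (hac : a ≠ c) (hbc : b ≠ c)
    (e1 : lev a = lev b) (e2 : lev a = lev c) : False := by
  by_cases h1 : a = s0
  · subst h1
    exact hbc (h2 b hb c hc hab.symm hac.symm (e1.symm.trans e2))
  · by_cases h3 : b = s0
    · subst h3
      exact hac (h2 a ha c hc h1 hbc.symm e2)
    · exact hab (h2 a ha b hb h1 h3 e1)

/-- the inequality in the region `0` -/
theorem reg0_ineq (S : Finset ℕ) (ex lev : ℕ → ℕ) (K : ℕ → Prop) [DecidablePred K] (a s0 : ℕ)
    (h1 : ∀ s ∈ S, ∀ s' ∈ S, ex s < ex s' → levlt (lev s) (lev s') ∨ lev s = lev s')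
    (h2 : ∀ s ∈ S, ∀ s' ∈ S, s ≠ s0 → s' ≠ s0 → lev s = lev s' → s = s')
    (hK : ∀ s ∈ S, ∀ s' ∈ S, levlt (lev s) (lev s') → K s' → K s)
    (hf : (S.filter fun s => ex s = a + 1).card ≤ (S.filter fun s => ex s = a).card)
    (hf2 : (S.filter fun s => ex s = a + 1).card = 0 ∨ 2 ≤ (S.filter fun s => ex s = a).card) :
    (S.filter fun s => ex s = a + 1 ∧ K s).card ≤ (S.filter fun s => ex s = a ∧ K s).card := by
  have hsub : (S.filter fun s => ex s = a + 1 ∧ K s) ⊆ S.filter fun s => ex s = a + 1 := by
    intro s hs
    rw [mem_filter] at hs ⊢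
    exact ⟨hs.1, hs.2.1⟩
  by_cases hall : ∀ s ∈ S, ex s = a → K s
  · have h3 : (S.filter fun s => ex s = a ∧ K s) = S.filter fun s => ex s = a := by
      ext s
      rw [mem_filter, mem_filter]
      constructor
      · rintro ⟨h4, h5, -⟩
        exact ⟨h4, h5⟩
      · rintro ⟨h4, h5⟩
        exact ⟨h4, h5, hall s h4 h5⟩
    rw [h3]
    exact (card_le_card hsub).trans hf
  · push Not at hall
    obtain ⟨s1, hs1, he1, hk1⟩ := hall
    have h3 : ∀ s' ∈ S, ex s' = a + 1 → K s' → lev s1 = lev s' := by
      intro s' hs' he' hk'
      rcases h1 s1 hs1 s' hs' (by omega) with h4 | h4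
      · exact absurd (hK s1 hs1 s' hs' h4 hk') hk1
      · exact h4
    rcases (S.filter fun s => ex s = a + 1 ∧ K s).eq_empty_or_nonempty with h4 | ⟨s', hs'⟩
    · rw [h4, card_empty]
      exact Nat.zero_le _
    · rw [mem_filter] at hs'
      obtain ⟨hs', he', hk'⟩ := hs'
      have h5 : (S.filter fun s => ex s = a + 1 ∧ K s).card ≤ 1 := by
        rw [card_le_one]
        intro u hu v hv
        rw [mem_filter] at hu hv
        by_contra huv
        refine three_lev S lev s0 h2 s1 u v hs1 hu.1 hv.1 ?_ ?_ huv (h3 u hu.1 hu.2.1 hu.2.2)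
          (h3 v hv.1 hv.2.1 hv.2.2)
        · intro h
          have := hu.2.1
          rw [← h] at this
          omega
        · intro h
          have := hv.2.1
          rw [← h] at this
          omega
      have h6 : 2 ≤ (S.filter fun s => ex s = a).card := by
        rcases hf2 with h | h
        · exfalso
          rw [card_eq_zero] at h
          have : s' ∈ S.filter fun s => ex s = a + 1 := mem_filter.2 ⟨hs', he'⟩
          rw [h] at this
          exact absurd this (notMem_empty _)
        · exact h
      have h7 : (S.filter fun s => ex s = a).erase s1 ⊆ S.filter fun s => ex s = a ∧ K s := by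
        intro u hu
        rw [mem_erase, mem_filter] at hu
        obtain ⟨hne, hu, heu⟩ := hu
        rw [mem_filter]
        refine ⟨hu, heu, ?_⟩
        by_contra hku
        have h8 : lev u = lev s' := by
          rcases h1 u hu s' hs' (by omega) with h4 | h4
          · exact absurd (hK u hu s' hs' h4 hk') hku
          · exact h4
        have h9 := h3 s' hs' he' hk'
        exact three_lev S lev s0 h2 s1 u s' hs1 hu hs' hne.symm
          (fun h => by rw [h] at he1; omega) (fun h => by rw [h] at heu; omega)
          (h9.trans h8.symm) h9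
      have h10 := card_le_card h7
      rw [card_erase_of_mem (mem_filter.2 ⟨hs1, he1⟩)] at h10
      omega

/-- the first `r` letters of the sorted word -/
theorem exists_first (m : ℕ) (x : ℕ → ℕ) (r : ℕ) (hr : r ≤ ∑ j ∈ Icc 1 m, x j) :
    ∃ (f : ℕ → ℕ) (z : ℕ), f 0 = 0 ∧ (∀ a, m < a → f a = 0) ∧ ∑ a ∈ range (m + 1), f a = r ∧
      1 ≤ z ∧ z ≤ m + 1 ∧ (∀ a, 1 ≤ a → a < z → f a = x a) ∧ (z ≤ m → f z < x z) ∧
      (∀ a, z < a → f a = 0) := by
  induction m generalizing r with
  | zero =>
    simp at hr
    subst hr
    exact ⟨fun _ => 0, 1, rfl, fun _ _ => rfl, by simp, le_refl _, le_refl _,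
      fun a h1 h2 => by omega, fun h => by omega, fun _ _ => rfl⟩
  | succ m ih =>
    have hsum : ∑ j ∈ Icc 1 (m + 1), x j = ∑ j ∈ Icc 1 m, x j + x (m + 1) :=
      sum_Icc_succ_top (by omega) _
    rw [hsum] at hr
    by_cases h : r ≤ ∑ j ∈ Icc 1 m, x j
    · obtain ⟨f, z, f0, f1, f2, z1, z2, f3, f4, f5⟩ := ih r h
      by_cases hz : z ≤ m
      · refine ⟨f, z, f0, fun a ha => f1 a (by omega), ?_, z1, by omega, f3, fun _ => f4 hz, f5⟩
        rw [sum_range_succ, f2, f1 (m + 1) (by omega)]
        rfl
      · have hz' : z = m + 1 := by omega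
        subst hz'
        by_cases hx : x (m + 1) = 0
        · refine ⟨f, m + 2, f0, fun a ha => f1 a (by omega), ?_, by omega, by omega, ?_,
            fun h => by omega, fun a ha => f1 a (by omega)⟩
          · rw [sum_range_succ, f2, f1 (m + 1) (by omega)]
            rfl
          · intro a ha1 ha2
            rcases Nat.lt_or_ge a (m + 1) with h3 | h3
            · exact f3 a ha1 h3
            · have : a = m + 1 := by omega
              subst this
              rw [f1 _ (by omega), hx]
        · refine ⟨f, m + 1, f0, fun a ha => f1 a (by omega), ?_, by omega, by omega, f3, ?_, f5⟩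
          · rw [sum_range_succ, f2, f1 (m + 1) (by omega)]
            rfl
          · intro _
            rw [f1 _ (by omega)]
            omega
    · have hs : ∑ a ∈ range (m + 1), (if a = 0 then 0 else x a) = ∑ j ∈ Icc 1 m, x j := by
        rw [← sum_filter_add_sum_filter_not (range (m + 1)) (fun a => a = 0)]
        have e1 : ∑ a ∈ (range (m + 1)).filter (fun a => a = 0), (if a = 0 then 0 else x a) =
            0 := by
          apply sum_eq_zero
          intro a ha
          rw [mem_filter] at ha
          rw [if_pos ha.2]
        rw [e1, zero_add]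
        have e2 : (range (m + 1)).filter (fun a => ¬ a = 0) = Icc 1 m := by
          ext a
          rw [mem_filter, mem_range, mem_Icc]
          omega
        rw [e2]
        apply sum_congr rfl
        intro a ha
        rw [mem_Icc] at ha
        rw [if_neg (by omega)]
      set X := ∑ j ∈ Icc 1 m, x j with hX
      refine ⟨fun a => if a = 0 ∨ m + 1 < a then 0 else if a = m + 1 then r - X else x a,
        if r = X + x (m + 1) then m + 2 else m + 1, by simp, ?_, ?_, ?_, ?_, ?_, ?_, ?_⟩
      · intro a ha
        simp only
        rw [if_pos (Or.inr ha)]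
      · rw [sum_range_succ]
        have e3 : ∑ a ∈ range (m + 1), (if a = 0 ∨ m + 1 < a then 0 else
            if a = m + 1 then r - X else x a) =
            ∑ a ∈ range (m + 1), (if a = 0 then 0 else x a) := by
          apply sum_congr rfl
          intro a ha
          rw [mem_range] at ha
          by_cases h0 : a = 0
          · rw [if_pos (Or.inl h0), if_pos h0]
          · rw [if_neg (by omega), if_neg (by omega), if_neg h0]
        rw [e3, hs, if_neg (by omega), if_pos rfl]
        omega
      · split_ifs <;> omega
      · split_ifs <;> omega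
      · intro a ha1 ha2
        simp only
        rw [if_neg (by split_ifs at ha2 <;> omega)]
        by_cases h3 : a = m + 1
        · subst h3
          rw [if_pos rfl]
          split_ifs at ha2 with h4
          · omega
          · omega
        · rw [if_neg h3]
      · intro h3
        split_ifs at h3 ⊢ with h4
        · omega
        · show (if m + 1 = 0 ∨ m + 1 < m + 1 then 0 else if m + 1 = m + 1 then r - X else
            x (m + 1)) < x (m + 1)
          rw [if_neg (by omega), if_pos rfl]
          omega
      · intro a ha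
        simp only
        by_cases h3 : m + 1 < a
        · rw [if_pos (Or.inr h3)]
        · exfalso
          split_ifs at ha <;> omega

theorem length_eq_count (w : List ℕ) (y : ℕ) (hw : ∀ a ∈ w, a ≤ y) :
    w.length = ∑ k ∈ range (y + 1), w.count k := by
  induction w with
  | nil => simp
  | cons a w ih =>
    rw [List.length_cons, ih (fun b hb => hw b (List.mem_cons_of_mem _ hb))]
    have h2 : ∀ k, (a :: w).count k = w.count k + if k = a then 1 else 0 := by
      intro k
      rw [List.count_cons]
      congr 1
      by_cases h3 : k = a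
      · subst h3
        simp
      · have e1 : (a == k) = false := by
          simp only [beq_eq_false_iff_ne, ne_eq]
          exact fun h => h3 h.symm
        rw [e1, if_neg h3]
        simp
    simp only [h2]
    rw [sum_add_distrib, sum_ite_eq' (range (y + 1)) a, if_pos (by
      have := hw a (by simp)
      simpa [Nat.lt_succ_iff] using this)]

/-- steps of a decreasing word -/
theorem dec_step (z : ℕ) (r : List ℕ) (e : ℕ) (hr : ∀ a ∈ r, 1 ≤ a) (he : e ≤ z) (i q : ℕ)
    (hi : i + 1 < (dec z r ++ [e]).length) (h : (dec z r ++ [e]).getD i 0 = q) (hz : z < q) :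
    q ≤ (dec z r ++ [e]).getD (i + 1) 0 + 1 := by
  induction r generalizing z e with
  | nil =>
    rw [dec] at hi
    simp at hi
  | cons a r ih =>
    have ha : 1 ≤ a := hr a (by simp)
    obtain ⟨n, hn⟩ : ∃ n, a = n + 1 := ⟨a - 1, by omega⟩
    subst hn
    have hL : dec z ((n + 1) :: r) ++ [e] =
        (dec (z + 1) r ++ [z]) ++ (List.replicate n z ++ [e]) := by
      rw [dec, List.replicate_succ]
      simp
    rw [hL] at h hi ⊢
    have hlen : (dec (z + 1) r ++ [z]).length = (dec (z + 1) r).length + 1 := by simp
    rcases Nat.lt_or_ge (i + 1) ((dec (z + 1) r).length + 1) with h1 | h1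
    · rw [List.getD_append _ _ _ _ (by rw [hlen]; omega)] at h
      rw [List.getD_append _ _ _ _ (by rw [hlen]; omega)]
      rcases Nat.lt_or_ge (z + 1) q with h2 | h2
      · exact ih (z + 1) z (fun b hb => hr b (by simp [hb])) (by omega) (by rw [hlen]; omega) h h2
      · have h3 : (dec (z + 1) r ++ [z]).getD (i + 1) 0 ∈ dec (z + 1) r ++ [z] := by
          rw [List.getD_eq_getElem _ _ (by rw [hlen]; omega)]
          exact List.getElem_mem _
        rcases List.mem_append.1 h3 with h4 | h4
        · have := dec_ge _ _ _ h4
          omega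
        · rw [List.mem_singleton] at h4
          omega
    · exfalso
      -- the letter at `i` is `≤ z`
      rcases Nat.lt_or_ge i ((dec (z + 1) r).length + 1) with h2 | h2
      · have h3 : i = (dec (z + 1) r).length := by omega
        rw [List.getD_append _ _ _ _ (by rw [hlen]; omega)] at h
        have h4 := getD_at (dec (z + 1) r) [z] 0
        rw [add_zero] at h4
        rw [h3, h4] at h
        simp at h
        omega
      · rw [List.getD_append_right _ _ _ _ (by rw [hlen]; omega)] at h
        have h3 : i - (dec (z + 1) r ++ [z]).length < (List.replicate n z ++ [e]).length := by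
          rw [List.length_append] at hi
          omega
        have h4 : (List.replicate n z ++ [e]).getD (i - (dec (z + 1) r ++ [z]).length) 0 ∈
            List.replicate n z ++ [e] := by
          rw [List.getD_eq_getElem _ _ h3]
          exact List.getElem_mem _
        rw [h] at h4
        rcases List.mem_append.1 h4 with h5 | h5
        · have := List.eq_of_mem_replicate h5
          omega
        · rw [List.mem_singleton] at h5
          omega

/-- the letter `q` of a decreasing word is followed by a smaller letter -/
theorem dec_cross (z : ℕ) (r : List ℕ) (e : ℕ) (hr : ∀ a ∈ r, 1 ≤ a) (q : ℕ)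
    (h1 : z ≤ q) (h2 : q < z + r.length) (h3 : e < q) :
    ∃ i, i + 1 < (dec z r ++ [e]).length ∧ (dec z r ++ [e]).getD i 0 = q ∧
      (dec z r ++ [e]).getD (i + 1) 0 < q := by
  induction r generalizing z e with
  | nil =>
    rw [List.length_nil] at h2
    omega
  | cons a r ih =>
    have ha : 1 ≤ a := hr a (by simp)
    obtain ⟨n, hn⟩ : ∃ n, a = n + 1 := ⟨a - 1, by omega⟩
    subst hn
    rcases Nat.lt_or_ge z q with h4 | h4
    · have hL : dec z ((n + 1) :: r) ++ [e] =
          (dec (z + 1) r ++ [z]) ++ (List.replicate n z ++ [e]) := by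
        rw [dec, List.replicate_succ]
        simp
      obtain ⟨i, i1, i2, i3⟩ := ih (z + 1) z (fun b hb => hr b (by simp [hb])) h4 (by
        rw [List.length_cons] at h2
        omega) h4
      refine ⟨i, ?_, ?_, ?_⟩
      · rw [hL, List.length_append]
        omega
      · rw [hL, List.getD_append _ _ _ _ (by omega)]
        exact i2
      · rw [hL, List.getD_append _ _ _ _ i1]
        exact i3
    · have hq : q = z := by omega
      subst hq
      have hL : dec q ((n + 1) :: r) ++ [e] =
          (dec (q + 1) r ++ List.replicate n q) ++ [q, e] := by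
        rw [dec, List.replicate_succ']
        simp
      refine ⟨(dec (q + 1) r ++ List.replicate n q).length, ?_, ?_, ?_⟩
      · rw [hL, List.length_append (as := dec (q + 1) r ++ List.replicate n q)]
        simp only [List.length_cons, List.length_nil]
        omega
      · rw [hL]
        have := getD_at (dec (q + 1) r ++ List.replicate n q) [q, e] 0
        rw [add_zero] at this
        rw [this]
        rfl
      · rw [hL, getD_at]
        exact h3

end Pool.Agent.RST
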