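import Pool.Agent.RST.MtOk
import Pool.Agent.RST.DSum

/-!
# RST/Sys: systems of words with lower bounds for `D`
-/

set_option autoImplicit false

namespace Pool.Agent.RST

open Finset

/-- `Pre y W x b`: the words `W` (letters `≤ y`, admissible) have the content `x` and satisfy
`∑ D m κ ≥ [m < ρ] (x m - x (m + 1)) + b m ρ` for all `κ` in the region `ρ` -/
structure Pre (y : ℕ) (W : List (List ℕ)) (x : ℕ → ℕ) (b : ℕ → ℕ → ℤ) : Prop where
  le : ∀ w ∈ W, ∀ a ∈ w, a ≤ y
  ok : ∀ w ∈ W, OkW y w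
  cnt : ∀ m ≤ y, (W.map fun w => w.count m).sum = x m
  bd : ∀ (m ρ : ℕ) (κ : Lex (ℕ → ℤ)), m + 1 < y → ρ ≤ y → ofLex κ 0 = (ρ : ℤ) →
    (if m < ρ then (x m : ℤ) - x (m + 1) else 0) + b m ρ ≤ (W.map fun w => D y w m κ).sum

theorem Pre.nil (y : ℕ) : Pre y [] (fun _ => 0) (fun _ _ => 0) where
  le := by simp
  ok := by simp
  cnt := by simp
  bd := by simp

theorem Pre.append {y : ℕ} {W W' : List (List ℕ)} {x x' : ℕ → ℕ} {b b' : ℕ → ℕ → ℤ}
    (h : Pre y W x b) (h' : Pre y W' x' b') :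
    Pre y (W ++ W') (fun m => x m + x' m) (fun m ρ => b m ρ + b' m ρ) where
  le := by
    intro w hw
    rw [List.mem_append] at hw
    rcases hw with hw | hw
    · exact h.le w hw
    · exact h'.le w hw
  ok := by
    intro w hw
    rw [List.mem_append] at hw
    rcases hw with hw | hw
    · exact h.ok w hw
    · exact h'.ok w hw
  cnt := by
    intro m hm
    rw [List.map_append, List.sum_append, h.cnt m hm, h'.cnt m hm]
  bd := by
    intro m ρ κ hm hρ hκ
    rw [List.map_append, List.sum_append]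
    have h1 := h.bd m ρ κ hm hρ hκ
    have h2 := h'.bd m ρ κ hm hρ hκ
    split_ifs at h1 h2 ⊢ <;> push_cast at * <;> linarith

/-- change the content (where it matters) and weaken the bound -/
theorem Pre.mono {y : ℕ} {W : List (List ℕ)} {x x' : ℕ → ℕ} {b b' : ℕ → ℕ → ℤ}
    (h : Pre y W x b) (hx : ∀ m ≤ y, x m = x' m)
    (hb : ∀ m ρ, m + 1 < y → ρ ≤ y → b' m ρ ≤ b m ρ) : Pre y W x' b' where
  le := h.le
  ok := h.ok
  cnt := by
    intro m hm
    rw [h.cnt m hm, hx m hm]
  bd := by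
    intro m ρ κ hm hρ hκ
    have h1 := h.bd m ρ κ hm hρ hκ
    have h2 := hb m ρ hm hρ
    rw [hx m (by omega), hx (m + 1) (by omega)] at h1
    linarith

theorem Pre.perm {y : ℕ} {W W' : List (List ℕ)} {x : ℕ → ℕ} {b : ℕ → ℕ → ℤ}
    (h : Pre y W x b) (hp : W.Perm W') : Pre y W' x b where
  le := fun w hw => h.le w (hp.mem_iff.2 hw)
  ok := fun w hw => h.ok w (hp.mem_iff.2 hw)
  cnt := by
    intro m hm
    rw [← h.cnt m hm]
    exact ((hp.map _).sum_eq).symm
  bd := by
    intro m ρ κ hm hρ hκ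
    have h1 := h.bd m ρ κ hm hρ hκ
    rw [← (hp.map (fun w => D y w m κ)).sum_eq]
    exact h1

/-- the tail condition of `real_words` -/
def TA (y : ℕ) (W : List (List ℕ)) : Prop := ∀ w ∈ W, ∀ t < w.length, pv w t = y →
  ∃ w' ∈ W, ∃ t' < w'.length, key y w' t' ≤ key y w t ∧ pv w' t' + 1 = y

/-- after the tail letter `y` comes `y - 1` or `y` -/
def TO (y : ℕ) (w : List ℕ) : Prop := ∀ t < w.length, pv w t = y → y ≤ lt w t + 1

/-- the letter `y - 1` is followed by a smaller letter somewhere -/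
def CR (y : ℕ) (w : List ℕ) : Prop := ∃ t < w.length, pv w t + 1 = y ∧ lt w t + 1 < y

theorem TA_of {y : ℕ} {W : List (List ℕ)} (h1 : ∀ w ∈ W, TO y w) (h2 : ∃ w ∈ W, CR y w) :
    TA y W := by
  obtain ⟨w', hw', t', ht', h3, h4⟩ := h2
  intro w hw t ht hp
  refine ⟨w', hw', t', ht', ?_, h3⟩
  apply le_of_lt
  apply key_lt_of_zero
  rw [key_zero, key_zero]
  have := h1 w hw t ht hp
  have h5 : lt w' t' < lt w t := by omega
  exact_mod_cast h5

/-- **The criterion** for systems. -/
theorem real_of_pre (y : ℕ) (W : List (List ℕ)) (x : ℕ → ℕ) (b : ℕ → ℕ → ℤ) (h : Pre y W x b)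
    (hd : W.Pairwise fun a b => a.length ≠ b.length)
    (hb : ∀ m ρ, m + 1 < y → ρ ≤ y → 0 ≤ (if m < ρ then (x m : ℤ) - x (m + 1) else 0) + b m ρ)
    (hA : y = 0 ∨ x y = 0 ∨ TA y W) :
    Real ((W.map List.length : List ℕ) : Multiset ℕ)
      ((List.range y).map x ++ List.replicate (x y) 1) := by
  have h1 := real_words y W h.le h.ok hd (by
    intro m ρ κ hm hρ hκ
    exact (hb m ρ hm hρ).trans (h.bd m ρ κ hm hρ hκ)) (by
    rcases hA with h0 | h0 | h0
    · exact Or.inl h0
    · right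
      intro w hw t ht hp
      exfalso
      have h2 := h.cnt y le_rfl
      rw [h0] at h2
      have h3 : w.count y = 0 := by
        rw [List.sum_eq_zero_iff] at h2
        exact h2 _ (List.mem_map.2 ⟨w, hw, rfl⟩)
      rw [List.count_eq_zero] at h3
      apply h3
      rw [← hp]
      unfold pv lt
      have h4 : (t + (w.length - 1)) % w.length < w.length := Nat.mod_lt _ (by omega)
      rw [List.getD_eq_getElem?_getD, List.getElem?_eq_getElem h4]
      exact List.getElem_mem _
    · exact Or.inr h0)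
  rw [h.cnt y le_rfl] at h1
  have h2 : ((List.range y).map fun m => (W.map fun w => w.count m).sum) =
      (List.range y).map x := by
    apply List.map_congr_left
    intro m hm
    rw [List.mem_range] at hm
    exact h.cnt m hm.le
  rw [h2] at h1
  exact h1

end Pool.Agent.RST
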