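import Pool.Agent.RST.Keys
import Pool.Agent.RST.Core2

/-!
# RST/Words: the main criterion

`real_words`: if `∑ D y w m κ ≥ 0` for all `m + 1 < y` and all thresholds `κ`, and if the first
increasing letter `y` comes after the first letter `y - 1`, then there is a permutation with cycle
type = the lengths of the words and RS shape = the content.
-/

set_option autoImplicit false

namespace Pool.Agent.RST

open Finset

/-- the positions of the words of a list -/
def El : List (List ℕ) → Type
  | [] => Fin 0
  | w :: W => Fin w.length ⊕ El W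

instance instFintypeEl : (W : List (List ℕ)) → Fintype (El W)
  | [] => inferInstanceAs (Fintype (Fin 0))
  | w :: W =>
    letI := instFintypeEl W
    inferInstanceAs (Fintype (Fin w.length ⊕ El W))

instance instDecEl : (W : List (List ℕ)) → DecidableEq (El W)
  | [] => inferInstanceAs (DecidableEq (Fin 0))
  | w :: W =>
    letI := instDecEl W
    inferInstanceAs (DecidableEq (Fin w.length ⊕ El W))

instance instEmptyEl : IsEmpty (El []) := inferInstanceAs (IsEmpty (Fin 0))

/-- the successor -/
def nxW : (W : List (List ℕ)) → Equiv.Perm (El W)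
  | [] => 1
  | w :: W => Equiv.Perm.sumCongr (finRotate w.length) (nxW W)

/-- the key of a position -/
def keyW (y : ℕ) : (W : List (List ℕ)) → El W → Lex (ℕ → ℤ)
  | [], _ => toLex fun _ => 0
  | w :: _, Sum.inl t => key y w t
  | _ :: W, Sum.inr e => keyW y W e

/-- the letter of a position -/
def ltW : (W : List (List ℕ)) → El W → ℕ
  | [], _ => 0
  | w :: _, Sum.inl t => lt w t
  | _ :: W, Sum.inr e => ltW W e

theorem El_word (y : ℕ) (W : List (List ℕ)) (e : El W) :
    ∃ w ∈ W, ∃ t < w.length, keyW y W e = key y w t := by
  induction W with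
  | nil => exact e.elim0
  | cons w W ih =>
    cases e with
    | inl t => exact ⟨w, by simp, t, t.2, rfl⟩
    | inr e =>
      obtain ⟨w', h1, t, h2, h3⟩ := ih e
      exact ⟨w', by simp [h1], t, h2, h3⟩

theorem keyW_zero (y : ℕ) (W : List (List ℕ)) (e : El W) :
    ofLex (keyW y W e) 0 = (ltW W e : ℤ) := by
  induction W with
  | nil => exact e.elim0
  | cons w W ih =>
    cases e with
    | inl t => exact key_zero y w t
    | inr e => exact ih e

theorem finRotate_val {n : ℕ} (t : Fin n) : ((finRotate n t : Fin n) : ℕ) = (t + 1) % n := by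
  cases n with
  | zero => exact t.elim0
  | succ n =>
    rw [finRotate_apply, Fin.val_add_one]
    split_ifs with h
    · rw [h]
      simp
    · rw [Nat.mod_eq_of_lt]
      have := Fin.val_lt_last h
      omega

theorem keyW_nx (y : ℕ) (W : List (List ℕ)) (e : El W) :
    keyW y W (nxW W e) = shf y (keyW y W e) := by
  induction W with
  | nil => exact e.elim0
  | cons w W ih =>
    cases e with
    | inl t =>
      show key y w (finRotate w.length t : Fin w.length) = shf y (key y w t)
      rw [shf_key, finRotate_val, key_mod]
    | inr e => exact ih e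

theorem ltW_prev (w : List ℕ) (W : List (List ℕ)) (t : Fin w.length) :
    ltW (w :: W) ((nxW (w :: W)).symm (Sum.inl t)) = pv w t := by
  obtain ⟨s, hs⟩ := (finRotate w.length).surjective t
  have h1 : (nxW (w :: W)).symm (Sum.inl t) = Sum.inl s := by
    rw [Equiv.symm_apply_eq]
    show _ = Equiv.Perm.sumCongr (finRotate w.length) (nxW W) (Sum.inl s)
    rw [Equiv.Perm.sumCongr_apply]
    simp [hs]
  rw [h1]
  show lt w s = pv w t
  rw [← hs, finRotate_val]
  unfold pv
  have h2 := s.2
  rw [← lt_mod w ((s + 1) % w.length + _), Nat.mod_add_mod,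
    show (s : ℕ) + 1 + (w.length - 1) = s + w.length by omega, Nat.add_mod_right, lt_mod]

theorem ltW_prev_inr (w : List ℕ) (W : List (List ℕ)) (e : El W) :
    ltW (w :: W) ((nxW (w :: W)).symm (Sum.inr e)) = ltW W ((nxW W).symm e) := by
  have h1 : (nxW (w :: W)).symm (Sum.inr e) = Sum.inr ((nxW W).symm e) := by
    rw [Equiv.symm_apply_eq]
    show _ = Equiv.Perm.sumCongr (finRotate w.length) (nxW W) (Sum.inr ((nxW W).symm e))
    rw [Equiv.Perm.sumCongr_apply]
    simp
  rw [h1]
  rfl

theorem cycleType_nxW (W : List (List ℕ)) (hW : ∀ w ∈ W, 2 ≤ w.length) :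
    (nxW W).cycleType = ((W.map List.length : List ℕ) : Multiset ℕ) := by
  induction W with
  | nil => exact Equiv.Perm.cycleType_one
  | cons w W ih =>
    have h1 : (nxW (w :: W)).cycleType =
        (finRotate w.length).cycleType + (nxW W).cycleType :=
      cycleType_sumCongr (finRotate w.length) (nxW W)
    rw [h1, cycleType_finRotate_of_le (hW w (by simp)), ih fun v hv => hW v (by simp [hv])]
    rw [List.map_cons, ← Multiset.cons_coe, Multiset.singleton_add]

/-- the contribution of an element to `D m` -/
def ctb (W : List (List ℕ)) (m : ℕ) (e : El W) : ℤ :=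
  (if ltW W ((nxW W).symm e) = m then 1 else 0) -
    (if ltW W ((nxW W).symm e) = m + 1 then 1 else 0)

open Classical in
theorem sum_ctb (y : ℕ) (W : List (List ℕ)) (m : ℕ) (κ : Lex (ℕ → ℤ)) :
    ∑ e : El W, (if keyW y W e ≤ κ then ctb W m e else 0) = (W.map fun w => D y w m κ).sum := by
  induction W with
  | nil => rw [Finset.univ_eq_empty (α := El []), Finset.sum_empty]; rfl
  | cons w W ih =>
    rw [List.map_cons, List.sum_cons, ← ih]
    have h1 : ∑ e : El (w :: W), (if keyW y (w :: W) e ≤ κ then ctb (w :: W) m e else 0) =
        ∑ t : Fin w.length, (if keyW y (w :: W) (Sum.inl t) ≤ κ then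
          ctb (w :: W) m (Sum.inl t) else 0) +
        ∑ e : El W, (if keyW y (w :: W) (Sum.inr e) ≤ κ then ctb (w :: W) m (Sum.inr e) else 0) :=
      Fintype.sum_sum_type _
    rw [h1]
    refine congrArg₂ (· + ·) ?_ ?_
    · unfold D
      rw [← Fin.sum_univ_eq_sum_range (fun t => if key y w t ≤ κ then
        ((if pv w t = m then 1 else 0) - (if pv w t = m + 1 then 1 else 0) : ℤ) else 0)]
      apply Finset.sum_congr rfl
      intro t _
      unfold ctb
      rw [ltW_prev]
      rfl
    · apply Finset.sum_congr rfl
      intro e _
      unfold ctb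
      rw [ltW_prev_inr]
      rfl

theorem card_ltW (W : List (List ℕ)) (m : ℕ) :
    (univ.filter fun e : El W => ltW W e = m).card = (W.map fun w => w.count m).sum := by
  induction W with
  | nil => rw [Finset.univ_eq_empty (α := El [])]; rfl
  | cons w W ih =>
    rw [List.map_cons, List.sum_cons, ← ih, card_filter, card_filter]
    have h1 : ∑ e : El (w :: W), (if ltW (w :: W) e = m then 1 else 0) =
        ∑ t : Fin w.length, (if lt w t = m then 1 else 0) +
        ∑ e : El W, (if ltW W e = m then 1 else 0) := Fintype.sum_sum_type _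
    rw [h1]
    congr 1
    rw [Fin.sum_univ_eq_sum_range (fun t => if lt w t = m then 1 else 0)]
    clear h1 ih
    have h2 : ∀ n ≤ w.length, ∑ t ∈ range n, (if lt w t = m then 1 else 0) =
        (w.take n).count m := by
      intro n hn
      induction n with
      | zero => simp
      | succ n ih =>
        rw [sum_range_succ, ih (by omega), List.take_add_one, List.count_append]
        congr 1
        have hn' : n < w.length := by omega
        unfold lt
        rw [Nat.mod_eq_of_lt hn', List.getD_eq_getElem?_getD, List.getElem?_eq_getElem hn']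
        simp only [Option.getD_some, Option.toList_some, List.count_singleton, beq_iff_eq]
    have h3 := h2 w.length le_rfl
    rw [List.take_length] at h3
    exact h3

/-- ties -/
theorem keyW_tie (y : ℕ) (W : List (List ℕ)) (hW : ∀ w ∈ W, OkW y w)
    (hd : W.Pairwise fun a b => a.length ≠ b.length) (e f : El W) (h : keyW y W e = keyW y W f) :
    e = f ∨ (f = nxW W e ∧ e = nxW W f) := by
  induction W with
  | nil => exact e.elim0
  | cons w W ih =>
    rw [List.pairwise_cons] at hd
    have hw := hW w (by simp)
    have cross : ∀ (t : Fin w.length) (g : El W), key y w t ≠ keyW y W g := by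
      intro t g
      obtain ⟨w', h1, t', h2, h3⟩ := El_word y W g
      rw [h3]
      exact key_ne_of_length_ne y w w' hw (hW w' (by simp [h1])) (hd.1 w' h1) t t'
    cases e with
    | inl t =>
      cases f with
      | inl t' =>
        have hk : key y w t = key y w t' := h
        rcases hw.2 with hp | ⟨m, -, hm⟩
        · left
          have := key_inj_prim y w hp t t' t.2 t'.2 hk
          rw [Fin.ext this]
        · by_cases htt : t = t'
          · left
            rw [htt]
          · right
            have h2 : w.length = 2 := by rw [hm]; rfl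
            have ht := t.2
            have ht' := t'.2
            have hne : (t : ℕ) ≠ t' := fun h => htt (Fin.ext h)
            constructor
            · show (Sum.inl t' : Fin w.length ⊕ El W) =
                Equiv.Perm.sumCongr (finRotate w.length) (nxW W) (Sum.inl t)
              rw [Equiv.Perm.sumCongr_apply]
              simp only [Sum.map_inl, Sum.inl.injEq]
              apply Fin.ext
              rw [finRotate_val]
              have h3 : ((t : ℕ) + 1) % w.length = ((t : ℕ) + 1) % 2 :=
                congrArg (fun z => ((t : ℕ) + 1) % z) h2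
              omega
            · show (Sum.inl t : Fin w.length ⊕ El W) =
                Equiv.Perm.sumCongr (finRotate w.length) (nxW W) (Sum.inl t')
              rw [Equiv.Perm.sumCongr_apply]
              simp only [Sum.map_inl, Sum.inl.injEq]
              apply Fin.ext
              rw [finRotate_val]
              have h3 : ((t' : ℕ) + 1) % w.length = ((t' : ℕ) + 1) % 2 :=
                congrArg (fun z => ((t' : ℕ) + 1) % z) h2
              omega
      | inr g => exact absurd h (cross t g)
    | inr e =>
      cases f with
      | inl t' => exact absurd h.symm (cross t' e)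
      | inr f =>
        rcases ih (fun v hv => hW v (by simp [hv])) hd.2 e f h with h1 | ⟨h1, h2⟩
        · left
          rw [h1]
        · right
          constructor
          · show (Sum.inr f : Fin w.length ⊕ El W) =
              Equiv.Perm.sumCongr (finRotate w.length) (nxW W) (Sum.inr e)
            rw [Equiv.Perm.sumCongr_apply]
            simp only [Sum.map_inr, Sum.inr.injEq]
            exact h1
          · show (Sum.inr e : Fin w.length ⊕ El W) =
              Equiv.Perm.sumCongr (finRotate w.length) (nxW W) (Sum.inr f)
            rw [Equiv.Perm.sumCongr_apply]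
            simp only [Sum.map_inr, Sum.inr.injEq]
            exact h2

theorem nxW_ne (W : List (List ℕ)) (hW : ∀ w ∈ W, 2 ≤ w.length) (e : El W) : nxW W e ≠ e := by
  induction W with
  | nil => exact e.elim0
  | cons w W ih =>
    cases e with
    | inl t =>
      intro h
      have h1 : Equiv.Perm.sumCongr (finRotate w.length) (nxW W) (Sum.inl t) =
        (Sum.inl t : Fin w.length ⊕ El W) := h
      rw [Equiv.Perm.sumCongr_apply] at h1
      simp only [Sum.map_inl, Sum.inl.injEq] at h1
      have h2 := congrArg Fin.val h1
      rw [finRotate_val] at h2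
      have h3 := hW w (by simp)
      have h4 := t.2
      rcases Nat.lt_or_ge ((t : ℕ) + 1) w.length with h5 | h5
      · rw [Nat.mod_eq_of_lt h5] at h2
        omega
      · have h6 : (t : ℕ) + 1 = w.length := by omega
        rw [h6, Nat.mod_self] at h2
        omega
    | inr e =>
      intro h
      have h1 : Equiv.Perm.sumCongr (finRotate w.length) (nxW W) (Sum.inr e) =
        (Sum.inr e : Fin w.length ⊕ El W) := h
      rw [Equiv.Perm.sumCongr_apply] at h1
      simp only [Sum.map_inr, Sum.inr.injEq] at h1
      exact ih (fun v hv => hW v (by simp [hv])) e h1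

/-- a position enumeration compatible with the keys -/
theorem exists_pos (y : ℕ) (W : List (List ℕ)) : ∃ (n : ℕ) (pos : El W ≃ Fin n),
    ∀ e f, pos e < pos f → keyW y W e ≤ keyW y W f := by
  classical
  set n := Fintype.card (El W) with hn
  let idx : El W ≃ Fin n := Fintype.equivFin (El W)
  let g : El W → Lex (Lex (ℕ → ℤ) × Fin n) := fun e => toLex (keyW y W e, idx e)
  have hg : Function.Injective g := by
    intro e f hef
    have h1 : (keyW y W e, idx e) = (keyW y W f, idx f) := hef
    exact idx.injective (Prod.ext_iff.1 h1).2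
  let S : Finset (Lex (Lex (ℕ → ℤ) × Fin n)) := univ.image g
  have hS : S.card = n := by
    rw [card_image_of_injective _ hg, card_univ]
  have hmem : ∀ e, g e ∈ S := fun e => mem_image_of_mem g (mem_univ e)
  let o := S.orderIsoOfFin hS
  let p : El W → Fin n := fun e => o.symm ⟨g e, hmem e⟩
  have hp : Function.Injective p := by
    intro e f hef
    have h1 := o.symm.injective hef
    exact hg (Subtype.ext_iff.1 h1)
  have hbij : Function.Bijective p := by
    rw [Fintype.bijective_iff_injective_and_card]
    exact ⟨hp, by rw [Fintype.card_fin]⟩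
  refine ⟨n, Equiv.ofBijective p hbij, ?_⟩
  intro e f hef
  have h1 : p e < p f := hef
  have h2 : (⟨g e, hmem e⟩ : S) < ⟨g f, hmem f⟩ := by
    rw [← o.symm.lt_iff_lt]
    exact h1
  have h3 : g e < g f := h2
  have h4 := Prod.Lex.lt_iff.1 h3
  rcases h4 with h5 | h5
  · exact h5.le
  · exact h5.1.le

theorem ltW_le (W : List (List ℕ)) (M : ℕ) (hM : ∀ w ∈ W, ∀ x ∈ w, x ≤ M) (e : El W) :
    ltW W e ≤ M := by
  induction W with
  | nil => exact e.elim0
  | cons w W ih =>
    cases e with
    | inl t =>
      show lt w t ≤ M
      unfold lt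
      rw [Nat.mod_eq_of_lt t.2, List.getD_eq_getElem?_getD, List.getElem?_eq_getElem t.2]
      exact hM w (by simp) _ (List.getElem_mem _)
    | inr e => exact ih (fun v hv => hM v (by simp [hv])) e

theorem El_pv (y : ℕ) (W : List (List ℕ)) (e : El W) :
    ∃ w ∈ W, ∃ t < w.length, keyW y W e = key y w t ∧ ltW W ((nxW W).symm e) = pv w t := by
  induction W with
  | nil => exact e.elim0
  | cons w W ih =>
    cases e with
    | inl t => exact ⟨w, by simp, t, t.2, rfl, ltW_prev w W t⟩
    | inr e =>
      obtain ⟨w', h1, t, h2, h3, h4⟩ := ih e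
      refine ⟨w', by simp [h1], t, h2, h3, ?_⟩
      rw [← h4]
      exact ltW_prev_inr w W e

theorem exists_El (y : ℕ) (W : List (List ℕ)) (w : List ℕ) (hw : w ∈ W) (t : ℕ)
    (ht : t < w.length) : ∃ e : El W, keyW y W e = key y w t ∧
      ltW W ((nxW W).symm e) = pv w t := by
  induction W with
  | nil => simp at hw
  | cons v W ih =>
    rw [List.mem_cons] at hw
    rcases hw with rfl | hw
    · exact ⟨Sum.inl ⟨t, ht⟩, rfl, ltW_prev w W ⟨t, ht⟩⟩
    · obtain ⟨e, h1, h2⟩ := ih hw
      refine ⟨Sum.inr e, h1, ?_⟩
      rw [← h2]
      exact ltW_prev_inr v W e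

theorem ltW_ne_of_tie (y : ℕ) (W : List (List ℕ)) (hW : ∀ w ∈ W, OkW y w)
    (hd : W.Pairwise fun a b => a.length ≠ b.length) (e f : El W) (h : keyW y W e = keyW y W f)
    (hne : e ≠ f) : ltW W e ≠ y := by
  induction W with
  | nil => exact e.elim0
  | cons w W ih =>
    rw [List.pairwise_cons] at hd
    have hw := hW w (by simp)
    have cross : ∀ (t : Fin w.length) (g : El W), key y w t ≠ keyW y W g := by
      intro t g
      obtain ⟨w', h1, t', h2, h3⟩ := El_word y W g
      rw [h3]
      exact key_ne_of_length_ne y w w' hw (hW w' (by simp [h1])) (hd.1 w' h1) t t'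
    cases e with
    | inl t =>
      cases f with
      | inl t' =>
        have hk : key y w t = key y w t' := h
        rcases hw.2 with hp | ⟨m, hmy, hm⟩
        · exfalso
          apply hne
          have := key_inj_prim y w hp t t' t.2 t'.2 hk
          rw [Fin.ext this]
        · show lt w t ≠ y
          have h1 : lt w t = m := by
            have ht := t.2
            have h2 : w.length = 2 := by rw [hm]; rfl
            have h3 : (t : ℕ) < 2 := by omega
            have h4 : ∀ i < 2, lt w i = m := by
              intro i hi
              rw [hm]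
              interval_cases i <;> rfl
            exact h4 t h3
          omega
      | inr g => exact absurd h (cross t g)
    | inr e =>
      cases f with
      | inl t' => exact absurd h.symm (cross t' e)
      | inr f =>
        exact ih (fun v hv => hW v (by simp [hv])) hd.2 e f h (fun h1 => hne (by rw [h1]))

/-- **The main criterion.** -/
theorem real_words (y : ℕ) (W : List (List ℕ)) (hM : ∀ w ∈ W, ∀ x ∈ w, x ≤ y)
    (hW : ∀ w ∈ W, OkW y w) (hd : W.Pairwise fun a b => a.length ≠ b.length)
    (hD : ∀ (m ρ : ℕ) (κ : Lex (ℕ → ℤ)), m + 1 < y → ρ ≤ y → ofLex κ 0 = (ρ : ℤ) →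
      0 ≤ (W.map fun w => D y w m κ).sum)
    (hA : y = 0 ∨ ∀ w ∈ W, ∀ t < w.length, pv w t = y →
      ∃ w' ∈ W, ∃ t' < w'.length, key y w' t' ≤ key y w t ∧ pv w' t' + 1 = y) :
    Real ((W.map List.length : List ℕ) : Multiset ℕ)
      (((List.range y).map fun m => (W.map fun w => w.count m).sum) ++
        List.replicate (W.map fun w => w.count y).sum 1) := by
  classical
  have hlen : ∀ w ∈ W, 2 ≤ w.length := fun w hw => (hW w hw).1
  obtain ⟨n, pos, hpos⟩ := exists_pos y W
  have htie := keyW_tie y W hW hd
  -- equal keys are neighbours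
  have hnb : ∀ e f, keyW y W e = keyW y W f → pos e < pos f →
      f = nxW W e ∧ e = nxW W f ∧ (pos f : ℕ) = pos e + 1 := by
    intro e f hk hlt
    rcases htie e f hk with h1 | ⟨h1, h2⟩
    · rw [h1] at hlt
      exact absurd hlt (lt_irrefl _)
    · refine ⟨h1, h2, ?_⟩
      by_contra hcon
      have h3 : (pos e : ℕ) + 1 < pos f := by
        have : (pos e : ℕ) < pos f := hlt
        omega
      have h3' : (pos e : ℕ) + 1 < n := lt_trans h3 (pos f).2
      set g := pos.symm ⟨(pos e : ℕ) + 1, h3'⟩ with hg
      have hpg : (pos g : ℕ) = pos e + 1 := by rw [hg, Equiv.apply_symm_apply]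
      have h4 : pos e < pos g := by
        rw [Fin.lt_def]
        omega
      have h5 : pos g < pos f := by
        rw [Fin.lt_def]
        omega
      have h6 : keyW y W e = keyW y W g :=
        le_antisymm (hpos e g h4) (hk ▸ hpos g f h5)
      rcases htie e g h6 with h7 | ⟨h7, -⟩
      · rw [← h7] at h4
        exact absurd h4 (lt_irrefl _)
      · rw [h7, ← h1] at h5
        exact absurd h5 (lt_irrefl _)
  -- the sum over an initial segment
  set P : ℕ → Finset (El W) := fun k => univ.filter fun e => (pos e : ℕ) < k with hP
  have hmemP : ∀ k e, e ∈ P k ↔ (pos e : ℕ) < k := by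
    intro k e
    rw [hP]
    simp
  have hclosed : ∀ k m, m + 1 < y → (∀ e f, (pos e : ℕ) < k → k ≤ pos f → keyW y W e < keyW y W f) →
      0 ≤ ∑ e ∈ P k, ctb W m e := by
    intro k m hmy hc
    rcases (P k).eq_empty_or_nonempty with h0 | h0
    · rw [h0, sum_empty]
    · obtain ⟨e0, he0, hmax⟩ := exists_max_image (P k) (keyW y W) h0
      rw [hmemP] at he0
      have h1 : P k = univ.filter fun e => keyW y W e ≤ keyW y W e0 := by
        ext e
        rw [hmemP, mem_filter]
        constructor
        · intro he
          exact ⟨mem_univ _, hmax e ((hmemP k e).2 he)⟩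
        · rintro ⟨-, he⟩
          by_contra hcon
          exact absurd he (not_le.2 (hc e0 e he0 (not_lt.1 hcon)))
      rw [h1, sum_filter, sum_ctb]
      exact hD m (ltW W e0) _ hmy (ltW_le W y hM e0) (keyW_zero y W e0)
  have hstep : ∀ k m (hk : k < n), ∑ e ∈ P (k + 1), ctb W m e =
      ∑ e ∈ P k, ctb W m e + ctb W m (pos.symm ⟨k, hk⟩) := by
    intro k m hk
    have h1 : P (k + 1) = insert (pos.symm ⟨k, hk⟩) (P k) := by
      ext e
      rw [mem_insert, hmemP, hmemP, Equiv.eq_symm_apply, Fin.ext_iff]
      simp only
      omega
    rw [h1, sum_insert, add_comm]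
    rw [hmemP, Equiv.apply_symm_apply]
    simp
  have hall : ∀ k m, m + 1 < y → 0 ≤ ∑ e ∈ P k, ctb W m e := by
    intro k m hmy
    by_cases hc : ∀ e f, (pos e : ℕ) < k → k ≤ pos f → keyW y W e < keyW y W f
    · exact hclosed k m hmy hc
    · push Not at hc
      obtain ⟨e, f, he, hf, hle⟩ := hc
      have hlt : pos e < pos f := by
        rw [Fin.lt_def]
        omega
      have hk : keyW y W e = keyW y W f := le_antisymm (hpos e f hlt) (not_lt.1 hle)
      obtain ⟨h1, h2, h3⟩ := hnb e f hk hlt
      have hke : k = pos e + 1 := by omega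
      have hkf : k = pos f := by omega
      have hen : (pos e : ℕ) < n := (pos e).2
      have hfn : (pos f : ℕ) < n := (pos f).2
      have hcl1 : 0 ≤ ∑ e ∈ P (pos e : ℕ), ctb W m e := by
        apply hclosed _ _ hmy
        intro e' f' he' hf'
        have hlt' : pos e' < pos f' := by
          rw [Fin.lt_def]
          omega
        refine lt_of_le_of_ne (hpos e' f' hlt') ?_
        intro hk'
        obtain ⟨g1, g2, g3⟩ := hnb e' f' hk' hlt'
        have h4 : f' = e := pos.injective (Fin.ext (by omega))
        rw [h4, ← h1] at g2
        rw [g2] at he'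
        omega
      have hcl2 : 0 ≤ ∑ e ∈ P ((pos f : ℕ) + 1), ctb W m e := by
        apply hclosed _ _ hmy
        intro e' f' he' hf'
        have hlt' : pos e' < pos f' := by
          rw [Fin.lt_def]
          omega
        refine lt_of_le_of_ne (hpos e' f' hlt') ?_
        intro hk'
        obtain ⟨g1, g2, g3⟩ := hnb e' f' hk' hlt'
        have h4 : e' = f := pos.injective (Fin.ext (by omega))
        rw [h4, ← h2] at g1
        rw [g1] at hf'
        omega
      have hs1 := hstep (pos e) m hen
      have hs2 := hstep (pos f) m hfn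
      have e1 : pos.symm ⟨(pos e : ℕ), hen⟩ = e := by
        rw [Equiv.symm_apply_eq]
      have e2 : pos.symm ⟨(pos f : ℕ), hfn⟩ = f := by
        rw [Equiv.symm_apply_eq]
      rw [e1, ← hke] at hs1
      rw [e2, ← hkf] at hs2
      rw [← hkf] at hcl2
      -- both contributions are equal
      have hcc : ctb W m e = ctb W m f := by
        have l1 : ltW W e = ltW W f := by
          have := keyW_zero y W e
          rw [hk, keyW_zero y W f] at this
          exact_mod_cast this.symm
        unfold ctb
        have l2 : (nxW W).symm e = f := by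
          rw [Equiv.symm_apply_eq]
          exact h2
        have l3 : (nxW W).symm f = e := by
          rw [Equiv.symm_apply_eq]
          exact h1
        rw [l2, l3, l1]
      rw [hcc] at hs1
      linarith
  have hcard : ∀ k m, ((univ.filter fun e => (pos e : ℕ) < k ∧
      ltW W ((nxW W).symm e) = m).card : ℤ) -
      ((univ.filter fun e => (pos e : ℕ) < k ∧ ltW W ((nxW W).symm e) = m + 1).card : ℤ) =
      ∑ e ∈ P k, ctb W m e := by
    intro k m
    have h1 : ∀ j, ((univ.filter fun e => (pos e : ℕ) < k ∧
        ltW W ((nxW W).symm e) = j).card : ℤ) =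
        ∑ e ∈ P k, if ltW W ((nxW W).symm e) = j then (1 : ℤ) else 0 := by
      intro j
      rw [← sum_filter, hP, filter_filter, sum_const, nsmul_eq_mul, mul_one]
    rw [h1, h1, ← sum_sub_distrib]
    rfl
  have htieA : ∀ e f : El W, keyW y W e = keyW y W f → e ≠ f → ltW W e ≠ y := by
    intro e f hk hne
    exact ltW_ne_of_tie y W hW hd e f hk hne
  have hAW : ∀ e : El W, ltW W ((nxW W).symm e) = y →
      (∀ w ∈ W, ∀ t < w.length, pv w t = y →
        ∃ w' ∈ W, ∃ t' < w'.length, key y w' t' ≤ key y w t ∧ pv w' t' + 1 = y) →
      ∃ f, keyW y W f ≤ keyW y W e ∧ ltW W ((nxW W).symm f) + 1 = y := by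
    intro e he hA
    obtain ⟨w, h1, t, h2, h3, h4⟩ := El_pv y W e
    obtain ⟨w', g1, t', g2, g3, g4⟩ := hA w h1 t h2 (by rw [← h4]; exact he)
    obtain ⟨f, f1, f2⟩ := exists_El y W w' g1 t' g2
    refine ⟨f, ?_, ?_⟩
    · rw [f1, h3]
      exact g3
    · rw [f2]
      exact g4
  -- neighbours in the enumeration
  have hlen' : ∀ e : El W, (pos e : ℕ) < n := fun e => (pos e).2
  have hreal := core2 (nxW W) (ltW W) y (ltW_le W y hM) n pos (by
    intro e f hl
    have h1 : keyW y W e < keyW y W f := by
      apply key_lt_of_zero
      rw [keyW_zero, keyW_zero]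
      exact_mod_cast hl
    by_contra hcon
    rcases lt_or_eq_of_le (not_lt.1 hcon) with h2 | h2
    · exact absurd (hpos f e h2) (not_le.2 h1)
    · have : f = e := pos.injective h2
      rw [this] at hl
      exact absurd hl (lt_irrefl _)) (by
    intro e f hl hly hlt
    have hle := hpos e f hlt
    rcases lt_or_eq_of_le hle with h1 | h1
    · have h2 : keyW y W (nxW W f) < keyW y W (nxW W e) := by
        rw [keyW_nx, keyW_nx]
        apply (lt_iff_shf y _ _ _ _).1 h1
        · rw [keyW_zero, keyW_zero, hl]
        · rw [keyW_zero]
          exact_mod_cast hly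
      by_contra hcon
      rcases lt_or_eq_of_le (not_lt.1 hcon) with h3 | h3
      · exact absurd (hpos _ _ h3) (not_le.2 h2)
      · have h4 : e = f := (nxW W).injective (pos.injective h3)
        rw [h4] at hlt
        exact absurd hlt (lt_irrefl _)
    · obtain ⟨h2, h3, -⟩ := hnb e f h1 hlt
      rw [← h2, ← h3]
      exact hlt) (by
    intro e f hle1 hlf1 hlt
    have hle := hpos e f hlt
    rcases lt_or_eq_of_le hle with h1 | h1
    · have h2 : keyW y W (nxW W e) < keyW y W (nxW W f) := by
        rw [keyW_nx, keyW_nx]
        apply (lt_iff_shf_inc y _ _ _ _).1 h1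
        · rw [keyW_zero, keyW_zero, hle1, hlf1]
        · rw [keyW_zero, hle1]
          exact lt_irrefl _
      by_contra hcon
      rcases lt_or_eq_of_le (not_lt.1 hcon) with h3 | h3
      · exact absurd (hpos _ _ h3) (not_le.2 h2)
      · have h4 : f = e := (nxW W).injective (pos.injective h3)
        rw [h4] at hlt
        exact absurd hlt (lt_irrefl _)
    · -- a tie has decreasing letters
      exfalso
      exact htieA e f h1 (fun h => by rw [h] at hlt; exact absurd hlt (lt_irrefl _)) hle1)
    (nxW_ne W hlen) (by
    intro k m hmy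
    have h1 := hall k m hmy
    rw [← hcard] at h1
    have h2 : ((univ.filter fun e => (pos e : ℕ) < k ∧
        ltW W ((nxW W).symm e) = m + 1).card : ℤ) ≤
      ((univ.filter fun e => (pos e : ℕ) < k ∧ ltW W ((nxW W).symm e) = m).card : ℤ) := by
      linarith
    exact_mod_cast h2) (by
    intro e he
    rcases hA with h0 | hA
    · exact Or.inl h0
    · right
      obtain ⟨f, hf1, hf2⟩ := hAW e he hA
      refine ⟨f, ?_, hf2⟩
      have hef : e ≠ f := by
        intro h
        rw [h] at he
        omega
      rcases lt_trichotomy (pos f) (pos e) with h1 | h1 | h1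
      · exact h1
      · exact absurd (pos.injective h1).symm hef
      · exfalso
        have h2 : keyW y W e = keyW y W f := le_antisymm (hpos e f h1) hf1
        have h3 : keyW y W ((nxW W).symm e) = keyW y W ((nxW W).symm f) := by
          rcases htie e f h2 with h4 | ⟨h4, h5⟩
          · exact absurd h4 hef
          · have g1 : (nxW W).symm e = f := by
              rw [Equiv.symm_apply_eq]
              exact h5
            have g2 : (nxW W).symm f = e := by
              rw [Equiv.symm_apply_eq]
              exact h4
            rw [g1, g2, h2]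
        have h4 : ltW W ((nxW W).symm e) = ltW W ((nxW W).symm f) := by
          have := keyW_zero y W ((nxW W).symm e)
          rw [h3, keyW_zero y W ((nxW W).symm f)] at this
          exact_mod_cast this.symm
        omega)
  rw [cycleType_nxW W hlen] at hreal
  have hc : (List.range y).map (fun m => (univ.filter fun e => ltW W e = m).card) =
      (List.range y).map fun m => (W.map fun w => w.count m).sum := by
    apply List.map_congr_left
    intro m _
    exact card_ltW W m
  rw [hc, card_ltW W y] at hreal
  exact hreal

end Pool.Agent.RST
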